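import Pool.Agent.GG.Row

/-!
# GG Kcpt: compactness, bounds of the lengths

PROOF.  `Polar` with `w = v`: `d/dt θ_k (x, (1 + t) v) = m_k θ_k (x, v) ≠ 0` for some `k` if `v ∉ ℂ x` (`no_common_zero`).  The set of the `(x, v)` with `x ∈ cone P`, `x_a = 1`, `|x_b| ≤ 1`, `v ∈ conTan P x`, `v_a = 0`, `‖v‖ = 1` is compact, and
`max_k |θ_k|` (continuous there: `= |A_(a,k)|`) is `≥ δ > 0` on it; so `|θ (x, v)| ≥ δ ‖v‖^(m_k)` for some `k`: `v` is bounded if `θ (x, v) ∈ C`.  Closed: all conditions are polynomial or closed.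
`wl_bounds`: by homogeneity (`scale`, `add_smul`) one may take `x_a = 1` the largest coordinate and `v_a = 0`; there `wl x v` and `‖v‖` are comparable (`N` fixed): `‖v‖ ≤ wl x v ≤ 2 ‖v‖` (sup norms, `‖x‖ = 1`).
-/

set_option autoImplicit false

open MvPolynomial Topology Filter Metric
open Pool.Agent.H13.SM (conTan cone)
open Pool.Agent.H62.FC (Homog)

namespace Pool.Agent.GG

variable {N : ℕ} {P : Ideal (MvPolynomial (Fin (N + 1)) ℂ)} {J : ℕ} {m : Fin J → ℕ} {θ : ∀ k, SymSec P (m k)}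

theorem no_common_zero (hθ : Polar θ) (hm : ∀ k, 1 ≤ m k) {x v : Fin (N + 1) → ℂ} (hx : x ∈ cone P) (hv : v ∈ conTan P x)
    (h : ∀ k, (θ k).toFun x v = 0) : v ∈ Submodule.span ℂ {x} := by
  by_contra hne
  obtain ⟨k, hk⟩ := hθ x hx v hv v hv hne hne
  apply hk
  have h1 : (fun t : ℂ => (θ k).toFun x (v + t • v)) = fun _ => 0 := by
    funext t
    have h2 : v + t • v = (1 + t) • v := by rw [add_smul, one_smul]
    rw [h2, (θ k).smul x hx v hv, h k, mul_zero]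
  rw [h1]
  simp

/-- the section `θ_k` in the chart `x_a = 1` is a polynomial -/
private theorem Kcpt_poly (θ : ∀ k, SymSec P (m k)) (a : Fin (N + 1)) :
    ∃ A : Fin J → MvPolynomial (Ph N) ℂ, ∀ k, ∀ x ∈ cone P, x a = 1 → ∀ v ∈ conTan P x,
      (θ k).toFun x v = eval (pt x v) (A k) := by
  choose e A hA using fun k => (θ k).regular a
  refine ⟨A, fun k x hx hxa v hv => ?_⟩
  have h1 := hA k x hx v hv
  rwa [hxa, one_pow, one_mul] at h1

/-- the closed conditions -/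
private def KcptSet (P : Ideal (MvPolynomial (Fin (N + 1)) ℂ)) (a : Fin (N + 1)) : Set (Ph N → ℂ) :=
  {y | y (Sum.inl a) = 1 ∧ y (Sum.inr a) = 0 ∧ (∀ b, ‖y (Sum.inl b)‖ ≤ 1) ∧
    (∀ Q ∈ P, eval (fun b => y (Sum.inl b)) Q = 0) ∧
    ∀ Q ∈ P, ∑ i, y (Sum.inr i) * eval (fun b => y (Sum.inl b)) (pderiv i Q) = 0}

private theorem Kcpt_cont (Q : MvPolynomial (Fin (N + 1)) ℂ) :
    Continuous fun y : Ph N → ℂ => eval (fun b => y (Sum.inl b)) Q :=
  (MvPolynomial.continuous_eval Q).comp (continuous_pi fun b => continuous_apply _)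

private theorem Kcpt_closed (a : Fin (N + 1)) : IsClosed (KcptSet P a) := by
  have h1 : IsClosed {y : Ph N → ℂ | y (Sum.inl a) = 1} := isClosed_eq (continuous_apply _) continuous_const
  have h2 : IsClosed {y : Ph N → ℂ | y (Sum.inr a) = 0} := isClosed_eq (continuous_apply _) continuous_const
  have h3 : IsClosed {y : Ph N → ℂ | ∀ b, ‖y (Sum.inl b)‖ ≤ 1} := by
    simp only [Set.ofPred_forall]
    exact isClosed_iInter fun b => isClosed_le (continuous_apply _).norm continuous_const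
  have h4 : IsClosed {y : Ph N → ℂ | ∀ Q ∈ P, eval (fun b => y (Sum.inl b)) Q = 0} := by
    simp only [Set.ofPred_forall]
    exact isClosed_iInter fun Q => isClosed_iInter fun _ => isClosed_eq (Kcpt_cont Q) continuous_const
  have h5 : IsClosed {y : Ph N → ℂ | ∀ Q ∈ P, ∑ i, y (Sum.inr i) * eval (fun b => y (Sum.inl b)) (pderiv i Q) = 0} := by
    simp only [Set.ofPred_forall]
    refine isClosed_iInter fun Q => isClosed_iInter fun _ => isClosed_eq ?_ continuous_const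
    exact continuous_finsetSum _ fun i _ => (continuous_apply _).mul (Kcpt_cont _)
  exact h1.inter (h2.inter (h3.inter (h4.inter h5)))

private theorem Kcpt_mem {a : Fin (N + 1)} {y : Ph N → ℂ} (hy : y ∈ KcptSet P a) :
    (fun b => y (Sum.inl b)) ∈ cone P ∧ (fun b => y (Sum.inr b)) ∈ conTan P (fun b => y (Sum.inl b)) := by
  obtain ⟨h1, h2, h3, h4, h5⟩ := hy
  refine ⟨⟨fun h0 => ?_, h4⟩, h5⟩
  have h6 := congrFun h0 a
  simp only [Pi.zero_apply] at h6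
  rw [h1] at h6
  exact one_ne_zero h6

private theorem Kcpt_pt (y : Ph N → ℂ) : pt (fun b => y (Sum.inl b)) (fun b => y (Sum.inr b)) = y := by
  funext s
  rcases s with b | b <;> rfl

private theorem Kcpt_eq (a : Fin (N + 1)) (C : Set (Fin J → ℂ)) {A : Fin J → MvPolynomial (Ph N) ℂ}
    (hA : ∀ k, ∀ x ∈ cone P, x a = 1 → ∀ v ∈ conTan P x, (θ k).toFun x v = eval (pt x v) (A k)) :
    Kset θ a C = KcptSet P a ∩ {y | (fun k => eval y (A k)) ∈ C} := by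
  ext y
  constructor
  · rintro ⟨x, v, c, rfl, ⟨hx, hxa, hv, hva, hc⟩, hb, hcC⟩
    refine ⟨⟨hxa, hva, hb, hx.2, hv⟩, ?_⟩
    have h1 : (fun k => eval (pt x v) (A k)) = c := by
      funext k
      rw [← hA k x hx hxa v hv, hc]
    change (fun k => eval (pt x v) (A k)) ∈ C
    rw [h1]
    exact hcC
  · rintro ⟨hy, hC⟩
    obtain ⟨h1, h2⟩ := Kcpt_mem hy
    refine ⟨fun b => y (Sum.inl b), fun b => y (Sum.inr b), fun k => eval y (A k), (Kcpt_pt y).symm,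
      ⟨h1, hy.1, h2, hy.2.1, fun k => ?_⟩, hy.2.2.1, hC⟩
    rw [hA k _ h1 hy.1 _ h2, Kcpt_pt]

/-- the norm of the vector part -/
private noncomputable def Kcpt_vn (y : Ph N → ℂ) : ℝ := ‖fun b : Fin (N + 1) => y (Sum.inr b)‖

private theorem Kcpt_vn_cont : Continuous (Kcpt_vn : (Ph N → ℂ) → ℝ) :=
  (continuous_pi fun b => continuous_apply (Sum.inr b)).norm

private theorem Kcpt_norm_le {y : Ph N → ℂ} {R : ℝ} (h1 : ∀ b, ‖y (Sum.inl b)‖ ≤ 1) (h2 : Kcpt_vn y ≤ R) :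
    ‖y‖ ≤ max 1 R := by
  rw [pi_norm_le_iff_of_nonneg (le_trans zero_le_one (le_max_left _ _))]
  rintro (b | b)
  · exact (h1 b).trans (le_max_left _ _)
  · exact ((norm_le_pi_norm (fun b : Fin (N + 1) => y (Sum.inr b)) b).trans h2).trans (le_max_right _ _)

private theorem Kcpt_span {a : Fin (N + 1)} {x v : Fin (N + 1) → ℂ} (hx : x a = 1) (hv : v a = 0)
    (h : v ∈ Submodule.span ℂ {x}) : v = 0 := by
  obtain ⟨c, rfl⟩ := Submodule.mem_span_singleton.1 h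
  rw [Pi.smul_apply, hx, smul_eq_mul, mul_one] at hv
  rw [hv, zero_smul]

theorem isCompact_Kset (hθ : Polar θ) (hm : ∀ k, 1 ≤ m k) (a : Fin (N + 1)) {C : Set (Fin J → ℂ)} (hC : IsCompact C) : IsCompact (Kset θ a C) := by
  obtain ⟨A, hA⟩ := Kcpt_poly θ a
  have hcl : IsClosed (Kset θ a C) := by
    rw [Kcpt_eq a C hA]
    refine (Kcpt_closed a).inter (hC.isClosed.preimage ?_)
    exact continuous_pi fun k => MvPolynomial.continuous_eval (A k)
  -- the unit vectors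
  have hS : IsCompact (KcptSet P a ∩ {y | Kcpt_vn y = 1}) := by
    refine Metric.isCompact_of_isClosed_isBounded ((Kcpt_closed a).inter (isClosed_eq Kcpt_vn_cont continuous_const)) ?_
    refine (isBounded_closedBall (x := (0 : Ph N → ℂ)) (r := max 1 1)).subset ?_
    rintro y ⟨h1, h2⟩
    rw [mem_closedBall_zero_iff]
    exact Kcpt_norm_le h1.2.2.1 (le_of_eq h2)
  obtain ⟨δ, hδ, hδ1⟩ : ∃ δ > 0, ∀ y ∈ KcptSet P a ∩ {y | Kcpt_vn y = 1}, δ ≤ ∑ k, ‖eval y (A k)‖ := by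
    rcases (KcptSet P a ∩ {y | Kcpt_vn y = 1}).eq_empty_or_nonempty with h0 | h0
    · exact ⟨1, one_pos, fun y hy => by rw [h0] at hy; exact hy.elim⟩
    · obtain ⟨y0, hy0, hmin⟩ := hS.exists_isMinOn h0 (f := fun y => ∑ k, ‖eval y (A k)‖)
        (continuous_finsetSum _ fun k _ => (MvPolynomial.continuous_eval (A k)).norm).continuousOn
      refine ⟨∑ k, ‖eval y0 (A k)‖, ?_, fun y hy => hmin hy⟩
      obtain ⟨h1, h2⟩ := hy0
      obtain ⟨h3, h4⟩ := Kcpt_mem h1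
      by_contra hneg
      have h5 : ∑ k, ‖eval y0 (A k)‖ = 0 := le_antisymm (not_lt.1 hneg) (Finset.sum_nonneg fun k _ => norm_nonneg _)
      have h6 : ∀ k, (θ k).toFun (fun b => y0 (Sum.inl b)) (fun b => y0 (Sum.inr b)) = 0 := by
        intro k
        rw [hA k _ h3 h1.1 _ h4, Kcpt_pt]
        exact norm_eq_zero.1 ((Finset.sum_eq_zero_iff_of_nonneg fun k _ => norm_nonneg _).1 h5 k (Finset.mem_univ k))
      have h7 := Kcpt_span h1.1 h1.2.1 (no_common_zero hθ hm h3 h4 h6)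
      have h8 : Kcpt_vn y0 = 0 := by
        unfold Kcpt_vn
        rw [h7, norm_zero]
      have h9 : Kcpt_vn y0 = 1 := h2
      rw [h8] at h9
      exact zero_ne_one h9
  obtain ⟨B, hB⟩ := hC.isBounded.exists_norm_le
  refine Metric.isCompact_of_isClosed_isBounded hcl ?_
  refine (isBounded_closedBall (x := (0 : Ph N → ℂ)) (r := max 1 (max 1 ((J : ℝ) * B / δ)))).subset ?_
  rintro y ⟨x, v, c, rfl, ⟨hx, hxa, hv, hva, hc⟩, hb, hcC⟩
  rw [mem_closedBall_zero_iff]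
  refine Kcpt_norm_le hb ?_
  have hvn : Kcpt_vn (pt x v) = ‖v‖ := rfl
  rw [hvn]
  rcases le_total ‖v‖ 1 with h1 | h1
  · exact h1.trans (le_max_left _ _)
  · refine le_trans ?_ (le_max_right _ _)
    have hpos : 0 < ‖v‖ := lt_of_lt_of_le one_pos h1
    have hvc : ((‖v‖⁻¹ : ℝ) : ℂ) • v ∈ conTan P x := (conTan P x).smul_mem _ hv
    have hn1 : ‖((‖v‖⁻¹ : ℝ) : ℂ) • v‖ = 1 := by
      rw [norm_smul, Complex.norm_real, norm_inv, norm_norm, inv_mul_cancel₀ hpos.ne']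
    have h2 := hδ1 (pt x (((‖v‖⁻¹ : ℝ) : ℂ) • v)) ⟨⟨hxa, by
      change (((‖v‖⁻¹ : ℝ) : ℂ) • v) a = 0
      rw [Pi.smul_apply, hva, smul_zero], hb, hx.2, hvc⟩, hn1⟩
    have h3 : ∀ k, ‖eval (pt x (((‖v‖⁻¹ : ℝ) : ℂ) • v)) (A k)‖ ≤ B * ‖v‖⁻¹ := by
      intro k
      rw [← hA k x hx hxa _ hvc, (θ k).smul x hx v hv, hc, norm_mul, norm_pow, Complex.norm_real, norm_inv, norm_norm]
      have h4 : ‖c k‖ ≤ B := (norm_le_pi_norm c k).trans (hB c hcC)
      have h5 : ‖v‖⁻¹ ^ m k ≤ ‖v‖⁻¹ := by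
        have h6 : ‖v‖⁻¹ ≤ 1 := inv_le_one_of_one_le₀ h1
        calc ‖v‖⁻¹ ^ m k ≤ ‖v‖⁻¹ ^ 1 := pow_le_pow_of_le_one (inv_nonneg.2 hpos.le) h6 (hm k)
          _ = ‖v‖⁻¹ := pow_one _
      calc ‖v‖⁻¹ ^ m k * ‖c k‖ ≤ ‖v‖⁻¹ * B := mul_le_mul h5 h4 (norm_nonneg _) (inv_nonneg.2 hpos.le)
        _ = B * ‖v‖⁻¹ := mul_comm _ _
    have h4 : δ ≤ (J : ℝ) * (B * ‖v‖⁻¹) := by
      refine h2.trans ((Finset.sum_le_sum fun k _ => h3 k).trans (le_of_eq ?_))
      rw [Finset.sum_const, Finset.card_univ, Fintype.card_fin, nsmul_eq_mul]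
    rw [le_div_iff₀ hδ]
    have h5 := mul_le_mul_of_nonneg_left h4 hpos.le
    have h6 : ‖v‖ * ((J : ℝ) * (B * ‖v‖⁻¹)) = (J : ℝ) * B := by
      field_simp
    rw [h6] at h5
    exact h5

theorem ne_zero_of_isTan (hm : ∀ k, 1 ≤ m k) {a : Fin (N + 1)} {c : Fin J → ℂ} {x v : Fin (N + 1) → ℂ} (h : IsTan θ a c x v) (hc : c ≠ 0) : v ≠ 0 := by
  rintro rfl
  apply hc
  obtain ⟨hx, hxa, hv, hva, h1⟩ := h
  funext k
  have h2 := (θ k).smul x hx 0 hv 0
  rw [zero_smul, zero_pow (by have := hm k; omega), zero_mul] at h2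
  rw [← h1 k, h2, Pi.zero_apply]

private theorem Kcpt_hg {d : ℕ} {Q : MvPolynomial (Fin (N + 1)) ℂ} (hQ : Q.IsHomogeneous d) (c : ℂ)
    (x : Fin (N + 1) → ℂ) : eval (c • x) Q = c ^ d * eval x Q := by
  rw [eval_eq', eval_eq', Finset.mul_sum]
  refine Finset.sum_congr rfl fun m hm => ?_
  have h1 : ∏ i, (c • x) i ^ m i = c ^ d * ∏ i, x i ^ m i := by
    simp only [Pi.smul_apply, smul_eq_mul, mul_pow, Finset.prod_mul_distrib]
    rw [Finset.prod_pow_eq_pow_sum]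
    have h2 := hQ (mem_support_iff.1 hm)
    rw [Finsupp.weight_apply, Finsupp.sum_fintype _ _ (by simp)] at h2
    simp only [Pi.one_apply, smul_eq_mul, mul_one] at h2
    rw [h2]
  rw [h1]
  ring

private theorem Kcpt_le (hP : Homog P) {c : ℂ} (x : Fin (N + 1) → ℂ) : conTan P x ≤ conTan P (c • x) := by
  intro v hv Q hQ
  have h1 : ∀ d, ∑ i, v i * eval (c • x) (pderiv i (homogeneousComponent d Q)) = 0 := by
    intro d
    have h2 := hv _ (hP Q hQ d)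
    have h3 : ∀ i, eval (c • x) (pderiv i (homogeneousComponent d Q)) =
        c ^ (d - 1) * eval x (pderiv i (homogeneousComponent d Q)) := fun i =>
      Kcpt_hg ((homogeneousComponent_isHomogeneous d Q).pderiv) c x
    have h4 : ∑ i, v i * eval (c • x) (pderiv i (homogeneousComponent d Q)) =
        c ^ (d - 1) * ∑ i, v i * eval x (pderiv i (homogeneousComponent d Q)) := by
      rw [Finset.mul_sum]
      refine Finset.sum_congr rfl fun i _ => ?_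
      rw [h3]
      ring
    rw [h4, h2, mul_zero]
  have h5 : ∀ i, eval (c • x) (pderiv i Q) = ∑ d ∈ Finset.range (Q.totalDegree + 1),
      eval (c • x) (pderiv i (homogeneousComponent d Q)) := by
    intro i
    conv_lhs => rw [← sum_homogeneousComponent Q]
    rw [map_sum, map_sum]
  simp only [h5, Finset.mul_sum]
  rw [Finset.sum_comm]
  exact Finset.sum_eq_zero fun d _ => h1 d

/-- the normal form of a tangent vector: `x_a = 1` is the largest coordinate, `v_a = 0` -/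
private theorem Kcpt_norm (hP : Homog P) {c₀ : Fin J → ℂ} {x : Fin (N + 1) → ℂ} (hx : x ∈ cone P) {v : Fin (N + 1) → ℂ}
    (hv : v ∈ conTan P x) (hc : ∀ k, (θ k).toFun x v = c₀ k) :
    ∃ (a : Fin (N + 1)) (y : Ph N → ℂ), y ∈ Kset θ a {c₀} ∧ Kcpt_vn y ≤ wl x v ∧ wl x v ≤ 2 * Kcpt_vn y := by
  obtain ⟨a, -, ha⟩ := Finset.exists_max_image Finset.univ (fun b => ‖x b‖) ⟨0, Finset.mem_univ _⟩
  have hxn : ‖x‖ = ‖x a‖ := le_antisymm ((pi_norm_le_iff_of_nonneg (norm_nonneg _)).2 fun b => ha b (Finset.mem_univ b))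
    (norm_le_pi_norm x a)
  have hpos : 0 < ‖x‖ := norm_pos_iff.2 hx.1
  have hxa : x a ≠ 0 := by
    rw [← norm_pos_iff, ← hxn]
    exact hpos
  obtain ⟨x', hx'⟩ : ∃ x' : Fin (N + 1) → ℂ, x' = (x a)⁻¹ • x := ⟨_, rfl⟩
  obtain ⟨v', hv'⟩ : ∃ v' : Fin (N + 1) → ℂ, v' = (x a)⁻¹ • v + (-((x a)⁻¹ * v a)) • x' := ⟨_, rfl⟩
  have hx'a : x' a = 1 := by rw [hx', Pi.smul_apply, smul_eq_mul, inv_mul_cancel₀ hxa]
  have hx'c : x' ∈ cone P := by
    refine ⟨fun h0 => ?_, ?_⟩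
    · rw [h0, Pi.zero_apply] at hx'a
      exact zero_ne_one hx'a
    · rw [hx']
      exact Pool.Agent.H13.SM.cone_smul hP hx.2 _
  have hself : x' ∈ conTan P x' := fun Q hQ => Pool.Agent.H13.SM.euler hP hx'c.2 hQ
  have hv1 : (x a)⁻¹ • v ∈ conTan P x' := by
    rw [hx']
    exact (conTan P _).smul_mem _ (Kcpt_le hP x hv)
  have hv'c : v' ∈ conTan P x' := by
    rw [hv']
    exact (conTan P x').add_mem hv1 ((conTan P x').smul_mem _ hself)
  have hv'a : v' a = 0 := by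
    rw [hv', Pi.add_apply, Pi.smul_apply, Pi.smul_apply, hx'a, smul_eq_mul, smul_eq_mul, mul_one]
    ring
  have hx'b : ∀ b, ‖x' b‖ ≤ 1 := by
    intro b
    rw [hx', Pi.smul_apply, norm_smul, norm_inv, ← hxn]
    rw [inv_mul_le_iff₀ hpos, mul_one]
    exact norm_le_pi_norm x b
  have hθ' : ∀ k, (θ k).toFun x' v' = c₀ k := by
    intro k
    rw [hv', (θ k).add_smul x' hx'c _ hv1, hx', (θ k).scale x hx v hv _ (inv_ne_zero hxa), hc]
  have hxe : ∀ p, x p = x a * x' p := by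
    intro p
    rw [hx', Pi.smul_apply, smul_eq_mul, mul_inv_cancel_left₀ hxa]
  have hve : ∀ p, v p = x a * v' p + v a * x' p := by
    intro p
    have h1 : v' p = (x a)⁻¹ * v p + (-((x a)⁻¹ * v a)) * x' p := by
      rw [hv']
      simp only [Pi.add_apply, Pi.smul_apply, smul_eq_mul]
    rw [h1]
    field_simp
    ring
  have hcr : ∀ p q, x p * v q - x q * v p = x a ^ 2 * (x' p * v' q - x' q * v' p) := by
    intro p q
    rw [hxe p, hxe q, hve p, hve q]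
    ring
  have hwl : wl x v = ‖fun p : Fin (N + 1) × Fin (N + 1) => x' p.1 * v' p.2 - x' p.2 * v' p.1‖ := by
    unfold wl
    have h1 : (fun p : Fin (N + 1) × Fin (N + 1) => x p.1 * v p.2 - x p.2 * v p.1) =
        (x a ^ 2) • fun p : Fin (N + 1) × Fin (N + 1) => x' p.1 * v' p.2 - x' p.2 * v' p.1 := by
      funext p
      rw [hcr, Pi.smul_apply, smul_eq_mul]
    rw [h1, norm_smul, norm_pow, ← hxn]
    rw [mul_div_assoc, mul_comm, div_mul_cancel₀]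
    exact pow_ne_zero _ hpos.ne'
  refine ⟨a, pt x' v', ⟨x', v', c₀, rfl, ⟨hx'c, hx'a, hv'c, hv'a, hθ'⟩, hx'b, rfl⟩, ?_, ?_⟩
  · change ‖v'‖ ≤ _
    rw [hwl, pi_norm_le_iff_of_nonneg (norm_nonneg _)]
    intro q
    have h1 := norm_le_pi_norm (fun p : Fin (N + 1) × Fin (N + 1) => x' p.1 * v' p.2 - x' p.2 * v' p.1) (a, q)
    simp only [hx'a, hv'a, one_mul, mul_zero, sub_zero] at h1
    exact h1
  · change _ ≤ 2 * ‖v'‖
    rw [hwl, pi_norm_le_iff_of_nonneg (by positivity)]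
    rintro ⟨p, q⟩
    calc ‖x' p * v' q - x' q * v' p‖ ≤ ‖x' p * v' q‖ + ‖x' q * v' p‖ := norm_sub_le _ _
      _ ≤ 1 * ‖v'‖ + 1 * ‖v'‖ := by
          rw [norm_mul, norm_mul]
          exact add_le_add (mul_le_mul (hx'b p) (norm_le_pi_norm v' q) (norm_nonneg _) zero_le_one)
            (mul_le_mul (hx'b q) (norm_le_pi_norm v' p) (norm_nonneg _) zero_le_one)
      _ = 2 * ‖v'‖ := by ring

theorem wl_bounds (hP : Homog P) (hθ : Polar θ) (hm : ∀ k, 1 ≤ m k) {c₀ : Fin J → ℂ} (hc : c₀ ≠ 0) :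
    ∃ c₁ > 0, ∃ C₁ : ℝ, ∀ x ∈ cone P, ∀ v ∈ conTan P x, (∀ k, (θ k).toFun x v = c₀ k) → c₁ ≤ wl x v ∧ wl x v ≤ C₁ := by
  have hK : IsCompact (⋃ a, Kset θ a {c₀}) := isCompact_iUnion fun a => isCompact_Kset hθ hm a isCompact_singleton
  have hpos : ∀ y ∈ ⋃ a, Kset θ a {c₀}, 0 < Kcpt_vn y := by
    intro y hy
    obtain ⟨a, x, v, c, rfl, h1, h2, h3⟩ := Set.mem_iUnion.1 hy
    have h4 : c ≠ 0 := by
      rw [Set.mem_singleton_iff.1 h3]
      exact hc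
    exact norm_pos_iff.2 (ne_zero_of_isTan hm h1 h4)
  obtain ⟨c₁, hc₁, h1⟩ : ∃ c₁ > 0, ∀ y ∈ ⋃ a, Kset θ a {c₀}, c₁ ≤ Kcpt_vn y := by
    rcases (⋃ a, Kset θ a {c₀}).eq_empty_or_nonempty with h0 | h0
    · exact ⟨1, one_pos, fun y hy => by rw [h0] at hy; exact hy.elim⟩
    · obtain ⟨y0, hy0, hmin⟩ := hK.exists_isMinOn h0 Kcpt_vn_cont.continuousOn
      exact ⟨Kcpt_vn y0, hpos y0 hy0, fun y hy => hmin hy⟩
  obtain ⟨C₁, h2⟩ : ∃ C₁, ∀ y ∈ ⋃ a, Kset θ a {c₀}, Kcpt_vn y ≤ C₁ := by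
    obtain ⟨C₁, hC₁⟩ := hK.exists_bound_of_continuousOn Kcpt_vn_cont.continuousOn
    exact ⟨C₁, fun y hy => (le_abs_self _).trans (hC₁ y hy)⟩
  refine ⟨c₁, hc₁, 2 * C₁, fun x hx v hv h => ?_⟩
  obtain ⟨a, y, hy, h3, h4⟩ := Kcpt_norm hP hx hv h
  have hy' : y ∈ ⋃ a, Kset θ a {c₀} := Set.mem_iUnion.2 ⟨a, hy⟩
  exact ⟨(h1 y hy').trans h3, h4.trans (mul_le_mul_of_nonneg_left (h2 y hy') zero_le_two)⟩

end Pool.Agent.GG
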