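import Pool.Agent.GG.Defs
import Pool.Agent.AD.G.Spec

/-!
# GG Bd: the bound for a section of `K^M (-1)`

PROOF.  Both sides are invariant under `(x, v) ↦ (c x, c v)` (`scale`), `v_j ↦ v_j + a_j x` (`add_smul`; `wl` is invariant), and homogeneous of degree `M` in each `v_j` (`det` for diagonal matrices).  Take `a` with `|x_a|` maximal, `x_a = 1` (so `‖x‖ = 1`),
`v_j a = 0`, then `wl x (v j) ≥ ‖v j‖`; if some `v j = 0` the left side is `0`; otherwise `‖v j‖ = 1`, and the left side is `|A (x, v)| ≤ C` (`regular` at `a`, a polynomial on a bounded set), the right side is `≥ C`.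
-/

set_option autoImplicit false

open MvPolynomial Topology Filter Metric
open Pool.Agent.H13.SM (conTan cone)
open Pool.Agent.H62.FC (Homog)

namespace Pool.Agent.GG

variable {N : ℕ} {P : Ideal (MvPolynomial (Fin (N + 1)) ℂ)}

theorem wl_smul {x v : Fin (N + 1) → ℂ} {c : ℂ} (hc : c ≠ 0) : wl (c • x) (c • v) = wl x v := by
  have h1 : (fun p : Fin (N + 1) × Fin (N + 1) => (c • x) p.1 * (c • v) p.2 - (c • x) p.2 * (c • v) p.1) =
      (c ^ 2) • fun p : Fin (N + 1) × Fin (N + 1) => x p.1 * v p.2 - x p.2 * v p.1 := by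
    funext p
    simp only [Pi.smul_apply, smul_eq_mul]
    ring
  have h2 : ‖c‖ ^ 2 ≠ 0 := pow_ne_zero _ (norm_ne_zero_iff.2 hc)
  rw [wl, wl, h1, norm_smul, norm_smul, norm_pow, mul_pow, mul_div_mul_left _ _ h2]

theorem wl_add_smul (x v : Fin (N + 1) → ℂ) (a : ℂ) : wl x (v + a • x) = wl x v := by
  have h1 : (fun p : Fin (N + 1) × Fin (N + 1) => x p.1 * (v + a • x) p.2 - x p.2 * (v + a • x) p.1) =
      fun p : Fin (N + 1) × Fin (N + 1) => x p.1 * v p.2 - x p.2 * v p.1 := by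
    funext p
    simp only [Pi.add_apply, Pi.smul_apply, smul_eq_mul]
    ring
  rw [wl, wl, h1]

theorem wl_smul_right (x v : Fin (N + 1) → ℂ) (c : ℂ) : wl x (c • v) = ‖c‖ * wl x v := by
  have h1 : (fun p : Fin (N + 1) × Fin (N + 1) => x p.1 * (c • v) p.2 - x p.2 * (c • v) p.1) =
      c • fun p : Fin (N + 1) × Fin (N + 1) => x p.1 * v p.2 - x p.2 * v p.1 := by
    funext p
    simp only [Pi.smul_apply, smul_eq_mul]
    ring
  rw [wl, wl, h1, norm_smul, mul_div_assoc]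

theorem wl_nonneg (x v : Fin (N + 1) → ℂ) : 0 ≤ wl x v := div_nonneg (norm_nonneg _) (by positivity)

/-- If `x a = 1`, `‖x‖ = 1` and `v a = 0`, then `‖v‖ ≤ wl x v`. -/
private theorem norm_le_wl {x v : Fin (N + 1) → ℂ} {a : Fin (N + 1)} (hx : ‖x‖ = 1) (hxa : x a = 1) (hva : v a = 0) : ‖v‖ ≤ wl x v := by
  rw [wl, hx, one_pow, div_one]
  refine (pi_norm_le_iff_of_nonneg (norm_nonneg _)).2 fun b => ?_
  have h1 := norm_le_pi_norm (fun p : Fin (N + 1) × Fin (N + 1) => x p.1 * v p.2 - x p.2 * v p.1) (a, b)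
  simp only [hxa, hva, one_mul, mul_zero, sub_zero] at h1
  exact h1

/-- a polynomial is bounded on the unit ball -/
private theorem eval_bound {σ : Type} [Fintype σ] (A : MvPolynomial σ ℂ) : ∃ C : ℝ, 0 ≤ C ∧ ∀ y : σ → ℂ, ‖y‖ ≤ 1 → ‖eval y A‖ ≤ C := by
  obtain ⟨C, hC⟩ := (isCompact_closedBall (0 : σ → ℂ) 1).exists_bound_of_continuousOn (f := fun y => eval y A) (MvPolynomial.continuous_eval A).continuousOn
  refine ⟨max C 0, le_max_right _ _, fun y hy => (hC y ?_).trans (le_max_left _ _)⟩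
  simpa using hy

theorem can_bound (hP : Homog P) {n M : ℕ} (hM : 1 ≤ M) (Ω : CanSec P n M) : ∃ C : ℝ, ∀ x ∈ cone P, ∀ v : Fin n → Fin (N + 1) → ℂ, (∀ j, v j ∈ conTan P x) →
    ‖Ω.toFun x v‖ * ‖x‖ ≤ C * ∏ j, wl x (v j) ^ M := by
  classical
  choose e A hA using Ω.regular
  choose C hC0 hC using fun a => eval_bound (A a)
  refine ⟨∑ a, C a, fun x hx v hv => ?_⟩
  -- the coordinate of maximal absolute value
  obtain ⟨a, ha⟩ : ∃ a, ‖x a‖ = ‖x‖ := by
    obtain ⟨a, -, ha⟩ := Finset.exists_max_image (Finset.univ : Finset (Fin (N + 1))) (fun a => ‖x a‖) Finset.univ_nonempty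
    refine ⟨a, le_antisymm (norm_le_pi_norm x a) ?_⟩
    exact (pi_norm_le_iff_of_nonneg (norm_nonneg _)).2 fun b => ha b (Finset.mem_univ _)
  have hxn : ‖x‖ ≠ 0 := norm_ne_zero_iff.2 hx.1
  have hxa : x a ≠ 0 := norm_ne_zero_iff.1 (by rw [ha]; exact hxn)
  obtain ⟨c, hc⟩ : ∃ c : ℂ, c = (x a)⁻¹ := ⟨_, rfl⟩
  have hc0 : c ≠ 0 := by rw [hc]; exact inv_ne_zero hxa
  have hcn : ‖c‖ * ‖x‖ = 1 := by rw [hc, norm_inv, ha, inv_mul_cancel₀ hxn]
  obtain ⟨x', hx'⟩ : ∃ x' : Fin (N + 1) → ℂ, x' = c • x := ⟨_, rfl⟩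
  have hx'n : ‖x'‖ = 1 := by rw [hx', norm_smul, hcn]
  have hx'a : x' a = 1 := by rw [hx', Pi.smul_apply, smul_eq_mul, hc, inv_mul_cancel₀ hxa]
  have hx'c : x' ∈ cone P := by rw [hx']; exact Pool.Agent.AD.G.cone_smulC hP hx hc0
  have hx't : x' ∈ conTan P x' := Pool.Agent.AD.G.self_mem_conTan hP hx'c
  have hcv : ∀ j, c • v j ∈ conTan P x' := fun j => by rw [hx']; exact Pool.Agent.AD.G.conTan_smulC hP (hv j) c
  obtain ⟨v', hv'⟩ : ∃ v' : Fin n → Fin (N + 1) → ℂ, v' = fun j => c • v j + (-((c • v j) a)) • x' := ⟨_, rfl⟩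
  have hv'j : ∀ j, v' j = c • v j + (-((c • v j) a)) • x' := fun j => by rw [hv']
  have hv't : ∀ j, v' j ∈ conTan P x' := fun j => by
    rw [hv'j]
    exact (conTan P x').add_mem (hcv j) ((conTan P x').smul_mem _ hx't)
  have hv'a : ∀ j, v' j a = 0 := fun j => by
    rw [hv'j, Pi.add_apply, Pi.smul_apply (-((c • v j) a)) x', hx'a, smul_eq_mul, mul_one, add_neg_cancel]
  -- the two sides for `(x', v')`
  have h1 : ‖Ω.toFun x v‖ * ‖x‖ = ‖Ω.toFun x' v'‖ := by
    rw [hv', Ω.add_smul x' hx'c (fun j => c • v j) hcv, ← Ω.scale x hx v hv c hc0, norm_mul, hx', mul_comm ‖c‖, mul_assoc, hcn, mul_one]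
  have h2 : ∀ j, wl x (v j) = wl x' (v' j) := fun j => by
    rw [hv'j, wl_add_smul, hx', wl_smul hc0]
  have h3 : ∀ j, ‖v' j‖ ≤ wl x' (v' j) := fun j => norm_le_wl hx'n hx'a (hv'a j)
  rw [h1]
  simp only [h2]
  have hS0 : 0 ≤ ∑ a, C a := Finset.sum_nonneg fun a _ => hC0 a
  have hR0 : 0 ≤ (∑ a, C a) * ∏ j, wl x' (v' j) ^ M :=
    mul_nonneg hS0 (Finset.prod_nonneg fun j _ => pow_nonneg (wl_nonneg _ _) _)
  by_cases h0 : ∃ j, v' j = 0
  · obtain ⟨j, hj⟩ := h0
    have h4 := Ω.det x' hx'c v' hv't (Matrix.diagonal fun i => if i = j then 0 else 1)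
    have h5 : (fun i => ∑ k, (Matrix.diagonal fun i => if i = j then (0 : ℂ) else 1) i k • v' k) = v' := by
      funext i
      rw [Finset.sum_eq_single i]
      · rw [Matrix.diagonal_apply_eq]
        by_cases hij : i = j
        · rw [hij, hj, smul_zero]
        · rw [if_neg hij, one_smul]
      · intro k _ hk
        rw [Matrix.diagonal_apply_ne' _ hk, zero_smul]
      · intro h
        exact absurd (Finset.mem_univ _) h
    have h6 : (Matrix.diagonal fun i => if i = j then (0 : ℂ) else 1).det = 0 := by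
      rw [Matrix.det_diagonal]
      exact Finset.prod_eq_zero (Finset.mem_univ j) (if_pos rfl)
    rw [h5, h6, zero_pow (by omega), zero_mul] at h4
    rw [h4, norm_zero]
    exact hR0
  · push Not at h0
    have hn0 : ∀ j, ‖v' j‖ ≠ 0 := fun j => norm_ne_zero_iff.2 (h0 j)
    obtain ⟨u, hu⟩ : ∃ u : Fin n → Fin (N + 1) → ℂ, u = fun j => ((‖v' j‖⁻¹ : ℝ) : ℂ) • v' j := ⟨_, rfl⟩
    have huj : ∀ j, u j = ((‖v' j‖⁻¹ : ℝ) : ℂ) • v' j := fun j => by rw [hu]
    have hun : ∀ j, ‖u j‖ = 1 := fun j => by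
      rw [huj, norm_smul, Complex.norm_real, norm_inv, norm_norm, inv_mul_cancel₀ (hn0 j)]
    have hut : ∀ j, u j ∈ conTan P x' := fun j => by
      rw [huj]
      exact (conTan P x').smul_mem _ (hv't j)
    have h4 := Ω.det x' hx'c u hut (Matrix.diagonal fun j => ((‖v' j‖ : ℝ) : ℂ))
    have h5 : (fun i => ∑ k, (Matrix.diagonal fun j => ((‖v' j‖ : ℝ) : ℂ)) i k • u k) = v' := by
      funext i
      rw [Finset.sum_eq_single i]
      · rw [Matrix.diagonal_apply_eq, huj, smul_smul, ← Complex.ofReal_mul, mul_inv_cancel₀ (hn0 i), Complex.ofReal_one, one_smul]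
      · intro k _ hk
        rw [Matrix.diagonal_apply_ne' _ hk, zero_smul]
      · intro h
        exact absurd (Finset.mem_univ _) h
    rw [h5, Matrix.det_diagonal] at h4
    have h6 : ‖Ω.toFun x' u‖ ≤ C a := by
      have h7 := hA a x' hx'c u hut
      rw [hx'a, one_pow, one_mul] at h7
      rw [h7]
      refine hC a _ ?_
      refine (pi_norm_le_iff_of_nonneg zero_le_one).2 fun s => ?_
      rcases s with b | p
      · exact (norm_le_pi_norm x' b).trans hx'n.le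
      · exact (norm_le_pi_norm (u p.1) p.2).trans (hun p.1).le
    rw [h4, norm_mul, norm_pow, norm_prod]
    simp only [Complex.norm_real, norm_norm]
    rw [← Finset.prod_pow, mul_comm]
    refine mul_le_mul (h6.trans (Finset.single_le_sum (fun a _ => hC0 a) (Finset.mem_univ a))) ?_ (Finset.prod_nonneg fun j _ => pow_nonneg (norm_nonneg _) _) hS0
    exact Finset.prod_le_prod (fun j _ => pow_nonneg (norm_nonneg _) _) fun j _ => pow_le_pow_left₀ (norm_nonneg _) (h3 j) _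

end Pool.Agent.GG
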