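import Pool.Agent.GG.Defs

/-!
# GG Chart: arcs in `X` and in the charts `x_a = 1`

PROOFS.  `arcV_of_nArc`: the derivatives of `Q_j (x) = 0`, `x_a = 1` (near `z`) give `dQ_j v = 0`, `v_a = 0`; `A_(a,k) (x, v) = θ_k (x, v) = c_k`.  `nArc_of_const`: read the values of `gfam` at `(x₀, v₀)`: `x_a = 1`, `Q_j = 0`, so `x w ∈ cone P`
(`Ideal.span`), `x' w ∈ conTan P (x w)` (values of `dQ_j v`, or the derivative of `Q (x) = 0`), `θ_k = A_(a,k) = c_k`.  `exists_nArc`: divide a local lift `F` by a coordinate `F_a` of the largest modulus at `z`; `add_smul` and `scale` show that `θ_k` does not change.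
-/

set_option autoImplicit false

open MvPolynomial Topology Filter Metric
open Pool.Agent.H13.SM (conTan cone)
open Pool.Agent.H17 (PN)
open Pool.Agent.H62.FC (Homog)

namespace Pool.Agent.GG

variable {N : ℕ} {P : Ideal (MvPolynomial (Fin (N + 1)) ℂ)} {J : ℕ} {m : Fin J → ℕ} {θ : ∀ k, SymSec P (m k)} {a : Fin (N + 1)} {c : Fin J → ℂ}

/-- chain rule for polynomials -/
theorem Chart_hasDerivAt {σ : Type*} [Fintype σ] (Q : MvPolynomial σ ℂ) {y : ℂ → σ → ℂ} {y' : σ → ℂ} {s : ℂ} (hy : HasDerivAt y y' s) :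
    HasDerivAt (fun s => eval (y s) Q) (∑ i, y' i * eval (y s) (pderiv i Q)) s := by
  classical
  induction Q using MvPolynomial.induction_on with
  | C r => simpa using hasDerivAt_const s r
  | add p q hp hq =>
    have h1 := hp.add hq
    have h2 : (∑ i, y' i * eval (y s) (pderiv i p)) + (∑ i, y' i * eval (y s) (pderiv i q)) =
        ∑ i, y' i * eval (y s) (pderiv i (p + q)) := by
      rw [← Finset.sum_add_distrib]
      refine Finset.sum_congr rfl fun i _ => ?_
      rw [map_add, map_add, mul_add]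
    rw [← h2]
    refine h1.congr_of_eventuallyEq (Eventually.of_forall fun t => ?_)
    simp
  | mul_X p i hp =>
    have h0 := (hasDerivAt_pi.mp hy) i
    have h1 := hp.mul h0
    have h2 : (∑ j, y' j * eval (y s) (pderiv j p)) * y s i + eval (y s) p * y' i =
        ∑ j, y' j * eval (y s) (pderiv j (p * X i)) := by
      have h3 : ∀ j, y' j * eval (y s) (pderiv j (p * X i)) =
          y' j * eval (y s) (pderiv j p) * y s i + (if j = i then eval (y s) p * y' i else 0) := by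
        intro j
        rw [Derivation.leibniz, map_add, smul_eq_mul, smul_eq_mul, map_mul, map_mul, eval_X, pderiv_X]
        by_cases hj : j = i
        · subst hj
          simp
          ring
        · rw [if_neg hj, Pi.single_eq_of_ne (Ne.symm hj)]
          simp
          ring
      simp only [h3]
      rw [Finset.sum_add_distrib, ← Finset.sum_mul]
      simp
    rw [← h2]
    refine h1.congr_of_eventuallyEq (Eventually.of_forall fun t => ?_)
    simp

/-- the derivative of a curve in the cone is tangent to the cone -/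
theorem Chart_tan {x : ℂ → Fin (N + 1) → ℂ} {w : ℂ} (hx : DifferentiableAt ℂ x w) (h : ∀ᶠ s in 𝓝 w, x s ∈ cone P) :
    deriv x w ∈ conTan P (x w) := by
  intro Q hQ
  have h1 := Chart_hasDerivAt Q hx.hasDerivAt
  have h2 : HasDerivAt (fun s => eval (x s) Q) 0 w := by
    refine (hasDerivAt_const w (0 : ℂ)).congr_of_eventuallyEq ?_
    filter_upwards [h] with s hs using hs.2 Q hQ
  exact h1.unique h2

/-- the common values of the family -/
def gvals (c : Fin J → ℂ) (q : ℕ) : (Unit ⊕ Unit) ⊕ (Fin q ⊕ Fin q) ⊕ Fin J → ℂ :=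
  Sum.elim (Sum.elim (fun _ => 1) fun _ => 0) (Sum.elim (fun _ => 0) c)

/-- the value of the derivative of a generator -/
theorem Chart_eval_dQ (f : Frame θ) (a : Fin (N + 1)) (j : Fin f.q) (x v : Fin (N + 1) → ℂ) :
    eval (pt x v) (gfam f a (Sum.inr (Sum.inl (Sum.inr j)))) = ∑ b, v b * eval x (pderiv b (f.Q j)) := by
  simp only [gfam, Sum.elim_inr, Sum.elim_inl, map_sum, map_mul, eval_X, eval_rename, pt]
  refine Finset.sum_congr rfl fun b _ => ?_
  rw [mul_comm]
  rfl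

/-- the value of a generator -/
theorem Chart_eval_Q (f : Frame θ) (a : Fin (N + 1)) (j : Fin f.q) (x v : Fin (N + 1) → ℂ) :
    eval (pt x v) (gfam f a (Sum.inr (Sum.inl (Sum.inl j)))) = eval x (f.Q j) := by
  simp only [gfam, Sum.elim_inr, Sum.elim_inl, eval_rename, pt]
  rfl

theorem gval_of_isTan (f : Frame θ) {x v : Fin (N + 1) → ℂ} (h : IsTan θ a c x v) (l : (Unit ⊕ Unit) ⊕ (Fin f.q ⊕ Fin f.q) ⊕ Fin J) :
    eval (pt x v) (gfam f a l) = gvals c f.q l := by
  obtain ⟨h1, h2, h3, h4, h5⟩ := h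
  have hQ : ∀ j, f.Q j ∈ P := fun j => by
    have := Ideal.subset_span (s := Set.range f.Q) ⟨j, rfl⟩
    rwa [f.span] at this
  rcases l with (_ | _) | (j | j) | k
  · simp [gfam, gvals, pt, h2]
  · simp [gfam, gvals, pt, h4]
  · rw [Chart_eval_Q]
    exact h1.2 _ (hQ j)
  · rw [Chart_eval_dQ]
    exact h3 _ (hQ j)
  · have h6 := f.hA a k x h1 h2 v h3
    show eval (pt x v) (f.A a k) = c k
    rw [← h6, h5 k]

theorem isTan_of_gval (f : Frame θ) {x v : Fin (N + 1) → ℂ} (h : ∀ l, eval (pt x v) (gfam f a l) = gvals c f.q l) : IsTan θ a c x v := by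
  have h1 : x a = 1 := by simpa [gfam, gvals, pt] using h (Sum.inl (Sum.inl ()))
  have h2 : v a = 0 := by simpa [gfam, gvals, pt] using h (Sum.inl (Sum.inr ()))
  have h3 : ∀ j, eval x (f.Q j) = 0 := fun j => by
    have := h (Sum.inr (Sum.inl (Sum.inl j)))
    rwa [Chart_eval_Q] at this
  have h4 : ∀ j, ∑ b, v b * eval x (pderiv b (f.Q j)) = 0 := fun j => by
    have := h (Sum.inr (Sum.inl (Sum.inr j)))
    rwa [Chart_eval_dQ] at this
  have h5 : ∀ Q ∈ P, eval x Q = 0 ∧ ∑ b, v b * eval x (pderiv b Q) = 0 := by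
    intro Q hQ
    rw [← f.span] at hQ
    induction hQ using Submodule.span_induction with
    | mem Q hQ =>
      obtain ⟨j, rfl⟩ := hQ
      exact ⟨h3 j, h4 j⟩
    | zero => simp
    | add p q _ _ hp hq =>
      refine ⟨by rw [map_add, hp.1, hq.1, add_zero], ?_⟩
      simp only [map_add, mul_add, Finset.sum_add_distrib]
      rw [hp.2, hq.2, add_zero]
    | smul r p _ hp =>
      refine ⟨by rw [smul_eq_mul, map_mul, hp.1, mul_zero], ?_⟩
      have h6 : ∀ b, v b * eval x (pderiv b (r • p)) = eval x r * (v b * eval x (pderiv b p)) := by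
        intro b
        rw [smul_eq_mul, Derivation.leibniz, map_add, smul_eq_mul, smul_eq_mul, map_mul, map_mul, hp.1]
        ring
      simp only [h6]
      rw [← Finset.mul_sum, hp.2, mul_zero]
  have hx : x ∈ cone P := ⟨fun h0 => by rw [h0] at h1; simp at h1, fun Q hQ => (h5 Q hQ).1⟩
  have hv : v ∈ conTan P x := fun Q hQ => (h5 Q hQ).2
  refine ⟨hx, h1, hv, h2, fun k => ?_⟩
  have h6 := f.hA a k x hx h1 v hv
  have h7 := h (Sum.inr (Sum.inr k))
  rw [h6]
  exact h7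

/-- all nearby vectors are tangent vectors -/
theorem Chart_isTan {x : ℂ → Fin (N + 1) → ℂ} {z : ℂ} (h : NArc θ a c x z) : ∀ᶠ w in 𝓝 z, IsTan θ a c (x w) (deriv x w) := by
  obtain ⟨hx, h⟩ := h
  filter_upwards [h.eventually_nhds, hx.eventually_analyticAt] with w hw hxw
  have h1 := hw.self_of_nhds
  refine ⟨h1.1, h1.2.1, Chart_tan hxw.differentiableAt (hw.mono fun s hs => hs.1), ?_, h1.2.2⟩
  have h2 : HasDerivAt (fun s => x s a) (deriv x w a) w := (hasDerivAt_pi.mp hxw.differentiableAt.hasDerivAt) a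
  have h3 : HasDerivAt (fun s => x s a) 0 w := by
    refine (hasDerivAt_const w (1 : ℂ)).congr_of_eventuallyEq ?_
    filter_upwards [hw] with s hs using hs.2.1
  exact h2.unique h3

theorem arcV_of_nArc (f : Frame θ) {x : ℂ → Fin (N + 1) → ℂ} {z : ℂ} (h : NArc θ a c x z) :
    ArcV (gfam f a) x z ∧ IsTan θ a c (x z) (deriv x z) := by
  have h1 := Chart_isTan h
  refine ⟨⟨h.1, fun l => ?_⟩, h1.self_of_nhds⟩
  filter_upwards [h1] with w hw
  rw [gval_of_isTan f hw, gval_of_isTan f h1.self_of_nhds]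

theorem isInit_of_nArc (f : Frame θ) {x : ℂ → Fin (N + 1) → ℂ} {z : ℂ} (h : NArc θ a c x z) : IsInit (gfam f a) (pt (x z) (deriv x z)) := by
  obtain ⟨h1, h2⟩ := (arcV_of_nArc f h).1
  have hd : ∀ s, deriv (fun s => x (z + s)) s = deriv x (z + s) := fun s => deriv_comp_const_add x z s
  have ht : Tendsto (fun s : ℂ => z + s) (𝓝 0) (𝓝 z) := by
    have : ContinuousAt (fun s : ℂ => z + s) 0 := by fun_prop
    simpa [ContinuousAt] using this
  refine ⟨fun s => x (z + s), ⟨?_, fun l => ?_⟩, ?_⟩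
  · refine AnalyticAt.fun_comp (f := fun s : ℂ => z + s) (g := x) ?_ (by fun_prop)
    simpa using h1
  · filter_upwards [ht.eventually (h2 l)] with s hs
    simp only [hd, add_zero]
    exact hs
  · simp only [hd, add_zero]

theorem nArc_of_const (f : Frame θ) {x₀ v₀ : Fin (N + 1) → ℂ} (h : IsTan θ a c x₀ v₀) {x : ℂ → Fin (N + 1) → ℂ} {z : ℂ} (hx : AnalyticAt ℂ x z)
    (he : ∀ l, ∀ᶠ w in 𝓝 z, eval (pt (x w) (deriv x w)) (gfam f a l) = eval (pt x₀ v₀) (gfam f a l)) : NArc θ a c x z := by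
  refine ⟨hx, ?_⟩
  filter_upwards [Filter.eventually_all.mpr he] with w hw
  have h1 : IsTan θ a c (x w) (deriv x w) := isTan_of_gval f fun l => by rw [hw l, gval_of_isTan f h]
  exact ⟨h1.1, h1.2.1, h1.2.2.2.2⟩

theorem arcAt_of_nArc {x : ℂ → Fin (N + 1) → ℂ} {z : ℂ} {g : ℂ → PN N} (h : NArc θ a c x z) (hr : Rep g x z) : ArcAt θ c g z :=
  ⟨x, h.1, hr, h.2.mono fun _ hw => ⟨hw.1, hw.2.2⟩⟩

/-- normalising a lift -/
theorem nArc_of_lift (hP : Homog P) {g : ℂ → PN N} {z : ℂ} (h : ArcAt θ c g z) {F : ℂ → Fin (N + 1) → ℂ} (hF : AnalyticAt ℂ F z) (hr : Rep g F z)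
    (ha : F z a ≠ 0) : NArc θ a c (fun w => (F w a)⁻¹ • F w) z ∧ Rep g (fun w => (F w a)⁻¹ • F w) z := by
  have hFa : AnalyticAt ℂ (fun w => F w a) z := (analyticAt_pi_iff.mp hF) a
  have han : AnalyticAt ℂ (fun w => (F w a)⁻¹ • F w) z := (hFa.inv ha).smul hF
  have hane : ∀ᶠ w in 𝓝 z, F w a ≠ 0 := hFa.continuousAt.eventually_ne ha
  refine ⟨⟨han, ?_⟩, ?_⟩
  · obtain ⟨F₁, hF₁, hr₁, h₁⟩ := h
    -- the two lifts are proportional
    have hpar : ∀ᶠ w in 𝓝 z, ∃ u : ℂ, u ≠ 0 ∧ F w = u • F₁ w := by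
      filter_upwards [hr, hr₁] with w hw hw₁
      obtain ⟨hw0, hw⟩ := hw
      obtain ⟨hw10, hw₁⟩ := hw₁
      rw [hw] at hw₁
      obtain ⟨u, hu⟩ := (Projectivization.mk_eq_mk_iff' ℂ _ _ hw0 hw10).mp hw₁
      refine ⟨u, fun h0 => hw0 ?_, hu.symm⟩
      rw [← hu, h0, zero_smul]
    have heq : ∀ᶠ w in 𝓝 z, F₁ w a ≠ 0 ∧ (F w a)⁻¹ • F w = (F₁ w a)⁻¹ • F₁ w := by
      filter_upwards [hpar, hane] with w hw hwa
      obtain ⟨u, hu0, hu⟩ := hw
      have h1 : F₁ w a ≠ 0 := fun h0 => hwa (by rw [hu, Pi.smul_apply, h0, smul_zero])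
      refine ⟨h1, ?_⟩
      rw [hu, smul_smul, Pi.smul_apply, smul_eq_mul, mul_inv, mul_comm u⁻¹, mul_assoc, inv_mul_cancel₀ hu0, mul_one]
    have hF₁a : AnalyticAt ℂ (fun w => F₁ w a) z := (analyticAt_pi_iff.mp hF₁) a
    filter_upwards [heq.eventually_nhds, h₁.eventually_nhds, hF₁.eventually_analyticAt] with w hw hcw hanw
    have hw0 := hw.self_of_nhds
    have hc0 := hcw.self_of_nhds
    have hanwa : AnalyticAt ℂ (fun w => F₁ w a) w := (analyticAt_pi_iff.mp hanw) a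
    obtain ⟨u, hu⟩ : ∃ u : ℂ → ℂ, u = fun w => (F₁ w a)⁻¹ := ⟨_, rfl⟩
    have huan : AnalyticAt ℂ u w := by
      rw [hu]
      exact hanwa.inv hw0.1
    have hu0 : u w ≠ 0 := by
      rw [hu]
      exact inv_ne_zero hw0.1
    have hev : (fun s => (F s a)⁻¹ • F s) =ᶠ[𝓝 w] fun s => u s • F₁ s := by
      filter_upwards [hw] with s hs
      rw [hs.2, hu]
    have hcone : ∀ᶠ s in 𝓝 w, u s • F₁ s ∈ cone P := by
      filter_upwards [hw, hcw] with s hs hcs
      have hus : u s ≠ 0 := by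
        rw [hu]
        exact inv_ne_zero hs.1
      exact ⟨smul_ne_zero hus hcs.1.1, Pool.Agent.H13.SM.cone_smul hP hcs.1.2 _⟩
    have hdiff : DifferentiableAt ℂ (fun s => u s • F₁ s) w := huan.differentiableAt.fun_smul hanw.differentiableAt
    have hd : deriv (fun s => u s • F₁ s) w = u w • deriv F₁ w + deriv u w • F₁ w :=
      deriv_fun_smul huan.differentiableAt hanw.differentiableAt
    have htan : deriv (fun s => u s • F₁ s) w ∈ conTan P (u w • F₁ w) := Chart_tan (x := fun s => u s • F₁ s) hdiff hcone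
    have hself : u w • F₁ w ∈ conTan P (u w • F₁ w) := fun Q hQ => Pool.Agent.H13.SM.euler hP hcone.self_of_nhds.2 hQ
    have hsplit : deriv (fun s => u s • F₁ s) w = u w • deriv F₁ w + (deriv u w * (u w)⁻¹) • (u w • F₁ w) := by
      rw [hd, smul_smul, mul_assoc, inv_mul_cancel₀ hu0, mul_one]
    have htan' : u w • deriv F₁ w ∈ conTan P (u w • F₁ w) := by
      have h5 : u w • deriv F₁ w = deriv (fun s => u s • F₁ s) w - (deriv u w * (u w)⁻¹) • (u w • F₁ w) := by
        rw [hsplit, add_sub_cancel_right]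
      rw [h5]
      exact Submodule.sub_mem _ htan (Submodule.smul_mem _ _ hself)
    have htan₁ : deriv F₁ w ∈ conTan P (F₁ w) := Chart_tan hanw.differentiableAt (hcw.mono fun s hs => hs.1)
    have hev0 : (F w a)⁻¹ • F w = u w • F₁ w := hev.self_of_nhds
    refine ⟨?_, ?_, fun k => ?_⟩
    · rw [hev0]
      exact hcone.self_of_nhds
    · rw [hw0.2, Pi.smul_apply, smul_eq_mul, inv_mul_cancel₀ hw0.1]
    · rw [hev0, hev.deriv_eq, hsplit, (θ k).add_smul _ hcone.self_of_nhds _ htan',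
        (θ k).scale _ hc0.1 _ htan₁ _ hu0]
      exact hc0.2 k
  · filter_upwards [hr, hane] with w hw hwa
    obtain ⟨hw0, hw⟩ := hw
    have h1 : (F w a)⁻¹ • F w ≠ 0 := smul_ne_zero (inv_ne_zero hwa) hw0
    refine ⟨h1, ?_⟩
    rw [hw, Projectivization.mk_eq_mk_iff']
    exact ⟨F w a, by rw [smul_inv_smul₀ hwa]⟩

theorem exists_nArc (hP : Homog P) {g : ℂ → PN N} {z : ℂ} (h : ArcAt θ c g z) : ∃ (a : Fin (N + 1)) (x : ℂ → Fin (N + 1) → ℂ),
    NArc θ a c x z ∧ Rep g x z ∧ ∀ b, ‖x z b‖ ≤ 1 := by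
  obtain ⟨F, hF, hr, h₁⟩ := id h
  have hF0 : F z ≠ 0 := h₁.self_of_nhds.1.1
  obtain ⟨a, -, ha⟩ := Finset.exists_max_image (Finset.univ : Finset (Fin (N + 1))) (fun b => ‖F z b‖) Finset.univ_nonempty
  have ha0 : F z a ≠ 0 := by
    intro h0
    apply hF0
    funext b
    have := ha b (Finset.mem_univ b)
    rw [h0, norm_zero] at this
    exact norm_le_zero_iff.mp this
  obtain ⟨h1, h2⟩ := nArc_of_lift (a := a) hP h hF hr ha0
  refine ⟨a, _, h1, h2, fun b => ?_⟩
  show ‖((F z a)⁻¹ • F z) b‖ ≤ 1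
  rw [Pi.smul_apply, smul_eq_mul, norm_mul, norm_inv, inv_mul_le_one₀ (norm_pos_iff.mpr ha0)]
  exact ha b (Finset.mem_univ b)

end Pool.Agent.GG
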