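import Pool.Agent.GG.Defs
import Pool.Agent.H13.SM.Inv

/-!
# GG Row: `N + 1` of the rows are independent

PROOF.  The rows `(∂G_l/∂v_b (x, v))_b` of `gfam`: `0` for `x_a` and `Q_j`; `e_a` for `v_a`; `dQ_j (x)` for `dQ_j v`; `∂A_(a,k)/∂v (x, v)`.  A common zero `w` of all rows has `w_a = 0`, `w ∈ conTan P x` (the `Q_j` generate `P`),
and `d/dt θ_k (x, v + t w) = d/dt A_(a,k) (x, v + t w) = 0` at `t = 0` for all `k`; `v ∉ ℂ x` since `v_a = 0`, `x_a = 1`, `v ≠ 0`; so `w ∈ ℂ x` by `Polar`, and `w = 0` since `w_a = 0`.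
So the rows span the dual space, and `N + 1` of them are independent: the determinant is not `0`.
-/

set_option autoImplicit false

open MvPolynomial Topology Filter Metric
open Pool.Agent.H13.SM (conTan cone)

namespace Pool.Agent.GG

variable {N : ℕ} {P : Ideal (MvPolynomial (Fin (N + 1)) ℂ)} {J : ℕ} {m : Fin J → ℕ} {θ : ∀ k, SymSec P (m k)}

/-- the derivative of a polynomial in the direction of `v` -/
theorem hasDerivAt_evalV (p : MvPolynomial (Ph N) ℂ) (x v w : Fin (N + 1) → ℂ) :
    HasDerivAt (fun t : ℂ => eval (pt x (v + t • w)) p) (∑ b, eval (pt x v) (pderiv (Sum.inr b) p) * w b) 0 := by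
  have h1 : HasDerivAt (fun t : ℂ => (pt x (v + t • w) : Ph N → ℂ)) (pt 0 w) 0 := by
    rw [hasDerivAt_pi]
    rintro (b | b)
    · simpa using hasDerivAt_const (0 : ℂ) (x b)
    · have h2 : HasDerivAt (fun t : ℂ => v b + t * w b) (w b) 0 := by
        simpa using ((hasDerivAt_id (0 : ℂ)).mul_const (w b)).const_add (v b)
      simpa using h2
  have h3 := Pool.Agent.H13.SM.Inv_hasFDerivAt_eval p (pt x (v + (0 : ℂ) • w))
  have h4 := h3.comp_hasDerivAt (0 : ℂ) h1
  have h5 : (v + (0 : ℂ) • w) = v := by simp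
  rw [h5] at h4
  refine (h4.congr_deriv ?_)
  simp [Fintype.sum_sum_type]

theorem pderiv_inr_rename (p : MvPolynomial (Fin (N + 1)) ℂ) (b : Fin (N + 1)) :
    pderiv (Sum.inr b : Ph N) (rename Sum.inl p) = 0 := by
  classical
  apply pderiv_eq_zero_of_notMem_vars
  intro h
  have := vars_rename (Sum.inl : Fin (N + 1) → Ph N) p h
  simp at this

/-- the rows span -/
theorem row_zero (hθ : Polar θ) (f : Frame θ) {a : Fin (N + 1)} {c : Fin J → ℂ} {x v : Fin (N + 1) → ℂ} (h : IsTan θ a c x v) (hv : v ≠ 0)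
    (w : Fin (N + 1) → ℂ) (hw : ∀ l, ∑ b, eval (pt x v) (pderiv (Sum.inr b) (gfam f a l)) * w b = 0) : w = 0 := by
  classical
  obtain ⟨hx, hxa, hvT, hva, -⟩ := h
  have hwa : w a = 0 := by
    have h1 := hw (Sum.inl (Sum.inr ()))
    simpa [gfam, pderiv_X, Pi.single_apply] using h1
  have hwQ : ∀ j, ∑ b, w b * eval x (pderiv b (f.Q j)) = 0 := by
    intro j
    have h1 := hw (Sum.inr (Sum.inl (Sum.inr j)))
    have h2 : ∀ b, eval (pt x v) (pderiv (Sum.inr b) (gfam f a (Sum.inr (Sum.inl (Sum.inr j))))) = eval x (pderiv b (f.Q j)) := by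
      intro b
      have h3 : gfam f a (Sum.inr (Sum.inl (Sum.inr j))) = ∑ b, rename Sum.inl (pderiv b (f.Q j)) * X (Sum.inr b) := rfl
      rw [h3, map_sum, map_sum, Finset.sum_eq_single b]
      · rw [Derivation.leibniz, pderiv_inr_rename]
        simp only [pderiv_X, Pi.single_eq_same, smul_eq_mul, mul_one, mul_zero, add_zero]
        rw [eval_rename]
        rfl
      · intro b' _ hb'
        rw [Derivation.leibniz, pderiv_inr_rename]
        have : (Sum.inr b : Ph N) ≠ Sum.inr b' := fun h => hb' (Sum.inr_injective h).symm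
        simp [pderiv_X, Ne.symm this]
      · intro h
        exact absurd (Finset.mem_univ b) h
    simp only [h2] at h1
    rw [← h1]
    exact Finset.sum_congr rfl fun b _ => mul_comm _ _
  have hwT : w ∈ conTan P x := by
    intro Q hQ
    rw [← f.span] at hQ
    induction hQ using Submodule.span_induction with
    | mem Q hQ =>
      obtain ⟨j, rfl⟩ := hQ
      exact hwQ j
    | zero => simp
    | add Q R _ _ hQ hR =>
      simp only [map_add, mul_add, Finset.sum_add_distrib, hQ, hR, add_zero]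
    | smul g Q hQm hQ =>
      have hQ0 : eval x Q = 0 := by
        apply hx.2
        rw [← f.span]
        exact hQm
      simp only [smul_eq_mul, Derivation.leibniz, map_add, map_mul, hQ0, zero_mul, add_zero]
      rw [show (∑ i, w i * (eval x g * eval x (pderiv i Q))) = eval x g * ∑ i, w i * eval x (pderiv i Q) by
        rw [Finset.mul_sum]; exact Finset.sum_congr rfl fun b _ => by ring]
      rw [hQ, mul_zero]
  have hvx : v ∉ Submodule.span ℂ {x} := by
    intro h
    obtain ⟨s, rfl⟩ := Submodule.mem_span_singleton.mp h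
    simp [hxa] at hva
    simp [hva] at hv
  by_contra hw0
  have hwx : w ∉ Submodule.span ℂ {x} := by
    intro h
    obtain ⟨s, rfl⟩ := Submodule.mem_span_singleton.mp h
    simp [hxa] at hwa
    simp [hwa] at hw0
  obtain ⟨k, hk⟩ := hθ x hx v hvT w hwT hvx hwx
  apply hk
  have h1 : (fun t : ℂ => (θ k).toFun x (v + t • w)) = fun t : ℂ => eval (pt x (v + t • w)) (f.A a k) := by
    funext t
    exact f.hA a k x hx hxa _ ((conTan P x).add_mem hvT ((conTan P x).smul_mem t hwT))
  rw [h1, (hasDerivAt_evalV (f.A a k) x v w).deriv]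
  exact hw (Sum.inr (Sum.inr k))

theorem exists_row (hθ : Polar θ) (f : Frame θ) {a : Fin (N + 1)} {c : Fin J → ℂ} {x v : Fin (N + 1) → ℂ} (h : IsTan θ a c x v) (hv : v ≠ 0) :
    ∃ I : Fin (N + 1) → (Unit ⊕ Unit) ⊕ (Fin f.q ⊕ Fin f.q) ⊕ Fin J, eval (pt x v) (vdet (gfam f a) I) ≠ 0 := by
  classical
  set r : (Unit ⊕ Unit) ⊕ (Fin f.q ⊕ Fin f.q) ⊕ Fin J → Fin (N + 1) → ℂ :=
    fun l b => eval (pt x v) (pderiv (Sum.inr b) (gfam f a l)) with hr
  have hspan : Submodule.span ℂ (Set.range r) = ⊤ := by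
    by_contra hne
    obtain ⟨φ, hφ, hle⟩ := Submodule.exists_le_ker_of_lt_top _ (lt_top_iff_ne_top.mpr hne)
    apply hφ
    have h1 : (fun b => φ (Pi.single b 1)) = (0 : Fin (N + 1) → ℂ) := by
      apply row_zero hθ f h hv
      intro l
      have h2 : φ (r l) = 0 := hle (Submodule.subset_span ⟨l, rfl⟩)
      rw [← h2]
      conv_rhs => rw [pi_eq_sum_univ' (r l), map_sum]
      exact Finset.sum_congr rfl fun b _ => by
        rw [map_smul, smul_eq_mul]
    refine LinearMap.pi_ext' fun b => ?_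
    ext
    simpa using congrFun h1 b
  obtain ⟨κ, g, -, hg, hli⟩ := exists_linearIndependent' ℂ r
  have : Finite κ := hli.finite
  have : Fintype κ := Fintype.ofFinite κ
  rw [hspan] at hg
  have hcard : Fintype.card κ = N + 1 := by
    have hb := Module.finrank_eq_card_basis (Module.Basis.mk hli hg.ge)
    simpa using hb.symm
  let e : Fin (N + 1) ≃ κ := (Fintype.equivFinOfCardEq hcard).symm
  refine ⟨g ∘ e, ?_⟩
  have h2 : LinearIndependent ℂ ((vmat (gfam f a) (g ∘ e)).map (eval (pt x v))).row := by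
    have h3 := hli.comp e e.injective
    exact h3
  have h4 := Matrix.linearIndependent_rows_iff_isUnit.mp h2
  rw [vdet, RingHom.map_det]
  exact ((Matrix.isUnit_iff_isUnit_det _).mp h4).ne_zero

/-- there are frames -/
theorem exists_frame (θ : ∀ k, SymSec P (m k)) : Nonempty (Frame θ) := by
  classical
  obtain ⟨q, Q, hQ⟩ := Submodule.fg_iff_exists_fin_generating_family.mp (IsNoetherian.noetherian P)
  choose e A hA using fun (a : Fin (N + 1)) (k : Fin J) => (θ k).regular a
  exact ⟨⟨q, Q, hQ, A, fun a k x hx hxa v hv => by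
    have := hA a k x hx v hv
    rwa [hxa, one_pow, one_mul] at this⟩⟩

end Pool.Agent.GG
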