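import Pool.Agent.GG.Kcpt
import Pool.Agent.GG.Chart
import Pool.Agent.H14.V.Up
import Pool.Agent.H14.V.MainV
import Pool.Agent.H15.V.Liou
import Pool.Agent.AD.G.Spec
import Pool.Agent.H39.SY.ChartAt

/-!
# GG Cst: symmetric differentials are constant along the entire curves of order two

`bound`: in the chart `x_i = 1`, `i` = a coordinate of the largest modulus, `θ (x, v) = A_i (x', v'')` with `x' = x / x_i`, `v'' = v / x_i - (v_i / x_i) x'`,
`‖v''‖ ≤ wl x v`.  So `|θ (F, F')| ≤ C fs (F, F')^m`, and `θ (F, F')` is entire: constant (`H15/V/Liou`).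
-/

set_option autoImplicit false

open MvPolynomial Topology Filter Metric
open Pool.Agent.H13.SM (conTan cone)
open Pool.Agent.H17 (PN VanishesAt HolomorphicInto)
open Pool.Agent.H62.FC (Homog)
open Pool.Agent.H13.OT (OrderTwo)
open Pool.Agent.H17EF (projVar)
open Pool.Agent.H36.BP (EN fs wd)

noncomputable section

namespace Pool.Agent.GG

variable {N : ℕ} {P : Ideal (MvPolynomial (Fin (N + 1)) ℂ)}

/-- a coordinate of the largest modulus -/
theorem cst_max_coord (x : Fin (N + 1) → ℂ) : ∃ i, ‖x i‖ = ‖x‖ := by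
  obtain ⟨i, -, hi⟩ := Finset.exists_max_image (Finset.univ : Finset (Fin (N + 1))) (fun i => ‖x i‖) ⟨0, Finset.mem_univ _⟩
  refine ⟨i, le_antisymm (norm_le_pi_norm x i) ?_⟩
  exact (pi_norm_le_iff_of_nonneg (norm_nonneg _)).2 fun j => hi j (Finset.mem_univ _)

/-- the normalised vector in the chart `x_i = 1` -/
def cst_nv (x v : Fin (N + 1) → ℂ) (i : Fin (N + 1)) : Fin (N + 1) → ℂ := (x i)⁻¹ • v + (-((x i)⁻¹ * (v i))) • ((x i)⁻¹ • x)

theorem cst_nv_norm {x v : Fin (N + 1) → ℂ} {i : Fin (N + 1)} (hx : x ≠ 0) (hi : ‖x i‖ = ‖x‖) : ‖cst_nv x v i‖ ≤ wl x v := by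
  have hx0 : x i ≠ 0 := norm_ne_zero_iff.1 (by rw [hi]; exact norm_ne_zero_iff.2 hx)
  unfold wl
  refine (pi_norm_le_iff_of_nonneg (by positivity)).2 fun j => ?_
  have h1 : cst_nv x v i j = (x i * v j - x j * v i) / (x i) ^ 2 := by
    simp only [cst_nv, Pi.add_apply, Pi.smul_apply, smul_eq_mul]
    field_simp
    ring
  rw [h1, norm_div, norm_pow, hi]
  gcongr
  exact norm_le_pi_norm (fun p : Fin (N + 1) × Fin (N + 1) => x p.1 * v p.2 - x p.2 * v p.1) (i, j)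

namespace SymSec

variable {m : ℕ} (θ : SymSec P m)

/-- the value in the chart `x_i = 1` -/
theorem cst_val (hP : Homog P) {x v : Fin (N + 1) → ℂ} (hx : x ∈ cone P) (hv : v ∈ conTan P x) {i : Fin (N + 1)} (hi : x i ≠ 0) :
    θ.toFun x v = θ.toFun ((x i)⁻¹ • x) (cst_nv x v i) := by
  have hi' : (x i)⁻¹ ≠ 0 := inv_ne_zero hi
  have hx' : (x i)⁻¹ • x ∈ cone P := Pool.Agent.AD.G.cone_smulC hP hx hi'
  have hv' : (x i)⁻¹ • v ∈ conTan P ((x i)⁻¹ • x) := by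
    rw [Pool.Agent.H39.SY.conTan_smul hP hi']
    exact (conTan P x).smul_mem _ hv
  unfold cst_nv
  rw [θ.add_smul _ hx' _ hv' _, θ.scale x hx v hv _ hi']

theorem cst_nv_mem (hP : Homog P) {x v : Fin (N + 1) → ℂ} (hx : x ∈ cone P) (hv : v ∈ conTan P x) {i : Fin (N + 1)} (hi : x i ≠ 0) :
    cst_nv x v i ∈ conTan P ((x i)⁻¹ • x) := by
  have hi' : (x i)⁻¹ ≠ 0 := inv_ne_zero hi
  have hx' : (x i)⁻¹ • x ∈ cone P := Pool.Agent.AD.G.cone_smulC hP hx hi'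
  refine (conTan P _).add_mem ?_ ((conTan P _).smul_mem _ (Pool.Agent.AD.G.self_mem_conTan hP hx'))
  rw [Pool.Agent.H39.SY.conTan_smul hP hi']
  exact (conTan P x).smul_mem _ hv

/-- **The bound of a symmetric differential.** -/
theorem bound_wl (hP : Homog P) : ∃ C : ℝ, 0 < C ∧ ∀ x ∈ cone P, ∀ v ∈ conTan P x, ‖θ.toFun x v‖ ≤ C * wl x v ^ m := by
  classical
  choose e A hA using θ.regular
  -- a bound of the polynomials on the polydisc
  have hK : ∀ i, ∃ C : ℝ, 0 < C ∧ ∀ y : Fin (N + 1) ⊕ Fin (N + 1) → ℂ, ‖y‖ ≤ 1 → ‖eval y (A i)‖ ≤ C := by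
    intro i
    have hc : ContinuousOn (fun y : Fin (N + 1) ⊕ Fin (N + 1) → ℂ => eval y (A i)) (closedBall 0 1) :=
      (MvPolynomial.continuous_eval (A i)).continuousOn
    obtain ⟨C, hC⟩ := (isCompact_closedBall (0 : Fin (N + 1) ⊕ Fin (N + 1) → ℂ) 1).exists_bound_of_continuousOn hc
    exact ⟨max C 1, by positivity, fun y hy => (hC y (by simpa using hy)).trans (le_max_left _ _)⟩
  choose C hC0 hC using hK
  refine ⟨∑ i, C i, Finset.sum_pos (fun i _ => hC0 i) ⟨0, Finset.mem_univ _⟩, fun x hx v hv => ?_⟩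
  obtain ⟨i, hi⟩ := cst_max_coord x
  have hxi : x i ≠ 0 := norm_ne_zero_iff.1 (by rw [hi]; exact norm_ne_zero_iff.2 hx.1)
  have hCi : C i ≤ ∑ i, C i := Finset.single_le_sum (fun j _ => (hC0 j).le) (Finset.mem_univ i)
  have hx' : (x i)⁻¹ • x ∈ cone P := Pool.Agent.AD.G.cone_smulC hP hx (inv_ne_zero hxi)
  have hx1 : ((x i)⁻¹ • x) i = 1 := by simp [hxi]
  have hxn : ‖(x i)⁻¹ • x‖ ≤ 1 := by
    rw [norm_smul, norm_inv, hi, inv_mul_cancel₀ (norm_ne_zero_iff.2 hx.1)]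
  have hval : ∀ w ∈ conTan P ((x i)⁻¹ • x), θ.toFun ((x i)⁻¹ • x) w = eval (Sum.elim ((x i)⁻¹ • x) w) (A i) := by
    intro w hw
    rw [← hA i _ hx' w hw, hx1, one_pow, one_mul]
  have hbd : ∀ w ∈ conTan P ((x i)⁻¹ • x), ‖w‖ ≤ 1 → ‖θ.toFun ((x i)⁻¹ • x) w‖ ≤ C i := by
    intro w hw hw1
    rw [hval w hw]
    refine hC i _ ((pi_norm_le_iff_of_nonneg zero_le_one).2 fun s => ?_)
    cases s with
    | inl b => exact (norm_le_pi_norm _ b).trans hxn
    | inr b => exact (norm_le_pi_norm _ b).trans hw1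
  rw [θ.cst_val hP hx hv hxi]
  have hmem := cst_nv_mem hP hx hv hxi
  have hle : ‖θ.toFun ((x i)⁻¹ • x) (cst_nv x v i)‖ ≤ C i * ‖cst_nv x v i‖ ^ m := by
    rcases eq_or_ne (cst_nv x v i) 0 with h0 | h0
    · rcases Nat.eq_zero_or_pos m with hm | hm
      · have h1 : ‖cst_nv x v i‖ ^ m = 1 := by simp [hm]
        rw [h1, mul_one]
        exact hbd _ hmem (by rw [h0, norm_zero]; exact zero_le_one)
      · have h1 := θ.smul _ hx' _ hmem 0
        rw [zero_smul, zero_pow hm.ne', zero_mul] at h1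
        rw [h0, h1, norm_zero]
        have := (hC0 i).le
        positivity
    · have hn : ‖cst_nv x v i‖ ≠ 0 := norm_ne_zero_iff.2 h0
      have hnc : ((‖cst_nv x v i‖ : ℝ) : ℂ) ≠ 0 := by exact_mod_cast hn
      obtain ⟨w, hw⟩ : ∃ w, w = (((‖cst_nv x v i‖ : ℝ) : ℂ))⁻¹ • cst_nv x v i := ⟨_, rfl⟩
      have hw1 : ‖w‖ ≤ 1 := by
        rw [hw, norm_smul, norm_inv, Complex.norm_real, norm_norm, inv_mul_cancel₀ hn]
      have hwm : w ∈ conTan P ((x i)⁻¹ • x) := by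
        rw [hw]
        exact (conTan P _).smul_mem _ hmem
      have h2 : cst_nv x v i = ((‖cst_nv x v i‖ : ℝ) : ℂ) • w := by
        rw [hw, smul_inv_smul₀ hnc]
      have h3 := θ.smul _ hx' _ hwm ((‖cst_nv x v i‖ : ℝ) : ℂ)
      rw [← h2] at h3
      rw [h3, norm_mul, norm_pow, Complex.norm_real, norm_norm, mul_comm]
      exact mul_le_mul_of_nonneg_right (hbd w hwm hw1) (by positivity)
  refine hle.trans ?_
  have h4 : ‖cst_nv x v i‖ ^ m ≤ wl x v ^ m := pow_le_pow_left₀ (norm_nonneg _) (cst_nv_norm hx.1 hi) m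
  calc C i * ‖cst_nv x v i‖ ^ m ≤ C i * wl x v ^ m := mul_le_mul_of_nonneg_left h4 (hC0 i).le
    _ ≤ (∑ i, C i) * wl x v ^ m := mul_le_mul_of_nonneg_right hCi (by unfold wl; positivity)

end SymSec

/-- the two lengths -/
theorem cst_wl_le_fs (x v : Fin (N + 1) → ℂ) (hx : x ≠ 0) :
    wl x v ≤ 2 * (N + 1) * fs (WithLp.toLp 2 x : EN N) (WithLp.toLp 2 v) := by
  obtain ⟨X, hX⟩ : ∃ X : EN N, X = WithLp.toLp 2 x := ⟨_, rfl⟩
  obtain ⟨V, hV⟩ : ∃ V : EN N, V = WithLp.toLp 2 v := ⟨_, rfl⟩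
  have hX0 : X ≠ 0 := by
    rw [hX]
    intro h
    exact hx (WithLp.toLp_injective 2 h)
  have hXn : 0 < ‖X‖ := norm_pos_iff.2 hX0
  -- the component of `v` orthogonal to `x`
  obtain ⟨a, ha⟩ : ∃ a : ℂ, a = inner ℂ X V / ((‖X‖ : ℂ) ^ 2) := ⟨_, rfl⟩
  obtain ⟨w, hw⟩ : ∃ w : EN N, w = V + (-a) • X := ⟨_, rfl⟩
  have hXX : (inner ℂ X X : ℂ) = (‖X‖ : ℂ) ^ 2 := inner_self_eq_norm_sq_to_K X
  have hXc : ((‖X‖ : ℂ) ^ 2) ≠ 0 := by
    have : (‖X‖ : ℂ) ≠ 0 := by exact_mod_cast hXn.ne'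
    positivity
  have hort : inner ℂ X w = (0 : ℂ) := by
    rw [hw, inner_add_right, inner_smul_right, hXX, ha, neg_mul, div_mul_cancel₀ _ hXc]
    ring
  have hwd : wd X V = ‖X‖ * ‖w‖ := by
    have h1 := Pool.Agent.H36.BP.wd_inv X V 1 (-a)
    rw [one_smul, one_smul, ← hw, norm_one, one_pow, one_mul] at h1
    have h2 := Pool.Agent.H36.BP.wd_sq X w
    rw [hort, norm_zero] at h2
    have h3 : wd X w ^ 2 = (‖X‖ * ‖w‖) ^ 2 := by rw [h2]; ring
    rw [← h1]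
    exact (pow_left_inj₀ (Pool.Agent.H36.BP.wd_nonneg _ _) (by positivity) two_ne_zero).1 h3
  have hcoord : ∀ (Y : EN N) (i : Fin (N + 1)), ‖Y i‖ ≤ ‖Y‖ := fun Y i => PiLp.norm_apply_le Y i
  have hnum : ‖fun p : Fin (N + 1) × Fin (N + 1) => x p.1 * v p.2 - x p.2 * v p.1‖ ≤ 2 * wd X V := by
    refine (pi_norm_le_iff_of_nonneg (by have := Pool.Agent.H36.BP.wd_nonneg X V; positivity)).2 fun p => ?_
    have e1 : x p.1 * v p.2 - x p.2 * v p.1 = X p.1 * w p.2 - X p.2 * w p.1 := by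
      rw [hw, hX, hV]
      simp only [PiLp.add_apply, PiLp.smul_apply, smul_eq_mul]
      ring
    rw [e1, hwd]
    calc ‖X p.1 * w p.2 - X p.2 * w p.1‖ ≤ ‖X p.1 * w p.2‖ + ‖X p.2 * w p.1‖ := norm_sub_le _ _
      _ ≤ ‖X‖ * ‖w‖ + ‖X‖ * ‖w‖ := by
        rw [norm_mul, norm_mul]
        gcongr <;> exact hcoord _ _
      _ = 2 * (‖X‖ * ‖w‖) := by ring
  have hden : ‖X‖ ^ 2 ≤ (N + 1) * ‖x‖ ^ 2 := by
    rw [EuclideanSpace.norm_sq_eq]
    calc ∑ i, ‖X i‖ ^ 2 ≤ ∑ _i : Fin (N + 1), ‖x‖ ^ 2 := by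
          refine Finset.sum_le_sum fun i _ => pow_le_pow_left₀ (norm_nonneg _) ?_ 2
          rw [hX]
          exact norm_le_pi_norm x i
      _ = (N + 1) * ‖x‖ ^ 2 := by simp
  have hxn : 0 < ‖x‖ := norm_pos_iff.2 hx
  rw [← hX, ← hV]
  unfold wl fs
  have hwdn := Pool.Agent.H36.BP.wd_nonneg X V
  rw [div_le_iff₀ (by positivity), mul_div_assoc', div_mul_eq_mul_div, le_div_iff₀ (by positivity)]
  calc ‖fun p : Fin (N + 1) × Fin (N + 1) => x p.1 * v p.2 - x p.2 * v p.1‖ * ‖X‖ ^ 2 ≤ (2 * wd X V) * ((N + 1) * ‖x‖ ^ 2) := by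
        gcongr
    _ = 2 * (N + 1) * wd X V * ‖x‖ ^ 2 := by ring

/-- the derivative of a curve in the cone is tangent to it -/
theorem cst_deriv_mem {F : ℂ → Fin (N + 1) → ℂ} {z : ℂ} (hF : DifferentiableAt ℂ F z) (h : ∀ᶠ w in 𝓝 z, F w ∈ cone P) :
    deriv F z ∈ conTan P (F z) := by
  intro Q hQ
  have h3 := (Pool.Agent.H13.SM.Inv_hasFDerivAt_eval Q (F z)).comp_hasDerivAt z hF.hasDerivAt
  have h4 : HasDerivAt ((fun y : Fin (N + 1) → ℂ => eval y Q) ∘ F) 0 z := by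
    refine (hasDerivAt_const z (0 : ℂ)).congr_of_eventuallyEq ?_
    filter_upwards [h] with w hw
    exact hw.2 Q hQ
  have h5 := h3.unique h4
  simp only [sum_apply, FunLike.coe_smul, Pi.smul_apply, ContinuousLinearMap.proj_apply, smul_eq_mul] at h5
  rw [← h5]
  exact Finset.sum_congr rfl fun i _ => mul_comm _ _

/-- symmetric differentials are holomorphic along curves -/
theorem SymSec.analyticAt_curve {m : ℕ} (θ : SymSec P m) {F : ℂ → Fin (N + 1) → ℂ} {z : ℂ} (hF : AnalyticAt ℂ F z)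
    (h : ∀ᶠ w in 𝓝 z, F w ∈ cone P) : AnalyticAt ℂ (fun w => θ.toFun (F w) (deriv F w)) z := by
  have h0 : F z ≠ 0 := h.self_of_nhds.1
  obtain ⟨i, hi⟩ : ∃ i, F z i ≠ 0 := by
    by_contra hcon
    push Not at hcon
    exact h0 (funext hcon)
  obtain ⟨e, A, hA⟩ := θ.regular i
  have hFi : AnalyticAt ℂ (fun w => F w i) z := (analyticAt_pi_iff.1 hF) i
  have hFd : AnalyticAt ℂ (deriv F) z := hF.deriv
  have hnum : AnalyticAt ℂ (fun w => eval (Sum.elim (F w) (deriv F w)) A) z := by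
    have h1 : AnalyticAt ℂ (fun w => Sum.elim (F w) (deriv F w)) z := by
      refine analyticAt_pi_iff.2 fun s => ?_
      cases s with
      | inl b => exact (analyticAt_pi_iff.1 hF) b
      | inr b => exact (analyticAt_pi_iff.1 hFd) b
    have h2 : AnalyticAt ℂ (fun w => aeval (fun s => Sum.elim (F w) (deriv F w) s) A) z :=
      AnalyticAt.aeval_mvPolynomial (fun s => (analyticAt_pi_iff.1 h1) s) A
    simpa only [MvPolynomial.aeval_eq_eval] using h2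
  have hq : AnalyticAt ℂ (fun w => eval (Sum.elim (F w) (deriv F w)) A / (F w i) ^ e) z := hnum.div (hFi.pow e) (pow_ne_zero _ hi)
  refine hq.congr ?_
  have hne : ∀ᶠ w in 𝓝 z, F w i ≠ 0 := hFi.continuousAt.eventually_ne hi
  filter_upwards [hne, h, h.eventually_nhds, hF.eventually_analyticAt] with w h1 h2 h3 h4
  have h5 := hA _ h2 _ (cst_deriv_mem h4.differentiableAt h3)
  rw [div_eq_iff (pow_ne_zero _ h1), mul_comm, ← h5]

/-- the bound in terms of the Fubini-Study length -/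
theorem SymSec.bound_fs (hP : Homog P) {m : ℕ} (θ : SymSec P m) : ∃ C : ℝ, 0 < C ∧ ∀ x ∈ cone P, ∀ v ∈ conTan P x,
    ‖θ.toFun x v‖ ≤ C * fs (WithLp.toLp 2 x : EN N) (WithLp.toLp 2 v) ^ m := by
  obtain ⟨C, hC0, hC⟩ := θ.bound_wl hP
  refine ⟨C * (2 * (N + 1)) ^ m, by positivity, fun x hx v hv => ?_⟩
  refine (hC _ hx _ hv).trans ?_
  have h1 := cst_wl_le_fs x v hx.1
  have h2 : wl x v ^ m ≤ (2 * (N + 1) * fs (WithLp.toLp 2 x : EN N) (WithLp.toLp 2 v)) ^ m :=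
    pow_le_pow_left₀ (by unfold wl; positivity) h1 _
  rw [mul_assoc, ← mul_pow]
  exact mul_le_mul_of_nonneg_left h2 hC0.le

theorem theta_const (hP : Homog P) {m : ℕ} (hm : 1 ≤ m) (θ : SymSec P m) {F : ℂ → Fin (N + 1) → ℂ} (hF : Differentiable ℂ F) (hX : ∀ z, F z ∈ cone P) {A : ℝ}
    (hA : ∀ r : ℝ, 0 < r → Real.circleAverage (fun z => Real.log ‖F z‖) 0 r ≤ A * (1 + r ^ 2)) : ∃ c, ∀ z, θ.toFun (F z) (deriv F z) = c := by
  have h0 : ∀ z, F z ≠ 0 := fun z => (hX z).1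
  obtain ⟨A', hA'⟩ := Pool.Agent.H14.V.average_toLp hF h0 hA
  have hF' : Differentiable ℂ fun z => (WithLp.toLp 2 (F z) : EN N) := (Pool.Agent.H17EF.LE N).differentiable.comp hF
  have hd : ∀ z, deriv (fun z => (WithLp.toLp 2 (F z) : EN N)) z = WithLp.toLp 2 (deriv F z) := by
    intro z
    exact ((Pool.Agent.H17EF.LE N : (Fin (N + 1) → ℂ) →L[ℂ] EN N).hasFDerivAt.comp_hasDerivAt z (hF z).hasDerivAt).deriv
  obtain ⟨C, hC0, hC⟩ := θ.bound_fs hP
  have hent : Differentiable ℂ fun z => θ.toFun (F z) (deriv F z) := fun z =>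
    (θ.analyticAt_curve (hF.analyticAt z) (Eventually.of_forall hX)).differentiableAt
  have hb : ∀ z, ‖θ.toFun (F z) (deriv F z)‖ ≤ C * fs (WithLp.toLp 2 (F z) : EN N) (deriv (fun z => (WithLp.toLp 2 (F z) : EN N)) z) ^ m := by
    intro z
    rw [hd]
    exact hC _ (hX z) _ (cst_deriv_mem (hF z) (Eventually.of_forall hX))
  exact ⟨_, Pool.Agent.H15.V.liouville hF' (fun z h => h0 z (WithLp.toLp_injective 2 h)) hent hm hb hA'⟩

variable {J : ℕ} {m : Fin J → ℕ} {θ : ∀ k, SymSec P (m k)}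

theorem arcAt_of_orderTwo (hP : Homog P) (hθ : Polar θ) (hm : ∀ k, 1 ≤ m k) {g : ℂ → PN N} (h : OrderTwo g) (hX : ∀ z, g z ∈ projVar P) (hne : ∃ z w, g z ≠ g w) :
    ∃ c : Fin J → ℂ, c ≠ 0 ∧ ∀ z, ArcAt θ c g z := by
  obtain ⟨F, A, hF, hFf, hA⟩ := h
  have h0 : ∀ z, F z ≠ 0 := fun z => (hFf z).1
  have hFX : ∀ z, F z ∈ cone P := by
    intro z
    obtain ⟨h, e⟩ := hFf z
    have h1 := hX z
    rw [e] at h1
    exact (Pool.Agent.H17EF.mk_mem_projVar hP h).1 h1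
  choose c hc using fun k => theta_const hP (hm k) (θ k) hF hFX hA
  refine ⟨c, ?_, fun z => ⟨F, hF.analyticAt z, Eventually.of_forall fun w => hFf w, Eventually.of_forall fun w => ⟨hFX w, fun k => hc k w⟩⟩⟩
  intro hc0
  obtain ⟨z, w, hzw⟩ := hne
  apply hzw
  have hl : Pool.Agent.H14.V.IsLift (fun z => (WithLp.toLp 2 (F z) : EN N)) g :=
    ⟨(Pool.Agent.H17EF.LE N).differentiable.comp hF, fun z => hFf z⟩
  have hd : ∀ z, deriv (fun z => (WithLp.toLp 2 (F z) : EN N)) z = WithLp.toLp 2 (deriv F z) := by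
    intro z
    exact ((Pool.Agent.H17EF.LE N : (Fin (N + 1) → ℂ) →L[ℂ] EN N).hasFDerivAt.comp_hasDerivAt z (hF z).hasDerivAt).deriv
  have hfs : ∀ z, fs (WithLp.toLp 2 (F z) : EN N) (deriv (fun z => (WithLp.toLp 2 (F z) : EN N)) z) = 0 := by
    intro z
    rw [hd]
    have h1 := no_common_zero hθ hm (hFX z) (cst_deriv_mem (hF z) (Eventually.of_forall hFX)) (fun k => by rw [hc k z, hc0]; rfl)
    obtain ⟨a, ha⟩ := Submodule.mem_span_singleton.1 h1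
    unfold fs
    rw [(Pool.Agent.H36.BP.wd_eq_zero (fun h => h0 z (WithLp.toLp_injective 2 h))).2 ⟨a, by rw [← ha]; rfl⟩, zero_div]
  apply Pool.Agent.H17EF.prP_injective
  rw [hl.prP, hl.prP]
  exact Pool.Agent.H14.V.pr_const hl.1 (fun z => hl.ne_zero z) hfs z w

end Pool.Agent.GG
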