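import Pool.Agent.GG.Defs

/-!
# GG Conc: the conclusion of the theorem
-/

set_option autoImplicit false

open MvPolynomial
open Pool.Agent.H17 (PN VanishesAt)
open Pool.Agent.H17EF (projVar)
open Pool.Agent.H13.OT (OrderTwo)
open Pool.Agent.H17LG.Variety (FunField)
open Pool.Agent.H62.FC (Homog)
open Pool.Agent.TG (sabSpecialSet)

namespace Pool.Agent.GG

variable {N : ℕ}

/-- The conclusion, for the variety `X` of dimension `n` given by the homogeneous prime ideal `P`, and the hypersurface `R = 0`. -/
structure Conclusion (P : Ideal (MvPolynomial (Fin (N + 1)) ℂ)) [P.IsPrime] (n : ℕ) (R : MvPolynomial (Fin (N + 1)) ℂ) : Prop where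
  /-- the form `R` is not `0` on `X` -/
  form : (∃ e, R.IsHomogeneous e) ∧ R ∉ P
  /-- it is `0` on all nonconstant entire curves of order at most two in `X` -/
  curves : ∀ g : ℂ → PN N, OrderTwo g → (∀ z, g z ∈ projVar P) → (∃ z w, g z ≠ g w) → ∀ z, VanishesAt R (g z)
  /-- it is `0` on the special set of `X` -/
  special : ∀ x ∈ sabSpecialSet (projVar P), VanishesAt R x
  /-- the special set of `X` is a proper subset of `X` -/
  proper : sabSpecialSet (projVar P) ≠ projVar P
  /-- the special set of every variety `Y` of the same dimension with a dominant rational map to `X` is a proper subset of `Y`, and so is the special set of every closed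
  subvariety of `Y` which is not contained in a certain proper closed subset `{T = 0}` of `Y` -/
  models : ∀ (M : ℕ) (P' : Ideal (MvPolynomial (Fin (M + 1)) ℂ)) [P'.IsPrime], Homog P' →
    (∃ z : Fin n → FunField P', IsTranscendenceBasis ℂ z) → Nonempty (FunField P →ₐ[ℂ] FunField P') →
    sabSpecialSet (projVar P') ≠ projVar P' ∧ ∃ T : MvPolynomial (Fin (M + 1)) ℂ, (∃ e, T.IsHomogeneous e) ∧ T ∉ P' ∧
      ∀ (P'' : Ideal (MvPolynomial (Fin (M + 1)) ℂ)) [P''.IsPrime], Homog P'' → P' ≤ P'' → T ∉ P'' → sabSpecialSet (projVar P'') ≠ projVar P''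

end Pool.Agent.GG
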