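import Pool.Agent.GG.Defs
import Pool.Agent.H17R.TrBasis

/-!
# GG Hom: the affine part of the variety

PROOF.  `a` with `X a ∉ P`; `𝔓` = the kernel of `ℂ[x] → FunField P`, `x_b ↦ x_b / x_a` (`coordFun`, `ratio`; equivalently the `q` whose homogenisation `R = x_a^D q (x / x_a)`, `D = totalDegree`, is in `P`).  The `x_b / x_a` generate the function field, which has transcendence degree `n`: `n` of them are algebraically independent.
For `q ∉ 𝔓` the homogenisation `R` is homogeneous, `R ∉ P`, `R (x) = x_a^D q (x / x_a)`.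
-/

set_option autoImplicit false

open MvPolynomial Topology Filter Metric
open Pool.Agent.H13.SM (conTan cone)
open Pool.Agent.H17GT (coordFun)
open Pool.Agent.H17LG.Variety (FunField ratio)
open Pool.Agent.H62.FC (Homog)

namespace Pool.Agent.GG

variable {N : ℕ} {P : Ideal (MvPolynomial (Fin (N + 1)) ℂ)}

/-- the homogenisation of `q` with respect to `x_a` -/
private noncomputable def hmg (a : Fin (N + 1)) (q : MvPolynomial (Fin (N + 1)) ℂ) : MvPolynomial (Fin (N + 1)) ℂ :=
  ∑ d ∈ Finset.range (q.totalDegree + 1), X a ^ (q.totalDegree - d) * homogeneousComponent d q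

private theorem hmg_hom (a : Fin (N + 1)) (q : MvPolynomial (Fin (N + 1)) ℂ) : (hmg a q).IsHomogeneous q.totalDegree := by
  unfold hmg
  refine IsHomogeneous.sum _ _ _ fun d hd => ?_
  have h1 := (isHomogeneous_X_pow (R := ℂ) a (q.totalDegree - d)).mul (homogeneousComponent_isHomogeneous d q)
  rwa [Nat.sub_add_cancel (Nat.lt_succ_iff.1 (Finset.mem_range.1 hd))] at h1

private theorem eval_hmg (a : Fin (N + 1)) (q : MvPolynomial (Fin (N + 1)) ℂ) {x : Fin (N + 1) → ℂ} (h : x a ≠ 0) :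
    eval x (hmg a q) = x a ^ q.totalDegree * eval ((x a)⁻¹ • x) q := by
  have h1 : eval ((x a)⁻¹ • x) q = ∑ d ∈ Finset.range (q.totalDegree + 1), ((x a)⁻¹) ^ d * eval x (homogeneousComponent d q) := by
    conv_lhs => rw [← sum_homogeneousComponent q]
    rw [map_sum]
    refine Finset.sum_congr rfl fun d _ => ?_
    have h2 := Pool.Agent.H92.GT.Proj.aeval_scale (K := ℂ) (homogeneousComponent_isHomogeneous d q) (x a)⁻¹ x
    rw [aeval_def, aeval_def] at h2
    exact h2
  rw [h1, Finset.mul_sum]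
  unfold hmg
  rw [map_sum]
  refine Finset.sum_congr rfl fun d hd => ?_
  rw [map_mul, map_pow, eval_X, ← mul_assoc]
  congr 1
  have h2 : d ≤ q.totalDegree := Nat.lt_succ_iff.1 (Finset.mem_range.1 hd)
  rw [inv_pow, ← div_eq_mul_inv, eq_div_iff (pow_ne_zero _ h), ← pow_add, Nat.sub_add_cancel h2]

theorem exists_affine [P.IsPrime] (hP : Homog P) {n : ℕ} (hdim : ∃ z : Fin n → FunField P, IsTranscendenceBasis ℂ z) (ha : ∃ a, X a ∉ P) :
    ∃ (a : Fin (N + 1)) (𝔓 : Ideal (MvPolynomial (Fin (N + 1)) ℂ)), 𝔓.IsPrime ∧ X a ∉ P ∧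
      (∃ b : Fin n → Fin (N + 1), ∀ p : MvPolynomial (Fin n) ℂ, rename b p ∈ 𝔓 → p = 0) ∧
      ∀ q ∉ 𝔓, ∃ (D : ℕ) (R : MvPolynomial (Fin (N + 1)) ℂ), R.IsHomogeneous D ∧ R ∉ P ∧ ∀ x : Fin (N + 1) → ℂ, x a ≠ 0 →
        eval ((x a)⁻¹ • x) q = 0 → eval x R = 0 := by
  obtain ⟨a, ha⟩ := ha
  obtain ⟨z, hz⟩ := hdim
  have hc : coordFun P a ≠ 0 := Pool.Agent.H17R.coordFun_ne_zero_iff.2 ha
  refine ⟨a, RingHom.ker (aeval (fun i => ratio P i a) : MvPolynomial (Fin (N + 1)) ℂ →ₐ[ℂ] FunField P), ?_, ha, ?_, ?_⟩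
  · exact RingHom.ker_isPrime _
  · have halg : Algebra.IsAlgebraic (IntermediateField.adjoin ℂ (Set.range fun i => ratio P i a)) (FunField P) := by
      refine ⟨fun y => ?_⟩
      have h1 : y ∈ IntermediateField.adjoin ℂ (Set.range fun i => ratio P i a) := by
        rw [Pool.Agent.H17R.adjoin_ratio hc]
        exact IntermediateField.mem_top
      exact isAlgebraic_algebraMap (⟨y, h1⟩ : IntermediateField.adjoin ℂ (Set.range fun i => ratio P i a))
    obtain ⟨J, hJ⟩ := Pool.Agent.H92.GT.exists_index halg hz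
    refine ⟨J, fun p hp => ?_⟩
    have h1 : aeval (fun i => ratio P (J i) a) p = 0 := by
      have h2 := RingHom.mem_ker.1 hp
      rw [aeval_rename] at h2
      exact h2
    exact (algebraicIndependent_iff.1 hJ.1) p h1
  · intro q hq
    refine ⟨q.totalDegree, hmg a q, hmg_hom a q, fun h => hq ?_, fun x hx h => by rw [eval_hmg a q hx, h, mul_zero]⟩
    have h1 := (Pool.Agent.H17R.gen_eq_zero_iff hc (hmg_hom a q)).2 h
    have h2 : Pool.Agent.H17R.gen P a (hmg a q) = aeval (fun i => ratio P i a) q := by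
      unfold Pool.Agent.H17R.gen hmg
      conv_rhs => rw [← sum_homogeneousComponent q]
      rw [map_sum, map_sum]
      refine Finset.sum_congr rfl fun d _ => ?_
      rw [map_mul, map_pow, aeval_X, Pool.Agent.H17R.ratio_self hc, one_pow, one_mul]
    rw [h2] at h1
    exact RingHom.mem_ker.2 h1

/-- If the variety has positive dimension some coordinate is not zero on it. -/
theorem exists_X_notMem [P.IsPrime] {n : ℕ} (hn : 1 ≤ n) (hdim : ∃ z : Fin n → FunField P, IsTranscendenceBasis ℂ z) : ∃ a, X a ∉ P := by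
  by_contra h
  push Not at h
  obtain ⟨z, hz⟩ := hdim
  have h0 : ∀ i, coordFun P i = 0 := fun i => not_not.1 fun h1 => Pool.Agent.H17R.coordFun_ne_zero_iff.1 h1 (h i)
  have h1 : ∀ y : FunField P, y ∈ (⊥ : IntermediateField ℂ (FunField P)) := by
    intro y
    obtain ⟨y, hy⟩ := y
    have h2 : y ∈ (⊥ : IntermediateField ℂ (FractionRing (MvPolynomial (Fin (N + 1)) ℂ ⧸ P))) := by
      refine (IntermediateField.adjoin_le_iff.2 ?_) hy
      rintro w ⟨i, j, rfl⟩
      rw [h0 i, zero_div]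
      exact zero_mem _
    obtain ⟨c, hc⟩ := IntermediateField.mem_bot.1 h2
    exact IntermediateField.mem_bot.2 ⟨c, Subtype.ext hc⟩
  have h3 := hz.1.transcendental ⟨0, hn⟩
  obtain ⟨c, hc⟩ := IntermediateField.mem_bot.1 (h1 (z ⟨0, hn⟩))
  rw [← hc] at h3
  exact h3 (isAlgebraic_algebraMap c)

end Pool.Agent.GG
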