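import Pool.Agent.GG.Defs
import Pool.Agent.TG.SaP

/-!
# GG Sab: maps of semi-abelian type

PROOF.  Let `x = [F w]`, `y = [F w'] ≠ x` for the map `F` of `S`; the line `z ↦ F (w + z (w' - w))` is entire, not `0`, with `log ‖·‖ ≤ C (1 + |z|²)`; divide by its zeros (or use the lines lemma of `TG`): an entire curve `g` of order two in `X` (closed), `g 0 = x`, `g 1 = y`.
-/

set_option autoImplicit false

open MvPolynomial Topology Filter Metric
open Pool.Agent.H17 (PN VanishesAt vanishesAt_mk_iff)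
open Pool.Agent.H17EF (projVar LE)
open Pool.Agent.H13.OT (OrderTwo)
open Pool.Agent.TG (sabUnion)
open Pool.Agent.H36.BP (EN OrdTwo)

namespace Pool.Agent.GG

variable {N : ℕ}

theorem sab_vanish {P : Ideal (MvPolynomial (Fin (N + 1)) ℂ)} {R : MvPolynomial (Fin (N + 1)) ℂ} {e : ℕ} (hR : R.IsHomogeneous e)
    (h : ∀ g : ℂ → PN N, OrderTwo g → (∀ z, g z ∈ projVar P) → (∃ z w, g z ≠ g w) → ∀ z, VanishesAt R (g z)) :
    ∀ x ∈ sabUnion (projVar P), VanishesAt R x := by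
  rintro x ⟨S, hSX, ⟨y, hy, z, hz, hyz⟩, hx⟩
  obtain ⟨x', hx', hne⟩ : ∃ x' ∈ Pool.Agent.TG.imageOf S.F, x' ≠ x := by
    by_cases h1 : y = x
    · exact ⟨z, hz, fun h2 => hyz (h1.trans h2.symm)⟩
    · exact ⟨y, hy, h1⟩
  obtain ⟨w, hw, hxw⟩ := hx
  obtain ⟨w', hw', hxw'⟩ := hx'
  obtain ⟨C, hC⟩ := S.growth
  -- the line
  obtain ⟨F, hF⟩ : ∃ F : ℂ → Fin (N + 1) → ℂ, F = fun s => S.F (w + s • (w' - w)) := ⟨_, rfl⟩
  have hFd : Differentiable ℂ F := by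
    rw [hF]
    have h1 : Differentiable ℂ fun s : ℂ => w + s • (w' - w) := by fun_prop
    exact S.differentiable.comp h1
  have hF0 : F 0 = S.F w := by rw [hF]; simp
  have hF1 : F 1 = S.F w' := by rw [hF]; simp
  have hF0n : F 0 ≠ 0 := by rw [hF0]; exact hw
  have hF1n : F 1 ≠ 0 := by rw [hF1]; exact hw'
  obtain ⟨B, hB0, hB⟩ : ∃ B : ℝ, 0 ≤ B ∧ ∀ s : ℂ, ‖F s‖ ≤ Real.exp (B * (1 + ‖s‖ ^ 2)) := by
    refine ⟨|C| * (1 + 2 * ‖w‖ ^ 2 + 2 * ‖w' - w‖ ^ 2), by positivity, fun s => ?_⟩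
    rw [hF]
    refine (hC _).trans (Real.exp_le_exp.2 ?_)
    have h1 : ‖w + s • (w' - w)‖ ≤ ‖w‖ + ‖s‖ * ‖w' - w‖ := (norm_add_le _ _).trans (by rw [norm_smul])
    obtain ⟨a, ha⟩ : ∃ a, a = ‖w‖ := ⟨_, rfl⟩
    obtain ⟨b, hb⟩ : ∃ b, b = ‖w' - w‖ := ⟨_, rfl⟩
    obtain ⟨c, hc⟩ : ∃ c, c = ‖s‖ := ⟨_, rfl⟩
    obtain ⟨d, hd⟩ : ∃ d, d = ‖w + s • (w' - w)‖ := ⟨_, rfl⟩
    have ha0 : 0 ≤ a := by rw [ha]; exact norm_nonneg _
    have hb0 : 0 ≤ b := by rw [hb]; exact norm_nonneg _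
    have hc0 : 0 ≤ c := by rw [hc]; exact norm_nonneg _
    have hd0 : 0 ≤ d := by rw [hd]; exact norm_nonneg _
    rw [← ha, ← hb, ← hc, ← hd]
    rw [← ha, ← hb, ← hc, ← hd] at h1
    have h2 : d ^ 2 ≤ 2 * a ^ 2 + 2 * (c ^ 2 * b ^ 2) := by
      have h3 : d ^ 2 ≤ (a + c * b) ^ 2 := pow_le_pow_left₀ hd0 h1 2
      nlinarith [sq_nonneg (a - c * b)]
    have h4 : 1 + d ^ 2 ≤ (1 + 2 * a ^ 2 + 2 * b ^ 2) * (1 + c ^ 2) := by
      nlinarith [sq_nonneg a, sq_nonneg b, sq_nonneg c, mul_nonneg (sq_nonneg c) (sq_nonneg a), mul_nonneg (sq_nonneg c) (sq_nonneg b)]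
    calc C * (1 + d ^ 2) ≤ |C| * (1 + d ^ 2) := mul_le_mul_of_nonneg_right (le_abs_self C) (by positivity)
      _ ≤ |C| * ((1 + 2 * a ^ 2 + 2 * b ^ 2) * (1 + c ^ 2)) := mul_le_mul_of_nonneg_left h4 (abs_nonneg _)
      _ = _ := by ring
  -- the zero-free curve
  have hEd : Differentiable ℂ fun s => LE N (F s) := (LE N).differentiable.comp hFd
  obtain ⟨G, hG, hG0, hFG⟩ := Pool.Agent.TG.exists_zeroFree hEd ⟨0, fun h1 => hF0n ((LE N).injective (h1.trans (map_zero _).symm))⟩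
  obtain ⟨f, hf⟩ : ∃ f : ℂ → Fin (N + 1) → ℂ, f = fun z => (LE N).symm (G z) := ⟨_, rfl⟩
  have hfd : Differentiable ℂ f := by
    rw [hf]
    exact (LE N).symm.differentiable.comp hG
  have hf0 : ∀ z, f z ≠ 0 := by
    intro z h1
    rw [hf] at h1
    exact hG0 z ((LE N).symm.injective (h1.trans (map_zero _).symm))
  have hFf : ∀ z, ∃ c : ℂ, F z = c • f z := by
    intro z
    obtain ⟨c, hc⟩ := hFG z
    refine ⟨c, ?_⟩
    rw [hf]
    show F z = c • (LE N).symm (G z)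
    rw [← map_smul, ← hc, ContinuousLinearEquiv.symm_apply_apply]
  have hhol : ∀ z, Pool.Agent.H17BP.HolP f z := fun z =>
    ⟨f, hfd.analyticAt z, hf0 z, Eventually.of_forall fun v => ⟨1, one_ne_zero, (one_smul _ _).symm⟩⟩
  have hord : OrdTwo f := by
    refine ⟨B + |Real.log ‖F 0‖|, fun r hr => ?_⟩
    obtain ⟨k, hk⟩ : ∃ k : ℂ, k = ((Real.exp (-(B * (1 + r ^ 2))) : ℝ) : ℂ) := ⟨_, rfl⟩
    have hkn : ‖k‖ = Real.exp (-(B * (1 + r ^ 2))) := by
      rw [hk, Complex.norm_real, Real.norm_of_nonneg (Real.exp_pos _).le]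
    have hk0 : k ≠ 0 := by
      rw [hk]
      exact_mod_cast (Real.exp_pos _).ne'
    refine ⟨fun z => k • F z, (hFd.const_smul k).differentiableOn, fun z hz => ?_, ?_, fun z _ => ?_⟩
    · show ‖k • F z‖ ≤ 1
      rw [norm_smul, hkn]
      have h1 : ‖F z‖ ≤ Real.exp (B * (1 + r ^ 2)) := by
        refine (hB z).trans (Real.exp_le_exp.2 ?_)
        have h2 : ‖z‖ ^ 2 ≤ r ^ 2 := pow_le_pow_left₀ (norm_nonneg _) (mem_ball_zero_iff.1 hz).le 2
        exact mul_le_mul_of_nonneg_left (by linarith) hB0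
      calc Real.exp (-(B * (1 + r ^ 2))) * ‖F z‖ ≤ Real.exp (-(B * (1 + r ^ 2))) * Real.exp (B * (1 + r ^ 2)) :=
            mul_le_mul_of_nonneg_left h1 (Real.exp_pos _).le
        _ = 1 := by rw [← Real.exp_add, neg_add_cancel, Real.exp_zero]
    · show _ ≤ ‖k • F 0‖
      rw [norm_smul, hkn]
      conv_rhs => rw [← Real.exp_log (norm_pos_iff.2 hF0n), ← Real.exp_add]
      apply Real.exp_le_exp.2
      have h1 := neg_abs_le (Real.log ‖F 0‖)
      have h2 : |Real.log ‖F 0‖| * 1 ≤ |Real.log ‖F 0‖| * (1 + r ^ 2) := mul_le_mul_of_nonneg_left (by nlinarith [sq_nonneg r]) (abs_nonneg _)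
      nlinarith
    · obtain ⟨c, hc⟩ := hFf z
      by_cases hc0 : c = 0
      · left
        show k • F z = 0
        rw [hc, hc0, zero_smul, smul_zero]
      · right
        refine ⟨(k * c)⁻¹, inv_ne_zero (mul_ne_zero hk0 hc0), ?_⟩
        show f z = (k * c)⁻¹ • k • F z
        rw [hc, smul_smul, smul_smul, mul_assoc, inv_mul_cancel₀ (mul_ne_zero hk0 hc0), one_smul]
  have hO := Pool.Agent.H13.OT.OrdTwo.orderTwo hf0 hhol hord
  have hev : ∀ Q : MvPolynomial (Fin (N + 1)) ℂ, Differentiable ℂ fun z => eval (f z) Q := by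
    intro Q z
    have h1 : AnalyticAt ℂ (fun v => MvPolynomial.aeval (f v) Q) z :=
      AnalyticAt.aeval_mvPolynomial (fun i => (differentiable_pi.1 hfd i).analyticAt z) Q
    exact h1.differentiableAt
  have hmem : ∀ z, Projectivization.mk ℂ (f z) (hf0 z) ∈ projVar P := by
    intro z Q hQ n hn
    rw [vanishesAt_mk_iff hn]
    by_contra hcon
    refine Pool.Agent.TG.eventually_ne_of_entire hFd ⟨0, hF0n⟩ z ?_
    filter_upwards [(hev Q).continuous.continuousAt.eventually_ne hcon] with v hv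
    by_contra hFv
    apply hv
    obtain ⟨c, hc⟩ := hFf v
    have hc0 : c ≠ 0 := by
      rintro rfl
      rw [zero_smul] at hc
      exact hFv hc
    have h1 : Projectivization.mk ℂ (F v) hFv ∈ projVar P := hSX ⟨w + v • (w' - w), by rw [hF] at hFv; exact hFv, by subst hF; rfl⟩
    have h2 : Projectivization.mk ℂ (F v) hFv = Projectivization.mk ℂ (f v) (hf0 v) := by
      rw [Projectivization.mk_eq_mk_iff']
      exact ⟨c, hc.symm⟩
    rw [h2] at h1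
    exact (vanishesAt_mk_iff hn _ _).1 (h1 Q hQ n hn)
  have h0x : Projectivization.mk ℂ (f 0) (hf0 0) = x := by
    rw [hxw, Projectivization.mk_eq_mk_iff']
    obtain ⟨c, hc⟩ := hFf 0
    have hc0 : c ≠ 0 := by
      rintro rfl
      rw [zero_smul] at hc
      exact hF0n hc
    refine ⟨c⁻¹, ?_⟩
    rw [← hF0, hc, smul_smul, inv_mul_cancel₀ hc0, one_smul]
  have h1x : Projectivization.mk ℂ (f 1) (hf0 1) = x' := by
    rw [hxw', Projectivization.mk_eq_mk_iff']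
    obtain ⟨c, hc⟩ := hFf 1
    have hc0 : c ≠ 0 := by
      rintro rfl
      rw [zero_smul] at hc
      exact hF1n hc
    refine ⟨c⁻¹, ?_⟩
    rw [← hF1, hc, smul_smul, inv_mul_cancel₀ hc0, one_smul]
  have hfin := h (fun z => Projectivization.mk ℂ (f z) (hf0 z)) hO hmem ⟨1, 0, fun h2 => hne (h1x.symm.trans (h2.trans h0x))⟩ 0
  rwa [show Projectivization.mk ℂ (f 0) (hf0 0) = x from h0x] at hfin

end Pool.Agent.GG
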