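import Pool.Agent.GG.Core
import Pool.Agent.GG.Cst
import Pool.Agent.GG.Hom
import Pool.Agent.GG.Sab
import Pool.Agent.GG.Conc
import Pool.Agent.TG.SaS

/-!
# GG Fin: the theorem

`exists_R`: one hypersurface section contains all arcs with constants `c ≠ 0`.  `main`: all nonconstant curves of order two.  `main_sab`: the special set is proper.
-/

set_option autoImplicit false

open MvPolynomial Topology Filter Metric
open Pool.Agent.H13.SM (conTan cone)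
open Pool.Agent.H17 (PN VanishesAt)
open Pool.Agent.H17BP (vanishesAt_mk)
open Pool.Agent.H17EF (projVar)
open Pool.Agent.H13.OT (OrderTwo)
open Pool.Agent.H17LG.Variety (FunField)
open Pool.Agent.H62.FC (Homog)
open Pool.Agent.TG (sabSpecialSet sabUnion sabSpecialSet_subset sabSpecialSet_ne sabUnion_up)

namespace Pool.Agent.GG

variable {N : ℕ} {P : Ideal (MvPolynomial (Fin (N + 1)) ℂ)} {J : ℕ} {m : Fin J → ℕ} {θ : ∀ k, SymSec P (m k)}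

/-- The arcs with constants `c ≠ 0` lie in one hypersurface section. -/
theorem exists_R [P.IsPrime] (hP : Homog P) (hθ : Polar θ) (hm : ∀ k, 1 ≤ m k) {n M : ℕ} (hdim : ∃ z : Fin (n + 1) → FunField P, IsTranscendenceBasis ℂ z)
    (hM : 1 ≤ M) (Ω : CanSec P (n + 1) M) {R₀ : MvPolynomial (Fin (N + 1)) ℂ} {e₀ : ℕ} (hR₀ : R₀.IsHomogeneous e₀) (hR₀P : R₀ ∉ P) (hΩ : Ω.NonzeroOff R₀) :
    ∃ (R : MvPolynomial (Fin (N + 1)) ℂ) (e : ℕ), R.IsHomogeneous e ∧ R ∉ P ∧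
      (∀ (c : Fin J → ℂ) (g : ℂ → PN N) (z : ℂ), c ≠ 0 → ArcAt θ c g z → VanishesAt R (g z)) ∧
      ∀ (f : Frame θ) (a : Fin (N + 1)) (I : Fin (N + 1) → (Unit ⊕ Unit) ⊕ (Fin f.q ⊕ Fin f.q) ⊕ Fin J) (c : Fin J → ℂ) (x v : Fin (N + 1) → ℂ),
        IsTan θ a c x v → v ≠ 0 → Crit (gfam f a) I (pt x v) → eval x R = 0 := by
  classical
  obtain ⟨a, 𝔓, h𝔓, ha, ⟨b', hb'⟩, haff⟩ := exists_affine hP hdim (exists_X_notMem (Nat.succ_le_succ (Nat.zero_le n)) hdim)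
  obtain ⟨f⟩ := exists_frame θ
  have h1 : ∀ p : (Fin (N + 1) → (Unit ⊕ Unit) ⊕ (Fin f.q ⊕ Fin f.q) ⊕ Fin J) × Fin (N + 1), ∃ (D : ℕ) (R : MvPolynomial (Fin (N + 1)) ℂ),
      R.IsHomogeneous D ∧ R ∉ P ∧ ∀ y : Fin (N + 1) → ℂ, y a ≠ 0 → ∀ v c, IsTan θ a c ((y a)⁻¹ • y) v → Crit (gfam f a) p.1 (pt ((y a)⁻¹ • y) v) →
        v p.2 ≠ 0 → eval ((y a)⁻¹ • y) R₀ ≠ 0 → eval y R = 0 := by
    rintro ⟨I, b⟩
    obtain ⟨q, hq, h⟩ := core hP hθ hm f hM Ω hΩ a 𝔓 b' hb' I b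
    obtain ⟨D, R, hRD, hRP, hR⟩ := haff q hq
    exact ⟨D, R, hRD, hRP, fun y hy v c h1 h2 h3 h4 => hR y hy (h _ v c h1 h2 h3 h4)⟩
  choose D Rp hD hRP hRz using h1
  have hRh : (X a * R₀ * ∏ p, Rp p).IsHomogeneous (1 + e₀ + ∑ p, D p) :=
    ((isHomogeneous_X ℂ a).mul hR₀).mul (IsHomogeneous.prod _ _ _ fun p _ => hD p)
  have hRn : X a * R₀ * ∏ p, Rp p ∉ P := by
    intro h
    rcases Ideal.IsPrime.mem_or_mem ‹P.IsPrime› h with h | h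
    · rcases Ideal.IsPrime.mem_or_mem ‹P.IsPrime› h with h | h
      · exact ha h
      · exact hR₀P h
    · obtain ⟨p, -, hp⟩ := (Ideal.IsPrime.prod_mem_iff (p := P)).1 h
      exact hRP p hp
  have harc : ∀ (c : Fin J → ℂ) (g : ℂ → PN N) (z : ℂ), c ≠ 0 → ArcAt θ c g z → VanishesAt (X a * R₀ * ∏ p, Rp p) (g z) := by
    intro c g z hc hg
    obtain ⟨F, hF, hr, -⟩ := id hg
    obtain ⟨hF0, hgz⟩ := hr.self_of_nhds
    rw [hgz, vanishesAt_mk hRh hF0, map_mul, map_mul, eval_X]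
    by_cases h1 : F z a = 0
    · rw [h1, zero_mul, zero_mul]
    by_cases h2 : eval (F z) R₀ = 0
    · rw [h2, mul_zero, zero_mul]
    obtain ⟨h3, h4⟩ := nArc_of_lift hP hg hF hr h1
    obtain ⟨h5, h6⟩ := arcV_of_nArc f h3
    set v := deriv (fun w => (F w a)⁻¹ • F w) z with hv
    have hv0 : v ≠ 0 := ne_zero_of_isTan hm h6 hc
    obtain ⟨b, hb⟩ : ∃ b, v b ≠ 0 := by
      by_contra hcon
      push Not at hcon
      exact hv0 (funext hcon)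
    obtain ⟨I, hI⟩ := exists_row hθ f h6 hv0
    have hcr : Crit (gfam f a) I (pt ((F z a)⁻¹ • F z) v) :=
      crit_of_arc (x := fun w => (F w a)⁻¹ • F w) (t := z) h5 hI
    have h7 : eval (F z) (Rp (I, b)) = 0 := by
      refine hRz (I, b) (F z) h1 v c h6 hcr hb ?_
      have h8 : eval ((F z a)⁻¹ • F z) R₀ = (F z a)⁻¹ ^ e₀ * eval (F z) R₀ := by
        have h9 := Pool.Agent.H92.GT.Proj.aeval_scale (K := ℂ) hR₀ (F z a)⁻¹ (F z)
        rw [aeval_def, aeval_def] at h9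
        exact h9
      rw [h8]
      exact mul_ne_zero (pow_ne_zero _ (inv_ne_zero h1)) h2
    rw [map_prod, Finset.prod_eq_zero (Finset.mem_univ (I, b)) h7, mul_zero]
  refine ⟨_, _, hRh, hRn, harc, fun f' a' I c x v hT hv hcr => ?_⟩
  obtain ⟨y, hy, hy0⟩ := isInit_of_crit hcr
  have hyx : y 0 = x := by
    funext i
    exact congrFun hy0 (Sum.inl i)
  have hN : NArc θ a' c y 0 := nArc_of_const f' hT hy.1 fun l => by
    filter_upwards [hy.2 l] with w hw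
    rw [hw, hy0]
  have hx0 : x ≠ 0 := hT.1.1
  have hc : c ≠ 0 := by
    rintro rfl
    obtain ⟨r, hr⟩ := Submodule.mem_span_singleton.1 (no_common_zero hθ hm hT.1 hT.2.2.1 hT.2.2.2.2)
    have h5 : r * x a' = v a' := congrFun hr a'
    rw [hT.2.1, hT.2.2.2.1, mul_one] at h5
    rw [h5, zero_smul] at hr
    exact hv hr.symm
  set g : ℂ → PN N := fun w => if h : y w ≠ 0 then Projectivization.mk ℂ (y w) h else Projectivization.mk ℂ x hx0 with hg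
  have hr : Rep g y 0 := by
    filter_upwards [hN.2] with w hw
    exact ⟨hw.1.1, dif_pos hw.1.1⟩
  have hvan := harc c g 0 hc (arcAt_of_nArc hN hr)
  obtain ⟨h0, hg0⟩ := hr.self_of_nhds
  rw [hg0, vanishesAt_mk hRh h0, hyx] at hvan
  exact hvan

/-- The nonconstant entire curves of order two lie in one hypersurface section. -/
theorem main [P.IsPrime] (hP : Homog P) (hθ : Polar θ) (hm : ∀ k, 1 ≤ m k) {n M : ℕ} (hdim : ∃ z : Fin (n + 1) → FunField P, IsTranscendenceBasis ℂ z)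
    (hM : 1 ≤ M) (Ω : CanSec P (n + 1) M) {R₀ : MvPolynomial (Fin (N + 1)) ℂ} {e₀ : ℕ} (hR₀ : R₀.IsHomogeneous e₀) (hR₀P : R₀ ∉ P) (hΩ : Ω.NonzeroOff R₀) :
    ∃ (R : MvPolynomial (Fin (N + 1)) ℂ) (e : ℕ), R.IsHomogeneous e ∧ R ∉ P ∧
      ∀ g : ℂ → PN N, OrderTwo g → (∀ z, g z ∈ projVar P) → (∃ z w, g z ≠ g w) → ∀ z, VanishesAt R (g z) := by
  obtain ⟨R, e, hR, hRP, h, -⟩ := exists_R hP hθ hm hdim hM Ω hR₀ hR₀P hΩ
  refine ⟨R, e, hR, hRP, fun g hg hX hne z => ?_⟩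
  obtain ⟨c, hc, hA⟩ := arcAt_of_orderTwo hP hθ hm hg hX hne
  exact h c g z hc (hA z)

/-- The special set is proper. -/
theorem main_sab [P.IsPrime] (hP : Homog P) (hθ : Polar θ) (hm : ∀ k, 1 ≤ m k) {n M : ℕ} (hdim : ∃ z : Fin (n + 1) → FunField P, IsTranscendenceBasis ℂ z)
    (hM : 1 ≤ M) (Ω : CanSec P (n + 1) M) {R₀ : MvPolynomial (Fin (N + 1)) ℂ} {e₀ : ℕ} (hR₀ : R₀.IsHomogeneous e₀) (hR₀P : R₀ ∉ P) (hΩ : Ω.NonzeroOff R₀) :
    sabSpecialSet (projVar P) ≠ projVar P := by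
  obtain ⟨R, e, hR, hRP, h⟩ := main hP hθ hm hdim hM Ω hR₀ hR₀P hΩ
  exact sabSpecialSet_ne hP (exists_X_notMem (Nat.succ_le_succ (Nat.zero_le n)) hdim) hR hRP (sab_vanish hR h)

theorem vanishesAt_mul_left {A B : MvPolynomial (Fin (N + 1)) ℂ} {x : PN N} (h : VanishesAt A x) : VanishesAt (A * B) x := by
  unfold VanishesAt at *
  rw [map_mul, h, zero_mul]

theorem sabUnion_mono {X Y : Set (PN N)} (h : X ⊆ Y) : sabUnion X ⊆ sabUnion Y := by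
  rintro x ⟨S, h1, h2, h3⟩
  exact ⟨S, h1.trans h, h2, h3⟩

theorem projVar_anti {P R : Ideal (MvPolynomial (Fin (N + 1)) ℂ)} (h : P ≤ R) : projVar R ⊆ projVar P := by
  intro x hx G hG n hn
  exact hx G (h hG) n hn

/-- The theorem. -/
theorem conclusion [P.IsPrime] (hP : Homog P) (hθ : Polar θ) (hm : ∀ k, 1 ≤ m k) {n M : ℕ} (hdim : ∃ z : Fin (n + 1) → FunField P, IsTranscendenceBasis ℂ z)
    (hM : 1 ≤ M) (Ω : CanSec P (n + 1) M) {R₀ : MvPolynomial (Fin (N + 1)) ℂ} {e₀ : ℕ} (hR₀ : R₀.IsHomogeneous e₀) (hR₀P : R₀ ∉ P) (hΩ : Ω.NonzeroOff R₀) :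
    ∃ R, Conclusion P (n + 1) R := by
  obtain ⟨R, e, hR, hRP, h⟩ := main hP hθ hm hdim hM Ω hR₀ hR₀P hΩ
  have hsab := sab_vanish hR h
  refine ⟨R, ⟨⟨⟨e, hR⟩, hRP⟩, h, sabSpecialSet_subset hR hsab,
    sabSpecialSet_ne hP (exists_X_notMem (Nat.succ_le_succ (Nat.zero_le n)) hdim) hR hRP hsab, ?_⟩⟩
  rintro M P' hprime hP' ⟨z', hz'⟩ ⟨f⟩
  obtain ⟨z, hz⟩ := hdim
  obtain ⟨T, eT, hT, hTP, hTv⟩ := sabUnion_up hP hP' hz hz' f hR hRP hsab
  obtain ⟨j, hj⟩ := exists_X_notMem (Nat.succ_le_succ (Nat.zero_le n)) ⟨z', hz'⟩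
  refine ⟨sabSpecialSet_ne hP' ⟨j, hj⟩ hT hTP hTv, T * X j, ⟨_, hT.mul (isHomogeneous_X ℂ j)⟩, ?_, ?_⟩
  · intro h
    rcases Ideal.IsPrime.mem_or_mem inferInstance h with h1 | h1
    · exact hTP h1
    · exact hj h1
  · intro Rr hRprime hRh hPR hTR
    have hTR1 : T ∉ Rr := fun h => hTR (Ideal.mul_mem_right _ _ h)
    have hTR2 : (X j : MvPolynomial (Fin (M + 1)) ℂ) ∉ Rr := fun h => hTR (Ideal.mul_mem_left _ _ h)
    exact sabSpecialSet_ne hRh ⟨j, hTR2⟩ hT hTR1 fun x hx => hTv x (sabUnion_mono (projVar_anti hPR) hx)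

end Pool.Agent.GG
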