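import Pool.Agent.GG.Ode

/-!
# GG OdeG: `exists_flow` and uniqueness (file `Ode`, helper77) for functions on a finite type

PROOF: transport along `Fintype.equivFin ι` (`LinearEquiv.funCongrLeft`).
-/

set_option autoImplicit false

open Topology Filter Metric

namespace Pool.Agent.GG

private theorem transport_field {ι : Type} [Fintype ι] {n : ℕ} (L : (ι → ℂ) ≃L[ℂ] (Fin n → ℂ)) {V : (ι → ℂ) → (ι → ℂ)} {x₀ : ι → ℂ}
    (hV : AnalyticAt ℂ V x₀) : AnalyticAt ℂ (fun y => L (V (L.symm y))) (L x₀) := by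
  have h1 : AnalyticAt ℂ (fun y : Fin n → ℂ => L.symm y) (L x₀) := L.symm.analyticAt _
  have h2 : AnalyticAt ℂ V (L.symm (L x₀)) := by rwa [L.symm_apply_apply]
  have h3 : AnalyticAt ℂ (fun y : Fin n → ℂ => V (L.symm y)) (L x₀) := AnalyticAt.comp (g := V) (f := fun y : Fin n → ℂ => L.symm y) h2 h1
  exact AnalyticAt.comp (g := fun y : ι → ℂ => L y) (f := fun y : Fin n → ℂ => V (L.symm y)) (L.analyticAt _) h3

theorem exists_flowG {ι : Type} [Fintype ι] {V : (ι → ℂ) → (ι → ℂ)} {x₀ : ι → ℂ} (hV : AnalyticAt ℂ V x₀) :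
    ∃ r > 0, ∃ H : ℂ × (ι → ℂ) → (ι → ℂ), (∀ q ∈ ball (0 : ℂ) r ×ˢ ball x₀ r, AnalyticAt ℂ H q) ∧
      (∀ x ∈ ball x₀ r, H (0, x) = x) ∧
      ∀ x ∈ ball x₀ r, ∀ z ∈ ball (0 : ℂ) r, AnalyticAt ℂ V (H (z, x)) ∧ HasDerivAt (fun z => H (z, x)) (V (H (z, x))) z := by
  classical
  obtain ⟨L, -⟩ : ∃ L : (ι → ℂ) ≃L[ℂ] (Fin (Fintype.card ι) → ℂ), True :=
    ⟨(LinearEquiv.funCongrLeft ℂ ℂ (Fintype.equivFin ι).symm).toContinuousLinearEquiv, trivial⟩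
  have hev : ∀ᶠ y in 𝓝 (L x₀), AnalyticAt ℂ V (L.symm y) := by
    have h1 : ∀ᶠ x in 𝓝 x₀, AnalyticAt ℂ V x := hV.eventually_analyticAt
    have h2 : Tendsto (fun y => L.symm y) (𝓝 (L x₀)) (𝓝 x₀) := by
      have := L.symm.continuous.tendsto (L x₀)
      rwa [L.symm_apply_apply] at this
    exact h2.eventually h1
  obtain ⟨ρ, hρ, hB⟩ := Metric.eventually_nhds_iff_ball.1 hev
  obtain ⟨r', hr', H, hHa, hH0, hHd⟩ := exists_flow (transport_field L hV) hρ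
  obtain ⟨δ, hδ, hδL⟩ : ∃ δ > 0, ∀ x ∈ ball x₀ δ, L x ∈ ball (L x₀) r' := by
    have h1 : ∀ᶠ x in 𝓝 x₀, L x ∈ ball (L x₀) r' := L.continuous.continuousAt.eventually_mem (ball_mem_nhds _ hr')
    exact Metric.eventually_nhds_iff_ball.1 h1
  refine ⟨min r' δ, lt_min hr' hδ, fun q => L.symm (H (q.1, L q.2)), ?_, ?_, ?_⟩
  · rintro ⟨z, x⟩ ⟨hz, hx⟩
    have h1 : AnalyticAt ℂ H (z, L x) := hHa z (ball_subset_ball (min_le_left _ _) hz) (L x) (hδL x (ball_subset_ball (min_le_right _ _) hx))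
    have h2 : AnalyticAt ℂ (fun q : ℂ × (ι → ℂ) => (q.1, L q.2)) (z, x) :=
      AnalyticAt.prod analyticAt_fst (AnalyticAt.comp (g := fun y : ι → ℂ => L y) (f := fun q : ℂ × (ι → ℂ) => q.2) (L.analyticAt _) analyticAt_snd)
    have h3 : AnalyticAt ℂ (fun q : ℂ × (ι → ℂ) => H (q.1, L q.2)) (z, x) :=
      AnalyticAt.comp (g := H) (f := fun q : ℂ × (ι → ℂ) => (q.1, L q.2)) h1 h2
    exact AnalyticAt.comp (g := fun y => L.symm y) (f := fun q : ℂ × (ι → ℂ) => H (q.1, L q.2)) (L.symm.analyticAt _) h3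
  · intro x hx
    show L.symm (H (0, L x)) = x
    rw [hH0 _ (hδL x (ball_subset_ball (min_le_right _ _) hx)), L.symm_apply_apply]
  · intro x hx z hz
    have h1 := hHd z (ball_subset_ball (min_le_left _ _) hz) (L x) (hδL x (ball_subset_ball (min_le_right _ _) hx))
    refine ⟨hB _ h1.1, ?_⟩
    have h2 := (L.symm : (Fin (Fintype.card ι) → ℂ) →L[ℂ] (ι → ℂ)).hasFDerivAt.comp_hasDerivAt z h1.2
    have h3 : (L.symm : (Fin (Fintype.card ι) → ℂ) →L[ℂ] (ι → ℂ)) (L (V (L.symm (H (z, L x))))) = V (L.symm (H (z, L x))) := L.symm_apply_apply _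
    rw [h3] at h2
    exact h2

theorem ode_uniqueG {ι : Type} [Fintype ι] {V : (ι → ℂ) → (ι → ℂ)} {y₁ y₂ : ℂ → ι → ℂ} {t : ℂ} (hV : AnalyticAt ℂ V (y₁ t))
    (e : y₁ t = y₂ t) (d1 : ∀ᶠ s in 𝓝 t, HasDerivAt y₁ (V (y₁ s)) s)
    (d2 : ∀ᶠ s in 𝓝 t, HasDerivAt y₂ (V (y₂ s)) s) : ∀ᶠ s in 𝓝 t, y₁ s = y₂ s := by
  classical
  obtain ⟨L, -⟩ : ∃ L : (ι → ℂ) ≃L[ℂ] (Fin (Fintype.card ι) → ℂ), True :=
    ⟨(LinearEquiv.funCongrLeft ℂ ℂ (Fintype.equivFin ι).symm).toContinuousLinearEquiv, trivial⟩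
  have key : ∀ y : ℂ → ι → ℂ, (∀ᶠ s in 𝓝 t, HasDerivAt y (V (y s)) s) →
      ∀ᶠ s in 𝓝 t, HasDerivAt (fun s => L (y s)) (L (V (L.symm (L (y s))))) s := by
    intro y hy
    filter_upwards [hy] with s hs
    rw [L.symm_apply_apply]
    exact (L : (ι → ℂ) →L[ℂ] (Fin (Fintype.card ι) → ℂ)).hasFDerivAt.comp_hasDerivAt s hs
  have h := flow_unique_nhds (V := fun y => L (V (L.symm y))) (f := fun s => L (y₁ s)) (g := fun s => L (y₂ s)) (a := t)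
    (transport_field L hV) (by rw [e]) (key y₁ d1) (key y₂ d2)
  filter_upwards [h] with s hs
  exact L.injective hs

end Pool.Agent.GG
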