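import Pool.Agent.GG.ArcOde
import Pool.Agent.GG.OdeG

/-!
# GG CritArc: the algebraic criterion gives arcs

PROOF of `const_of_crit`.  Let `g_k (s) = (Dt^(k+1) (G l)) (y s)`, analytic near `t`, `g_k (t) = 0` for all `k`, `g_k' = g_(k+1) / δ`, `δ (s) = vdet (y s) ≠ 0`
(`hasDerivAt_eval`).  The order of vanishing of `g_(k+1)` at `t` is the order of `g_k` minus one, so the order of `g_0` is infinite and `(Dt (G l)) (y s) = 0`
near `t`: `G l (y s)` has derivative `0`.
`isInit_of_crit`: the solution of `exists_flowG` for `V = W G J` with the initial value `y₀`; `x = ` its `inl` part, `x' = ` its `inr` part because `W (inl b) = y (inr b)`.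
-/

set_option autoImplicit false

open MvPolynomial Topology Filter Metric

namespace Pool.Agent.GG

variable {N : ℕ} {ι : Type} {G : ι → MvPolynomial (Ph N) ℂ} {J : Fin (N + 1) → ι}

private theorem CritArc_eval {y : ℂ → Ph N → ℂ} {t : ℂ} (hy : AnalyticAt ℂ y t) (g : MvPolynomial (Ph N) ℂ) :
    AnalyticAt ℂ (fun s => eval (y s) g) t :=
  AnalyticAt.comp (g := fun y : Ph N → ℂ => eval y g) (f := y) (AnalyticOnNhd.eval_mvPolynomial g (y t) (Set.mem_univ _)) hy

/-- the vector field is analytic -/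
theorem analyticAt_W {y : Ph N → ℂ} (hy : eval y (vdet G J) ≠ 0) : AnalyticAt ℂ (W G J) y := by
  rw [analyticAt_pi_iff]
  intro s
  exact (AnalyticOnNhd.eval_mvPolynomial (fld G J s) y (Set.mem_univ _)).div
    (AnalyticOnNhd.eval_mvPolynomial (vdet G J) y (Set.mem_univ _)) hy

theorem const_of_crit {y : ℂ → Ph N → ℂ} {t : ℂ} (hy : AnalyticAt ℂ y t) (hd : ∀ᶠ s in 𝓝 t, HasDerivAt y (W G J (y s)) s)
    (hc : Crit G J (y t)) (l : ι) : ∀ᶠ s in 𝓝 t, eval (y s) (G l) = eval (y t) (G l) := by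
  set g : ℕ → ℂ → ℂ := fun k s => eval (y s) ((⇑(Dt G J))^[k + 1] (G l)) with hg
  have hga : ∀ k, AnalyticAt ℂ (g k) t := fun k => CritArc_eval hy _
  have hg0 : ∀ k, g k t = 0 := fun k => hc.2 l k
  have hδa : AnalyticAt ℂ (fun s => eval (y s) (vdet G J)) t := CritArc_eval hy _
  have hgd : ∀ k, deriv (g k) =ᶠ[𝓝 t] fun s => g (k + 1) s * (eval (y s) (vdet G J))⁻¹ := by
    intro k
    filter_upwards [hd] with s hs
    have h1 := hasDerivAt_eval hs ((⇑(Dt G J))^[k + 1] (G l))
    rw [h1.deriv, ← Function.iterate_succ_apply' (⇑(Dt G J)) (k + 1) (G l), div_eq_mul_inv]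
  have hord : ∀ k, analyticOrderAt (g k) t = analyticOrderAt (g (k + 1)) t + 1 := by
    intro k
    have h1 := (hga k).analyticOrderAt_deriv_add_one
    simp only [hg0 k, sub_zero] at h1
    have h2 : analyticOrderAt (deriv (g k)) t = analyticOrderAt (g (k + 1)) t := by
      rw [analyticOrderAt_congr (hgd k)]
      have h3 : AnalyticAt ℂ (fun s => (eval (y s) (vdet G J))⁻¹) t := hδa.inv hc.1
      have h4 : analyticOrderAt (fun s => (eval (y s) (vdet G J))⁻¹) t = 0 := by
        rw [h3.analyticOrderAt_eq_zero]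
        exact inv_ne_zero hc.1
      have h5 := analyticOrderAt_mul (hga (k + 1)) h3
      rw [h4, add_zero] at h5
      exact h5
    rw [← h2, h1]
  have hiter : ∀ n : ℕ, analyticOrderAt (g 0) t = analyticOrderAt (g n) t + n := by
    intro n
    induction n with
    | zero => simp
    | succ n ih =>
      rw [ih, hord n]
      push_cast
      rw [add_assoc, add_comm (1 : ℕ∞) (n : ℕ∞)]
  have htop : analyticOrderAt (g 0) t = ⊤ := by
    by_contra hne
    obtain ⟨n, hn⟩ := ENat.ne_top_iff_exists.1 hne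
    have h1 := hiter (n + 1)
    rw [← hn] at h1
    have h2 : ((n + 1 : ℕ) : ℕ∞) ≤ (n : ℕ∞) := by
      rw [h1]
      exact le_add_self
    have h3 : n + 1 ≤ n := by exact_mod_cast h2
    omega
  rw [analyticOrderAt_eq_top] at htop
  have hder : ∀ᶠ s in 𝓝 t, HasDerivAt (fun s => eval (y s) (G l)) 0 s := by
    filter_upwards [hd, htop] with s hs1 hs2
    have h1 := hasDerivAt_eval hs1 (G l)
    have h2 : eval (y s) (Dt G J (G l)) = 0 := hs2
    rwa [h2, zero_div] at h1
  obtain ⟨r, hr, hball⟩ := Metric.eventually_nhds_iff_ball.1 hder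
  filter_upwards [ball_mem_nhds t hr] with s hs
  have h1 : DifferentiableOn ℂ (fun s => eval (y s) (G l)) (ball t r) := fun z hz => (hball z hz).differentiableAt.differentiableWithinAt
  refine (convex_ball t r).is_const_of_fderivWithin_eq_zero (𝕜 := ℂ) h1 ?_ hs (mem_ball_self hr)
  intro z hz
  rw [fderivWithin_of_isOpen isOpen_ball hz]
  have h2 := (hball z hz).hasFDerivAt.fderiv
  rw [h2]
  ext
  simp

theorem isInit_of_crit {y₀ : Ph N → ℂ} (hc : Crit G J y₀) : IsInit G y₀ := by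
  obtain ⟨r, hr, H, hH, hH0, hHd⟩ := exists_flowG (analyticAt_W hc.1)
  set y : ℂ → Ph N → ℂ := fun s => H (s, y₀) with hy
  have hy0 : y 0 = y₀ := hH0 y₀ (mem_ball_self hr)
  have hya : AnalyticAt ℂ y 0 := by
    have h1 : AnalyticAt ℂ H ((0 : ℂ), y₀) := hH _ ⟨mem_ball_self hr, mem_ball_self hr⟩
    have h2 : AnalyticAt ℂ (fun s : ℂ => (s, y₀)) 0 := analyticAt_id.prod analyticAt_const
    exact AnalyticAt.comp (g := H) (f := fun s : ℂ => (s, y₀)) h1 h2
  have hyd : ∀ᶠ s in 𝓝 (0 : ℂ), HasDerivAt y (W G J (y s)) s := by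
    filter_upwards [ball_mem_nhds (0 : ℂ) hr] with s hs
    exact (hHd y₀ (mem_ball_self hr) s hs).2
  have hΔ : ∀ᶠ s in 𝓝 (0 : ℂ), eval (y s) (vdet G J) ≠ 0 := by
    have h1 : ContinuousAt (fun s => eval (y s) (vdet G J)) 0 := (CritArc_eval hya _).continuousAt
    refine h1.eventually_ne ?_
    rw [hy0]
    exact hc.1
  set x : ℂ → Fin (N + 1) → ℂ := fun s b => y s (Sum.inl b) with hx
  have hxa : AnalyticAt ℂ x 0 := by
    rw [analyticAt_pi_iff]
    intro b
    exact (analyticAt_pi_iff.1 hya) (Sum.inl b)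
  have hxd : ∀ᶠ s in 𝓝 (0 : ℂ), pt (x s) (deriv x s) = y s := by
    filter_upwards [hyd, hΔ] with s hs1 hs2
    have h1 : HasDerivAt x (fun b => y s (Sum.inr b)) s := by
      rw [hasDerivAt_pi]
      intro b
      have h2 := (hasDerivAt_pi.1 hs1) (Sum.inl b)
      have h3 : W G J (y s) (Sum.inl b) = y s (Sum.inr b) := by
        simp only [W, fld, Sum.elim_inl, map_mul, eval_X]
        rw [mul_comm, mul_div_assoc, div_self hs2, mul_one]
      rwa [h3] at h2
    rw [h1.deriv]
    funext c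
    cases c with
    | inl b => rfl
    | inr b => rfl
  refine ⟨x, ⟨hxa, fun l => ?_⟩, ?_⟩
  · have h0 := hxd.self_of_nhds
    have hc' : Crit G J (y 0) := by rwa [hy0]
    filter_upwards [const_of_crit hya hyd hc' l, hxd] with s h1 h2
    rw [h2, h0]
    exact h1
  · rw [hxd.self_of_nhds, hy0]

end Pool.Agent.GG
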