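import Pool.Agent.GG.CritArc

/-!
# GG Loc: flow boxes

PROOF.  `V = W G J` is analytic at `Y`; `H₀` = flow of `exists_flowG`, `H = ` its `inl` part; `∂H/∂z` is its `inr` part (`W (inl b) = y (inr b)` where `vdet ≠ 0`, so shrink `r` such that `vdet ≠ 0` on the values of `H₀`).
`uniq`: `arc_ode` and `ode_uniqueG` for `s ↦ H₀ (s - t, y)`.  `const`: if `y` is the initial vector of an arc `x` then `x = H (·, y)` near `0`, so `G l (H, ∂H/∂z)` is constant near `0`, hence on the ball (identity theorem).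
`bound`: shrink `r` (continuity at `(0, Y)`).
-/

set_option autoImplicit false

open MvPolynomial Topology Filter Metric

namespace Pool.Agent.GG

variable {N : ℕ} {ι : Type} {G : ι → MvPolynomial (Ph N) ℂ} {J : Fin (N + 1) → ι}

private theorem Loc_inl {y : Ph N → ℂ} (h : eval y (vdet G J) ≠ 0) (b : Fin (N + 1)) : W G J y (Sum.inl b) = y (Sum.inr b) := by
  simp only [W, fld, Sum.elim_inl, map_mul, eval_X]
  rw [mul_comm, mul_div_assoc, div_self h, mul_one]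

/-- the box, before the choice of the constant -/
private theorem Loc_box {Y : Ph N → ℂ} (h : eval Y (vdet G J) ≠ 0) :
    ∃ r > 0, ∃ (K : ℝ) (H₀ : ℂ × (Ph N → ℂ) → (Ph N → ℂ)), ∀ q ∈ ball (0 : ℂ) r ×ˢ ball Y r,
      AnalyticAt ℂ H₀ q ∧ H₀ (0, q.2) = q.2 ∧ HasDerivAt (fun z => H₀ (z, q.2)) (W G J (H₀ q)) q.1 ∧ eval (H₀ q) (vdet G J) ≠ 0 ∧
        ‖H₀ q‖ ≤ K ∧ ‖fderiv ℂ H₀ q‖ ≤ K := by
  obtain ⟨r₀, hr₀, H₀, hHa, hH0, hHd⟩ := exists_flowG (analyticAt_W h)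
  have hc : AnalyticAt ℂ H₀ ((0 : ℂ), Y) := hHa _ ⟨mem_ball_self hr₀, mem_ball_self hr₀⟩
  have hY : H₀ ((0 : ℂ), Y) = Y := hH0 Y (mem_ball_self hr₀)
  have h1 : ∀ᶠ q in 𝓝 ((0 : ℂ), Y), eval (H₀ q) (vdet G J) ≠ 0 := by
    have h2 : ContinuousAt (fun q => eval (H₀ q) (vdet G J)) ((0 : ℂ), Y) :=
      (AnalyticAt.comp (g := fun y : Ph N → ℂ => eval y (vdet G J)) (f := H₀)
        (AnalyticOnNhd.eval_mvPolynomial (vdet G J) (H₀ ((0 : ℂ), Y)) (Set.mem_univ _)) hc).continuousAt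
    refine h2.eventually_ne ?_
    rwa [hY]
  have h2 : ∀ᶠ q in 𝓝 ((0 : ℂ), Y), ‖H₀ q‖ < ‖H₀ ((0 : ℂ), Y)‖ + 1 :=
    hc.continuousAt.norm.eventually_lt continuousAt_const (lt_add_one _)
  have h3 : ∀ᶠ q in 𝓝 ((0 : ℂ), Y), ‖fderiv ℂ H₀ q‖ < ‖fderiv ℂ H₀ ((0 : ℂ), Y)‖ + 1 :=
    hc.fderiv.continuousAt.norm.eventually_lt continuousAt_const (lt_add_one _)
  obtain ⟨δ, hδ, hB⟩ := Metric.eventually_nhds_iff_ball.1 (h1.and (h2.and h3))
  refine ⟨min r₀ δ, lt_min hr₀ hδ, max (‖H₀ ((0 : ℂ), Y)‖ + 1) (‖fderiv ℂ H₀ ((0 : ℂ), Y)‖ + 1), H₀, ?_⟩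
  rintro ⟨z, y⟩ ⟨hz, hy⟩
  have hz0 : z ∈ ball (0 : ℂ) r₀ := ball_subset_ball (min_le_left _ _) hz
  have hy0 : y ∈ ball Y r₀ := ball_subset_ball (min_le_left _ _) hy
  have hq : (z, y) ∈ ball ((0 : ℂ), Y) δ := by
    rw [← ball_prod_same]
    exact ⟨ball_subset_ball (min_le_right _ _) hz, ball_subset_ball (min_le_right _ _) hy⟩
  obtain ⟨g1, g2, g3⟩ := hB _ hq
  exact ⟨hHa _ ⟨hz0, hy0⟩, hH0 y hy0, (hHd y hy0 z hz0).2, g1, g2.le.trans (le_max_left _ _), g3.le.trans (le_max_right _ _)⟩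

theorem exists_Flow {Y : Ph N → ℂ} (h : eval Y (vdet G J) ≠ 0) :
    ∃ r > 0, ∃ (K : ℝ) (H : ℂ × (Ph N → ℂ) → Fin (N + 1) → ℂ), Flow G Y r r K H := by
  obtain ⟨r, hr, K, H₀, hH⟩ := Loc_box h
  have h00 : (0 : ℂ) ∈ ball (0 : ℂ) r := mem_ball_self hr
  -- the derivative of the first half
  have hd : ∀ q ∈ ball (0 : ℂ) r ×ˢ ball Y r, HasDerivAt (fun z => fun b => H₀ (z, q.2) (Sum.inl b)) (fun b => H₀ q (Sum.inr b)) q.1 := by
    intro q hq
    obtain ⟨-, -, g3, g4, -⟩ := hH q hq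
    rw [hasDerivAt_pi]
    intro b
    have h2 := (hasDerivAt_pi.1 g3) (Sum.inl b)
    rwa [Loc_inl g4] at h2
  have hpt : ∀ q ∈ ball (0 : ℂ) r ×ˢ ball Y r,
      pt (fun b => H₀ q (Sum.inl b)) (deriv (fun z => fun b => H₀ (z, q.2) (Sum.inl b)) q.1) = H₀ q := by
    intro q hq
    rw [(hd q hq).deriv]
    funext c
    cases c with
    | inl b => rfl
    | inr b => rfl
  have hdet : ∀ y ∈ ball Y r, eval y (vdet G J) ≠ 0 := by
    intro y hy
    obtain ⟨-, g2, -, g4, -⟩ := hH ((0 : ℂ), y) ⟨h00, hy⟩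
    have g2' : H₀ ((0 : ℂ), y) = y := g2
    rwa [g2'] at g4
  -- uniqueness
  have huniq : ∀ (x : ℂ → Fin (N + 1) → ℂ) (t : ℂ), ArcV G x t → pt (x t) (deriv x t) ∈ ball Y r →
      ∀ᶠ s in 𝓝 t, pt (x s) (deriv x s) = H₀ (s - t, pt (x t) (deriv x t)) := by
    intro x t hx hy
    obtain ⟨y, hydef⟩ : ∃ y, y = pt (x t) (deriv x t) := ⟨_, rfl⟩
    rw [← hydef] at hy ⊢
    have hv : eval (pt (x t) (deriv x t)) (vdet G J) ≠ 0 := by rw [← hydef]; exact hdet y hy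
    have d1 := arc_ode hx hv
    have hyt : H₀ (t - t, y) = y := by
      rw [sub_self]
      exact (hH ((0 : ℂ), y) ⟨h00, hy⟩).2.1
    refine ode_uniqueG (V := W G J) (y₁ := fun s => pt (x s) (deriv x s)) (y₂ := fun s => H₀ (s - t, y)) (analyticAt_W hv) ?_ d1 ?_
    · show pt (x t) (deriv x t) = H₀ (t - t, y)
      rw [hyt, hydef]
    · have h1 : ∀ᶠ s in 𝓝 t, s - t ∈ ball (0 : ℂ) r := by
        have h2 : Tendsto (fun s : ℂ => s - t) (𝓝 t) (𝓝 (t - t)) := (continuous_id.sub continuous_const).tendsto t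
        rw [sub_self] at h2
        exact h2.eventually (ball_mem_nhds _ hr)
      filter_upwards [h1] with s hs
      have h2 := (hH (s - t, y) ⟨hs, hy⟩).2.2.1
      have h3 : HasDerivAt (fun s : ℂ => s - t) 1 s := (hasDerivAt_id s).sub_const t
      have h4 := HasDerivAt.scomp s (h := fun s : ℂ => s - t) (g₁ := fun z => H₀ (z, y)) h2 h3
      rw [one_smul] at h4
      exact h4
  refine ⟨r, hr, K, fun q b => H₀ q (Sum.inl b), ⟨?_, ?_, ?_, ?_, ?_, ?_⟩⟩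
  · intro q hq
    rw [analyticAt_pi_iff]
    intro b
    exact (analyticAt_pi_iff.1 (hH q hq).1) (Sum.inl b)
  · intro y hy
    have h1 : H₀ ((0 : ℂ), y) = y := (hH ((0 : ℂ), y) ⟨h00, hy⟩).2.1
    funext b
    show H₀ ((0 : ℂ), y) (Sum.inl b) = y (Sum.inl b)
    rw [h1]
  · intro y hy
    have h1 : H₀ ((0 : ℂ), y) = y := (hH ((0 : ℂ), y) ⟨h00, hy⟩).2.1
    have h2 := (hd ((0 : ℂ), y) ⟨h00, hy⟩).deriv
    rw [h1] at h2
    exact h2
  · intro y hy hini z hz l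
    have h1 := hpt (z, y) ⟨hz, hy⟩
    show eval (pt (fun b => H₀ (z, y) (Sum.inl b)) (deriv (fun z => fun b => H₀ (z, y) (Sum.inl b)) z)) (G l) = eval y (G l)
    rw [h1]
    obtain ⟨x, hx, hxy⟩ := hini
    have h2 := huniq x 0 hx (by rw [hxy]; exact hy)
    rw [hxy] at h2
    have h3 : (fun s => eval (H₀ (s, y)) (G l)) =ᶠ[𝓝 0] fun _ => eval y (G l) := by
      filter_upwards [h2, hx.2 l] with s e1 e2
      rw [sub_zero] at e1
      rw [← e1, e2, hxy]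
    have h4 : AnalyticOnNhd ℂ (fun s => eval (H₀ (s, y)) (G l)) (ball (0 : ℂ) r) := by
      intro s hs
      have h5 : AnalyticAt ℂ H₀ (s, y) := (hH (s, y) ⟨hs, hy⟩).1
      have h6 : AnalyticAt ℂ (fun s : ℂ => (s, y)) s := analyticAt_id.prod analyticAt_const
      have h7 : AnalyticAt ℂ (fun s : ℂ => H₀ (s, y)) s := AnalyticAt.comp (g := H₀) (f := fun s : ℂ => (s, y)) h5 h6
      exact AnalyticAt.comp (g := fun y : Ph N → ℂ => eval y (G l)) (f := fun s : ℂ => H₀ (s, y))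
        (AnalyticOnNhd.eval_mvPolynomial (G l) (H₀ (s, y)) (Set.mem_univ _)) h7
    exact h4.eqOn_of_preconnected_of_eventuallyEq (g := fun _ => eval y (G l)) (fun _ _ => analyticAt_const) (convex_ball (0 : ℂ) r).isPreconnected h00 h3 hz
  · intro x t hx hy
    filter_upwards [huniq x t hx hy] with s hs
    funext b
    show x s b = H₀ (s - t, pt (x t) (deriv x t)) (Sum.inl b)
    rw [← hs]
    rfl
  · intro q hq
    obtain ⟨-, -, -, -, g5, g6⟩ := hH q hq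
    refine ⟨?_, ?_, ?_⟩
    · refine (pi_norm_le_iff_of_nonneg ((norm_nonneg _).trans g5)).2 fun b => (norm_le_pi_norm (H₀ q) (Sum.inl b)).trans g5
    · rw [(hd q hq).deriv]
      refine (pi_norm_le_iff_of_nonneg ((norm_nonneg _).trans g5)).2 fun b => (norm_le_pi_norm (H₀ q) (Sum.inr b)).trans g5
    · have h1 : (fun q : ℂ × (Ph N → ℂ) => pt (fun b => H₀ q (Sum.inl b)) (deriv (fun z => fun b => H₀ (z, q.2) (Sum.inl b)) q.1)) =ᶠ[𝓝 q] H₀ := by
        filter_upwards [(isOpen_ball.prod isOpen_ball).mem_nhds hq] with p hp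
        exact hpt p hp
      rw [h1.fderiv_eq]
      exact g6

end Pool.Agent.GG
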