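import Pool.Agent.GG.Kcpt
import Pool.Agent.GG.Loc

/-!
# GG Unif: flow boxes of a uniform size

PROOF.  For `Y ∈ Kset θ a C`: `v ≠ 0` (`ne_zero_of_isTan`), `exists_row` and `exists_Flow` give `r_Y, K_Y, H_Y`.  Finitely many balls `ball Y (r_Y / 2)` cover the compact set, for the finitely many `a`; `r` = the minimum of the `r_Y / 2`, `K` = the maximum.
For `Y' ∈ ball Y (r_Y / 2)`: `ε = r_Y / 2`, `H = H_Y` (`ball Y' ε ⊆ ball Y r_Y`; all fields are monotone).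
-/

set_option autoImplicit false

open MvPolynomial Topology Filter Metric
open Pool.Agent.H13.SM (conTan cone)

namespace Pool.Agent.GG

variable {N : ℕ} {P : Ideal (MvPolynomial (Fin (N + 1)) ℂ)} {J : ℕ} {m : Fin J → ℕ} {θ : ∀ k, SymSec P (m k)}

/-- smaller flow boxes -/
theorem Flow.anti {ι : Type} {G : ι → MvPolynomial (Ph N) ℂ} {Y Y' : Ph N → ℂ} {r r' ε ε' K K' : ℝ} {H : ℂ × (Ph N → ℂ) → Fin (N + 1) → ℂ}
    (h : Flow G Y r ε K H) (hr : r' ≤ r) (hε : ball Y' ε' ⊆ ball Y ε) (hK : K ≤ K') : Flow G Y' r' ε' K' H where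
  an := fun q hq => h.an q ⟨ball_subset_ball hr hq.1, hε hq.2⟩
  zero := fun y hy => h.zero y (hε hy)
  der := fun y hy => h.der y (hε hy)
  const := fun y hy hI z hz l => h.const y (hε hy) hI z (ball_subset_ball hr hz) l
  uniq := fun x t hx hy => h.uniq x t hx (hε hy)
  bound := fun q hq => by
    obtain ⟨h1, h2, h3⟩ := h.bound q ⟨ball_subset_ball hr hq.1, hε hq.2⟩
    exact ⟨h1.trans hK, h2.trans hK, h3.trans hK⟩

theorem unif (hθ : Polar θ) (hm : ∀ k, 1 ≤ m k) (f : Frame θ) {C : Set (Fin J → ℂ)} (hC : IsCompact C) (h0 : (0 : Fin J → ℂ) ∉ C) :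
    ∃ r > 0, ∃ K : ℝ, ∀ a, ∀ Y ∈ Kset θ a C, ∃ ε > 0, ∃ H : ℂ × (Ph N → ℂ) → Fin (N + 1) → ℂ, Flow (gfam f a) Y r ε K H := by
  have key : ∀ a : Fin (N + 1), ∃ r > 0, ∃ K : ℝ, ∀ Y ∈ Kset θ a C, ∃ ε > 0, ∃ H : ℂ × (Ph N → ℂ) → Fin (N + 1) → ℂ,
      Flow (gfam f a) Y r ε K H := by
    intro a
    refine (isCompact_Kset hθ hm a hC).induction_on (p := fun S => ∃ r > 0, ∃ K : ℝ, ∀ Y ∈ S, ∃ ε > 0,
      ∃ H : ℂ × (Ph N → ℂ) → Fin (N + 1) → ℂ, Flow (gfam f a) Y r ε K H) ?_ ?_ ?_ ?_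
    · exact ⟨1, one_pos, 0, fun Y hY => absurd hY (Set.notMem_empty Y)⟩
    · rintro S T hST ⟨r, hr, K, h⟩
      exact ⟨r, hr, K, fun Y hY => h Y (hST hY)⟩
    · rintro S T ⟨r, hr, K, h⟩ ⟨r', hr', K', h'⟩
      refine ⟨min r r', lt_min hr hr', max K K', ?_⟩
      rintro Y (hY | hY)
      · obtain ⟨ε, hε, H, hH⟩ := h Y hY
        exact ⟨ε, hε, H, hH.anti (min_le_left _ _) subset_rfl (le_max_left _ _)⟩
      · obtain ⟨ε, hε, H, hH⟩ := h' Y hY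
        exact ⟨ε, hε, H, hH.anti (min_le_right _ _) subset_rfl (le_max_right _ _)⟩
    · rintro Y ⟨x, v, c, rfl, hT, -, hc⟩
      have hc0 : c ≠ 0 := fun h => h0 (h ▸ hc)
      obtain ⟨I, hI⟩ := exists_row hθ f hT (ne_zero_of_isTan hm hT hc0)
      obtain ⟨r, hr, K, H, hH⟩ := exists_Flow hI
      refine ⟨ball (pt x v) (r / 2), mem_nhdsWithin_of_mem_nhds (ball_mem_nhds _ (by positivity)), r, hr, K, fun Y' hY' => ?_⟩
      refine ⟨r / 2, by positivity, H, hH.anti le_rfl (ball_subset_ball' ?_) le_rfl⟩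
      have h1 : dist Y' (pt x v) < r / 2 := hY'
      linarith
  choose ra hra Ka hKa using key
  have hne : (Finset.univ : Finset (Fin (N + 1))).Nonempty := ⟨0, Finset.mem_univ 0⟩
  refine ⟨Finset.univ.inf' hne ra, (Finset.lt_inf'_iff hne).2 fun a _ => hra a, Finset.univ.sup' hne Ka, fun a Y hY => ?_⟩
  obtain ⟨ε, hε, H, hH⟩ := hKa a Y hY
  exact ⟨ε, hε, H, hH.anti (Finset.inf'_le ra (Finset.mem_univ a)) subset_rfl (Finset.le_sup' Ka (Finset.mem_univ a))⟩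

end Pool.Agent.GG
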