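import Pool.Agent.GG.Ext
import Pool.Agent.GG.CritArc
import Pool.Agent.GG.Cst
import Pool.Agent.GG.Bd
import Pool.Agent.GG.Unif

/-!
# GG Use: the entire curves given by the algebraic criterion

PROOF.  As in the second half of `exists_R` (file `Fin`): `isInit_of_crit`, `nArc_of_const`, `arcAt_of_nArc`, `c ≠ 0` by `no_common_zero`; `unif` with the compact set `{c}` and `exists_entire` give an entire curve `g` with `ArcAt θ c g z` for all `z`, equal to the arc near `0`.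
`g` is holomorphic and in `projVar P`; `wl_bounds`: the Fubini–Study derivative is bounded, so `OrderTwo` (`H14.V.orderTwo_of`, a global lift exists by `H17.exists_global_lift`); `g` is not constant since `v ∉ ℂ x` (`v a = 0`, `x a = 1`, `v ≠ 0`).
-/

set_option autoImplicit false

open MvPolynomial Topology Filter Metric
open Pool.Agent.H13.SM (conTan cone)
open Pool.Agent.H17 (PN HolomorphicInto)
open Pool.Agent.H17EF (projVar)
open Pool.Agent.H13.OT (OrderTwo)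
open Pool.Agent.H62.FC (Homog)
open Pool.Agent.H36.BP (EN fs wd)

noncomputable section

namespace Pool.Agent.GG

variable {N : ℕ} {P : Ideal (MvPolynomial (Fin (N + 1)) ℂ)} {J : ℕ} {m : Fin J → ℕ} {θ : ∀ k, SymSec P (m k)}

/-- the Fubini–Study length is at most a multiple of `wl` -/
theorem use_fs_le_wl (x v : Fin (N + 1) → ℂ) (hx : x ≠ 0) : fs (WithLp.toLp 2 x : EN N) (WithLp.toLp 2 v) ≤ (N + 1) * wl x v := by
  obtain ⟨i, hi⟩ := cst_max_coord x
  have hx0 : x i ≠ 0 := norm_ne_zero_iff.1 (by rw [hi]; exact norm_ne_zero_iff.2 hx)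
  have hX0 : (WithLp.toLp 2 x : EN N) ≠ 0 := fun h => hx (WithLp.toLp_injective 2 h)
  have hnv := cst_nv_norm (v := v) hx hi
  have hc : (x i)⁻¹ ≠ 0 := inv_ne_zero hx0
  have h1 := Pool.Agent.H36.BP.fs_inv hX0 (WithLp.toLp 2 v : EN N) hc (-((x i)⁻¹ * (v i)) * (x i)⁻¹)
  have h2 : (x i)⁻¹ • (WithLp.toLp 2 v : EN N) + (-((x i)⁻¹ * (v i)) * (x i)⁻¹) • (WithLp.toLp 2 x : EN N) = WithLp.toLp 2 (cst_nv x v i) := by
    rw [mul_smul]
    rfl
  rw [← h1, h2]
  have h3 : 1 ≤ ‖(x i)⁻¹ • (WithLp.toLp 2 x : EN N)‖ := by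
    have h4 := PiLp.norm_apply_le ((x i)⁻¹ • (WithLp.toLp 2 x : EN N)) i
    have h5 : ((x i)⁻¹ • (WithLp.toLp 2 x : EN N)) i = 1 := by
      simp [hx0]
    rw [h5, norm_one] at h4
    exact h4
  have h6 : ‖(WithLp.toLp 2 (cst_nv x v i) : EN N)‖ ≤ (N + 1) * ‖cst_nv x v i‖ := by
    rw [EuclideanSpace.norm_eq]
    refine Real.sqrt_le_iff.2 ⟨by positivity, ?_⟩
    calc ∑ j, ‖(WithLp.toLp 2 (cst_nv x v i) : EN N) j‖ ^ 2 ≤ ∑ _j : Fin (N + 1), ‖cst_nv x v i‖ ^ 2 :=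
          Finset.sum_le_sum fun j _ => pow_le_pow_left₀ (norm_nonneg _) (norm_le_pi_norm (cst_nv x v i) j) 2
      _ = (N + 1) * ‖cst_nv x v i‖ ^ 2 := by simp
      _ ≤ ((N + 1) * ‖cst_nv x v i‖) ^ 2 := by
        have : (0 : ℝ) ≤ N := Nat.cast_nonneg N
        nlinarith [mul_nonneg this (sq_nonneg ‖cst_nv x v i‖), mul_nonneg (mul_nonneg this this) (sq_nonneg ‖cst_nv x v i‖)]
  unfold fs
  have h7 := Pool.Agent.H36.BP.wd_le ((x i)⁻¹ • (WithLp.toLp 2 x : EN N)) (WithLp.toLp 2 (cst_nv x v i))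
  rw [div_le_iff₀ (by positivity)]
  have h8 : 0 ≤ wl x v := wl_nonneg _ _
  have h9 : ‖(WithLp.toLp 2 (cst_nv x v i) : EN N)‖ ≤ (N + 1) * wl x v := h6.trans (by gcongr)
  set A := ‖(x i)⁻¹ • (WithLp.toLp 2 x : EN N)‖
  calc wd ((x i)⁻¹ • (WithLp.toLp 2 x : EN N)) (WithLp.toLp 2 (cst_nv x v i)) ≤ A * ‖(WithLp.toLp 2 (cst_nv x v i) : EN N)‖ := h7
    _ ≤ A * ((N + 1) * wl x v) := by gcongr
    _ ≤ (N + 1) * wl x v * A ^ 2 := by
      have h10 : 0 ≤ (N + 1) * wl x v := by positivity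
      nlinarith [mul_nonneg h10 (mul_nonneg (zero_le_one.trans h3) (sub_nonneg.2 h3))]

/-- `wl` of the derivatives of proportional maps -/
theorem use_wl_par {G F : ℂ → Fin (N + 1) → ℂ} {z : ℂ} {g : ℂ → PN N} (hG : AnalyticAt ℂ G z) (hrG : Rep g G z) (hF : AnalyticAt ℂ F z)
    (hrF : Rep g F z) : wl (G z) (deriv G z) = wl (F z) (deriv F z) := by
  have hF0 : F z ≠ 0 := hrF.self_of_nhds.1
  have hG0 : G z ≠ 0 := hrG.self_of_nhds.1
  obtain ⟨j, hj⟩ : ∃ j, F z j ≠ 0 := by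
    by_contra h
    push Not at h
    exact hF0 (funext h)
  have hFc : ∀ i, AnalyticAt ℂ (fun w => F w i) z := fun i => (analyticAt_pi_iff.1 hF) i
  have hGc : ∀ i, AnalyticAt ℂ (fun w => G w i) z := fun i => (analyticAt_pi_iff.1 hG) i
  have hlam : AnalyticAt ℂ (fun w => G w j / F w j) z := (hGc j).div (hFc j) hj
  have hne : ∀ᶠ w in 𝓝 z, F w j ≠ 0 := (hFc j).continuousAt.eventually_ne hj
  have heq : G =ᶠ[𝓝 z] fun w => (G w j / F w j) • F w := by
    filter_upwards [hrG, hrF, hne] with w hw hw' hw0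
    obtain ⟨h1, h2⟩ := hw
    obtain ⟨h3, h4⟩ := hw'
    funext i
    rw [Pi.smul_apply, smul_eq_mul, div_mul_eq_mul_div, eq_div_iff hw0]
    rw [h2, Projectivization.mk_eq_mk_iff'] at h4
    obtain ⟨a, ha⟩ := h4
    rw [← ha]
    simp only [Pi.smul_apply, smul_eq_mul]
    ring
  have h1 : deriv G z = (G z j / F z j) • deriv F z + deriv (fun w => G w j / F w j) z • F z := by
    rw [heq.deriv_eq]
    exact (hlam.differentiableAt.hasDerivAt.smul hF.differentiableAt.hasDerivAt).deriv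
  have hl0 : G z j / F z j ≠ 0 := by
    intro h
    apply hG0
    rw [heq.eq_of_nhds, h, zero_smul]
  rw [h1]
  nth_rewrite 1 [heq.eq_of_nhds]
  have e : deriv (fun w => G w j / F w j) z • F z = (deriv (fun w => G w j / F w j) z / (G z j / F z j)) • ((G z j / F z j) • F z) := by
    rw [smul_smul, div_mul_cancel₀ _ hl0]
  rw [e, wl_add_smul, wl_smul hl0]

/-- entire arcs have order two -/
theorem orderTwo_of_arcAt (hP : Homog P) (hθ : Polar θ) (hm : ∀ k, 1 ≤ m k) {c : Fin J → ℂ} (hc : c ≠ 0) {g : ℂ → PN N} (h : ∀ z, ArcAt θ c g z) :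
    HolomorphicInto g Set.univ ∧ OrderTwo g ∧ (∀ z, g z ∈ projVar P) ∧ ∃ z w, g z ≠ g w := by
  have hhol : HolomorphicInto g Set.univ := by
    intro z _
    obtain ⟨F, hF, hr, -⟩ := h z
    exact ⟨F, hF, hr⟩
  refine ⟨hhol, ?_, ?_, ?_⟩
  · -- bounded Fubini–Study derivative
    obtain ⟨c₁, -, C₁, hC₁⟩ := wl_bounds hP hθ hm hc
    obtain ⟨x, hx⟩ := Pool.Agent.H17.exists_global_lift hhol
    let G : ℂ → Fin (N + 1) → ℂ := fun z j => (x j : ℂ → ℂ) z
    have hGd : Differentiable ℂ G := differentiable_pi.2 fun j => (x j).2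
    have hGr : ∀ z, Rep g G z := fun z => Eventually.of_forall fun w => hx w
    have hl : Pool.Agent.H14.V.IsLift (fun z => (WithLp.toLp 2 (G z) : EN N)) g :=
      ⟨(Pool.Agent.H17EF.LE N).differentiable.comp hGd, fun z => hx z⟩
    refine Pool.Agent.H14.V.orderTwo_of hl (L := (N + 1) * C₁) fun z => ?_
    have hd : deriv (fun z => (WithLp.toLp 2 (G z) : EN N)) z = WithLp.toLp 2 (deriv G z) :=
      ((Pool.Agent.H17EF.LE N : (Fin (N + 1) → ℂ) →L[ℂ] EN N).hasFDerivAt.comp_hasDerivAt z (hGd z).hasDerivAt).deriv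
    rw [hd]
    refine (use_fs_le_wl (G z) (deriv G z) (hx z).1).trans ?_
    obtain ⟨F, hF, hr, hcF⟩ := h z
    rw [use_wl_par (hGd.analyticAt z) (hGr z) hF hr]
    have h1 := (hC₁ (F z) hcF.self_of_nhds.1 (deriv F z) (cst_deriv_mem hF.differentiableAt (hcF.mono fun w hw => hw.1)) hcF.self_of_nhds.2).2
    gcongr
  · intro z
    obtain ⟨F, hF, hr, hcF⟩ := h z
    obtain ⟨h0, h1⟩ := hr.self_of_nhds
    rw [h1, Pool.Agent.H17EF.mk_mem_projVar hP h0]
    exact hcF.self_of_nhds.1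
  · by_contra hcon
    push Not at hcon
    obtain ⟨a, x, hx, hr, -⟩ := exists_nArc hP (h 0)
    have hT := (Chart_isTan hx).self_of_nhds
    refine ne_zero_of_isTan hm hT hc ?_
    have hxc : x =ᶠ[𝓝 0] fun _ => x 0 := by
      obtain ⟨h0, h1⟩ := hr.self_of_nhds
      filter_upwards [hr, hx.2] with w hw hw'
      obtain ⟨h2, h3⟩ := hw
      have h4 := hcon w 0
      rw [h3, h1, Projectivization.mk_eq_mk_iff'] at h4
      obtain ⟨b, hb⟩ := h4
      have h5 := congrFun hb a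
      rw [Pi.smul_apply, smul_eq_mul, hx.2.self_of_nhds.2.1, hw'.2.1, mul_one] at h5
      rw [← hb, h5, one_smul]
    rw [hxc.deriv_eq]
    simp

/-- the points of the criterion are points of entire curves of order two -/
theorem entire_of_crit (hP : Homog P) (hθ : Polar θ) (hm : ∀ k, 1 ≤ m k) (f : Frame θ) {a : Fin (N + 1)}
    {I : Fin (N + 1) → (Unit ⊕ Unit) ⊕ (Fin f.q ⊕ Fin f.q) ⊕ Fin J} {c : Fin J → ℂ} {x v : Fin (N + 1) → ℂ} (hT : IsTan θ a c x v) (hv : v ≠ 0)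
    (hcr : Crit (gfam f a) I (pt x v)) :
    c ≠ 0 ∧ ∃ g : ℂ → PN N, (∀ z, ArcAt θ c g z) ∧ g 0 = Projectivization.mk ℂ x hT.1.1 := by
  classical
  obtain ⟨y, hy, hy0⟩ := isInit_of_crit hcr
  have hyx : y 0 = x := by
    funext i
    exact congrFun hy0 (Sum.inl i)
  have hN : NArc θ a c y 0 := nArc_of_const f hT hy.1 fun l => by
    filter_upwards [hy.2 l] with w hw
    rw [hw, hy0]
  have hx0 : x ≠ 0 := hT.1.1
  have hc : c ≠ 0 := by
    rintro rfl
    obtain ⟨r, hr⟩ := Submodule.mem_span_singleton.1 (no_common_zero hθ hm hT.1 hT.2.2.1 hT.2.2.2.2)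
    have h5 : r * x a = v a := congrFun hr a
    rw [hT.2.1, hT.2.2.2.1, mul_one] at h5
    rw [h5, zero_smul] at hr
    exact hv hr.symm
  refine ⟨hc, ?_⟩
  set g : ℂ → PN N := fun w => if h : y w ≠ 0 then Projectivization.mk ℂ (y w) h else Projectivization.mk ℂ x hx0 with hg
  have hr : Rep g y 0 := by
    filter_upwards [hN.2] with w hw
    exact ⟨hw.1.1, dif_pos hw.1.1⟩
  have hA : ArcAt θ c g 0 := arcAt_of_nArc hN hr
  obtain ⟨r, hr0, K, hU⟩ := unif hθ hm f (C := {c}) isCompact_singleton (by simpa using hc.symm)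
  obtain ⟨g', hg', he⟩ := exists_entire hP f hr0 hU hA
  refine ⟨g', hg', ?_⟩
  rw [he.self_of_nhds]
  obtain ⟨h0, h1⟩ := hr.self_of_nhds
  rw [h1]
  simp only [hyx]

end Pool.Agent.GG
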