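import Mathlib

/-!
# GG Alg: the algebraic dichotomy

PROOF.  If the ideal generated by `S` meets the multiplicative set `{q (φ) Δ^k : q ∉ 𝔓}` then `q` vanishes at the points considered; otherwise `Ideal.exists_le_prime_disjoint`.
-/

set_option autoImplicit false

open MvPolynomial

namespace Pool.Agent.GG

/-- If for every `q ∈ S` there is a point of some `V (a J)` with `D J ≠ 0` and `q ≠ 0` then for some `J` there is a prime ideal `𝔮 ≥ a J` which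
does not meet `S` and does not contain `D J`. -/
theorem exists_prime {s t κ : Type} [Finite κ] (f : s → t) (S : Submonoid (MvPolynomial s ℂ)) (a : κ → Ideal (MvPolynomial t ℂ))
    (D : κ → MvPolynomial t ℂ)
    (h : ∀ q ∈ S, ∃ (J : κ) (y : t → ℂ), (∀ Q ∈ a J, eval y Q = 0) ∧ eval y (D J) ≠ 0 ∧ eval y (rename f q) ≠ 0) :
    ∃ (J : κ) (𝔮 : Ideal (MvPolynomial t ℂ)), 𝔮.IsPrime ∧ a J ≤ 𝔮 ∧ D J ∉ 𝔮 ∧ ∀ q ∈ S, rename f q ∉ 𝔮 := by
  classical
  by_contra hcon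
  push Not at hcon
  have := Fintype.ofFinite κ
  have h1 : ∀ J, ∃ q ∈ S, ∃ k : ℕ, rename f q * D J ^ k ∈ a J := by
    intro J
    obtain ⟨T, hT⟩ : ∃ T : Submonoid (MvPolynomial t ℂ), T = S.map (rename f : MvPolynomial s ℂ →ₐ[ℂ] MvPolynomial t ℂ) ⊔ Submonoid.powers (D J) :=
      ⟨_, rfl⟩
    by_cases hd : Disjoint (a J : Set (MvPolynomial t ℂ)) (T : Set (MvPolynomial t ℂ))
    · obtain ⟨𝔮, h2, h3, h4⟩ := Ideal.exists_le_prime_disjoint (a J) T hd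
      exfalso
      have h5 : D J ∉ 𝔮 := by
        intro h6
        have h7 : D J ∈ T := by
          rw [hT]
          exact Submonoid.mem_sup_right (Submonoid.mem_powers _)
        exact Set.disjoint_left.1 h4 h6 h7
      obtain ⟨q, hq, hq2⟩ := hcon J 𝔮 h2 h3 h5
      have h8 : rename f q ∈ T := by
        rw [hT]
        exact Submonoid.mem_sup_left ⟨q, hq, rfl⟩
      exact Set.disjoint_left.1 h4 hq2 h8
    · rw [Set.not_disjoint_iff] at hd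
      obtain ⟨x, hx, hxT⟩ := hd
      rw [SetLike.mem_coe, hT, Submonoid.mem_sup] at hxT
      obtain ⟨y, hy, z, hz, rfl⟩ := hxT
      obtain ⟨q, hq, rfl⟩ := hy
      obtain ⟨k, rfl⟩ := hz
      exact ⟨q, hq, k, hx⟩
  choose q hq k hk using h1
  obtain ⟨J, y, hy1, hy2, hy3⟩ := h (∏ J, q J) (Submonoid.prod_mem S fun J _ => hq J)
  have h2 := hy1 _ (hk J)
  rw [map_mul, map_pow] at h2
  rcases mul_eq_zero.1 h2 with h3 | h3
  · apply hy3
    rw [map_prod, map_prod]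
    exact Finset.prod_eq_zero (Finset.mem_univ J) h3
  · exact hy2 (eq_zero_of_pow_eq_zero h3)

theorem dichotomy {σ τ : Type} (S : Set (MvPolynomial τ ℂ)) (Δ : MvPolynomial τ ℂ) (φ : σ → τ) (𝔓 : Ideal (MvPolynomial σ ℂ)) [𝔓.IsPrime] :
    (∃ q ∉ 𝔓, ∀ y : τ → ℂ, (∀ g ∈ S, eval y g = 0) → eval y Δ ≠ 0 → eval (fun s => y (φ s)) q = 0) ∨
    ∃ 𝔮 : Ideal (MvPolynomial τ ℂ), 𝔮.IsPrime ∧ S ⊆ 𝔮 ∧ Δ ∉ 𝔮 ∧ ∀ q : MvPolynomial σ ℂ, rename φ q ∈ 𝔮 → q ∈ 𝔓 := by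
  by_cases h : ∃ q ∉ 𝔓, ∀ y : τ → ℂ, (∀ g ∈ S, eval y g = 0) → eval y Δ ≠ 0 → eval (fun s => y (φ s)) q = 0
  · exact Or.inl h
  · right
    push Not at h
    obtain ⟨-, 𝔮, h1, h2, h3, h4⟩ := exists_prime (κ := Unit) φ 𝔓.primeCompl (fun _ => Ideal.span S) (fun _ => Δ) fun q hq => by
      obtain ⟨y, hy1, hy2, hy3⟩ := h q hq
      refine ⟨(), y, fun Q hQ => ?_, hy2, ?_⟩
      · have h5 : Ideal.span S ≤ RingHom.ker (eval y) := Ideal.span_le.2 fun g hg => hy1 g hg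
        exact h5 hQ
      · rw [eval_rename]
        exact hy3
    exact ⟨𝔮, h1, fun g hg => h2 (Ideal.subset_span hg), h3, fun q hq => by_contra fun hq' => h4 q hq' hq⟩

end Pool.Agent.GG
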