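import Pool.Agent.GG.Defs

/-!
# GG ArcOde: arcs solve the differential equation, and satisfy the algebraic criterion

PROOF.  `y s = (x s, x' s)`.  `vdet (y s) ≠ 0` near `t`.  The derivative of `G (J l) (y s) = const` is `∑_b ∂G/∂x_b v_b + ∑_b ∂G/∂v_b w_b = 0`, `w = x''`,
i.e. `(vmat (y s)) w = rhs (y s)`; multiply by the adjugate.  For a polynomial `g` let `Dt g = ∑ fld_s ∂g/∂s`: `d/ds g (y s) = (Dt g)(y s) / vdet (y s)`.  So if `g (y s)` is constant near `t` then `(Dt g)(y s) = 0` near `t`, hence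
all `Dt^(k+1) (G l) (y s) = 0` near `t`.
-/

set_option autoImplicit false

open MvPolynomial Topology Filter Metric

namespace Pool.Agent.GG

/-- the chain rule for polynomials -/
private theorem hasDerivAt_evalG {σ : Type*} [Fintype σ] [DecidableEq σ] {y : ℂ → σ → ℂ} {y' : σ → ℂ} {s : ℂ} (hy : HasDerivAt y y' s)
    (g : MvPolynomial σ ℂ) : HasDerivAt (fun s => eval (y s) g) (∑ i, eval (y s) (pderiv i g) * y' i) s := by
  induction g using MvPolynomial.induction_on with
  | C a =>
    simp only [eval_C, pderiv_C, map_zero, zero_mul, Finset.sum_const_zero]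
    exact hasDerivAt_const s a
  | add p q hp hq =>
    simp only [map_add, add_mul, Finset.sum_add_distrib]
    exact hp.add hq
  | mul_X p i hp =>
    have h1 : HasDerivAt (fun s => y s i) (y' i) s := hasDerivAt_pi.1 hy i
    have h2 := hp.mul h1
    have h3 : (∑ j, eval (y s) (pderiv j (p * X i)) * y' j) = (∑ j, eval (y s) (pderiv j p) * y' j) * y s i + eval (y s) p * y' i := by
      have h4 : ∀ j, eval (y s) (pderiv j (p * X i)) * y' j =
          eval (y s) (pderiv j p) * y' j * y s i + (if j = i then eval (y s) p * y' j else 0) := by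
        intro j
        rw [Derivation.leibniz, pderiv_X]
        by_cases hj : j = i
        · subst hj
          simp
          ring
        · rw [Pi.single_eq_of_ne (Ne.symm hj)]
          simp [hj]
          ring
      rw [Finset.sum_congr rfl fun j _ => h4 j, Finset.sum_add_distrib, ← Finset.sum_mul]
      simp
    rw [h3]
    have h5 : (fun s => eval (y s) (p * X i)) = (fun s => eval (y s) p) * fun s => y s i := by
      funext s
      simp
    rw [h5]
    exact h2

variable {N : ℕ} {ι : Type} {G : ι → MvPolynomial (Ph N) ℂ} {J : Fin (N + 1) → ι}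

/-- the derivative of a polynomial along a solution -/
theorem hasDerivAt_eval {y : ℂ → Ph N → ℂ} {s : ℂ} (hy : HasDerivAt y (W G J (y s)) s) (g : MvPolynomial (Ph N) ℂ) :
    HasDerivAt (fun s => eval (y s) g) (eval (y s) (Dt G J g) / eval (y s) (vdet G J)) s := by
  induction g using MvPolynomial.induction_on with
  | C a =>
    have h1 : Dt G J (C a) = 0 := by
      rw [← algebraMap_eq]
      exact Derivation.map_algebraMap _ _
    simp only [eval_C, h1, map_zero, zero_div]
    exact hasDerivAt_const s a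
  | add p q hp hq =>
    simp only [map_add, add_div]
    exact hp.add hq
  | mul_X p i hp =>
    have h1 : HasDerivAt (fun s => y s i) (W G J (y s) i) s := hasDerivAt_pi.1 hy i
    have h2 := hp.mul h1
    have h3 : Dt G J (X i) = fld G J i := mkDerivation_X _ _ _
    have h4 : eval (y s) (Dt G J (p * X i)) / eval (y s) (vdet G J) =
        eval (y s) (Dt G J p) / eval (y s) (vdet G J) * y s i + eval (y s) p * W G J (y s) i := by
      rw [Derivation.leibniz, h3, smul_eq_mul, smul_eq_mul, map_add, map_mul, map_mul, eval_X, W]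
      ring
    rw [h4]
    have h5 : (fun s => eval (y s) (p * X i)) = (fun s => eval (y s) p) * fun s => y s i := by
      funext s
      simp
    rw [h5]
    exact h2

/-- the path in the phase space -/
private theorem path_hasDerivAt {x : ℂ → Fin (N + 1) → ℂ} {s : ℂ} (h : AnalyticAt ℂ x s) :
    HasDerivAt (fun s => pt (x s) (deriv x s)) (pt (deriv x s) (deriv (deriv x) s)) s := by
  rw [hasDerivAt_pi]
  rintro (b | b)
  · exact hasDerivAt_pi.1 h.differentiableAt.hasDerivAt b
  · exact hasDerivAt_pi.1 h.deriv.differentiableAt.hasDerivAt b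

private theorem path_cont {x : ℂ → Fin (N + 1) → ℂ} {t : ℂ} (h : AnalyticAt ℂ x t)
    (hΔ : eval (pt (x t) (deriv x t)) (vdet G J) ≠ 0) : ∀ᶠ s in 𝓝 t, eval (pt (x s) (deriv x s)) (vdet G J) ≠ 0 := by
  have h1 := (hasDerivAt_evalG (path_hasDerivAt h) (vdet G J)).continuousAt
  exact h1.eventually_ne hΔ

theorem arc_ode {x : ℂ → Fin (N + 1) → ℂ} {t : ℂ} (h : ArcV G x t) (hΔ : eval (pt (x t) (deriv x t)) (vdet G J) ≠ 0) :
    ∀ᶠ s in 𝓝 t, HasDerivAt (fun s => pt (x s) (deriv x s)) (W G J (pt (x s) (deriv x s))) s := by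
  obtain ⟨hx, hc⟩ := h
  have h1 : ∀ᶠ s in 𝓝 t, ∀ l, ∀ᶠ r in 𝓝 s, eval (pt (x r) (deriv x r)) (G (J l)) = eval (pt (x t) (deriv x t)) (G (J l)) := by
    rw [eventually_all]
    exact fun l => (hc (J l)).eventually_nhds
  filter_upwards [hx.eventually_analyticAt, h1, path_cont hx hΔ] with s hs hcs hΔs
  have hy := path_hasDerivAt hs
  refine hy.congr_deriv ?_
  obtain ⟨A, hA⟩ : ∃ A : Matrix (Fin (N + 1)) (Fin (N + 1)) ℂ, A = (vmat G J).map (eval (pt (x s) (deriv x s))) := ⟨_, rfl⟩
  have h2 : A.mulVec (deriv (deriv x) s) = (eval (pt (x s) (deriv x s))) ∘ rhs G J := by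
    funext l
    have h3 := hasDerivAt_evalG hy (G (J l))
    have h4 := h3.unique ((hasDerivAt_const s (eval (pt (x t) (deriv x t)) (G (J l)))).congr_of_eventuallyEq (hcs l))
    rw [Fintype.sum_sum_type] at h4
    have h5 : A.mulVec (deriv (deriv x) s) l =
        ∑ b, eval (pt (x s) (deriv x s)) (pderiv (Sum.inr b) (G (J l))) * deriv (deriv x) s b := by
      rw [hA]
      rfl
    rw [h5, Function.comp_apply, rhs, map_neg, map_sum]
    have h6 : (∑ b, eval (pt (x s) (deriv x s)) (pderiv (Sum.inl b) (G (J l)) * X (Sum.inr b))) =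
        ∑ b, eval (pt (x s) (deriv x s)) (pderiv (Sum.inl b) (G (J l))) * deriv x s b := by
      refine Finset.sum_congr rfl fun b _ => ?_
      rw [map_mul, eval_X]
      rfl
    rw [h6]
    exact eq_neg_of_add_eq_zero_right h4
  have hdet : A.det = eval (pt (x s) (deriv x s)) (vdet G J) := by
    rw [hA, vdet]
    exact ((eval (pt (x s) (deriv x s))).map_det (vmat G J)).symm
  have h3 : A.adjugate.mulVec ((eval (pt (x s) (deriv x s))) ∘ rhs G J) = A.det • deriv (deriv x) s := by
    rw [← h2, Matrix.mulVec_mulVec, Matrix.adjugate_mul, Matrix.smul_mulVec, Matrix.one_mulVec]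
  funext i
  rcases i with b | b
  · show deriv x s b = W G J (pt (x s) (deriv x s)) (Sum.inl b)
    rw [W, fld, Sum.elim_inl, map_mul, eval_X, mul_div_cancel_left₀ _ hΔs]
    rfl
  · show deriv (deriv x) s b = W G J (pt (x s) (deriv x s)) (Sum.inr b)
    rw [W, fld, Sum.elim_inr, RingHom.map_mulVec]
    have h4 : (vmat G J).adjugate.map (eval (pt (x s) (deriv x s))) = A.adjugate := by
      rw [hA]
      exact (eval (pt (x s) (deriv x s))).map_adjugate (vmat G J)
    rw [h4, h3, Pi.smul_apply, hdet, smul_eq_mul, mul_div_cancel_left₀ _ hΔs]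

theorem crit_of_arc {x : ℂ → Fin (N + 1) → ℂ} {t : ℂ} (h : ArcV G x t) (hΔ : eval (pt (x t) (deriv x t)) (vdet G J) ≠ 0) :
    Crit G J (pt (x t) (deriv x t)) := by
  refine ⟨hΔ, fun l k => ?_⟩
  have h1 := arc_ode h hΔ
  have h2 := path_cont h.1 hΔ
  have key : ∀ (g : MvPolynomial (Ph N) ℂ) (c : ℂ), (∀ᶠ s in 𝓝 t, eval (pt (x s) (deriv x s)) g = c) →
      ∀ᶠ s in 𝓝 t, eval (pt (x s) (deriv x s)) (Dt G J g) = 0 := by
    intro g c hg
    filter_upwards [h1, h2, hg.eventually_nhds] with s hs1 hs2 hs3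
    have h3 := hasDerivAt_eval hs1 g
    have h4 := h3.unique ((hasDerivAt_const s c).congr_of_eventuallyEq hs3)
    exact (div_eq_zero_iff.1 h4).resolve_right hs2
  have h3 : ∀ᶠ s in 𝓝 t, eval (pt (x s) (deriv x s)) ((⇑(Dt G J))^[k + 1] (G l)) = 0 := by
    induction k with
    | zero =>
      rw [zero_add, Function.iterate_one]
      exact key _ _ (h.2 l)
    | succ k ih =>
      rw [Function.iterate_succ_apply']
      exact key _ _ ih
  exact h3.self_of_nhds

end Pool.Agent.GG
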