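import Pool.Agent.H13.SM.Aff

/-!
# GG Gen: a germ of an analytic map with values in the variety of a prime ideal, with independent coordinates

PROOF.  Let `K` be the fraction field of `ℂ[y]/𝔮`.  The `y_(b i)` are algebraically independent in `K`; extend them to a transcendence basis `y_(b' i)`, `i < d`, of coordinates.  The other coordinates `y_l` have minimal polynomials `f_l` over `ℂ(y_(b'))`, `∂f_l/∂y_l ≠ 0` in `K`; clear denominators.
There is a zero `w` of `𝔮` with `Δ (w) ∏ ∂f_l/∂y_l (w) ≠ 0` (Nullstellensatz).  The gradients of the `f_l` at `w` are independent: `H13.SM.exists_chart` (file `H13/SM/Aff.lean`, `pts a` = zeros of `𝔮`) gives a chart `σ`; the derivative of `σ` at `0` is injective with image the kernel of the gradients, on which the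
`b'`-coordinates are coordinates.
-/

set_option autoImplicit false

open MvPolynomial Topology Filter

noncomputable section

namespace Pool.Agent.GG.Gen

open Pool.Agent.H13.SM (pts)

variable {ι : Type} [Fintype ι]

/-- the field of fractions -/
abbrev FF (q : Ideal (MvPolynomial ι ℂ)) : Type := FractionRing (MvPolynomial ι ℂ ⧸ q)

/-- the generic point -/
def gp (q : Ideal (MvPolynomial ι ℂ)) (i : ι) : FF q := algebraMap (MvPolynomial ι ℂ ⧸ q) (FF q) (Ideal.Quotient.mk q (X i))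

omit [Fintype ι] in
theorem aeval_gp (q : Ideal (MvPolynomial ι ℂ)) (Q : MvPolynomial ι ℂ) :
    aeval (gp q) Q = algebraMap (MvPolynomial ι ℂ ⧸ q) (FF q) (Ideal.Quotient.mk q Q) := by
  have h : (aeval (gp q) : MvPolynomial ι ℂ →ₐ[ℂ] FF q) =
      (IsScalarTower.toAlgHom ℂ (MvPolynomial ι ℂ ⧸ q) (FF q)).comp (Ideal.Quotient.mkₐ ℂ q) := by
    apply MvPolynomial.algHom_ext
    intro i
    rw [aeval_X]
    rfl
  rw [h]
  rfl

omit [Fintype ι] in
theorem aeval_gp_eq_zero (q : Ideal (MvPolynomial ι ℂ)) [q.IsPrime] (Q : MvPolynomial ι ℂ) : aeval (gp q) Q = 0 ↔ Q ∈ q := by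
  rw [aeval_gp, IsFractionRing.to_map_eq_zero_iff, Ideal.Quotient.eq_zero_iff_mem]

omit [Fintype ι] in
theorem exists_frac (q : Ideal (MvPolynomial ι ℂ)) [q.IsPrime] (y : FF q) :
    ∃ A B : MvPolynomial ι ℂ, aeval (gp q) B ≠ 0 ∧ y = aeval (gp q) A / aeval (gp q) B := by
  obtain ⟨r, s, hs, h⟩ := IsFractionRing.div_surjective (A := MvPolynomial ι ℂ ⧸ q) y
  obtain ⟨A, rfl⟩ := Ideal.Quotient.mk_surjective r
  obtain ⟨B, rfl⟩ := Ideal.Quotient.mk_surjective s
  refine ⟨A, B, ?_, ?_⟩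
  · rw [aeval_gp]
    intro h0
    exact nonZeroDivisors.ne_zero hs ((IsFractionRing.to_map_eq_zero_iff (K := FF q)).1 h0)
  · rw [aeval_gp, aeval_gp, h]

omit [Fintype ι] in
theorem adjoin_gp (q : Ideal (MvPolynomial ι ℂ)) [q.IsPrime] : IntermediateField.adjoin ℂ (Set.range (gp q)) = ⊤ := by
  rw [eq_top_iff]
  intro y _
  obtain ⟨A, B, -, rfl⟩ := exists_frac q y
  have h : ∀ Q : MvPolynomial ι ℂ, aeval (gp q) Q ∈ IntermediateField.adjoin ℂ (Set.range (gp q)) := fun Q =>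
    IntermediateField.algebra_adjoin_le_adjoin ℂ _ (Pool.Agent.H13.SM.aeval_mem_adjoin (gp q) Q)
  exact div_mem (h A) (h B)

omit [Fintype ι] in
theorem alg_gp (q : Ideal (MvPolynomial ι ℂ)) [q.IsPrime] : Algebra.IsAlgebraic (Algebra.adjoin ℂ (Set.range (gp q))) (FF q) := by
  refine ⟨fun y => ?_⟩
  obtain ⟨A, B, hB, rfl⟩ := exists_frac q y
  have h : ∀ Q : MvPolynomial ι ℂ, IsAlgebraic (Algebra.adjoin ℂ (Set.range (gp q))) (aeval (gp q) Q) := fun Q =>
    isAlgebraic_algebraMap (⟨aeval (gp q) Q, Pool.Agent.H13.SM.aeval_mem_adjoin (gp q) Q⟩ : Algebra.adjoin ℂ (Set.range (gp q)))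
  rw [div_eq_mul_inv]
  exact (h A).mul (h B).inv

/-- a point of `V(q)` where `D ≠ 0` -/
theorem exists_point (q : Ideal (MvPolynomial ι ℂ)) [hq : q.IsPrime] {D : MvPolynomial ι ℂ} (hD : D ∉ q) :
    ∃ w : ι → ℂ, (∀ Q ∈ q, eval w Q = 0) ∧ eval w D ≠ 0 := by
  by_contra h
  push Not at h
  apply hD
  rw [← hq.radical, ← vanishingIdeal_zeroLocus_eq_radical (K := ℂ) q, mem_vanishingIdeal_iff]
  intro w hw
  rw [mem_zeroLocus_iff] at hw
  have h1 := h w fun Q hQ => by
    have := hw Q hQ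
    rwa [← MvPolynomial.coe_aeval_eq_eval]
  rwa [← MvPolynomial.coe_aeval_eq_eval] at h1

/-- a transcendence basis of coordinates which contains given ones -/
theorem exists_basis (q : Ideal (MvPolynomial ι ℂ)) [q.IsPrime] {n : ℕ} (J : Fin n → ι)
    (hJ : ∀ p : MvPolynomial (Fin n) ℂ, rename J p ∈ q → p = 0) :
    ∃ (m : ℕ) (B : Fin m → ι) (e : Fin n → Fin m), IsTranscendenceBasis ℂ (fun j => gp q (B j)) ∧ ∀ k, B (e k) = J k := by
  classical
  have hind : AlgebraicIndependent ℂ (fun k => gp q (J k)) := by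
    rw [algebraicIndependent_iff]
    intro p hp
    apply hJ p
    rw [← aeval_gp_eq_zero, aeval_rename]
    exact hp
  have hinj : Function.Injective (fun k => gp q (J k)) := hind.injective
  have halg := alg_gp q
  obtain ⟨u, hu1, hu2, hu3⟩ := exists_isTranscendenceBasis_between (R := ℂ) (A := FF q) (Set.range fun k => gp q (J k)) (Set.range (gp q))
    (by rintro _ ⟨k, rfl⟩; exact ⟨J k, rfl⟩) hind.coe_range
  have hfin : Finite u := Set.Finite.to_subtype ((Set.finite_range (gp q)).subset hu2)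
  have := Fintype.ofFinite u
  let e₀ : Fin (Fintype.card u) ≃ u := (Fintype.equivFin u).symm
  have hidx : ∀ y : u, ∃ i : ι, gp q i = y ∧ ∀ k, gp q (J k) = y → i = J k := by
    intro y
    by_cases h : ∃ k, gp q (J k) = y
    · obtain ⟨k, hk⟩ := h
      refine ⟨J k, hk, fun k' hk' => ?_⟩
      rw [hinj (hk.trans hk'.symm)]
    · obtain ⟨i, hi⟩ := hu2 y.2
      exact ⟨i, hi, fun k hk => absurd ⟨k, hk⟩ h⟩
  choose idx hidx1 hidx2 using hidx
  refine ⟨Fintype.card u, fun j => idx (e₀ j), fun k => e₀.symm ⟨gp q (J k), hu1 ⟨k, rfl⟩⟩, ?_, fun k => ?_⟩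
  · have h : (fun j => gp q (idx (e₀ j))) = (fun y : u => (y : FF q)) ∘ e₀ := by
      funext j
      exact hidx1 (e₀ j)
    rw [h]
    exact hu3.comp_equiv e₀
  · simp only [Equiv.apply_symm_apply]
    exact hidx2 _ k rfl

/-- the map from polynomials in one variable over the polynomials in the basis -/
def Mm {m : ℕ} (B : Fin m → ι) (b : ι) : Polynomial (MvPolynomial (Fin m) ℂ) →+* MvPolynomial ι ℂ :=
  Polynomial.eval₂RingHom ((rename B : MvPolynomial (Fin m) ℂ →ₐ[ℂ] MvPolynomial ι ℂ) : MvPolynomial (Fin m) ℂ →+* MvPolynomial ι ℂ) (X b)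

omit [Fintype ι] in
theorem aeval_Mm (q : Ideal (MvPolynomial ι ℂ)) {m : ℕ} (B : Fin m → ι) (b : ι) (p : Polynomial (MvPolynomial (Fin m) ℂ)) :
    aeval (gp q) (Mm B b p) =
      p.eval₂ ((aeval (fun j => gp q (B j)) : MvPolynomial (Fin m) ℂ →ₐ[ℂ] FF q) : MvPolynomial (Fin m) ℂ →+* FF q) (gp q b) := by
  unfold Mm
  rw [Polynomial.coe_eval₂RingHom, ← AlgHom.coe_toRingHom, Polynomial.hom_eval₂]
  congr 1
  · apply RingHom.ext
    intro x
    show aeval (gp q) (rename B x) = aeval (fun j => gp q (B j)) x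
    rw [aeval_rename]
    rfl
  · show aeval (gp q) (X b) = gp q b
    rw [aeval_X]

omit [Fintype ι] in
theorem pderiv_Mm {m : ℕ} {B : Fin m → ι} {b : ι} (hb : b ∉ Set.range B) (p : Polynomial (MvPolynomial (Fin m) ℂ)) :
    pderiv b (Mm B b p) = Mm B b (Polynomial.derivative p) := by
  classical
  have h0 : ∀ c : MvPolynomial (Fin m) ℂ, pderiv b (rename B c) = 0 := by
    intro c
    apply pderiv_eq_zero_of_notMem_vars
    intro h
    have h1 := vars_rename B c h
    obtain ⟨j, -, hj⟩ := Finset.mem_image.1 h1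
    exact hb ⟨j, hj⟩
  induction p using Polynomial.induction_on' with
  | add p q hp hq => rw [map_add, map_add, hp, hq, Polynomial.derivative_add, map_add]
  | monomial k c =>
    unfold Mm
    rw [Polynomial.coe_eval₂RingHom, Polynomial.eval₂_monomial, Polynomial.derivative_monomial, Polynomial.eval₂_monomial]
    show pderiv b (rename B c * X b ^ k) = rename B (c * (k : MvPolynomial (Fin m) ℂ)) * X b ^ (k - 1)
    rw [Derivation.leibniz, h0 c, Derivation.leibniz_pow, pderiv_X_self, map_mul, map_natCast]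
    simp only [smul_eq_mul, mul_zero, add_zero, nsmul_eq_mul, mul_one]
    ring

omit [Fintype ι] in
theorem pderiv_Mm_of_ne {m : ℕ} {B : Fin m → ι} {b b' : ι} (hb' : b' ∉ Set.range B) (hne : b' ≠ b) (p : Polynomial (MvPolynomial (Fin m) ℂ)) :
    pderiv b' (Mm B b p) = 0 := by
  classical
  have h0 : ∀ c : MvPolynomial (Fin m) ℂ, pderiv b' (rename B c) = 0 := by
    intro c
    apply pderiv_eq_zero_of_notMem_vars
    intro h
    have h1 := vars_rename B c h
    obtain ⟨j, -, hj⟩ := Finset.mem_image.1 h1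
    exact hb' ⟨j, hj⟩
  induction p using Polynomial.induction_on' with
  | add p q hp hq => rw [map_add, map_add, hp, hq, add_zero]
  | monomial k c =>
    unfold Mm
    rw [Polynomial.coe_eval₂RingHom, Polynomial.eval₂_monomial]
    show pderiv b' (rename B c * X b ^ k) = 0
    rw [Derivation.leibniz, h0 c, Derivation.leibniz_pow, pderiv_X_of_ne hne.symm]
    simp

omit [Fintype ι] in
/-- the relation of a coordinate outside the basis -/
theorem exists_rel (q : Ideal (MvPolynomial ι ℂ)) [q.IsPrime] {m : ℕ} {B : Fin m → ι} (hB : IsTranscendenceBasis ℂ (fun j => gp q (B j))) {b : ι}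
    (hb : b ∉ Set.range B) :
    ∃ f : MvPolynomial ι ℂ, f ∈ q ∧ pderiv b f ∉ q ∧ ∀ b', b' ∉ Set.range B → b' ≠ b → pderiv b' f = 0 := by
  classical
  obtain ⟨z, hz⟩ : ∃ z : Fin m → FF q, z = fun j => gp q (B j) := ⟨_, rfl⟩
  rw [← hz] at hB
  have hinj : Function.Injective (aeval z : MvPolynomial (Fin m) ℂ →ₐ[ℂ] FF q) := hB.1
  let φ : MvPolynomial (Fin m) ℂ →+* FF q := ((aeval z : MvPolynomial (Fin m) ℂ →ₐ[ℂ] FF q) : MvPolynomial (Fin m) ℂ →+* FF q)
  have hφ : Function.Injective φ := hinj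
  -- some relation
  have hex : ∃ p : Polynomial (MvPolynomial (Fin m) ℂ), p ≠ 0 ∧ p.eval₂ φ (gp q b) = 0 := by
    have h1 : Algebra.IsAlgebraic (Algebra.adjoin ℂ (Set.range z)) (FF q) := hB.isAlgebraic
    obtain ⟨p₀, hp₀, hp₀0⟩ := h1.isAlgebraic (gp q b)
    let E := hB.1.aevalEquiv
    refine ⟨p₀.map (E.symm : Algebra.adjoin ℂ (Set.range z) →+* MvPolynomial (Fin m) ℂ), ?_, ?_⟩
    · intro h
      apply hp₀
      apply Polynomial.map_injective (E.symm : Algebra.adjoin ℂ (Set.range z) →+* MvPolynomial (Fin m) ℂ) E.symm.injective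
      rw [h, Polynomial.map_zero]
    · have hcomp : φ.comp (E.symm : Algebra.adjoin ℂ (Set.range z) →+* MvPolynomial (Fin m) ℂ) =
          algebraMap (Algebra.adjoin ℂ (Set.range z)) (FF q) := by
        refine RingHom.ext fun x => ?_
        have h2 := hB.1.algebraMap_aevalEquiv (E.symm x)
        have h3 : hB.1.aevalEquiv (E.symm x) = x := AlgEquiv.apply_symm_apply _ _
        rw [h3] at h2
        exact h2.symm
      rw [Polynomial.eval₂_map, hcomp]
      exact hp₀0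
  -- a relation of minimal degree
  have hex' : ∃ k : ℕ, ∃ p : Polynomial (MvPolynomial (Fin m) ℂ), p ≠ 0 ∧ p.eval₂ φ (gp q b) = 0 ∧ p.natDegree = k := by
    obtain ⟨p, h1, h2⟩ := hex
    exact ⟨_, p, h1, h2, rfl⟩
  obtain ⟨p, hp, hp0, hpd⟩ := Nat.find_spec hex'
  have hmin : ∀ r : Polynomial (MvPolynomial (Fin m) ℂ), r ≠ 0 → r.eval₂ φ (gp q b) = 0 → p.natDegree ≤ r.natDegree := by
    intro r h1 h2
    rw [hpd]
    exact Nat.find_min' hex' ⟨r, h1, h2, rfl⟩
  have hdeg : p.natDegree ≠ 0 := by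
    intro h
    rw [Polynomial.eq_C_of_natDegree_eq_zero h, Polynomial.eval₂_C] at hp0
    have h1 : p.coeff 0 = 0 := hφ (by rw [hp0, map_zero])
    apply hp
    rw [Polynomial.eq_C_of_natDegree_eq_zero h, h1, Polynomial.C_0]
  have hder : (Polynomial.derivative p).eval₂ φ (gp q b) ≠ 0 := by
    intro h
    have h1 : Polynomial.derivative p ≠ 0 := by
      intro h2
      exact hdeg (Polynomial.derivative_eq_zero.1 h2)
    have h2 := hmin _ h1 h
    have h3 := Polynomial.natDegree_derivative_lt hdeg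
    omega
  refine ⟨Mm B b p, ?_, ?_, fun b' h1 h2 => pderiv_Mm_of_ne h1 h2 p⟩
  · rw [← aeval_gp_eq_zero, aeval_Mm, ← hz]
    exact hp0
  · rw [pderiv_Mm hb, ← aeval_gp_eq_zero, aeval_Mm, ← hz]
    exact hder

/-- the analytic inverse function theorem -/
theorem exists_inverse {m : ℕ} {β : (Fin m → ℂ) → (Fin m → ℂ)} (hβ : AnalyticAt ℂ β 0) (h0 : β 0 = 0)
    (hinj : ∀ ξ, fderiv ℂ β 0 ξ = 0 → ξ = 0) :
    ∃ ψ : (Fin m → ℂ) → (Fin m → ℂ), AnalyticAt ℂ ψ 0 ∧ ψ 0 = 0 ∧ ∀ᶠ u in 𝓝 0, β (ψ u) = u := by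
  have hL : HasFDerivAt β (fderiv ℂ β 0) 0 := hβ.differentiableAt.hasFDerivAt
  have hLinj : Function.Injective (fderiv ℂ β 0 : (Fin m → ℂ) →ₗ[ℂ] (Fin m → ℂ)) := by
    rw [injective_iff_map_eq_zero]
    exact hinj
  let Le : (Fin m → ℂ) ≃ₗ[ℂ] (Fin m → ℂ) := LinearEquiv.ofInjectiveEndo (fderiv ℂ β 0 : (Fin m → ℂ) →ₗ[ℂ] (Fin m → ℂ)) hLinj
  let Lc : (Fin m → ℂ) ≃L[ℂ] (Fin m → ℂ) := Le.toContinuousLinearEquiv
  have hLc : (Lc : (Fin m → ℂ) →L[ℂ] (Fin m → ℂ)) = fderiv ℂ β 0 := by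
    ext1 v; rfl
  have hL' : HasFDerivAt β (Lc : (Fin m → ℂ) →L[ℂ] (Fin m → ℂ)) 0 := by
    rw [hLc]; exact hL
  have hcd : ContDiffAt ℂ ⊤ β 0 := hβ.contDiffAt
  have hs := hcd.hasStrictFDerivAt' hL' (by simp)
  let Ψ := hs.localInverse β Lc 0
  have hΨan : AnalyticAt ℂ Ψ 0 := by
    have h1 : ContDiffAt ℂ ⊤ (hcd.localInverse hL' (by simp)) (β 0) := hcd.to_localInverse hL' (by simp)
    rw [h0] at h1
    have h2 := contDiffWithinAt_omega_iff_analyticWithinAt.1 (contDiffWithinAt_univ.2 h1)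
    exact analyticWithinAt_univ.1 h2
  have hright : ∀ᶠ y in 𝓝 (0 : Fin m → ℂ), β (Ψ y) = y := by
    have := hs.eventually_right_inverse
    rwa [h0] at this
  have hleft : ∀ᶠ y in 𝓝 (0 : Fin m → ℂ), Ψ (β y) = y := hs.eventually_left_inverse
  refine ⟨Ψ, hΨan, ?_, hright⟩
  have := hleft.self_of_nhds
  rwa [h0] at this

/-- **Analytic families in `V(q)` with given free coordinates.** -/
theorem exists_germ (q : Ideal (MvPolynomial ι ℂ)) [q.IsPrime] {D : MvPolynomial ι ℂ} (hD : D ∉ q) {n : ℕ} (J : Fin n → ι)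
    (hJ : ∀ p : MvPolynomial (Fin n) ℂ, rename J p ∈ q → p = 0) :
    ∃ γ : (Fin n → ℂ) → (ι → ℂ), AnalyticAt ℂ γ 0 ∧ (∀ᶠ u in 𝓝 0, ∀ Q ∈ q, eval (γ u) Q = 0) ∧ eval (γ 0) D ≠ 0 ∧
      ∀ᶠ u in 𝓝 0, ∀ k, γ u (J k) = γ 0 (J k) + u k := by
  classical
  obtain ⟨m, B, e, hB, he⟩ := exists_basis q J hJ
  have hBinj : Function.Injective B := by
    intro i j hij
    apply hB.1.injective
    show gp q (B i) = gp q (B j)
    rw [hij]
  -- the relations
  have hrel : ∀ b : {b : ι // b ∉ Set.range B}, ∃ f : MvPolynomial ι ℂ, f ∈ q ∧ pderiv b.1 f ∉ q ∧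
      ∀ b', b' ∉ Set.range B → b' ≠ b.1 → pderiv b' f = 0 := fun b => exists_rel q hB b.2
  choose F hF1 hF2 hF3 using hrel
  -- the point
  have hprod : (∏ b, pderiv b.1 (F b)) * D ∉ q := by
    intro h
    rcases (inferInstance : q.IsPrime).mem_or_mem h with h | h
    · obtain ⟨b, -, hb⟩ := (Ideal.IsPrime.prod_mem_iff).1 h
      exact hF2 b hb
    · exact hD h
  obtain ⟨w, hwq, hw⟩ := exists_point q hprod
  rw [map_mul, map_prod] at hw
  have hwD : eval w D ≠ 0 := right_ne_zero_of_mul hw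
  have hwF : ∀ b, eval w (pderiv b.1 (F b)) ≠ 0 := fun b => (Finset.prod_ne_zero_iff.1 (left_ne_zero_of_mul hw)) b (Finset.mem_univ b)
  -- the number of the relations
  obtain ⟨c, hc⟩ : ∃ c, c = Fintype.card {b : ι // b ∉ Set.range B} := ⟨_, rfl⟩
  have e' : Fin c ≃ {b : ι // b ∉ Set.range B} := hc ▸ (Fintype.equivFin _).symm
  have hcm : c + m = Fintype.card ι := by
    have h1 := Fintype.card_subtype_compl (fun b : ι => b ∈ Set.range B)
    have h2 : Fintype.card {b : ι // b ∈ Set.range B} = m := by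
      have h3 := Fintype.card_congr (Equiv.ofInjective B hBinj)
      rw [Fintype.card_fin] at h3
      exact (Fintype.card_congr (Equiv.refl _)).trans h3.symm
    have h4 : Fintype.card {b : ι // b ∈ Set.range B} ≤ Fintype.card ι := Fintype.card_subtype_le _
    have h5 : Fintype.card {b : ι // b ∉ Set.range B} = Fintype.card ι - Fintype.card {b : ι // b ∈ Set.range B} := by
      rw [← h1]
    rw [hc, h5]
    omega
  have hli : LinearIndependent ℂ fun (j : Fin c) (i : ι) => eval w (pderiv i (F (e' j))) := by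
    rw [Fintype.linearIndependent_iff]
    intro a ha j
    have h1 := congrFun ha (e' j).1
    rw [Finset.sum_apply, Finset.sum_eq_single j] at h1
    · rcases mul_eq_zero.1 h1 with h2 | h2
      · exact h2
      · exact absurd h2 (hwF (e' j))
    · intro j' _ hj'
      have h2 : pderiv (e' j).1 (F (e' j')) = 0 := hF3 (e' j') (e' j).1 (e' j).2 fun h => hj' (e'.injective (Subtype.ext h.symm))
      show a j' • eval w (pderiv (e' j).1 (F (e' j'))) = 0
      rw [h2, map_zero, smul_zero]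
    · intro h
      exact absurd (Finset.mem_univ j) h
  obtain ⟨I, σ, hσ, hσ0, hσ1, -, -⟩ := Pool.Agent.H13.SM.exists_chart (adjoin_gp q) hB hcm (f := fun j => F (e' j))
    (fun j => (aeval_gp_eq_zero q _).2 (hF1 _)) (w := w) (fun Q hQ => hwq Q ((aeval_gp_eq_zero q Q).1 hQ)) hli
  -- the coordinates of the basis
  have hσd : DifferentiableAt ℂ σ 0 := hσ.differentiableAt
  obtain ⟨β, hβ⟩ : ∃ β : (Fin m → ℂ) → (Fin m → ℂ), β = fun u j => σ u (B j) - w (B j) := ⟨_, rfl⟩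
  have hβan : AnalyticAt ℂ β 0 := by
    rw [hβ, analyticAt_pi_iff]
    intro j
    exact (((ContinuousLinearMap.proj (B j) : (ι → ℂ) →L[ℂ] ℂ).analyticAt (σ 0)).comp hσ).sub analyticAt_const
  have hβ0 : β 0 = 0 := by
    rw [hβ]
    funext j
    show σ 0 (B j) - w (B j) = 0
    rw [hσ0, sub_self]
  have hcoord : ∀ (i : ι) (ξ : Fin m → ℂ), fderiv ℂ (fun u => σ u i) 0 ξ = (fderiv ℂ σ 0 ξ) i := by
    intro i ξ
    have h1 : HasFDerivAt (fun u => σ u i) ((ContinuousLinearMap.proj i : (ι → ℂ) →L[ℂ] ℂ).comp (fderiv ℂ σ 0)) 0 :=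
      (ContinuousLinearMap.proj i : (ι → ℂ) →L[ℂ] ℂ).hasFDerivAt.comp 0 hσd.hasFDerivAt
    rw [h1.fderiv]
    rfl
  have hβinj : ∀ ξ, fderiv ℂ β 0 ξ = 0 → ξ = 0 := by
    intro ξ hξ
    have h1 : ∀ j, (fderiv ℂ σ 0 ξ) (B j) = 0 := by
      intro j
      have h2 : HasFDerivAt β (ContinuousLinearMap.pi fun j => (ContinuousLinearMap.proj (B j) : (ι → ℂ) →L[ℂ] ℂ).comp (fderiv ℂ σ 0)) 0 := by
        rw [hβ, hasFDerivAt_pi]
        intro j
        exact ((ContinuousLinearMap.proj (B j) : (ι → ℂ) →L[ℂ] ℂ).hasFDerivAt.comp 0 hσd.hasFDerivAt).sub_const _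
      rw [h2.fderiv] at hξ
      exact congrFun hξ j
    have h3 : fderiv ℂ σ 0 ξ = 0 := by
      funext i
      by_cases hi : i ∈ Set.range B
      · obtain ⟨j, rfl⟩ := hi
        exact h1 j
      · -- differentiate the relation
        have h4 : HasFDerivAt (fun u => eval (σ u) (F ⟨i, hi⟩))
            ((∑ i', eval (σ 0) (pderiv i' (F ⟨i, hi⟩)) • (ContinuousLinearMap.proj i' : (ι → ℂ) →L[ℂ] ℂ)).comp (fderiv ℂ σ 0)) 0 :=
          (Pool.Agent.H13.SM.Inv_hasFDerivAt_eval (F ⟨i, hi⟩) (σ 0)).comp 0 hσd.hasFDerivAt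
        have h5 : HasFDerivAt (fun u => eval (σ u) (F ⟨i, hi⟩)) (0 : (Fin m → ℂ) →L[ℂ] ℂ) 0 := by
          refine (hasFDerivAt_const (0 : ℂ) (0 : Fin m → ℂ)).congr_of_eventuallyEq ?_
          filter_upwards [hσ1] with u hu
          exact hu.1 _ ((aeval_gp_eq_zero q _).2 (hF1 _))
        have h6 := congrArg (fun L : (Fin m → ℂ) →L[ℂ] ℂ => L ξ) (h4.unique h5)
        have h7 : ∑ i', eval w (pderiv i' (F ⟨i, hi⟩)) * (fderiv ℂ σ 0 ξ) i' = 0 := by
          have h8 := h6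
          simp only [ContinuousLinearMap.comp_apply, _root_.sum_apply, _root_.smul_apply,
            ContinuousLinearMap.proj_apply, smul_eq_mul, _root_.zero_apply, hσ0] at h8
          exact h8
        rw [Finset.sum_eq_single i] at h7
        · rcases mul_eq_zero.1 h7 with h8 | h8
          · exact absurd h8 (hwF ⟨i, hi⟩)
          · exact h8
        · intro i' _ hi'
          by_cases h8 : i' ∈ Set.range B
          · obtain ⟨j, rfl⟩ := h8
            rw [h1 j, mul_zero]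
          · rw [hF3 ⟨i, hi⟩ i' h8 hi', map_zero, zero_mul]
        · intro h8
          exact absurd (Finset.mem_univ i) h8
    funext k
    have h9 : HasFDerivAt (fun u => σ u (I k)) (ContinuousLinearMap.proj k : (Fin m → ℂ) →L[ℂ] ℂ) 0 := by
      refine ((hasFDerivAt_apply (𝕜 := ℂ) k (0 : Fin m → ℂ)).const_add (w (I k))).congr_of_eventuallyEq ?_
      filter_upwards [hσ1] with u hu
      exact hu.2 k
    have h10 := hcoord (I k) ξ
    rw [h9.fderiv, h3] at h10
    exact h10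
  obtain ⟨ψ, hψ, hψ0, hψ1⟩ := exists_inverse hβan hβ0 hβinj
  -- the restriction to the given coordinates
  have heinj : Function.Injective e := by
    intro i j hij
    have h1 : AlgebraicIndependent ℂ (fun k => gp q (J k)) := by
      rw [algebraicIndependent_iff]
      intro p hp
      apply hJ p
      rw [← aeval_gp_eq_zero, aeval_rename]
      exact hp
    apply h1.injective
    show gp q (J i) = gp q (J j)
    rw [← he i, ← he j, hij]
  obtain ⟨E, hE⟩ : ∃ E : (Fin n → ℂ) →L[ℂ] (Fin m → ℂ),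
      E = ContinuousLinearMap.pi fun j => ∑ k, if e k = j then (ContinuousLinearMap.proj k : (Fin n → ℂ) →L[ℂ] ℂ) else 0 := ⟨_, rfl⟩
  have hEe : ∀ (u : Fin n → ℂ) (k : Fin n), E u (e k) = u k := by
    intro u k
    rw [hE]
    show (∑ k', if e k' = e k then (ContinuousLinearMap.proj k' : (Fin n → ℂ) →L[ℂ] ℂ) else 0) u = u k
    rw [_root_.sum_apply, Finset.sum_eq_single k]
    · rw [if_pos rfl]
      rfl
    · intro k' _ hk'
      rw [if_neg fun h => hk' (heinj h)]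
      rfl
    · intro h
      exact absurd (Finset.mem_univ k) h
  have hE0 : E 0 = 0 := map_zero E
  have hEan : AnalyticAt ℂ (fun u => ψ (E u)) 0 := by
    refine AnalyticAt.fun_comp (g := ψ) ?_ (E.analyticAt 0)
    rw [hE0]
    exact hψ
  have hEt : Tendsto E (𝓝 0) (𝓝 0) := by
    have := E.continuous.tendsto 0
    rwa [hE0] at this
  have hψt : Tendsto (fun u => ψ (E u)) (𝓝 0) (𝓝 0) := by
    have h1 := hEan.continuousAt.tendsto
    rwa [hE0, hψ0] at h1
  refine ⟨fun u => σ (ψ (E u)), ?_, ?_, ?_, ?_⟩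
  · refine AnalyticAt.fun_comp (g := σ) ?_ hEan
    rw [hE0, hψ0]
    exact hσ
  · filter_upwards [hψt.eventually hσ1] with u hu Q hQ
    exact hu.1 Q ((aeval_gp_eq_zero q Q).2 hQ)
  · show eval (σ (ψ (E 0))) D ≠ 0
    rw [hE0, hψ0, hσ0]
    exact hwD
  · filter_upwards [hEt.eventually hψ1] with u hu k
    show σ (ψ (E u)) (J k) = σ (ψ (E 0)) (J k) + u k
    rw [hE0, hψ0, hσ0]
    have h1 := congrFun hu (e k)
    rw [hβ] at h1
    have h2 : σ (ψ (E u)) (B (e k)) - w (B (e k)) = E u (e k) := h1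
    rw [hEe, he] at h2
    rw [← h2]
    ring

end Pool.Agent.GG.Gen

namespace Pool.Agent.GG

theorem exists_germ {τ : Type} [Fintype τ] {𝔮 : Ideal (MvPolynomial τ ℂ)} (h𝔮 : 𝔮.IsPrime) {Δ : MvPolynomial τ ℂ} (hΔ : Δ ∉ 𝔮) {n : ℕ} (b : Fin n → τ)
    (hb : ∀ p : MvPolynomial (Fin n) ℂ, rename b p ∈ 𝔮 → p = 0) :
    ∃ (d : ℕ) (Y : (Fin d → ℂ) → τ → ℂ), AnalyticAt ℂ Y 0 ∧ (∀ᶠ u in 𝓝 (0 : Fin d → ℂ), ∀ g ∈ 𝔮, eval (Y u) g = 0) ∧ eval (Y 0) Δ ≠ 0 ∧
      Function.Surjective (fderiv ℂ (fun (u : Fin d → ℂ) (j : Fin n) => Y u (b j)) 0) := by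
  obtain ⟨Y, h1, h2, h3, h4⟩ := Gen.exists_germ 𝔮 hΔ b hb
  refine ⟨n, Y, h1, h2, h3, ?_⟩
  have h5 : HasFDerivAt (fun (u : Fin n → ℂ) (j : Fin n) => Y u (b j)) (ContinuousLinearMap.id ℂ (Fin n → ℂ)) 0 := by
    refine ((hasFDerivAt_id (𝕜 := ℂ) (0 : Fin n → ℂ)).const_add (fun j => Y 0 (b j))).congr_of_eventuallyEq ?_
    filter_upwards [h4] with u hu
    funext j
    exact hu j
  rw [h5.fderiv]
  exact Function.surjective_id

end Pool.Agent.GG
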