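import Pool.Agent.H36.BP.MaxP
import Pool.Agent.H36.BP.SubB
import Pool.Agent.H36.BP.SubC

/-!
# GG OneVar: a section of `m K - j H` along an entire curve whose speed is bounded below grows like `exp (a |z|²)`
-/

set_option autoImplicit false

open Topology Filter Metric

namespace Pool.Agent.GG

open Pool.Agent.H36.BP (EN fs Sub max_principle)

variable {N : ℕ}

/-- There is no entire function `w`, not zero at `0`, with `|w| ‖F‖ ^ j ≤ C exp (C |z|)`, `j ≥ 1`, if the speed of the curve `F` is bounded below. -/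
theorem growth_contra {F : ℂ → EN N} {w : ℂ → ℂ} (hF : Differentiable ℂ F) (hF0 : ∀ z, F z ≠ 0) (hw : Differentiable ℂ w) (hw0 : w 0 ≠ 0) {j : ℕ}
    (hj : 1 ≤ j) {c C : ℝ} (hc : 0 < c) (hfs : ∀ z, c ≤ fs (F z) (deriv F z)) (hup : ∀ z, ‖w z‖ * ‖F z‖ ^ j ≤ C * Real.exp (C * ‖z‖)) : False := by
  have hj0 : (0 : ℝ) < j := by exact_mod_cast hj
  obtain ⟨a, ha⟩ : ∃ a : ℝ, a = j * c ^ 2 / 4 := ⟨_, rfl⟩
  have ha0 : 0 < a := by rw [ha]; positivity
  obtain ⟨u, hu⟩ : ∃ u : ℂ → ℝ, u = fun z => ‖w z‖ * ‖F z‖ ^ (j : ℝ) * Real.exp (-a * ‖z‖ ^ 2) := ⟨_, rfl⟩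
  have hcont : Continuous u := by
    rw [hu]
    refine (hw.continuous.norm.mul (hF.continuous.norm.rpow_const fun z => Or.inl (norm_ne_zero_iff.2 (hF0 z)))).mul ?_
    exact Real.continuous_exp.comp (continuous_const.mul (continuous_norm.pow 2))
  have hsub : ∀ z, 0 < u z → ∃ d, 0 < d ∧ Sub u z d := by
    intro z hz
    have hwz : w z ≠ 0 := by
      rintro h
      rw [hu] at hz
      simp [h] at hz
    refine ⟨0 + j * fs (F z) (deriv F z) ^ 2 / 2 + -a * ‖deriv (fun z : ℂ => z) z‖ ^ 2, ?_, ?_⟩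
    · have h1 : c ^ 2 ≤ fs (F z) (deriv F z) ^ 2 := pow_le_pow_left₀ hc.le (hfs z) 2
      have h2 : deriv (fun z : ℂ => z) z = 1 := deriv_id z
      rw [h2, norm_one, ha]
      nlinarith [mul_le_mul_of_nonneg_left h1 hj0.le, mul_pos hj0 (pow_pos hc 2)]
    · rw [hu]
      have h1 := Sub.of_holo (hw.analyticAt z) hwz
      have h2 := Sub.norm_rpow (hF.analyticAt z) (hF0 z) (j : ℝ)
      have h3 := Sub.exp_sq (t := fun z : ℂ => z) (z₀ := z) analyticAt_id (-a)
      exact (h1.mul h2).mul h3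
  have hu0 : 0 < u 0 := by
    rw [hu]
    have := Real.rpow_pos_of_pos (norm_pos_iff.2 (hF0 0)) (j : ℝ)
    have := norm_pos_iff.2 hw0
    positivity
  have hCpos : 0 < C := by
    have h1 := hup 0
    have h2 : 0 < ‖w 0‖ * ‖F 0‖ ^ j := mul_pos (norm_pos_iff.2 hw0) (pow_pos (norm_pos_iff.2 (hF0 0)) j)
    by_contra h
    push Not at h
    have h3 : C * Real.exp (C * ‖(0 : ℂ)‖) ≤ 0 := mul_nonpos_of_nonpos_of_nonneg h (Real.exp_pos _).le
    linarith
  have hbd : ∀ R : ℝ, 0 < R → u 0 ≤ C * Real.exp (C * R - a * R ^ 2) := by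
    intro R hR
    refine max_principle (S := closedBall (0 : ℂ) R) (U := ball (0 : ℂ) R) (isCompact_closedBall 0 R) isOpen_ball ball_subset_closedBall
      (hcont.upperSemicontinuous.upperSemicontinuousOn _) (fun z _ hz => hsub z hz) (by positivity) ?_ 0 (by simp [hR.le])
    rintro z ⟨hz1, hz2⟩
    have hzR : ‖z‖ = R := by
      rw [mem_closedBall_zero_iff] at hz1
      rw [mem_ball_zero_iff, not_lt] at hz2
      exact le_antisymm hz1 hz2
    rw [hu]
    have h1 := hup z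
    rw [hzR] at h1
    show ‖w z‖ * ‖F z‖ ^ (j : ℝ) * Real.exp (-a * ‖z‖ ^ 2) ≤ _
    rw [Real.rpow_natCast, hzR, sub_eq_add_neg, Real.exp_add, ← mul_assoc, ← neg_mul]
    exact mul_le_mul_of_nonneg_right h1 (Real.exp_pos _).le
  -- `C R - a R ^ 2 → -∞`
  have hlim : Tendsto (fun R : ℝ => C * Real.exp (C * R - a * R ^ 2)) atTop (𝓝 0) := by
    have h1 : Tendsto (fun R : ℝ => C * R - a * R ^ 2) atTop atBot := by
      have h2 : (fun R : ℝ => C * R - a * R ^ 2) = fun R : ℝ => R * (C - a * R) := by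
        funext R; ring
      rw [h2]
      refine Tendsto.atTop_mul_atBot₀ tendsto_id ?_
      have h3 : Tendsto (fun R : ℝ => a * R) atTop atTop := Tendsto.const_mul_atTop ha0 tendsto_id
      have h4 : Tendsto (fun R : ℝ => C + -(a * R)) atTop atBot := tendsto_atBot_add_const_left _ C (tendsto_neg_atTop_atBot.comp h3)
      simpa [sub_eq_add_neg] using h4
    have h5 := (Real.tendsto_exp_atBot.comp h1).const_mul C
    simpa using h5
  have h6 : ∀ᶠ R : ℝ in atTop, C * Real.exp (C * R - a * R ^ 2) < u 0 := hlim.eventually_lt_const hu0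
  obtain ⟨R, hR1, hR2⟩ := (h6.and (eventually_gt_atTop (0 : ℝ))).exists
  exact absurd (hbd R hR2) (not_le.2 hR1)

end Pool.Agent.GG
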