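import Pool.Agent.GG.Bd
import Pool.Agent.GG.Kcpt
import Pool.Agent.GG.Chart
import Pool.Agent.GG.OneVar
import Pool.Agent.AD.G.Spec
import Pool.Agent.H36.BP.WdA
import Pool.Agent.H17.GlobalLift

/-!
# GG One: the one-variable end of the proof (helper92)

`f = Φ (·, 0)` is an entire curve, it has an entire lift `G₀` without zeros.  For every `z` there is a lift `F₁` of `Φ` near `(z, 0)` with `F₁ (w, 0) = G₀ w`;
`W z = Ω (G₀ z; G₀' z, ∂F₁/∂s_i)` does not depend on the choice and is entire; `|W z| ‖G₀ z‖ ≤ C exp (C |z|)`; the speed of `G₀` is bounded below.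
-/

set_option autoImplicit false

open MvPolynomial Topology Filter Metric
open Pool.Agent.H13.SM (conTan cone Inv_hasFDerivAt_eval)
open Pool.Agent.H17 (PN)
open Pool.Agent.H62.FC (Homog)

namespace Pool.Agent.GG

variable {N : ℕ} {P : Ideal (MvPolynomial (Fin (N + 1)) ℂ)} {J : ℕ} {m : Fin J → ℕ} {θ : ∀ k, SymSec P (m k)}

section lifts

variable {E : Type*} [NormedAddCommGroup E] [NormedSpace ℂ E]

/-- two lifts of a map to projective space differ by a holomorphic factor -/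
private theorem one_ratio {Φ : E → PN N} {F G : E → Fin (N + 1) → ℂ} {q : E} (hF : AnalyticAt ℂ F q)
    (hF' : ∀ᶠ p in 𝓝 q, ∃ h : F p ≠ 0, Φ p = Projectivization.mk ℂ (F p) h) (hG : AnalyticAt ℂ G q)
    (hG' : ∀ᶠ p in 𝓝 q, ∃ h : G p ≠ 0, Φ p = Projectivization.mk ℂ (G p) h) :
    ∃ h : E → ℂ, AnalyticAt ℂ h q ∧ h q ≠ 0 ∧ ∀ᶠ p in 𝓝 q, F p = h p • G p := by
  obtain ⟨hF0, hF1⟩ := hF'.self_of_nhds
  obtain ⟨hG0, hG1⟩ := hG'.self_of_nhds
  obtain ⟨b, hb⟩ : ∃ b, G q b ≠ 0 := by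
    by_contra h
    push Not at h
    exact hG0 (funext h)
  have hFb : AnalyticAt ℂ (fun p => F p b) q := (analyticAt_pi_iff.1 hF) b
  have hGb : AnalyticAt ℂ (fun p => G p b) q := (analyticAt_pi_iff.1 hG) b
  refine ⟨fun p => F p b / G p b, hFb.div hGb hb, ?_, ?_⟩
  · obtain ⟨c, hc, h⟩ := Pool.Agent.H17.mk_eq_mk_cross (hF1.symm.trans hG1)
    show F q b / G q b ≠ 0
    rw [h b]
    exact div_ne_zero (mul_ne_zero hc hb) hb
  · filter_upwards [hF', hG', hGb.continuousAt.eventually_ne hb] with p h1 h2 h3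
    obtain ⟨h4, h5⟩ := h1
    obtain ⟨h6, h7⟩ := h2
    obtain ⟨c, hc, h⟩ := Pool.Agent.H17.mk_eq_mk_cross (h5.symm.trans h7)
    have h8 : F p b / G p b = c := by
      rw [h b]
      field_simp
    funext j
    show F p j = (F p b / G p b) * G p j
    rw [h8, h j]

private theorem one_tan {F : E → Fin (N + 1) → ℂ} {q : E} (hF : DifferentiableAt ℂ F q) (hc : ∀ᶠ p in 𝓝 q, F p ∈ cone P) (u : E) :
    fderiv ℂ F q u ∈ conTan P (F q) := by
  intro Q hQ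
  have h1 := (Inv_hasFDerivAt_eval Q (F q)).comp q hF.hasFDerivAt
  have h2 : HasFDerivAt ((fun y : Fin (N + 1) → ℂ => eval y Q) ∘ F) (0 : E →L[ℂ] ℂ) q := by
    refine (hasFDerivAt_const (0 : ℂ) q).congr_of_eventuallyEq ?_
    filter_upwards [hc] with z hz
    exact hz.2 Q hQ
  have h3 := h1.unique h2
  have h4 := congrArg (fun L : E →L[ℂ] ℂ => L u) h3
  simp only [ContinuousLinearMap.comp_apply, sum_apply, FunLike.coe_smul, Pi.smul_apply, ContinuousLinearMap.proj_apply, smul_eq_mul, zero_apply] at h4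
  rw [← h4]
  exact Finset.sum_congr rfl fun i _ => mul_comm _ _

private theorem one_fderiv {F G : E → Fin (N + 1) → ℂ} {h : E → ℂ} {q : E} (hh : DifferentiableAt ℂ h q) (hG : DifferentiableAt ℂ G q)
    (he : ∀ᶠ p in 𝓝 q, F p = h p • G p) (u : E) : fderiv ℂ F q u = h q • fderiv ℂ G q u + (fderiv ℂ h q u) • G q := by
  have h1 : HasFDerivAt (fun p => h p • G p) (h q • fderiv ℂ G q + (fderiv ℂ h q).smulRight (G q)) q := hh.hasFDerivAt.smul hG.hasFDerivAt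
  have h2 : F =ᶠ[𝓝 q] fun p => h p • G p := he
  rw [h2.fderiv_eq, h1.fderiv]
  rfl

private theorem one_val {k M : ℕ} (hP : Homog P) (Ω : CanSec P k M) {F G : E → Fin (N + 1) → ℂ} {h : E → ℂ} {q : E} (hh : DifferentiableAt ℂ h q)
    (h0 : h q ≠ 0) (hG : DifferentiableAt ℂ G q) (hc : ∀ᶠ p in 𝓝 q, G p ∈ cone P) (he : ∀ᶠ p in 𝓝 q, F p = h p • G p) (u : Fin k → E) :
    Ω.toFun (F q) (fun j => fderiv ℂ F q (u j)) = (h q)⁻¹ * Ω.toFun (G q) (fun j => fderiv ℂ G q (u j)) := by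
  have hx : G q ∈ cone P := hc.self_of_nhds
  have hx' : h q • G q ∈ cone P := Pool.Agent.AD.G.cone_smulC hP hx h0
  have hv : ∀ j, fderiv ℂ G q (u j) ∈ conTan P (G q) := fun j => one_tan hG hc _
  have h1 : (fun j => fderiv ℂ F q (u j)) = fun j => h q • fderiv ℂ G q (u j) + ((h q)⁻¹ * fderiv ℂ h q (u j)) • (h q • G q) := by
    funext j
    rw [one_fderiv hh hG he, smul_smul ((h q)⁻¹ * fderiv ℂ h q (u j))]
    congr 2
    field_simp
  rw [he.self_of_nhds, h1, Ω.add_smul _ hx' _ (fun j => Pool.Agent.AD.G.conTan_smulC hP (hv j) _), ← Ω.scale _ hx _ hv _ h0,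
    inv_mul_cancel_left₀ h0]

private theorem one_an {k M : ℕ} (Ω : CanSec P k M) {F : E → Fin (N + 1) → ℂ} {q : E} (hF : AnalyticAt ℂ F q)
    (hc : ∀ᶠ p in 𝓝 q, F p ∈ cone P) (u : Fin k → E) : AnalyticAt ℂ (fun p => Ω.toFun (F p) (fun j => fderiv ℂ F p (u j))) q := by
  obtain ⟨b, hb⟩ : ∃ b, F q b ≠ 0 := by
    by_contra h
    push Not at h
    exact hc.self_of_nhds.1 (funext h)
  obtain ⟨e, A, hA⟩ := Ω.regular b
  have hFb : AnalyticAt ℂ (fun p => F p b) q := (analyticAt_pi_iff.1 hF) b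
  have hv : ∀ (j : Fin k) (c : Fin (N + 1)), AnalyticAt ℂ (fun p => fderiv ℂ F p (u j) c) q := by
    intro j c
    have h1 : AnalyticAt ℂ (fderiv ℂ F) q := hF.fderiv
    have h2 : AnalyticAt ℂ (fun p => (fderiv ℂ F p) (u j)) q :=
      ((ContinuousLinearMap.apply ℂ (Fin (N + 1) → ℂ) (u j)).analyticAt _).fun_comp h1
    exact (analyticAt_pi_iff.1 h2) c
  have h3 : AnalyticAt ℂ (fun p => aeval (Sum.elim (F p) fun s : Fin k × Fin (N + 1) => fderiv ℂ F p (u s.1) s.2) A) q := by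
    refine AnalyticAt.aeval_mvPolynomial (fun i => ?_) A
    cases i with
    | inl i => exact (analyticAt_pi_iff.1 hF) i
    | inr s => exact hv s.1 s.2
  refine (h3.div (hFb.pow e) (pow_ne_zero e hb)).congr ?_
  filter_upwards [hc.eventually_nhds, hF.eventually_analyticAt, hFb.continuousAt.eventually_ne hb] with p h4 h5 h6
  have h7 := hA (F p) h4.self_of_nhds (fun j => fderiv ℂ F p (u j)) fun j => one_tan h5.differentiableAt h4 _
  show aeval _ A / F p b ^ e = _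
  rw [div_eq_iff (pow_ne_zero e h6), mul_comm, h7]
  exact congrArg (fun φ : MvPolynomial (Fin (N + 1) ⊕ Fin k × Fin (N + 1)) ℂ →+* ℂ => φ A) (coe_aeval_eq_eval _)

end lifts

private theorem one_theta (hP : Homog P) {k : ℕ} (σ : SymSec P k) {F G : ℂ → Fin (N + 1) → ℂ} {h : ℂ → ℂ} {z : ℂ} (hh : DifferentiableAt ℂ h z)
    (h0 : h z ≠ 0) (hG : DifferentiableAt ℂ G z) (hc : ∀ᶠ p in 𝓝 z, G p ∈ cone P) (he : ∀ᶠ p in 𝓝 z, F p = h p • G p) :
    σ.toFun (F z) (deriv F z) = σ.toFun (G z) (deriv G z) := by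
  have hx : G z ∈ cone P := hc.self_of_nhds
  have hx' : h z • G z ∈ cone P := Pool.Agent.AD.G.cone_smulC hP hx h0
  have hv : deriv G z ∈ conTan P (G z) := one_tan hG hc _
  have h1 : deriv F z = h z • deriv G z + ((h z)⁻¹ * deriv h z) • (h z • G z) := by
    have h2 : deriv F z = h z • deriv G z + (deriv h z) • G z := one_fderiv hh hG he 1
    rw [h2, smul_smul ((h z)⁻¹ * deriv h z)]
    congr 2
    field_simp
  rw [he.self_of_nhds, h1, σ.add_smul _ hx' _ (Pool.Agent.AD.G.conTan_smulC hP hv _), σ.scale _ hx _ hv _ h0]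

/-- the coordinate directions -/
private noncomputable def dir (n : ℕ) : Fin (n + 1) → ℂ × (Fin n → ℂ) := Fin.cons (1, 0) fun i => (0, Pi.single i 1)

private theorem one_cons {n : ℕ} (F : ℂ × (Fin n → ℂ) → Fin (N + 1) → ℂ) (q : ℂ × (Fin n → ℂ)) :
    (Fin.cons (fderiv ℂ F q (1, 0)) fun i => fderiv ℂ F q (0, Pi.single i 1) : Fin (n + 1) → Fin (N + 1) → ℂ) = fun j => fderiv ℂ F q (dir n j) := by
  funext j
  refine Fin.cases ?_ (fun i => ?_) j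
  · rw [Fin.cons_zero]
    rfl
  · rw [Fin.cons_succ]
    rfl

/-- a lift with given values at `s = 0` -/
private theorem one_norm (hP : Homog P) {n : ℕ} {Φ : ℂ × (Fin n → ℂ) → PN N} {G₀ : ℂ → Fin (N + 1) → ℂ} (hG₀ : Differentiable ℂ G₀)
    (hG₀' : ∀ z, ∃ h : G₀ z ≠ 0, Φ (z, 0) = Projectivization.mk ℂ (G₀ z) h) {z : ℂ} {F : ℂ × (Fin n → ℂ) → Fin (N + 1) → ℂ}
    (hF : RepN P Φ F (z, 0)) : ∃ F₁, RepN P Φ F₁ (z, 0) ∧ ∀ᶠ w in 𝓝 z, F₁ (w, 0) = G₀ w := by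
  have hcz : ContinuousAt (fun w : ℂ => ((w, 0) : ℂ × (Fin n → ℂ))) z := (continuous_id.prodMk continuous_const).continuousAt
  have hF1 : AnalyticAt ℂ (fun w : ℂ => F (w, 0)) z := by
    have h1 : AnalyticAt ℂ (fun w : ℂ => ((w, 0) : ℂ × (Fin n → ℂ))) z := analyticAt_id.prod analyticAt_const
    exact AnalyticAt.comp (g := F) (f := fun w : ℂ => ((w, 0) : ℂ × (Fin n → ℂ))) (x := z) hF.1 h1
  obtain ⟨g, hg, hg0, hge⟩ := one_ratio (Φ := fun w => Φ (w, 0)) (hG₀.analyticAt z) (Eventually.of_forall hG₀') hF1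
    ((hcz.eventually hF.2).mono fun w hw => hw.2)
  refine ⟨fun p => g p.1 • F p, ⟨(hg.comp_of_eq analyticAt_fst rfl).fun_smul hF.1, ?_⟩, hge.mono fun w hw => hw.symm⟩
  have h2 : ∀ᶠ p : ℂ × (Fin n → ℂ) in 𝓝 (z, 0), g p.1 ≠ 0 :=
    (ContinuousAt.comp (x := ((z, 0) : ℂ × (Fin n → ℂ))) (f := Prod.fst) (g := g) hg.continuousAt continuousAt_fst).eventually_ne hg0
  filter_upwards [hF.2, h2] with p h3 h4
  obtain ⟨h5, h6, h7⟩ := h3
  refine ⟨Pool.Agent.AD.G.cone_smulC hP h5 h4, smul_ne_zero h4 h6, ?_⟩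
  rw [h7, Projectivization.mk_eq_mk_iff']
  exact ⟨(g p.1)⁻¹, by rw [smul_smul, inv_mul_cancel₀ h4, one_smul]⟩

private theorem one_indep (hP : Homog P) {n k M : ℕ} (Ω : CanSec P k M) {Φ : ℂ × (Fin n → ℂ) → PN N} {F G : ℂ × (Fin n → ℂ) → Fin (N + 1) → ℂ}
    {q : ℂ × (Fin n → ℂ)} (hF : RepN P Φ F q) (hG : RepN P Φ G q) (u : Fin k → ℂ × (Fin n → ℂ)) :
    ∃ c : ℂ, c ≠ 0 ∧ F q = c • G q ∧ Ω.toFun (F q) (fun j => fderiv ℂ F q (u j)) = c⁻¹ * Ω.toFun (G q) (fun j => fderiv ℂ G q (u j)) := by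
  obtain ⟨h, hh, h0, he⟩ := one_ratio hF.1 (hF.2.mono fun p hp => hp.2) hG.1 (hG.2.mono fun p hp => hp.2)
  exact ⟨h q, h0, he.self_of_nhds, one_val hP Ω hh.differentiableAt h0 hG.1.differentiableAt (hG.2.mono fun p hp => hp.1) he u⟩

private theorem one_norm_le (x : Fin (N + 1) → ℂ) : ‖(WithLp.toLp 2 x : Pool.Agent.H36.BP.EN N)‖ ^ 2 ≤ (N + 1) * ‖x‖ ^ 2 := by
  rw [EuclideanSpace.norm_sq_eq]
  calc ∑ i, ‖(WithLp.toLp 2 x : Pool.Agent.H36.BP.EN N) i‖ ^ 2 ≤ ∑ _i : Fin (N + 1), ‖x‖ ^ 2 :=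
        Finset.sum_le_sum fun i _ => pow_le_pow_left₀ (norm_nonneg _) (norm_le_pi_norm x i) 2
    _ = (N + 1) * ‖x‖ ^ 2 := by simp

/-- comparison of the lengths -/
private theorem one_fs (x v : Fin (N + 1) → ℂ) (hx : x ≠ 0) :
    wl x v / (N + 1) ≤ Pool.Agent.H36.BP.fs (N := N) (WithLp.toLp 2 x) (WithLp.toLp 2 v) := by
  have hxn : 0 < ‖x‖ := norm_pos_iff.2 hx
  have hN : (0 : ℝ) < N + 1 := by positivity
  have hx2 : 0 < ‖(WithLp.toLp 2 x : Pool.Agent.H36.BP.EN N)‖ := by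
    rw [norm_pos_iff]
    intro h
    apply hx
    funext i
    have := congrArg (fun y : Pool.Agent.H36.BP.EN N => y i) h
    simpa using this
  have h1 : ‖fun p : Fin (N + 1) × Fin (N + 1) => x p.1 * v p.2 - x p.2 * v p.1‖ ≤
      Pool.Agent.H36.BP.wd (WithLp.toLp 2 x : Pool.Agent.H36.BP.EN N) (WithLp.toLp 2 v) := by
    rw [pi_norm_le_iff_of_nonneg (Pool.Agent.H36.BP.wd_nonneg _ _)]
    intro p
    by_cases hp : p.1 = p.2
    · rw [hp, sub_self, norm_zero]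
      exact Pool.Agent.H36.BP.wd_nonneg _ _
    · have h2 := Pool.Agent.H36.BP.gram_proj (a := (EuclideanSpace.single p.1 (1 : ℂ) : Pool.Agent.H36.BP.EN N))
        (b := (EuclideanSpace.single p.2 (1 : ℂ) : Pool.Agent.H36.BP.EN N)) (by simp) (by simp)
        (by rw [EuclideanSpace.inner_single_left]; simp [hp]) (WithLp.toLp 2 x) (WithLp.toLp 2 v)
      simpa [EuclideanSpace.inner_single_left] using h2
  have h3 := one_norm_le x
  unfold wl Pool.Agent.H36.BP.fs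
  rw [div_div, mul_comm (‖x‖ ^ 2)]
  exact (div_le_div_of_nonneg_left (norm_nonneg _) (by positivity) h3).trans (div_le_div_of_nonneg_right h1 (by positivity))

theorem one_var (hP : Homog P) (hθ : Polar θ) (hm : ∀ k, 1 ≤ m k) {n M : ℕ} (hM : 1 ≤ M) (Ω : CanSec P (n + 1) M) {c₀ : Fin J → ℂ} (hc : c₀ ≠ 0)
    {Φ : ℂ × (Fin n → ℂ) → PN N} (h1 : ∀ z, ArcAt θ c₀ (fun w => Φ (w, 0)) z) (h2 : ∀ z, ∃ F, RepN P Φ F (z, 0))
    (h3 : ∃ C : ℝ, ∀ z F, RepN P Φ F (z, 0) → ∀ i, wl (F (z, 0)) (fderiv ℂ F (z, 0) (0, Pi.single i 1)) ≤ C * Real.exp (C * ‖z‖))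
    {F : ℂ × (Fin n → ℂ) → Fin (N + 1) → ℂ} (hF : RepN P Φ F (0, 0)) :
    Ω.toFun (F (0, 0)) (Fin.cons (fderiv ℂ F (0, 0) (1, 0)) fun i => fderiv ℂ F (0, 0) (0, Pi.single i 1)) = 0 := by
  obtain ⟨C₃, hC₃⟩ := h3
  have hf : Pool.Agent.H17.HolomorphicInto (fun w => Φ (w, 0)) Set.univ := by
    intro z _
    obtain ⟨F, hF, hR, -⟩ := h1 z
    exact ⟨F, hF, hR⟩
  obtain ⟨x, hx⟩ := Pool.Agent.H17.exists_global_lift hf
  obtain ⟨G₀, hG₀⟩ : ∃ G₀ : ℂ → Fin (N + 1) → ℂ, G₀ = fun z j => (x j : ℂ → ℂ) z := ⟨_, rfl⟩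
  have hG₀d : Differentiable ℂ G₀ := by
    rw [hG₀]
    exact differentiable_pi.2 fun j => (x j).diff
  have hG₀l : ∀ z, ∃ h : G₀ z ≠ 0, Φ (z, 0) = Projectivization.mk ℂ (G₀ z) h := by
    rw [hG₀]
    exact hx
  have hex : ∀ z, ∃ F₁, RepN P Φ F₁ (z, 0) ∧ ∀ᶠ w in 𝓝 z, F₁ (w, 0) = G₀ w := fun z => by
    obtain ⟨F, hF⟩ := h2 z
    exact one_norm hP hG₀d hG₀l hF
  choose F₁ hF₁ hF₁e using hex
  have hcone : ∀ z, G₀ z ∈ cone P := fun z => by
    have h := (hF₁ z).2.self_of_nhds.1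
    rwa [(hF₁e z).self_of_nhds] at h
  have hder : ∀ z, fderiv ℂ (F₁ z) (z, 0) (dir n 0) = deriv G₀ z := fun z => by
    have h4 : HasDerivAt (fun w : ℂ => ((w, 0) : ℂ × (Fin n → ℂ))) (1, 0) z := (hasDerivAt_id z).prodMk (hasDerivAt_const z 0)
    have h5 : HasDerivAt (fun w : ℂ => F₁ z (w, 0)) (fderiv ℂ (F₁ z) (z, 0) (1, 0)) z :=
      (hF₁ z).1.differentiableAt.hasFDerivAt.comp_hasDerivAt z h4
    have h6 : (fun w : ℂ => F₁ z (w, 0)) =ᶠ[𝓝 z] G₀ := hF₁e z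
    rw [← h6.deriv_eq, h5.deriv]
    rfl
  have hth : ∀ z k, (θ k).toFun (G₀ z) (deriv G₀ z) = c₀ k := fun z k => by
    obtain ⟨F, hF, hR, hc⟩ := h1 z
    obtain ⟨g, hg, hg0, hge⟩ := one_ratio (Φ := fun w => Φ (w, 0)) (hG₀d.analyticAt z) (Eventually.of_forall hG₀l) hF hR
    rw [one_theta hP (θ k) hg.differentiableAt hg0 hF.differentiableAt (hc.mono fun w hw => hw.1) hge]
    exact hc.self_of_nhds.2 k
  obtain ⟨W, hW⟩ : ∃ W : ℂ → ℂ, W = fun z => Ω.toFun (F₁ z (z, 0)) (fun j => fderiv ℂ (F₁ z) (z, 0) (dir n j)) := ⟨_, rfl⟩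
  have hWd : Differentiable ℂ W := by
    intro z₀
    have hcz : ContinuousAt (fun w : ℂ => ((w, 0) : ℂ × (Fin n → ℂ))) z₀ := (continuous_id.prodMk continuous_const).continuousAt
    have h4 : ∀ᶠ z in 𝓝 z₀, RepN P Φ (F₁ z₀) (z, 0) ∧ F₁ z₀ (z, 0) = G₀ z :=
      ((hcz.eventually ((hF₁ z₀).1.eventually_analyticAt.and (hF₁ z₀).2.eventually_nhds)).mono fun z hz => hz).and (hF₁e z₀)
    have h5 : W =ᶠ[𝓝 z₀] fun z => Ω.toFun (F₁ z₀ (z, 0)) (fun j => fderiv ℂ (F₁ z₀) (z, 0) (dir n j)) := by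
      filter_upwards [h4] with z hz
      obtain ⟨c, hc0, h6, h7⟩ := one_indep hP Ω (hF₁ z) hz.1 (dir n)
      have h8 : c = 1 := by
        rw [(hF₁e z).self_of_nhds, hz.2] at h6
        have h9 : (1 : ℂ) • G₀ z = c • G₀ z := by rw [one_smul]; exact h6
        exact (smul_left_injective ℂ (hG₀l z).1 h9).symm
      rw [hW]
      show Ω.toFun (F₁ z (z, 0)) _ = _
      rw [h7, h8, inv_one, one_mul]
    have h6 : AnalyticAt ℂ (fun w : ℂ => ((w, 0) : ℂ × (Fin n → ℂ))) z₀ := analyticAt_id.prod analyticAt_const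
    have h7 : AnalyticAt ℂ (fun z : ℂ => Ω.toFun (F₁ z₀ (z, 0)) (fun j => fderiv ℂ (F₁ z₀) (z, 0) (dir n j))) z₀ :=
      AnalyticAt.comp (g := fun p => Ω.toFun (F₁ z₀ p) (fun j => fderiv ℂ (F₁ z₀) p (dir n j))) (f := fun w : ℂ => ((w, 0) : ℂ × (Fin n → ℂ)))
        (x := z₀) (one_an Ω (hF₁ z₀).1 ((hF₁ z₀).2.mono fun p hp => hp.1) (dir n)) h6
    exact (h7.congr h5.symm).differentiableAt
  obtain ⟨Cb, hCb⟩ := can_bound hP hM Ω
  obtain ⟨c₁, hc₁, C₁, hw⟩ := wl_bounds hP hθ hm hc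
  have hW0 : W 0 = 0 := by
    by_contra hne
    obtain ⟨B, hB⟩ : ∃ B, B = max C₃ 1 := ⟨_, rfl⟩
    have hB1 : 1 ≤ B := by rw [hB]; exact le_max_right _ _
    have hB3 : C₃ ≤ B := by rw [hB]; exact le_max_left _ _
    obtain ⟨D, hD⟩ : ∃ D : ℝ, D = |Cb| * (max C₁ 1) ^ M * (B ^ M) ^ n * (N + 1) := ⟨_, rfl⟩
    obtain ⟨D', hD'⟩ : ∃ D' : ℝ, D' = n * (M * B) := ⟨_, rfl⟩
    have hN : (0 : ℝ) < N + 1 := by positivity
    refine growth_contra (F := fun z => (WithLp.toLp 2 (G₀ z) : Pool.Agent.H36.BP.EN N)) (w := W) (j := 1) (c := c₁ / (N + 1)) (C := max D D')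
      ?_ ?_ hWd hne le_rfl (div_pos hc₁ hN) ?_ ?_
    · exact (PiLp.continuousLinearEquiv 2 ℂ (fun _ : Fin (N + 1) => ℂ)).symm.differentiable.comp hG₀d
    · intro z h
      apply (hG₀l z).1
      funext i
      have := congrArg (fun y : Pool.Agent.H36.BP.EN N => y i) h
      simpa using this
    · intro z
      have h4 : deriv (fun z => (WithLp.toLp 2 (G₀ z) : Pool.Agent.H36.BP.EN N)) z = WithLp.toLp 2 (deriv G₀ z) := by
        have h5 : HasDerivAt G₀ (deriv G₀ z) z := (hG₀d z).hasDerivAt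
        exact (((PiLp.continuousLinearEquiv 2 ℂ (fun _ : Fin (N + 1) => ℂ)).symm :
          (Fin (N + 1) → ℂ) →L[ℂ] Pool.Agent.H36.BP.EN N).hasFDerivAt.comp_hasDerivAt z h5).deriv
      rw [h4]
      refine le_trans ?_ (one_fs (G₀ z) (deriv G₀ z) (hG₀l z).1)
      exact div_le_div_of_nonneg_right (hw (G₀ z) (hcone z) (deriv G₀ z) (one_tan (hG₀d z) (Eventually.of_forall hcone) 1) (hth z)).1 hN.le
    · intro z
      have h4 := hCb (F₁ z (z, 0)) (hF₁ z).2.self_of_nhds.1 (fun j => fderiv ℂ (F₁ z) (z, 0) (dir n j)) fun j =>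
        one_tan (hF₁ z).1.differentiableAt ((hF₁ z).2.mono fun p hp => hp.1) _
      rw [Fin.prod_univ_succ] at h4
      have hwl0 : ∀ x v : Fin (N + 1) → ℂ, 0 ≤ wl x v := fun x v => by unfold wl; positivity
      have h5 : wl (F₁ z (z, 0)) (fderiv ℂ (F₁ z) (z, 0) (dir n 0)) ^ M ≤ (max C₁ 1) ^ M := by
        refine pow_le_pow_left₀ (hwl0 _ _) ?_ M
        rw [hder z, (hF₁e z).self_of_nhds]
        exact ((hw (G₀ z) (hcone z) (deriv G₀ z) (one_tan (hG₀d z) (Eventually.of_forall hcone) 1) (hth z)).2).trans (le_max_left _ _)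
      have hexp : C₃ * Real.exp (C₃ * ‖z‖) ≤ B * Real.exp (B * ‖z‖) := by
        have h6 : Real.exp (C₃ * ‖z‖) ≤ Real.exp (B * ‖z‖) := Real.exp_le_exp.2 (mul_le_mul_of_nonneg_right hB3 (norm_nonneg z))
        calc C₃ * Real.exp (C₃ * ‖z‖) ≤ B * Real.exp (C₃ * ‖z‖) := mul_le_mul_of_nonneg_right hB3 (Real.exp_pos _).le
          _ ≤ B * Real.exp (B * ‖z‖) := mul_le_mul_of_nonneg_left h6 (by linarith)
      have h6 : ∏ i : Fin n, wl (F₁ z (z, 0)) (fderiv ℂ (F₁ z) (z, 0) (dir n i.succ)) ^ M ≤ ((B * Real.exp (B * ‖z‖)) ^ M) ^ n := by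
        calc ∏ i : Fin n, wl (F₁ z (z, 0)) (fderiv ℂ (F₁ z) (z, 0) (dir n i.succ)) ^ M ≤ ∏ _i : Fin n, (B * Real.exp (B * ‖z‖)) ^ M :=
              Finset.prod_le_prod (fun i _ => pow_nonneg (hwl0 _ _) M) fun i _ => pow_le_pow_left₀ (hwl0 _ _) ((hC₃ z (F₁ z) (hF₁ z) i).trans hexp) M
          _ = ((B * Real.exp (B * ‖z‖)) ^ M) ^ n := by simp
      have h7 : ((B * Real.exp (B * ‖z‖)) ^ M) ^ n = (B ^ M) ^ n * Real.exp (D' * ‖z‖) := by
        rw [mul_pow, mul_pow, ← Real.exp_nat_mul, ← Real.exp_nat_mul, hD']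
        congr 2
        ring
      have h8 : ‖(WithLp.toLp 2 (G₀ z) : Pool.Agent.H36.BP.EN N)‖ ≤ (N + 1) * ‖G₀ z‖ := by
        have h9 := one_norm_le (G₀ z)
        have h10 : (N + 1 : ℝ) * ‖G₀ z‖ ^ 2 ≤ ((N + 1) * ‖G₀ z‖) ^ 2 := by
          rw [mul_pow]
          refine mul_le_mul_of_nonneg_right ?_ (by positivity)
          have h11 : (1 : ℝ) ≤ N + 1 := by
            have := Nat.cast_nonneg (α := ℝ) N
            linarith
          nlinarith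
        exact le_of_sq_le_sq (h9.trans h10) (by positivity)
      have h9 : ‖W z‖ * ‖G₀ z‖ ≤ |Cb| * ((max C₁ 1) ^ M * ((B ^ M) ^ n * Real.exp (D' * ‖z‖))) := by
        rw [← h7]
        have h10 : ‖W z‖ * ‖G₀ z‖ ≤ Cb * (wl (F₁ z (z, 0)) (fderiv ℂ (F₁ z) (z, 0) (dir n 0)) ^ M *
            ∏ i : Fin n, wl (F₁ z (z, 0)) (fderiv ℂ (F₁ z) (z, 0) (dir n i.succ)) ^ M) := by
          rw [hW]
          have h11 := h4
          rw [(hF₁e z).self_of_nhds] at h11 ⊢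
          show ‖Ω.toFun (F₁ z (z, 0)) (fun j => fderiv ℂ (F₁ z) (z, 0) (dir n j))‖ * ‖G₀ z‖ ≤ _
          rw [(hF₁e z).self_of_nhds]
          exact h11
        refine h10.trans ?_
        refine mul_le_mul (le_abs_self Cb) (mul_le_mul h5 h6 ?_ (by positivity)) ?_ (abs_nonneg _)
        · exact Finset.prod_nonneg fun i _ => pow_nonneg (hwl0 _ _) M
        · exact mul_nonneg (pow_nonneg (hwl0 _ _) M) (Finset.prod_nonneg fun i _ => pow_nonneg (hwl0 _ _) M)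
      have hD0 : 0 ≤ D := by
        rw [hD]
        positivity
      calc ‖W z‖ * ‖(WithLp.toLp 2 (G₀ z) : Pool.Agent.H36.BP.EN N)‖ ^ 1 ≤ ‖W z‖ * ((N + 1) * ‖G₀ z‖) := by
            rw [pow_one]
            exact mul_le_mul_of_nonneg_left h8 (norm_nonneg _)
        _ = (‖W z‖ * ‖G₀ z‖) * (N + 1) := by ring
        _ ≤ (|Cb| * ((max C₁ 1) ^ M * ((B ^ M) ^ n * Real.exp (D' * ‖z‖)))) * (N + 1) := mul_le_mul_of_nonneg_right h9 hN.le
        _ = D * Real.exp (D' * ‖z‖) := by rw [hD]; ring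
        _ ≤ max D D' * Real.exp (max D D' * ‖z‖) := by
            refine mul_le_mul (le_max_left _ _) (Real.exp_le_exp.2 (mul_le_mul_of_nonneg_right (le_max_right _ _) (norm_nonneg z))) (Real.exp_pos _).le
              (hD0.trans (le_max_left _ _))
  rw [one_cons]
  obtain ⟨c, hc0, h6, h7⟩ := one_indep hP Ω hF (hF₁ 0) (dir n)
  rw [h7]
  rw [hW] at hW0
  rw [show Ω.toFun (F₁ 0 (0, 0)) (fun j => fderiv ℂ (F₁ 0) (0, 0) (dir n j)) = 0 from hW0, mul_zero]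

end Pool.Agent.GG
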