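import Pool.Agent.GG.Fam3
import Pool.Agent.GG.One
import Pool.Agent.GG.Alg
import Pool.Agent.GG.Gen

/-!
# GG Core: the points of the arcs of one type lie in a hypersurface

Suppose the `x`-parts of the initial vectors `(x, v)` of arcs (of the type given by the rows `I` and the coordinate `b` with `v_b ≠ 0`) are Zariski dense.  They contain a germ of a manifold `Y (u)` whose `x`-part has rank `n + 1` (`dichotomy`, `exists_germ`).  Choose `n` directions transverse to `v` (`exists_dirs`);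
the entire curves with these initial vectors form a holomorphic family (`exists_curves`), and the section of `K^M (-1)` vanishes at the point at time `0` (`one_var`), although the `n + 1` vectors are independent modulo `x`: a contradiction.
-/

set_option autoImplicit false

open MvPolynomial Topology Filter Metric
open Pool.Agent.H13.SM (conTan cone)
open Pool.Agent.H17 (PN)
open Pool.Agent.H62.FC (Homog)

namespace Pool.Agent.GG

variable {N : ℕ} {P : Ideal (MvPolynomial (Fin (N + 1)) ℂ)} {J : ℕ} {m : Fin J → ℕ} {θ : ∀ k, SymSec P (m k)}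

theorem mem_cone_of_gen {q : ℕ} {Q : Fin q → MvPolynomial (Fin (N + 1)) ℂ} (hspan : Ideal.span (Set.range Q) = P) {x : Fin (N + 1) → ℂ}
    (h0 : x ≠ 0) (h : ∀ j, eval x (Q j) = 0) : x ∈ cone P := by
  refine ⟨h0, fun R hR => ?_⟩
  rw [← hspan] at hR
  have : Ideal.span (Set.range Q) ≤ RingHom.ker (eval x : MvPolynomial (Fin (N + 1)) ℂ →+* ℂ) := by
    rw [Ideal.span_le]
    rintro _ ⟨j, rfl⟩
    exact h j
  exact this hR

theorem mem_conTan_of_gen {q : ℕ} {Q : Fin q → MvPolynomial (Fin (N + 1)) ℂ} (hspan : Ideal.span (Set.range Q) = P) {x v : Fin (N + 1) → ℂ}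
    (h : ∀ j, eval x (Q j) = 0) (h' : ∀ j, ∑ i, v i * eval x (pderiv i (Q j)) = 0) : v ∈ conTan P x := by
  intro R hR
  rw [← hspan] at hR
  have key : eval x R = 0 ∧ ∑ i, v i * eval x (pderiv i R) = 0 := by
    refine Submodule.span_induction (p := fun R _ => eval x R = 0 ∧ ∑ i, v i * eval x (pderiv i R) = 0) ?_ ?_ ?_ ?_ hR
    · rintro _ ⟨j, rfl⟩
      exact ⟨h j, h' j⟩
    · simp
    · rintro p q - - ⟨h1, h2⟩ ⟨h3, h4⟩
      refine ⟨by rw [map_add, h1, h3, add_zero], ?_⟩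
      simp only [map_add, mul_add, Finset.sum_add_distrib, h2, h4, add_zero]
    · rintro p q - ⟨h1, h2⟩
      refine ⟨by rw [smul_eq_mul, map_mul, h1, mul_zero], ?_⟩
      have : ∀ i, v i * eval x (pderiv i (p • q)) = eval x p * (v i * eval x (pderiv i q)) + (v i * eval x (pderiv i p)) * eval x q := by
        intro i
        rw [smul_eq_mul, Derivation.leibniz, map_add, smul_eq_mul, smul_eq_mul, map_mul, map_mul]
        ring
      simp only [this, h1, mul_zero, add_zero, ← Finset.mul_sum, h2]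
  exact key.2

theorem exists_dirs {V W : Type} [AddCommGroup V] [Module ℂ V] [AddCommGroup W] [Module ℂ W] {n : ℕ} (E : V →ₗ[ℂ] W) (π : W →ₗ[ℂ] (Fin (n + 1) → ℂ))
    (h : Function.Surjective (π.comp E)) {v₀ : W} (hv : v₀ ≠ 0) :
    ∃ s : Fin n → V, ∀ (β : ℂ) (γ : Fin n → ℂ), β • v₀ + ∑ j, γ j • E (s j) = 0 → β = 0 ∧ γ = 0 := by
  classical
  have h0 : ∀ i : Fin (n + 1), ∃ t : V, π (E t) = Pi.single i 1 := fun i => h _
  choose t ht using h0
  obtain ⟨i, hi⟩ : ∃ i : Fin (n + 1), π v₀ = 0 ∨ π v₀ i ≠ 0 := by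
    by_cases h1 : π v₀ = 0
    · exact ⟨0, Or.inl h1⟩
    · obtain ⟨i, hi⟩ : ∃ i, π v₀ i ≠ 0 := by
        by_contra hcon
        push Not at hcon
        exact h1 (funext hcon)
      exact ⟨i, Or.inr hi⟩
  refine ⟨fun j => t (i.succAbove j), fun β γ hβ => ?_⟩
  have h1 : β • π v₀ + ∑ j, γ j • (Pi.single (i.succAbove j) 1 : Fin (n + 1) → ℂ) = 0 := by
    have := congrArg π hβ
    rw [map_add, map_smul, map_sum, map_zero] at this
    rw [← this]
    congr 1
    refine Finset.sum_congr rfl fun j _ => ?_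
    rw [map_smul, ht]
  have h2 : β = 0 ∨ π v₀ = 0 := by
    rcases hi with hi | hi
    · exact Or.inr hi
    · left
      have h3 := congrFun h1 i
      simp only [Pi.add_apply, Pi.smul_apply, smul_eq_mul, Finset.sum_apply, Pi.zero_apply] at h3
      rw [Finset.sum_eq_zero, add_zero] at h3
      · exact (mul_eq_zero.1 h3).resolve_right hi
      · intro j _
        rw [Pi.single_eq_of_ne (Fin.succAbove_ne i j).symm, mul_zero]
  have h3 : β • π v₀ = 0 := by
    rcases h2 with h2 | h2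
    · rw [h2, zero_smul]
    · rw [h2, smul_zero]
  have h4 : γ = 0 := by
    funext j
    rw [h3, zero_add] at h1
    have h5 := congrFun h1 (i.succAbove j)
    simp only [Pi.smul_apply, smul_eq_mul, Finset.sum_apply, Pi.zero_apply] at h5
    rw [Finset.sum_eq_single j] at h5
    · simpa using h5
    · intro k _ hk
      rw [Pi.single_eq_of_ne (fun h => hk (Fin.succAbove_right_injective h).symm), mul_zero]
    · simp
  refine ⟨?_, h4⟩
  rw [h4] at hβ
  simp only [Pi.zero_apply, zero_smul, Finset.sum_const_zero, add_zero] at hβ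
  exact (smul_eq_zero.1 hβ).resolve_right hv

theorem core [P.IsPrime] (hP : Homog P) (hθ : Polar θ) (hm : ∀ k, 1 ≤ m k) (f : Frame θ) {n M : ℕ} (hM : 1 ≤ M) (Ω : CanSec P (n + 1) M)
    {R₀ : MvPolynomial (Fin (N + 1)) ℂ} (hΩ : Ω.NonzeroOff R₀) (a : Fin (N + 1)) (𝔓 : Ideal (MvPolynomial (Fin (N + 1)) ℂ)) [𝔓.IsPrime]
    (b' : Fin (n + 1) → Fin (N + 1)) (hb' : ∀ p : MvPolynomial (Fin (n + 1)) ℂ, rename b' p ∈ 𝔓 → p = 0)
    (I : Fin (N + 1) → (Unit ⊕ Unit) ⊕ (Fin f.q ⊕ Fin f.q) ⊕ Fin J) (b : Fin (N + 1)) :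
    ∃ q ∉ 𝔓, ∀ x v c, IsTan θ a c x v → Crit (gfam f a) I (pt x v) → v b ≠ 0 → eval x R₀ ≠ 0 → eval x q = 0 := by
  classical
  set G := gfam f a with hG
  set S : Set (MvPolynomial (Ph N) ℂ) := {g | g = X (Sum.inl a) - 1 ∨ g = X (Sum.inr a) ∨ (∃ j, g = rename Sum.inl (f.Q j)) ∨
    (∃ j, g = ∑ b, rename Sum.inl (pderiv b (f.Q j)) * X (Sum.inr b)) ∨ ∃ l k, g = (⇑(Dt G I))^[k + 1] (G l)} with hS
  have hev : ∀ (x v : Fin (N + 1) → ℂ) (g : MvPolynomial (Fin (N + 1)) ℂ), eval (pt x v) (rename Sum.inl g) = eval x g := by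
    intro x v g
    rw [eval_rename]
    rfl
  have hdv : ∀ (x v : Fin (N + 1) → ℂ) j, eval (pt x v) (∑ b, rename Sum.inl (pderiv b (f.Q j)) * X (Sum.inr b)) =
      ∑ i, v i * eval x (pderiv i (f.Q j)) := by
    intro x v j
    rw [map_sum]
    refine Finset.sum_congr rfl fun i _ => ?_
    rw [map_mul, hev, eval_X]
    exact mul_comm _ _
  rcases dichotomy S (vdet G I * X (Sum.inr b) * rename Sum.inl R₀) (Sum.inl : Fin (N + 1) → Ph N) 𝔓 with ⟨q, hq, h⟩ | ⟨𝔮, h𝔮, hS𝔮, hΔ, hcomap⟩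
  · refine ⟨q, hq, fun x v c ht hc hv hR => ?_⟩
    refine h (pt x v) ?_ ?_
    · rintro g (rfl | rfl | ⟨j, rfl⟩ | ⟨j, rfl⟩ | ⟨l, k, rfl⟩)
      · rw [map_sub, eval_X, map_one]
        exact sub_eq_zero.2 ht.2.1
      · rw [eval_X]
        exact ht.2.2.2.1
      · rw [hev]
        exact ht.1.2 _ (f.span.le (Ideal.subset_span ⟨j, rfl⟩))
      · rw [hdv]
        exact ht.2.2.1 _ (f.span.le (Ideal.subset_span ⟨j, rfl⟩))
      · exact hc.2 l k
    · rw [map_mul, map_mul, hev, eval_X]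
      exact mul_ne_zero (mul_ne_zero hc.1 hv) hR
  exfalso
  obtain ⟨d, Y, hY, hY0, hYΔ, hsurj⟩ := exists_germ h𝔮 hΔ (fun i => (Sum.inl (b' i) : Ph N)) fun p hp => by
    refine hb' p (hcomap _ ?_)
    rw [rename_rename]
    exact hp
  -- the points of the germ
  have hpt : ∀ u, pt (fun i => Y u (Sum.inl i)) (fun i => Y u (Sum.inr i)) = Y u := by
    intro u
    funext s
    cases s <;> rfl
  have hΔc : ∀ᶠ u in 𝓝 (0 : Fin d → ℂ), eval (Y u) (vdet G I * X (Sum.inr b) * rename Sum.inl R₀) ≠ 0 := by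
    have hc : ContinuousAt (fun u => eval (Y u) (vdet G I * X (Sum.inr b) * rename Sum.inl R₀)) 0 :=
      (MvPolynomial.continuous_eval _).continuousAt.comp hY.continuousAt
    exact hc.eventually_ne hYΔ
  have hgood : ∀ u, (∀ g ∈ 𝔮, eval (Y u) g = 0) → eval (Y u) (vdet G I * X (Sum.inr b) * rename Sum.inl R₀) ≠ 0 →
      IsTan θ a (fun k => (θ k).toFun (fun i => Y u (Sum.inl i)) fun i => Y u (Sum.inr i)) (fun i => Y u (Sum.inl i)) (fun i => Y u (Sum.inr i)) ∧
        (fun i => Y u (Sum.inr i)) ≠ 0 ∧ Crit G I (Y u) ∧ eval (fun i => Y u (Sum.inl i)) R₀ ≠ 0 := by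
    intro u hu hΔu
    rw [map_mul, map_mul, ← hpt u, hev, eval_X] at hΔu
    have h1 : Y u (Sum.inl a) = 1 := by
      have := hu _ (hS𝔮 (Or.inl rfl))
      rw [map_sub, eval_X, map_one] at this
      exact sub_eq_zero.1 this
    have h2 : Y u (Sum.inr a) = 0 := by
      have := hu _ (hS𝔮 (Or.inr (Or.inl rfl)))
      rwa [eval_X] at this
    have h3 : ∀ j, eval (fun i => Y u (Sum.inl i)) (f.Q j) = 0 := by
      intro j
      have := hu _ (hS𝔮 (Or.inr (Or.inr (Or.inl ⟨j, rfl⟩))))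
      rwa [← hpt u, hev] at this
    have h4 : ∀ j, ∑ i, Y u (Sum.inr i) * eval (fun i => Y u (Sum.inl i)) (pderiv i (f.Q j)) = 0 := by
      intro j
      have := hu _ (hS𝔮 (Or.inr (Or.inr (Or.inr (Or.inl ⟨j, rfl⟩)))))
      rwa [← hpt u, hdv] at this
    have h5 : (fun i => Y u (Sum.inl i)) ≠ 0 := by
      intro h
      have := congrFun h a
      simp only [Pi.zero_apply] at this
      rw [this] at h1
      exact zero_ne_one h1
    refine ⟨⟨mem_cone_of_gen f.span h5 h3, h1, mem_conTan_of_gen f.span h3 h4, h2, fun k => rfl⟩, ?_, ⟨?_, fun l k => ?_⟩, ?_⟩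
    · intro h
      have := congrFun h b
      exact (left_ne_zero_of_mul hΔu |> right_ne_zero_of_mul) this
    · rw [← hpt u]
      exact left_ne_zero_of_mul (left_ne_zero_of_mul hΔu)
    · exact hu _ (hS𝔮 (Or.inr (Or.inr (Or.inr (Or.inr ⟨l, k, rfl⟩)))))
    · exact right_ne_zero_of_mul hΔu
  obtain ⟨ht0, hv0, -, hR0⟩ := hgood 0 hY0.self_of_nhds hYΔ
  -- the derivative of the germ in the `x`-part
  set D : (Fin d → ℂ) →L[ℂ] (Ph N → ℂ) := fderiv ℂ Y 0 with hD
  have hYd : HasFDerivAt Y D 0 := hY.differentiableAt.hasFDerivAt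
  set E : (Fin d → ℂ) →ₗ[ℂ] (Fin (N + 1) → ℂ) := LinearMap.pi fun i => (LinearMap.proj (Sum.inl i : Ph N)).comp (D : (Fin d → ℂ) →ₗ[ℂ] (Ph N → ℂ)) with hE
  have hEa : ∀ s i, E s i = D s (Sum.inl i) := fun s i => rfl
  set x₀ : Fin (N + 1) → ℂ := fun i => Y 0 (Sum.inl i) with hx₀
  set v₀ : Fin (N + 1) → ℂ := fun i => Y 0 (Sum.inr i) with hv₀
  have hEa0 : ∀ s, E s a = 0 := by
    intro s
    rw [hEa]
    have h1 : HasFDerivAt (fun u => Y u (Sum.inl a)) ((ContinuousLinearMap.proj (Sum.inl a)).comp D) 0 := hasFDerivAt_pi'.1 hYd (Sum.inl a)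
    have h2 : (fun u => Y u (Sum.inl a)) =ᶠ[𝓝 0] fun _ => (1 : ℂ) := by
      filter_upwards [hY0, hΔc] with u hu1 hu2
      exact (hgood u hu1 hu2).1.2.1
    have h3 := (hasFDerivAt_const (𝕜 := ℂ) (1 : ℂ) (0 : Fin d → ℂ)).congr_of_eventuallyEq h2
    have h4 := congrArg (fun L : (Fin d → ℂ) →L[ℂ] ℂ => L s) (h1.unique h3)
    simpa using h4
  have hEt : ∀ s, E s ∈ conTan P x₀ := by
    intro s Q hQ
    have h1 : ∀ i : Fin (N + 1), HasFDerivAt (fun u => Y u (Sum.inl i)) ((ContinuousLinearMap.proj (Sum.inl i)).comp D) 0 := fun i => hasFDerivAt_pi'.1 hYd (Sum.inl i)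
    have h2 := (Pool.Agent.H13.SM.Inv_hasFDerivAt_eval Q x₀).comp (0 : Fin d → ℂ) (hasFDerivAt_pi.2 h1)
    have h3 : (fun y : Fin (N + 1) → ℂ => eval y Q) ∘ (fun u (i : Fin (N + 1)) => Y u (Sum.inl i)) =ᶠ[𝓝 0] fun _ => (0 : ℂ) := by
      filter_upwards [hY0, hΔc] with u hu1 hu2
      exact (hgood u hu1 hu2).1.1.2 Q hQ
    have h4 := (hasFDerivAt_const (𝕜 := ℂ) (0 : ℂ) (0 : Fin d → ℂ)).congr_of_eventuallyEq h3
    have h5 := congrArg (fun L : (Fin d → ℂ) →L[ℂ] ℂ => L s) (h2.unique h4)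
    rw [_root_.zero_apply] at h5
    rw [← h5]
    simp only [ContinuousLinearMap.comp_apply, _root_.sum_apply, _root_.smul_apply, ContinuousLinearMap.proj_apply, ContinuousLinearMap.pi_apply,
      smul_eq_mul]
    exact Finset.sum_congr rfl fun i _ => mul_comm _ _
  -- `n` directions
  obtain ⟨s, hs⟩ : ∃ s : Fin n → Fin d → ℂ, ∀ (β : ℂ) (γ : Fin n → ℂ), β • v₀ + ∑ j, γ j • E (s j) = 0 → β = 0 ∧ γ = 0 := by
    refine exists_dirs E (LinearMap.pi fun j => LinearMap.proj (b' j)) ?_ hv0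
    intro y
    obtain ⟨t, ht⟩ := hsurj y
    refine ⟨t, ?_⟩
    rw [← ht]
    have h1 : HasFDerivAt (fun (u : Fin d → ℂ) (j : Fin (n + 1)) => Y u (Sum.inl (b' j)))
        (ContinuousLinearMap.pi fun j => (ContinuousLinearMap.proj (Sum.inl (b' j))).comp D) 0 :=
      hasFDerivAt_pi.2 fun j => hasFDerivAt_pi'.1 hYd (Sum.inl (b' j))
    rw [h1.fderiv]
    rfl
  -- the family of curves
  set L : (Fin n → ℂ) →L[ℂ] (Fin d → ℂ) := ∑ i, (ContinuousLinearMap.proj i : (Fin n → ℂ) →L[ℂ] ℂ).smulRight (s i) with hL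
  have hLs : ∀ i, L (Pi.single i 1) = s i := by
    intro i
    rw [hL, _root_.sum_apply, Finset.sum_eq_single i]
    · simp
    · intro j _ hj
      simp [Pi.single_eq_of_ne hj]
    · simp
  have hL0 : Tendsto L (𝓝 0) (𝓝 0) := by
    have := L.continuous.tendsto 0
    rwa [map_zero] at this
  have hYL : AnalyticAt ℂ (fun u => Y (L u)) 0 := by
    refine AnalyticAt.fun_comp (g := Y) (f := L) ?_ (L.analyticAt 0)
    rw [map_zero]
    exact hY
  have hYLd : HasFDerivAt (fun u => Y (L u)) (D.comp L) 0 := by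
    refine HasFDerivAt.comp (g := Y) (f := L) 0 ?_ L.hasFDerivAt
    rw [map_zero]
    exact hYd
  obtain ⟨Φ, c₀, hc₀, hΦ1, hΦ2, hΦ3, F, hF, hF0, hF1, hF2⟩ := exists_curves hP hθ hm f (a := a) hYL (by
    filter_upwards [hL0.eventually hY0, hL0.eventually hΔc] with u hu1 hu2
    obtain ⟨h1, h2, h3, -⟩ := hgood _ hu1 hu2
    refine ⟨_, _, _, (hpt (L u)).symm, h1, ?_, ?_⟩
    · intro hc
      have h4 := no_common_zero hθ hm h1.1 h1.2.2.1 fun k => congrFun hc k
      obtain ⟨r, hr⟩ := Submodule.mem_span_singleton.1 h4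
      have h5 : r * Y (L u) (Sum.inl a) = Y (L u) (Sum.inr a) := congrFun hr a
      rw [show Y (L u) (Sum.inl a) = 1 from h1.2.1, show Y (L u) (Sum.inr a) = 0 from h1.2.2.2.1, mul_one] at h5
      rw [h5, zero_smul] at hr
      exact h2 hr.symm
    · exact isInit_of_crit h3)
  have hzero := one_var hP hθ hm hM Ω hc₀ hΦ1 hΦ2 hΦ3 hF
  have hY00 : Y (L 0) = Y 0 := by rw [map_zero]
  have hv1 : (Fin.cons (fderiv ℂ F (0, 0) (1, 0)) fun i => fderiv ℂ F (0, 0) (0, Pi.single i 1) : Fin (n + 1) → Fin (N + 1) → ℂ) =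
      Fin.cons v₀ fun i => E (s i) := by
    rw [hF1, hY00]
    congr 1
    funext i
    rw [hF2 i, hYLd.fderiv]
    funext b
    rw [hEa, ContinuousLinearMap.comp_apply, hLs]
  rw [hv1, hF0, hY00] at hzero
  refine hΩ x₀ ht0.1 hR0 _ ?_ ?_ hzero
  · intro j
    refine Fin.cases ?_ (fun i => ?_) j
    · exact ht0.2.2.1
    · exact hEt (s i)
  · intro β γ hβ
    have h1 := congrFun hβ a
    rw [Pi.add_apply, Pi.smul_apply, ht0.2.1, smul_eq_mul, mul_one, Finset.sum_apply, Finset.sum_eq_zero, add_zero, Pi.zero_apply] at h1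
    · rw [h1, zero_smul, zero_add, Fin.sum_univ_succ] at hβ
      obtain ⟨h2, h3⟩ := hs (γ 0) (fun j => γ j.succ) hβ
      funext j
      refine Fin.cases h2 (fun i => ?_) j
      exact congrFun h3 i
    · intro j _
      rw [Pi.smul_apply, smul_eq_mul]
      refine Fin.cases ?_ (fun i => ?_) j
      · show γ 0 * v₀ a = 0
        rw [show v₀ a = 0 from ht0.2.2.2.1, mul_zero]
      · show γ i.succ * E (s i) a = 0
        rw [hEa0, mul_zero]

end Pool.Agent.GG
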