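import Pool.Agent.H13.SM.Surf
import Pool.Agent.TG.SaDefs
import Pool.Agent.H13.OT.Wrap

/-!
# GG Defs: symmetric differentials in polar position, sections of `K^M (-1)`, arcs

`P` is a homogeneous prime ideal, `X` the projective variety given by it, `cone P` its affine cone without the vertex, `conTan P x` the tangent space of the
cone at `x` (so `T_x X = conTan P x / ℂ x`).  The theorem (PROJECT GG, notes 4542, 4547, 4549, message 69251 of helper9): if `X` has symmetric differentials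
with the property `Polar` (e.g. if `S^m Ω_X` is globally generated) and `K^M (-1)` has a nonzero section, then all nonconstant entire curves of order two lie
in a hypersurface section `R = 0` of `X`.
-/

set_option autoImplicit false

open MvPolynomial Topology Filter Metric
open Pool.Agent.H13.SM (conTan cone)
open Pool.Agent.H17 (PN VanishesAt)

noncomputable section

namespace Pool.Agent.GG

variable {N : ℕ}

/-- A symmetric differential of degree `m` on the projective variety of `P`: a function of a point `x` of the cone and a tangent vector `v` of the cone at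
`x`, homogeneous of degree `m` in `v`, which is given, up to powers of `x i`, by a polynomial in `(x, v)`, and which descends to the variety. -/
structure SymSec (P : Ideal (MvPolynomial (Fin (N + 1)) ℂ)) (m : ℕ) where
  /-- the section -/
  toFun : (Fin (N + 1) → ℂ) → (Fin (N + 1) → ℂ) → ℂ
  regular : ∀ i, ∃ (e : ℕ) (A : MvPolynomial (Fin (N + 1) ⊕ Fin (N + 1)) ℂ),
    ∀ x ∈ cone P, ∀ v ∈ conTan P x, x i ^ e * toFun x v = eval (Sum.elim x v) A
  add_smul : ∀ x ∈ cone P, ∀ v ∈ conTan P x, ∀ a : ℂ, toFun x (v + a • x) = toFun x v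
  smul : ∀ x ∈ cone P, ∀ v ∈ conTan P x, ∀ a : ℂ, toFun x (a • v) = a ^ m * toFun x v
  scale : ∀ x ∈ cone P, ∀ v ∈ conTan P x, ∀ c : ℂ, c ≠ 0 → toFun (c • x) (c • v) = toFun x v

/-- For all nonzero tangent vectors `v`, `w` at a point one of the polar forms `θ_k (v, …, v, w)` is not `0`. -/
def Polar {P : Ideal (MvPolynomial (Fin (N + 1)) ℂ)} {J : ℕ} {m : Fin J → ℕ} (θ : ∀ k, SymSec P (m k)) : Prop :=
  ∀ x ∈ cone P, ∀ v ∈ conTan P x, ∀ w ∈ conTan P x, v ∉ Submodule.span ℂ {x} → w ∉ Submodule.span ℂ {x} →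
    ∃ k, deriv (fun t : ℂ => (θ k).toFun x (v + t • w)) 0 ≠ 0

/-- A section of `K^M (-1)` on the projective variety of `P`, of dimension `n`: a function of a point `x` of the cone and `n` tangent vectors. -/
structure CanSec (P : Ideal (MvPolynomial (Fin (N + 1)) ℂ)) (n M : ℕ) where
  /-- the section -/
  toFun : (Fin (N + 1) → ℂ) → (Fin n → Fin (N + 1) → ℂ) → ℂ
  regular : ∀ i, ∃ (e : ℕ) (A : MvPolynomial (Fin (N + 1) ⊕ (Fin n × Fin (N + 1))) ℂ),
    ∀ x ∈ cone P, ∀ v : Fin n → Fin (N + 1) → ℂ, (∀ j, v j ∈ conTan P x) →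
      x i ^ e * toFun x v = eval (Sum.elim x fun p => v p.1 p.2) A
  add_smul : ∀ x ∈ cone P, ∀ v : Fin n → Fin (N + 1) → ℂ, (∀ j, v j ∈ conTan P x) → ∀ a : Fin n → ℂ,
    toFun x (fun j => v j + a j • x) = toFun x v
  det : ∀ x ∈ cone P, ∀ v : Fin n → Fin (N + 1) → ℂ, (∀ j, v j ∈ conTan P x) → ∀ B : Matrix (Fin n) (Fin n) ℂ,
    toFun x (fun j => ∑ k, B j k • v k) = B.det ^ M * toFun x v
  scale : ∀ x ∈ cone P, ∀ v : Fin n → Fin (N + 1) → ℂ, (∀ j, v j ∈ conTan P x) → ∀ c : ℂ, c ≠ 0 →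
    c * toFun (c • x) (fun j => c • v j) = toFun x v

/-- The section `Ω` has no zeros off the hypersurface `R = 0`. -/
def CanSec.NonzeroOff {P : Ideal (MvPolynomial (Fin (N + 1)) ℂ)} {n M : ℕ} (Ω : CanSec P n M) (R : MvPolynomial (Fin (N + 1)) ℂ) : Prop :=
  ∀ x ∈ cone P, eval x R ≠ 0 → ∀ v : Fin n → Fin (N + 1) → ℂ, (∀ j, v j ∈ conTan P x) →
    (∀ (a : ℂ) (b : Fin n → ℂ), a • x + ∑ j, b j • v j = 0 → b = 0) → Ω.toFun x v ≠ 0

/-! ## phase space: the polynomial family `G` of functions which are constant along the curves -/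

/-- the variables of the phase space: `inl b` is `x_b`, `inr b` is `v_b` -/
abbrev Ph (N : ℕ) : Type := Fin (N + 1) ⊕ Fin (N + 1)

/-- the point `(x, v)` of the phase space -/
abbrev pt (x v : Fin (N + 1) → ℂ) : Ph N → ℂ := Sum.elim x v

variable {ι : Type}

/-- the matrix of the derivatives in `v` of `N + 1` members of the family -/
def vmat (G : ι → MvPolynomial (Ph N) ℂ) (J : Fin (N + 1) → ι) : Matrix (Fin (N + 1)) (Fin (N + 1)) (MvPolynomial (Ph N) ℂ) :=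
  fun l b => pderiv (Sum.inr b) (G (J l))

/-- its determinant -/
def vdet (G : ι → MvPolynomial (Ph N) ℂ) (J : Fin (N + 1) → ι) : MvPolynomial (Ph N) ℂ := (vmat G J).det

/-- the right side of the linear system for the acceleration -/
def rhs (G : ι → MvPolynomial (Ph N) ℂ) (J : Fin (N + 1) → ι) : Fin (N + 1) → MvPolynomial (Ph N) ℂ :=
  fun l => -∑ b, pderiv (Sum.inl b) (G (J l)) * X (Sum.inr b)

/-- the vector field, times the determinant -/
def fld (G : ι → MvPolynomial (Ph N) ℂ) (J : Fin (N + 1) → ι) : Ph N → MvPolynomial (Ph N) ℂ :=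
  Sum.elim (fun b => vdet G J * X (Sum.inr b)) ((vmat G J).adjugate.mulVec (rhs G J))

/-- the derivation given by it -/
def Dt (G : ι → MvPolynomial (Ph N) ℂ) (J : Fin (N + 1) → ι) : Derivation ℂ (MvPolynomial (Ph N) ℂ) (MvPolynomial (Ph N) ℂ) :=
  mkDerivation ℂ (fld G J)

/-- the vector field of the differential equation -/
def W (G : ι → MvPolynomial (Ph N) ℂ) (J : Fin (N + 1) → ι) (y : Ph N → ℂ) : Ph N → ℂ :=
  fun s => eval y (fld G J s) / eval y (vdet G J)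

/-- The functions of the family `G` are constant along the holomorphic curve `x` near `t`. -/
def ArcV (G : ι → MvPolynomial (Ph N) ℂ) (x : ℂ → Fin (N + 1) → ℂ) (t : ℂ) : Prop :=
  AnalyticAt ℂ x t ∧ ∀ l, ∀ᶠ s in 𝓝 t, eval (pt (x s) (deriv x s)) (G l) = eval (pt (x t) (deriv x t)) (G l)

/-- the algebraic criterion for the initial vectors of arcs -/
def Crit (G : ι → MvPolynomial (Ph N) ℂ) (J : Fin (N + 1) → ι) (y : Ph N → ℂ) : Prop :=
  eval y (vdet G J) ≠ 0 ∧ ∀ (l : ι) (k : ℕ), eval y ((⇑(Dt G J))^[k + 1] (G l)) = 0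

/-- `y` is the initial vector of an arc -/
def IsInit (G : ι → MvPolynomial (Ph N) ℂ) (y : Ph N → ℂ) : Prop :=
  ∃ x : ℂ → Fin (N + 1) → ℂ, ArcV G x 0 ∧ pt (x 0) (deriv x 0) = y

/-- A flow box: `H (z, y)` is the point at time `z` of the arc with the initial vector `y`; `K` bounds `H` and the derivatives of `(H, ∂H/∂z)`. -/
structure Flow (G : ι → MvPolynomial (Ph N) ℂ) (Y : Ph N → ℂ) (r ε K : ℝ) (H : ℂ × (Ph N → ℂ) → Fin (N + 1) → ℂ) : Prop where
  an : ∀ q ∈ ball (0 : ℂ) r ×ˢ ball Y ε, AnalyticAt ℂ H q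
  zero : ∀ y ∈ ball Y ε, H (0, y) = fun b => y (Sum.inl b)
  der : ∀ y ∈ ball Y ε, deriv (fun z => H (z, y)) 0 = fun b => y (Sum.inr b)
  const : ∀ y ∈ ball Y ε, IsInit G y → ∀ z ∈ ball (0 : ℂ) r, ∀ l,
    eval (pt (H (z, y)) (deriv (fun z => H (z, y)) z)) (G l) = eval y (G l)
  uniq : ∀ (x : ℂ → Fin (N + 1) → ℂ) (t : ℂ), ArcV G x t → pt (x t) (deriv x t) ∈ ball Y ε →
    ∀ᶠ s in 𝓝 t, x s = H (s - t, pt (x t) (deriv x t))
  bound : ∀ q ∈ ball (0 : ℂ) r ×ˢ ball Y ε, ‖H q‖ ≤ K ∧ ‖deriv (fun z => H (z, q.2)) q.1‖ ≤ K ∧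
    ‖fderiv ℂ (fun q : ℂ × (Ph N → ℂ) => pt (H q) (deriv (fun z => H (z, q.2)) q.1)) q‖ ≤ K

/-! ## the family of functions in the chart `x_a = 1` -/

/-- generators of the ideal, and polynomials for the symmetric differentials in the charts -/
structure Frame {P : Ideal (MvPolynomial (Fin (N + 1)) ℂ)} {J : ℕ} {m : Fin J → ℕ} (θ : ∀ k, SymSec P (m k)) where
  /-- the number of the generators -/
  q : ℕ
  /-- the generators -/
  Q : Fin q → MvPolynomial (Fin (N + 1)) ℂ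
  span : Ideal.span (Set.range Q) = P
  /-- the polynomials -/
  A : Fin (N + 1) → Fin J → MvPolynomial (Ph N) ℂ
  hA : ∀ a k, ∀ x ∈ cone P, x a = 1 → ∀ v ∈ conTan P x, (θ k).toFun x v = eval (pt x v) (A a k)

/-- the functions `x_a`, `v_a`, `Q_j (x)`, `dQ_j (x) v`, `θ_k (x, v)` -/
def gfam {P : Ideal (MvPolynomial (Fin (N + 1)) ℂ)} {J : ℕ} {m : Fin J → ℕ} {θ : ∀ k, SymSec P (m k)} (f : Frame θ) (a : Fin (N + 1)) :
    (Unit ⊕ Unit) ⊕ (Fin f.q ⊕ Fin f.q) ⊕ Fin J → MvPolynomial (Ph N) ℂ :=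
  Sum.elim (Sum.elim (fun _ => X (Sum.inl a)) fun _ => X (Sum.inr a))
    (Sum.elim (Sum.elim (fun j => rename Sum.inl (f.Q j)) fun j => ∑ b, rename Sum.inl (pderiv b (f.Q j)) * X (Sum.inr b)) (f.A a))

variable {P : Ideal (MvPolynomial (Fin (N + 1)) ℂ)} {J : ℕ} {m : Fin J → ℕ}

/-- `(x, v)` is a tangent vector of the variety in the chart `x_a = 1`, with `θ (x, v) = c` -/
def IsTan (θ : ∀ k, SymSec P (m k)) (a : Fin (N + 1)) (c : Fin J → ℂ) (x v : Fin (N + 1) → ℂ) : Prop :=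
  x ∈ cone P ∧ x a = 1 ∧ v ∈ conTan P x ∧ v a = 0 ∧ ∀ k, (θ k).toFun x v = c k

/-- the tangent vectors `(x, v)` in the chart `x_a = 1`, with `|x_b| ≤ 1` for all `b` and `θ (x, v) ∈ C` -/
def Kset (θ : ∀ k, SymSec P (m k)) (a : Fin (N + 1)) (C : Set (Fin J → ℂ)) : Set (Ph N → ℂ) :=
  {y | ∃ x v c, y = pt x v ∧ IsTan θ a c x v ∧ (∀ b, ‖x b‖ ≤ 1) ∧ c ∈ C}

/-- `x` is an arc in the chart `x_a = 1` with `θ (x, x') = c` near `z` -/
def NArc (θ : ∀ k, SymSec P (m k)) (a : Fin (N + 1)) (c : Fin J → ℂ) (x : ℂ → Fin (N + 1) → ℂ) (z : ℂ) : Prop :=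
  AnalyticAt ℂ x z ∧ ∀ᶠ w in 𝓝 z, x w ∈ cone P ∧ x w a = 1 ∧ ∀ k, (θ k).toFun (x w) (deriv x w) = c k

/-- `x` represents `f` near `z` -/
def Rep (f : ℂ → PN N) (x : ℂ → Fin (N + 1) → ℂ) (z : ℂ) : Prop :=
  ∀ᶠ w in 𝓝 z, ∃ h : x w ≠ 0, f w = Projectivization.mk ℂ (x w) h

/-- `f` is a holomorphic curve in the variety with `θ (f') = c` near `z` -/
def ArcAt (θ : ∀ k, SymSec P (m k)) (c : Fin J → ℂ) (f : ℂ → PN N) (z : ℂ) : Prop :=
  ∃ F : ℂ → Fin (N + 1) → ℂ, AnalyticAt ℂ F z ∧ Rep f F z ∧ ∀ᶠ w in 𝓝 z, F w ∈ cone P ∧ ∀ k, (θ k).toFun (F w) (deriv F w) = c k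

/-- the length of `v` at `x` in the Fubini–Study metric, up to bounded factors -/
def wl (x v : Fin (N + 1) → ℂ) : ℝ := ‖fun p : Fin (N + 1) × Fin (N + 1) => x p.1 * v p.2 - x p.2 * v p.1‖ / ‖x‖ ^ 2

/-- `F` represents `Φ` near `q`, with values in the cone of `P` -/
def RepN (P : Ideal (MvPolynomial (Fin (N + 1)) ℂ)) {d : ℕ} (Φ : ℂ × (Fin d → ℂ) → PN N) (F : ℂ × (Fin d → ℂ) → Fin (N + 1) → ℂ)
    (q : ℂ × (Fin d → ℂ)) : Prop :=
  AnalyticAt ℂ F q ∧ ∀ᶠ p in 𝓝 q, F p ∈ cone P ∧ ∃ h : F p ≠ 0, Φ p = Projectivization.mk ℂ (F p) h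

end Pool.Agent.GG
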