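import Pool.Agent.GG.Chart

/-!
# GG Ext: arcs extend to entire curves

`arc_unique`: identity theorem for curves with local lifts; `flow_arc`: the flow box at the normalised arc; `extend`: gluing of the curves of
`flow_arc` at the points of the ball (midpoints); `exists_entire`: iteration of `extend`, compatibility by `arc_unique`.
-/

set_option autoImplicit false

open MvPolynomial Topology Filter Metric
open Pool.Agent.H13.SM (conTan cone)
open Pool.Agent.H17 (PN)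
open Pool.Agent.H62.FC (Homog)

namespace Pool.Agent.GG

variable {N : ℕ} {P : Ideal (MvPolynomial (Fin (N + 1)) ℂ)} {J : ℕ} {m : Fin J → ℕ} {θ : ∀ k, SymSec P (m k)} {c c' : Fin J → ℂ}

namespace ExtAux

theorem arcAt_congr {g g' : ℂ → PN N} {z : ℂ} (h : ArcAt θ c g z) (he : ∀ᶠ w in 𝓝 z, g' w = g w) : ArcAt θ c g' z := by
  obtain ⟨F, hF, hr, hc⟩ := h
  refine ⟨F, hF, ?_, hc⟩
  filter_upwards [hr, he] with w hw hw'
  obtain ⟨h0, h1⟩ := hw
  exact ⟨h0, by rw [hw', h1]⟩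

theorem mk_eq_of_cross {x y : Fin (N + 1) → ℂ} (hx : x ≠ 0) (hy : y ≠ 0) (h : ∀ i j, x i * y j - x j * y i = 0) :
    Projectivization.mk ℂ x hx = Projectivization.mk ℂ y hy := by
  rw [Projectivization.mk_eq_mk_iff']
  obtain ⟨j, hj⟩ : ∃ j, y j ≠ 0 := by
    by_contra hcon
    push Not at hcon
    exact hy (funext hcon)
  refine ⟨x j / y j, ?_⟩
  funext i
  have := h i j
  rw [Pi.smul_apply, smul_eq_mul]
  field_simp
  linear_combination -this

theorem cross_of_mk_eq {x y : Fin (N + 1) → ℂ} {hx : x ≠ 0} {hy : y ≠ 0}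
    (h : Projectivization.mk ℂ x hx = Projectivization.mk ℂ y hy) (i j : Fin (N + 1)) : x i * y j - x j * y i = 0 := by
  rw [Projectivization.mk_eq_mk_iff'] at h
  obtain ⟨a, ha⟩ := h
  rw [← ha]
  simp only [Pi.smul_apply, smul_eq_mul]
  ring

end ExtAux

open ExtAux

theorem arc_unique {g g' : ℂ → PN N} {U : Set ℂ} (hU : IsOpen U) (hU' : IsPreconnected U) (h : ∀ z ∈ U, ArcAt θ c g z) (h' : ∀ z ∈ U, ArcAt θ c' g' z)
    {z₀ : ℂ} (hz : z₀ ∈ U) (he : ∀ᶠ z in 𝓝 z₀, g z = g' z) : ∀ z ∈ U, g z = g' z := by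
  set S : Set ℂ := {z | ∀ᶠ w in 𝓝 z, g w = g' w} with hS
  have hSo : IsOpen S := by
    rw [isOpen_iff_eventually]
    intro z hz
    exact eventually_eventually_nhds.2 hz
  have hsub : U ⊆ S := by
    refine hU'.subset_of_closure_inter_subset hSo ⟨z₀, hz, he⟩ ?_
    rintro z ⟨hzc, hzU⟩
    obtain ⟨F, hF, hr, -⟩ := h z hzU
    obtain ⟨F', hF', hr', -⟩ := h' z hzU
    have hall : ∀ᶠ w in 𝓝 z, (AnalyticAt ℂ F w ∧ AnalyticAt ℂ F' w) ∧ (∃ h : F w ≠ 0, g w = Projectivization.mk ℂ (F w) h) ∧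
        ∃ h : F' w ≠ 0, g' w = Projectivization.mk ℂ (F' w) h := by
      filter_upwards [hF.eventually_analyticAt, hF'.eventually_analyticAt, hr, hr'] with w h1 h2 h3 h4
      exact ⟨⟨h1, h2⟩, h3, h4⟩
    obtain ⟨δ, hδ, hball⟩ := Metric.eventually_nhds_iff_ball.1 hall
    obtain ⟨s, hsb, hsS⟩ := mem_closure_iff.1 hzc (ball z δ) isOpen_ball (mem_ball_self hδ)
    have hcross : ∀ i j, ∀ w ∈ ball z δ, F w i * F' w j - F w j * F' w i = 0 := by
      intro i j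
      have han : AnalyticOnNhd ℂ (fun w => F w i * F' w j - F w j * F' w i) (ball z δ) := by
        intro w hw
        have h1 := analyticAt_pi_iff.1 (hball w hw).1.1
        have h2 := analyticAt_pi_iff.1 (hball w hw).1.2
        exact ((h1 i).mul (h2 j)).sub ((h1 j).mul (h2 i))
      have hzero : (fun w => F w i * F' w j - F w j * F' w i) =ᶠ[𝓝 s] fun _ => 0 := by
        have hsb' : ball z δ ∈ 𝓝 s := isOpen_ball.mem_nhds hsb
        filter_upwards [hsS, hsb'] with w hw1 hw2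
        obtain ⟨-, ⟨h3, h3'⟩, ⟨h4, h4'⟩⟩ := hball w hw2
        exact cross_of_mk_eq (h3'.symm.trans (hw1.trans h4')) i j
      have := han.eqOn_of_preconnected_of_eventuallyEq analyticOnNhd_const (convex_ball z δ).isPreconnected hsb hzero
      intro w hw
      exact this hw
    change ∀ᶠ w in 𝓝 z, g w = g' w
    filter_upwards [ball_mem_nhds z hδ] with w hw
    obtain ⟨-, ⟨h3, h3'⟩, ⟨h4, h4'⟩⟩ := hball w hw
    rw [h3', h4']
    exact mk_eq_of_cross _ _ fun i j => hcross i j w hw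
  intro z hz
  exact (hsub hz).self_of_nhds

theorem flow_arc (hP : Homog P) (f : Frame θ) {r K : ℝ} (hr : 0 < r)
    (hU : ∀ a, ∀ Y ∈ Kset θ a {c}, ∃ ε > 0, ∃ H : ℂ × (Ph N → ℂ) → Fin (N + 1) → ℂ, Flow (gfam f a) Y r ε K H)
    {g : ℂ → PN N} {z₁ : ℂ} (hg : ArcAt θ c g z₁) : ∃ g' : ℂ → PN N, (∀ z ∈ ball z₁ r, ArcAt θ c g' z) ∧ ∀ᶠ z in 𝓝 z₁, g' z = g z := by
  classical
  obtain ⟨a, x, hx, hrx, hxb⟩ := exists_nArc hP hg
  obtain ⟨hV, hT⟩ := arcV_of_nArc f hx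
  have hY : pt (x z₁) (deriv x z₁) ∈ Kset θ a {c} := ⟨x z₁, deriv x z₁, c, rfl, hT, hxb, rfl⟩
  obtain ⟨ε, hε, H, hH⟩ := hU a _ hY
  set Y := pt (x z₁) (deriv x z₁) with hYdef
  have hYb : Y ∈ ball Y ε := mem_ball_self hε
  have hlift : ∀ z ∈ ball z₁ r, NArc θ a c (fun w => H (w - z₁, Y)) z := by
    intro z hz
    have hz' : z - z₁ ∈ ball (0 : ℂ) r := by
      rw [mem_ball_zero_iff, ← dist_eq_norm]
      exact mem_ball.1 hz
    refine nArc_of_const f hT ?_ ?_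
    · have h1 : AnalyticAt ℂ H (z - z₁, Y) := hH.an _ ⟨hz', hYb⟩
      have h2 : AnalyticAt ℂ (fun w : ℂ => (w - z₁, Y)) z := (analyticAt_id.sub analyticAt_const).prod analyticAt_const
      exact AnalyticAt.comp_of_eq (f := fun w : ℂ => (w - z₁, Y)) h1 h2 rfl
    · intro l
      have hn : ∀ᶠ w in 𝓝 z, w ∈ ball z₁ r := isOpen_ball.mem_nhds hz
      filter_upwards [hn] with w hw
      have hw' : w - z₁ ∈ ball (0 : ℂ) r := by
        rw [mem_ball_zero_iff, ← dist_eq_norm]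
        exact mem_ball.1 hw
      have h3 := hH.const Y hYb (isInit_of_nArc f hx) (w - z₁) hw' l
      have h4 : deriv (fun w => H (w - z₁, Y)) w = deriv (fun z => H (z, Y)) (w - z₁) :=
        deriv_comp_sub_const (f := fun z => H (z, Y)) z₁ w
      rw [h4]
      exact h3
  refine ⟨fun z => if h : H (z - z₁, Y) ≠ 0 then Projectivization.mk ℂ (H (z - z₁, Y)) h else g z, ?_, ?_⟩
  · intro z hz
    refine arcAt_of_nArc (hlift z hz) ?_
    filter_upwards [(hlift z hz).2] with w hw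
    have h0 : H (w - z₁, Y) ≠ 0 := hw.1.1
    exact ⟨h0, by simp only [dif_pos h0]⟩
  · filter_upwards [hH.uniq x z₁ hV hYb, hrx] with s hs hs'
    obtain ⟨h0, h1⟩ := hs'
    have h2 : H (s - z₁, Y) ≠ 0 := by
      rw [← hs]
      exact h0
    simp only [dif_pos h2]
    rw [h1]
    congr 1
    exact hs.symm

theorem extend (hP : Homog P) (f : Frame θ) {r K : ℝ} (hr : 0 < r)
    (hU : ∀ a, ∀ Y ∈ Kset θ a {c}, ∃ ε > 0, ∃ H : ℂ × (Ph N → ℂ) → Fin (N + 1) → ℂ, Flow (gfam f a) Y r ε K H)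
    {g : ℂ → PN N} {z₀ : ℂ} {ρ : ℝ} (hρ : 0 < ρ) (hg : ∀ z ∈ ball z₀ ρ, ArcAt θ c g z) :
    ∃ g' : ℂ → PN N, (∀ z ∈ ball z₀ (ρ + r / 2), ArcAt θ c g' z) ∧ ∀ z ∈ ball z₀ ρ, g' z = g z := by
  classical
  have hex : ∀ z₁ : ℂ, ∃ g' : ℂ → PN N, z₁ ∈ ball z₀ ρ → (∀ z ∈ ball z₁ r, ArcAt θ c g' z) ∧ ∀ᶠ z in 𝓝 z₁, g' z = g z := by
    intro z₁
    by_cases h1 : z₁ ∈ ball z₀ ρ
    · obtain ⟨g', h2⟩ := flow_arc hP f hr hU (hg z₁ h1)
      exact ⟨g', fun _ => h2⟩
    · exact ⟨g, fun h => absurd h h1⟩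
  choose G hG using hex
  -- equality with `g` on the intersection with the ball
  have heq : ∀ z₁ ∈ ball z₀ ρ, ∀ z ∈ ball z₁ r ∩ ball z₀ ρ, G z₁ z = g z := by
    intro z₁ h1
    refine arc_unique (θ := θ) (c := c) (c' := c) (isOpen_ball.inter isOpen_ball) ((convex_ball z₁ r).inter (convex_ball z₀ ρ)).isPreconnected
      (fun z hz => (hG z₁ h1).1 z hz.1) (fun z hz => hg z hz.2) ⟨mem_ball_self hr, h1⟩ (hG z₁ h1).2
  have heq2 : ∀ z₁ ∈ ball z₀ ρ, ∀ z₂ ∈ ball z₀ ρ, ∀ z ∈ ball z₁ r ∩ ball z₂ r, G z₁ z = G z₂ z := by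
    intro z₁ h1 z₂ h2 z hz
    have hd : dist z₁ z₂ < 2 * r := by
      have h3 := mem_ball'.1 hz.1
      have h4 := mem_ball.1 hz.2
      linarith [dist_triangle z₁ z z₂]
    have hm1 : midpoint ℝ z₁ z₂ ∈ ball z₁ r := by
      rw [mem_ball, dist_midpoint_left, Real.norm_ofNat]
      linarith
    have hm2 : midpoint ℝ z₁ z₂ ∈ ball z₂ r := by
      rw [mem_ball, dist_midpoint_right, Real.norm_ofNat]
      linarith
    have hm3 : midpoint ℝ z₁ z₂ ∈ ball z₀ ρ := (convex_ball z₀ ρ).midpoint_mem h1 h2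
    refine arc_unique (θ := θ) (c := c) (c' := c) (U := ball z₁ r ∩ ball z₂ r) (isOpen_ball.inter isOpen_ball)
      ((convex_ball z₁ r).inter (convex_ball z₂ r)).isPreconnected
      (fun z hz => (hG z₁ h1).1 z hz.1) (fun z hz => (hG z₂ h2).1 z hz.2) ⟨hm1, hm2⟩ ?_ z hz
    have hn : (ball z₁ r ∩ ball z₂ r) ∩ ball z₀ ρ ∈ 𝓝 (midpoint ℝ z₁ z₂) :=
      ((isOpen_ball.inter isOpen_ball).inter isOpen_ball).mem_nhds ⟨⟨hm1, hm2⟩, hm3⟩
    filter_upwards [hn] with w hw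
    rw [heq z₁ h1 w ⟨hw.1.1, hw.2⟩, heq z₂ h2 w ⟨hw.1.2, hw.2⟩]
  set g' : ℂ → PN N := fun z => if h : ∃ z₁ ∈ ball z₀ ρ, z ∈ ball z₁ r then G h.choose z else g z with hg'
  have hval : ∀ z₁ ∈ ball z₀ ρ, ∀ z ∈ ball z₁ r, g' z = G z₁ z := by
    intro z₁ h1 z hz
    have h : ∃ z₁ ∈ ball z₀ ρ, z ∈ ball z₁ r := ⟨z₁, h1, hz⟩
    have h2 : g' z = G h.choose z := by
      rw [hg']
      simp only [dif_pos h]
    rw [h2]
    exact heq2 _ h.choose_spec.1 _ h1 z ⟨h.choose_spec.2, hz⟩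
  refine ⟨g', ?_, ?_⟩
  · intro z hz
    -- a centre
    obtain ⟨z₁, h1, hz1⟩ : ∃ z₁ ∈ ball z₀ ρ, z ∈ ball z₁ r := by
      set t : ℝ := ρ / (ρ + r / 2) with ht
      have hpos : 0 < ρ + r / 2 := by positivity
      have ht0 : 0 < t := by positivity
      have ht1 : t * (ρ + r / 2) = ρ := by
        rw [ht]
        field_simp
      have ht2 : t < 1 := by
        rw [ht, div_lt_one hpos]
        linarith
      have hzn : ‖z - z₀‖ < ρ + r / 2 := by
        rw [← dist_eq_norm]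
        exact mem_ball.1 hz
      refine ⟨z₀ + (t : ℂ) * (z - z₀), ?_, ?_⟩
      · rw [mem_ball, dist_eq_norm, add_sub_cancel_left, norm_mul, Complex.norm_real, Real.norm_of_nonneg ht0.le]
        calc t * ‖z - z₀‖ < t * (ρ + r / 2) := by
              exact mul_lt_mul_of_pos_left hzn ht0
          _ = ρ := ht1
      · rw [mem_ball, dist_eq_norm]
        have : z - (z₀ + (t : ℂ) * (z - z₀)) = ((1 - t : ℝ) : ℂ) * (z - z₀) := by
          push_cast
          ring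
        rw [this, norm_mul, Complex.norm_real, Real.norm_of_nonneg (by linarith)]
        calc (1 - t) * ‖z - z₀‖ ≤ (1 - t) * (ρ + r / 2) := by
              exact mul_le_mul_of_nonneg_left hzn.le (by linarith)
          _ = r / 2 := by
              rw [sub_mul, one_mul, ht1]
              ring
          _ < r := by linarith
    refine arcAt_congr ((hG z₁ h1).1 z hz1) ?_
    filter_upwards [isOpen_ball.mem_nhds hz1] with w hw
    exact hval z₁ h1 w hw
  · intro z hz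
    rw [hval z hz z (mem_ball_self hr)]
    exact heq z hz z ⟨mem_ball_self hr, hz⟩

theorem exists_entire (hP : Homog P) (f : Frame θ) {r K : ℝ} (hr : 0 < r)
    (hU : ∀ a, ∀ Y ∈ Kset θ a {c}, ∃ ε > 0, ∃ H : ℂ × (Ph N → ℂ) → Fin (N + 1) → ℂ, Flow (gfam f a) Y r ε K H)
    {g : ℂ → PN N} {z₀ : ℂ} (hg : ArcAt θ c g z₀) : ∃ g' : ℂ → PN N, (∀ z, ArcAt θ c g' z) ∧ ∀ᶠ z in 𝓝 z₀, g' z = g z := by
  obtain ⟨ρ, hρ, hball⟩ : ∃ ρ > 0, ∀ z ∈ ball z₀ ρ, ArcAt θ c g z := by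
    obtain ⟨F, hF, hrF, hc⟩ := hg
    have : ∀ᶠ z in 𝓝 z₀, ArcAt θ c g z := by
      filter_upwards [hF.eventually_analyticAt, eventually_eventually_nhds.2 hrF, eventually_eventually_nhds.2 hc] with z h1 h2 h3
      exact ⟨F, h1, h2, h3⟩
    exact Metric.eventually_nhds_iff_ball.1 this
  have hk : ∀ k : ℕ, ∃ g' : ℂ → PN N, (∀ z ∈ ball z₀ (ρ + k * (r / 2)), ArcAt θ c g' z) ∧ ∀ z ∈ ball z₀ ρ, g' z = g z := by
    intro k
    induction k with
    | zero => exact ⟨g, by simpa using hball, fun z _ => rfl⟩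
    | succ k ih =>
      obtain ⟨g₁, h1, h2⟩ := ih
      obtain ⟨g₂, h3, h4⟩ := extend hP f hr hU (z₀ := z₀) (ρ := ρ + k * (r / 2)) (by positivity) h1
      refine ⟨g₂, ?_, ?_⟩
      · have e : ρ + ((k + 1 : ℕ) : ℝ) * (r / 2) = ρ + k * (r / 2) + r / 2 := by
          push_cast
          ring
        rw [e]
        exact h3
      · intro z hz
        have hz' : z ∈ ball z₀ (ρ + k * (r / 2)) := ball_subset_ball (by linarith [show (0:ℝ) ≤ k * (r / 2) by positivity]) hz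
        rw [h4 z hz', h2 z hz]
  choose G hG hG' using hk
  have hcomp : ∀ k l : ℕ, k ≤ l → ∀ z ∈ ball z₀ (ρ + k * (r / 2)), G k z = G l z := by
    intro k l hkl
    have hkl' : (k : ℝ) ≤ l := by exact_mod_cast hkl
    have hpos : 0 < ρ + k * (r / 2) := by positivity
    refine arc_unique (θ := θ) (c := c) (c' := c) isOpen_ball (convex_ball z₀ _).isPreconnected (hG k)
      (fun z hz => hG l z (ball_subset_ball (by nlinarith) hz)) (mem_ball_self hpos) ?_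
    filter_upwards [ball_mem_nhds z₀ hρ] with w hw
    rw [hG' k w hw, hG' l w hw]
  set κ : ℂ → ℕ := fun z => ⌈dist z z₀ / (r / 2)⌉₊ with hκ
  have hκ' : ∀ z, z ∈ ball z₀ (ρ + κ z * (r / 2)) := by
    intro z
    rw [mem_ball]
    have h1 : dist z z₀ / (r / 2) ≤ κ z := Nat.le_ceil _
    rw [div_le_iff₀ (by positivity)] at h1
    linarith
  have hval : ∀ (k : ℕ) (z : ℂ), z ∈ ball z₀ (ρ + k * (r / 2)) → G (κ z) z = G k z := by
    intro k z hz
    rcases le_total (κ z) k with h | h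
    · exact hcomp _ _ h z (hκ' z)
    · exact (hcomp _ _ h z hz).symm
  refine ⟨fun z => G (κ z) z, ?_, ?_⟩
  · intro z
    refine arcAt_congr (hG (κ z) z (hκ' z)) ?_
    filter_upwards [isOpen_ball.mem_nhds (hκ' z)] with w hw
    exact hval (κ z) w hw
  · filter_upwards [ball_mem_nhds z₀ hρ] with w hw
    rw [hval 0 w (by simpa using hw), hG' 0 w hw]

end Pool.Agent.GG
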