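import Pool.Agent.GG.FamD

/-!
# GG Fam0: the family of entire curves with given initial vectors

PROOF.  `c s = θ (Y s) = (A_(a,k) (Y s))_k` is continuous at `0`, `c 0 ≠ 0`; `C` = a closed ball with centre `c 0` which does not contain `0`; `unif` for `C`.  For `s` near `0` (`c s ∈ C`, `hI`) the arc of `IsInit` is a `NArc` (`nArc_of_const`), its image in `ℙ^N` an `ArcAt`
(`arcAt_of_nArc`), and `exists_entire` gives `Φ (·, s)`; for the other `s` let `Φ (·, s) = Φ (·, 0)`, `c s = c 0`.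
-/

set_option autoImplicit false

open MvPolynomial Topology Filter Metric
open Pool.Agent.H13.SM (conTan cone)
open Pool.Agent.H17 (PN)
open Pool.Agent.H62.FC (Homog)

namespace Pool.Agent.GG

variable {N : ℕ} {P : Ideal (MvPolynomial (Fin (N + 1)) ℂ)} {J : ℕ} {m : Fin J → ℕ} {θ : ∀ k, SymSec P (m k)}

open Classical in
theorem exists_Phi (hP : Homog P) (hθ : Polar θ) (hm : ∀ k, 1 ≤ m k) (f : Frame θ) {d : ℕ} {a : Fin (N + 1)} {Y : (Fin d → ℂ) → Ph N → ℂ}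
    (hY : AnalyticAt ℂ Y 0) (hI : ∀ᶠ s in 𝓝 (0 : Fin d → ℂ), ∃ x v c, Y s = pt x v ∧ IsTan θ a c x v ∧ c ≠ 0 ∧ IsInit (gfam f a) (Y s)) :
    ∃ (Φ : ℂ × (Fin d → ℂ) → PN N) (c : (Fin d → ℂ) → Fin J → ℂ), c 0 ≠ 0 ∧ (∀ s z, ArcAt θ (c s) (fun w => Φ (w, s)) z) ∧ FamAt θ Φ a Y 0 := by
  set cc : (Fin d → ℂ) → Fin J → ℂ := fun s k => eval (Y s) (f.A a k) with hcc
  have hcont : ContinuousAt cc 0 := by
    rw [continuousAt_pi]
    intro k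
    exact (AnalyticAt.comp (g := fun y : Ph N → ℂ => eval y (f.A a k)) (f := Y)
      (AnalyticOnNhd.eval_mvPolynomial (f.A a k) (Y 0) (Set.mem_univ _)) hY).continuousAt
  have hval : ∀ (s : Fin d → ℂ) (x v : Fin (N + 1) → ℂ) (c : Fin J → ℂ), Y s = pt x v → IsTan θ a c x v → c = cc s := by
    intro s x v c hs hT
    funext k
    rw [← hT.2.2.2.2 k, f.hA a k x hT.1 hT.2.1 v hT.2.2.1, hcc]
    simp only [hs]
  have hcc0 : cc 0 ≠ 0 := by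
    obtain ⟨x, v, c, h1, h2, h3, -⟩ := hI.self_of_nhds
    rwa [← hval 0 x v c h1 h2]
  have hpos : 0 < ‖cc 0‖ := norm_pos_iff.2 hcc0
  have h0C : (0 : Fin J → ℂ) ∉ closedBall (cc 0) (‖cc 0‖ / 2) := by
    intro h
    rw [mem_closedBall, dist_eq_norm, zero_sub, norm_neg] at h
    linarith
  obtain ⟨r, hr, K, hU⟩ := unif hθ hm f (isCompact_closedBall (cc 0) (‖cc 0‖ / 2)) h0C
  have key : ∀ᶠ s in 𝓝 (0 : Fin d → ℂ), ∃ (c : Fin J → ℂ) (x : ℂ → Fin (N + 1) → ℂ) (g : ℂ → PN N), c ≠ 0 ∧ (∀ z, ArcAt θ c g z) ∧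
      NArc θ a c x 0 ∧ Rep g x 0 ∧ Y s = pt (x 0) (deriv x 0) := by
    filter_upwards [hI, hcont.eventually (closedBall_mem_nhds (cc 0) (by positivity : (0 : ℝ) < ‖cc 0‖ / 2))] with s hs hsC
    obtain ⟨x₀, v₀, c, h1, h2, h3, x, ⟨hxa, hxc⟩, hx0⟩ := hs
    have hc : c = cc s := hval s x₀ v₀ c h1 h2
    have hn : NArc θ a c x 0 := by
      refine nArc_of_const f h2 hxa fun l => ?_
      filter_upwards [hxc l] with w hw
      rw [hw, hx0, h1]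
    have hx1 : x 0 a = 1 := hn.2.self_of_nhds.2.1
    have hxne : x 0 ≠ 0 := by
      intro h
      rw [h] at hx1
      exact zero_ne_one hx1
    set g : ℂ → PN N := fun w => if h : x w ≠ 0 then Projectivization.mk ℂ (x w) h else Projectivization.mk ℂ (x 0) hxne with hg
    have hrep : Rep g x 0 := by
      filter_upwards [hxa.continuousAt.eventually_ne hxne] with w hw
      exact ⟨hw, by rw [hg]; simp only [dif_pos hw]⟩
    have harc : ArcAt θ c g 0 := arcAt_of_nArc hn hrep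
    have hU' : ∀ a, ∀ Y ∈ Kset θ a {c}, ∃ ε > 0, ∃ H : ℂ × (Ph N → ℂ) → Fin (N + 1) → ℂ, Flow (gfam f a) Y r ε K H := by
      rintro a Y ⟨x, v, c', hy, hT, hb, hc'⟩
      refine hU a Y ⟨x, v, c', hy, hT, hb, ?_⟩
      rw [Set.mem_singleton_iff] at hc'
      rw [hc', hc]
      exact hsC
    obtain ⟨g', hg', he⟩ := exists_entire hP f hr hU' harc
    refine ⟨c, x, g', h3, hg', hn, ?_, hx0.symm⟩
    filter_upwards [he, hrep] with w hw1 hw2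
    obtain ⟨h, hw3⟩ := hw2
    exact ⟨h, hw1.trans hw3⟩
  obtain ⟨c₀, x₀, g₀, hc₀, hg₀, -, -, -⟩ := key.self_of_nhds
  have hall : ∀ s : Fin d → ℂ, ∃ (c : Fin J → ℂ) (g : ℂ → PN N), c ≠ 0 ∧ (∀ z, ArcAt θ c g z) ∧
      ((∃ (c : Fin J → ℂ) (x : ℂ → Fin (N + 1) → ℂ) (g : ℂ → PN N), c ≠ 0 ∧ (∀ z, ArcAt θ c g z) ∧
        NArc θ a c x 0 ∧ Rep g x 0 ∧ Y s = pt (x 0) (deriv x 0)) →
        ∃ x : ℂ → Fin (N + 1) → ℂ, NArc θ a c x 0 ∧ Rep g x 0 ∧ Y s = pt (x 0) (deriv x 0)) := by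
    intro s
    by_cases h : ∃ (c : Fin J → ℂ) (x : ℂ → Fin (N + 1) → ℂ) (g : ℂ → PN N), c ≠ 0 ∧ (∀ z, ArcAt θ c g z) ∧
        NArc θ a c x 0 ∧ Rep g x 0 ∧ Y s = pt (x 0) (deriv x 0)
    · obtain ⟨c, x, g, h1, h2, h3, h4, h5⟩ := h
      exact ⟨c, g, h1, h2, fun _ => ⟨x, h3, h4, h5⟩⟩
    · exact ⟨c₀, g₀, hc₀, hg₀, fun h' => absurd h' h⟩
  choose c g hc hg hx using hall
  refine ⟨fun q => g q.2 q.1, c, hc 0, fun s z => hg s z, hY, ?_⟩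
  filter_upwards [key] with s hs
  obtain ⟨x, h1, h2, h3⟩ := hx s hs
  exact ⟨c s, x, h1, h2, h3⟩

end Pool.Agent.GG
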