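import Pool.Agent.GG.FamD

/-!
# GG Fam1: one time step of a family of arcs, with the bound for the derivative

PROOF.  `Y 0 ∈ Kset θ a C` (`arcV_of_nArc`; `c 0 ∈ C`: the constants of `NArc` and `ArcAt` agree), `H` = the flow box.  For `s` near `0`, `Y s ∈ ball (Y 0) ε`, `IsInit (Y s)` (`isInit_of_nArc`), `x = H (· - z, Y s)` near `z` (`uniq`), so `Φ (w, s) = [H (w - z, Y s)]` near `w = z`, hence for all
`w ∈ ball z r` (`arc_unique`, `const` + `nArc_of_const` + `arcAt_of_nArc`).  `RepN` at `(z', 0)`: `F (w, s) = H (w - z, Y s)`.  New chart: `a'` with `|x_(a')|` maximal at `x = H (z' - z, Y 0)`; `Y' s` = position and velocity of `x / x_(a')`, an explicit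
function of `(H, ∂H/∂z) (z' - z, Y s)`, with derivative bounded in terms of `K` (`|x_(a')| ≥ |x_a| = 1`, `‖H‖, ‖∂H‖ ≤ K`).
-/

set_option autoImplicit false

open MvPolynomial Topology Filter Metric
open Pool.Agent.H13.SM (conTan cone)
open Pool.Agent.H17 (PN)
open Pool.Agent.H62.FC (Homog)

namespace Pool.Agent.GG

variable {N : ℕ} {P : Ideal (MvPolynomial (Fin (N + 1)) ℂ)} {J : ℕ} {m : Fin J → ℕ} {θ : ∀ k, SymSec P (m k)}

namespace Fam1Aux

/-- position and velocity of `x / x_a` -/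
noncomputable def nrm (a : Fin (N + 1)) (p : Ph N → ℂ) : Ph N → ℂ :=
  Sum.elim (fun b => p (Sum.inl b) / p (Sum.inl a))
    fun b => p (Sum.inr b) / p (Sum.inl a) - p (Sum.inl b) * p (Sum.inr a) / p (Sum.inl a) ^ 2

theorem analyticAt_proj (s : Ph N) (p : Ph N → ℂ) : AnalyticAt ℂ (fun p : Ph N → ℂ => p s) p :=
  (ContinuousLinearMap.proj (R := ℂ) (φ := fun _ : Ph N => ℂ) s).analyticAt p

theorem analyticAt_nrm {a : Fin (N + 1)} {p : Ph N → ℂ} (h : p (Sum.inl a) ≠ 0) : AnalyticAt ℂ (nrm a) p := by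
  rw [analyticAt_pi_iff]
  rintro (b | b)
  · exact (analyticAt_proj (Sum.inl b) p).div (analyticAt_proj (Sum.inl a) p) h
  · exact ((analyticAt_proj (Sum.inr b) p).div (analyticAt_proj (Sum.inl a) p) h).sub
      (((analyticAt_proj (Sum.inl b) p).mul (analyticAt_proj (Sum.inr a) p)).div ((analyticAt_proj (Sum.inl a) p).pow 2) (pow_ne_zero 2 h))

theorem exists_bound_nrm (N : ℕ) (K : ℝ) : ∃ B : ℝ, 0 ≤ B ∧ ∀ (a : Fin (N + 1)) (p : Ph N → ℂ), ‖p‖ ≤ K → 1 ≤ ‖p (Sum.inl a)‖ →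
    ‖fderiv ℂ (nrm a) p‖ ≤ B := by
  have key : ∀ a : Fin (N + 1), ∃ B : ℝ, ∀ p : Ph N → ℂ, ‖p‖ ≤ K → 1 ≤ ‖p (Sum.inl a)‖ → ‖fderiv ℂ (nrm a) p‖ ≤ B := by
    intro a
    have hS : IsCompact (closedBall (0 : Ph N → ℂ) K ∩ {p | 1 ≤ ‖p (Sum.inl a)‖}) :=
      (isCompact_closedBall _ _).inter_right (isClosed_le continuous_const (continuous_apply _).norm)
    have hc : ContinuousOn (fun p => fderiv ℂ (nrm a) p) (closedBall (0 : Ph N → ℂ) K ∩ {p | 1 ≤ ‖p (Sum.inl a)‖}) := by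
      rintro p ⟨-, hp⟩
      have h0 : p (Sum.inl a) ≠ 0 := by
        intro h
        have hp' : 1 ≤ ‖p (Sum.inl a)‖ := hp
        rw [h, norm_zero] at hp'
        linarith
      exact (analyticAt_nrm h0).fderiv.continuousAt.continuousWithinAt
    obtain ⟨B, hB⟩ := hS.exists_bound_of_continuousOn hc
    exact ⟨B, fun p h1 h2 => hB p ⟨mem_closedBall_zero_iff.2 h1, h2⟩⟩
  choose B hB using key
  refine ⟨∑ a, |B a|, Finset.sum_nonneg fun a _ => abs_nonneg _, fun a p h1 h2 => (hB a p h1 h2).trans ((le_abs_self _).trans ?_)⟩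
  exact Finset.single_le_sum (f := fun a => |B a|) (fun a _ => abs_nonneg _) (Finset.mem_univ a)

/-- the constants of `ArcAt` and `NArc` agree -/
theorem nArc_of_arcAt (hP : Homog P) {a : Fin (N + 1)} {c c' : Fin J → ℂ} {g : ℂ → PN N} {z : ℂ} {x : ℂ → Fin (N + 1) → ℂ} (hg : ArcAt θ c g z)
    (hx : NArc θ a c' x z) (hr : Rep g x z) : NArc θ a c x z := by
  have h1 : x z a = 1 := (hx.2.self_of_nhds).2.1
  have h2 := (nArc_of_lift (a := a) hP hg hx.1 hr (by rw [h1]; exact one_ne_zero)).1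
  have he : (fun w => (x w a)⁻¹ • x w) =ᶠ[𝓝 z] x := by
    filter_upwards [hx.2] with w hw
    rw [hw.2.1, inv_one, one_smul]
  refine ⟨hx.1, ?_⟩
  have h3 : ∀ᶠ w in 𝓝 z, (fun w => (x w a)⁻¹ • x w) =ᶠ[𝓝 w] x := he.eventuallyEq_nhds
  filter_upwards [h2.2, he, h3] with w hw hw1 hw2
  have hd : deriv (fun w => (x w a)⁻¹ • x w) w = deriv x w := hw2.deriv_eq
  obtain ⟨h4, h5, h6⟩ := hw
  have hw1' : (x w a)⁻¹ • x w = x w := hw1
  rw [hw1'] at h4 h5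
  refine ⟨h4, h5, fun k => ?_⟩
  have h7 := h6 k
  rw [hd, hw1'] at h7
  exact h7

/-- the curve in the flow box -/
theorem flow_rep (f : Frame θ) {a : Fin (N + 1)} {c : Fin J → ℂ} {g : ℂ → PN N} (hg : ∀ z, ArcAt θ c g z) {z : ℂ} {x : ℂ → Fin (N + 1) → ℂ}
    (hx : NArc θ a c x z) (hr : Rep g x z) {Y₀ : Ph N → ℂ} {r ε K : ℝ} (hr0 : 0 < r) {H : ℂ × (Ph N → ℂ) → Fin (N + 1) → ℂ}
    (hH : Flow (gfam f a) Y₀ r ε K H) (hY : pt (x z) (deriv x z) ∈ ball Y₀ ε) : ∀ w ∈ ball z r,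
      NArc θ a c (fun w' => H (w' - z, pt (x z) (deriv x z))) w ∧ Rep g (fun w' => H (w' - z, pt (x z) (deriv x z))) w := by
  classical
  obtain ⟨hV, hT⟩ := arcV_of_nArc f hx
  set y := pt (x z) (deriv x z) with hydef
  have hlift : ∀ w ∈ ball z r, NArc θ a c (fun w' => H (w' - z, y)) w := by
    intro w hw
    have hw' : w - z ∈ ball (0 : ℂ) r := by
      rw [mem_ball_zero_iff, ← dist_eq_norm]
      exact mem_ball.1 hw
    refine nArc_of_const f hT ?_ ?_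
    · have h1 : AnalyticAt ℂ H (w - z, y) := hH.an _ ⟨hw', hY⟩
      have h2 : AnalyticAt ℂ (fun w' : ℂ => (w' - z, y)) w := (analyticAt_id.sub analyticAt_const).prod analyticAt_const
      exact AnalyticAt.comp_of_eq (f := fun w' : ℂ => (w' - z, y)) h1 h2 rfl
    · intro l
      have hn : ∀ᶠ w' in 𝓝 w, w' ∈ ball z r := isOpen_ball.mem_nhds hw
      filter_upwards [hn] with w' hw'
      have hw'' : w' - z ∈ ball (0 : ℂ) r := by
        rw [mem_ball_zero_iff, ← dist_eq_norm]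
        exact mem_ball.1 hw'
      have h3 := hH.const y hY (isInit_of_nArc f hx) (w' - z) hw'' l
      have h4 : deriv (fun w => H (w - z, y)) w' = deriv (fun z => H (z, y)) (w' - z) :=
        deriv_comp_sub_const (f := fun z => H (z, y)) z w'
      rw [h4]
      exact h3
  have hne : ∀ w ∈ ball z r, H (w - z, y) ≠ 0 := fun w hw => ((hlift w hw).2.self_of_nhds).1.1
  set G : ℂ → PN N := fun w => if h : H (w - z, y) ≠ 0 then Projectivization.mk ℂ (H (w - z, y)) h else g w with hG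
  have hGarc : ∀ w ∈ ball z r, ArcAt θ c G w := by
    intro w hw
    refine arcAt_of_nArc (hlift w hw) ?_
    filter_upwards [(hlift w hw).2] with w' hw'
    have h0 : H (w' - z, y) ≠ 0 := hw'.1.1
    refine ⟨h0, ?_⟩
    rw [hG]
    simp only [dif_pos h0]
  have hGe : ∀ᶠ w in 𝓝 z, G w = g w := by
    filter_upwards [hH.uniq x z hV hY, hr] with s hs hs'
    obtain ⟨h0, h1⟩ := hs'
    have h2 : H (s - z, y) ≠ 0 := by
      rw [← hs]
      exact h0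
    rw [hG]
    simp only [dif_pos h2]
    rw [h1]
    congr 1
    exact hs.symm
  have hall := arc_unique (θ := θ) (c := c) (c' := c) isOpen_ball (convex_ball z r).isPreconnected hGarc (fun w _ => hg w) (mem_ball_self hr0) hGe
  intro w hw
  refine ⟨hlift w hw, ?_⟩
  have hn : ∀ᶠ w' in 𝓝 w, w' ∈ ball z r := isOpen_ball.mem_nhds hw
  filter_upwards [hn] with w' hw'
  refine ⟨hne w' hw', ?_⟩
  rw [← hall w' hw', hG]
  simp only [dif_pos (hne w' hw')]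

end Fam1Aux

open Fam1Aux

theorem fam_step (hP : Homog P) (f : Frame θ) {C : Set (Fin J → ℂ)} {r K : ℝ} (hr : 0 < r)
    (hU : ∀ a, ∀ Y ∈ Kset θ a C, ∃ ε > 0, ∃ H : ℂ × (Ph N → ℂ) → Fin (N + 1) → ℂ, Flow (gfam f a) Y r ε K H) :
    ∃ K' : ℝ, 1 ≤ K' ∧ ∀ (d : ℕ) (Φ : ℂ × (Fin d → ℂ) → PN N) (c : (Fin d → ℂ) → Fin J → ℂ), c 0 ∈ C →
      (∀ s z, ArcAt θ (c s) (fun w => Φ (w, s)) z) → ∀ (z : ℂ) (a : Fin (N + 1)) (Y : (Fin d → ℂ) → Ph N → ℂ), FamAt θ Φ a Y z →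
      (∀ b, ‖Y 0 (Sum.inl b)‖ ≤ 1) → ∀ z' : ℂ, ‖z' - z‖ < r → (∃ F, RepN P Φ F (z', 0)) ∧
        ∃ (a' : Fin (N + 1)) (Y' : (Fin d → ℂ) → Ph N → ℂ), FamAt θ Φ a' Y' z' ∧ (∀ b, ‖Y' 0 (Sum.inl b)‖ ≤ 1) ∧ ‖fderiv ℂ Y' 0‖ ≤ K' * ‖fderiv ℂ Y 0‖ := by
  obtain ⟨B, hB0, hB⟩ := exists_bound_nrm N K
  refine ⟨max 1 (B * |K|), le_max_left _ _, ?_⟩
  intro d Φ c hc hΦ z a Y hY hY1 z' hz'
  obtain ⟨hYan, hYev⟩ := hY
  -- the flow box
  obtain ⟨c₀, x₀, hx₀, hr₀, hY₀⟩ := hYev.self_of_nhds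
  have hx₀' := nArc_of_arcAt hP (hΦ 0 z) hx₀ hr₀
  obtain ⟨-, hT₀⟩ := arcV_of_nArc f hx₀'
  have hmem : Y 0 ∈ Kset θ a C := ⟨x₀ z, deriv x₀ z, c 0, hY₀, hT₀, fun b => by
    have := hY1 b
    rw [hY₀] at this
    exact this, hc⟩
  obtain ⟨ε, hε, H, hH⟩ := hU a (Y 0) hmem
  have hYb : ∀ᶠ s in 𝓝 (0 : Fin d → ℂ), Y s ∈ ball (Y 0) ε := hYan.continuousAt.eventually (ball_mem_nhds _ hε)
  have hstar : ∀ᶠ s in 𝓝 (0 : Fin d → ℂ), ∀ w ∈ ball z r,
      NArc θ a (c s) (fun w' => H (w' - z, Y s)) w ∧ Rep (fun w => Φ (w, s)) (fun w' => H (w' - z, Y s)) w := by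
    filter_upwards [hYev, hYb] with s hs hsb
    obtain ⟨c', x, hx, hrx, hYs⟩ := hs
    have hx' := nArc_of_arcAt hP (hΦ s z) hx hrx
    rw [hYs] at hsb ⊢
    exact flow_rep f (hΦ s) hx' hrx hr hH hsb
  have hz'b : z' ∈ ball z r := by
    rw [mem_ball, dist_eq_norm]
    exact hz'
  have hq : z' - z ∈ ball (0 : ℂ) r := by
    rw [mem_ball_zero_iff]
    exact hz'
  have hq0 : (z' - z, Y 0) ∈ ball (0 : ℂ) r ×ˢ ball (Y 0) ε := ⟨hq, mem_ball_self hε⟩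
  have hHan : AnalyticAt ℂ H (z' - z, Y 0) := hH.an _ hq0
  -- the lift
  have hFan : AnalyticAt ℂ (fun p : ℂ × (Fin d → ℂ) => H (p.1 - z, Y p.2)) (z', 0) := by
    have h2 : AnalyticAt ℂ (fun p : ℂ × (Fin d → ℂ) => (p.1 - z, Y p.2)) (z', 0) := by
      refine (analyticAt_fst.sub analyticAt_const).prod ?_
      exact AnalyticAt.comp_of_eq (f := fun p : ℂ × (Fin d → ℂ) => p.2) hYan analyticAt_snd rfl
    exact AnalyticAt.comp_of_eq (f := fun p : ℂ × (Fin d → ℂ) => (p.1 - z, Y p.2)) hHan h2 rfl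
  refine ⟨⟨fun p => H (p.1 - z, Y p.2), hFan, ?_⟩, ?_⟩
  · have hn : ∀ᶠ w in 𝓝 z', w ∈ ball z r := isOpen_ball.mem_nhds hz'b
    have hp : ∀ᶠ p in 𝓝 (z', (0 : Fin d → ℂ)), p.1 ∈ ball z r ∧ ∀ w ∈ ball z r,
        NArc θ a (c p.2) (fun w' => H (w' - z, Y p.2)) w ∧ Rep (fun w => Φ (w, p.2)) (fun w' => H (w' - z, Y p.2)) w := by
      rw [nhds_prod_eq]
      exact hn.prod_mk hstar
    filter_upwards [hp] with p hp
    obtain ⟨h1, h2⟩ := hp
    obtain ⟨h3, h4⟩ := h2 p.1 h1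
    exact ⟨(h3.2.self_of_nhds).1, h4.self_of_nhds⟩
  -- the new chart
  set hh : ℂ × (Ph N → ℂ) → Ph N → ℂ := fun q => pt (H q) (deriv (fun z => H (z, q.2)) q.1) with hhdef
  have hder : ∀ q ∈ ball (0 : ℂ) r ×ˢ ball (Y 0) ε, deriv (fun z => H (z, q.2)) q.1 = fderiv ℂ H q (1, 0) := by
    intro q hq
    have h1 : HasFDerivAt H (fderiv ℂ H q) (q.1, q.2) := (hH.an q hq).differentiableAt.hasFDerivAt
    have h2 : HasDerivAt (fun z : ℂ => (z, q.2)) ((1 : ℂ), (0 : Ph N → ℂ)) q.1 := (hasDerivAt_id q.1).prodMk (hasDerivAt_const _ _)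
    exact (h1.comp_hasDerivAt q.1 h2).deriv
  have hopen : IsOpen (ball (0 : ℂ) r ×ˢ ball (Y 0) ε) := isOpen_ball.prod isOpen_ball
  have hhan : AnalyticAt ℂ hh (z' - z, Y 0) := by
    have h1 : AnalyticAt ℂ (fun q => pt (H q) (fderiv ℂ H q (1, 0))) (z' - z, Y 0) := by
      rw [analyticAt_pi_iff]
      have h2 : AnalyticAt ℂ (fun q => fderiv ℂ H q (1, 0)) (z' - z, Y 0) :=
        ((ContinuousLinearMap.apply ℂ (Fin (N + 1) → ℂ) ((1 : ℂ), (0 : Ph N → ℂ))).analyticAt _).comp hHan.fderiv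
      rintro (b | b)
      · exact analyticAt_pi_iff.1 hHan b
      · exact analyticAt_pi_iff.1 h2 b
    refine h1.congr ?_
    filter_upwards [hopen.mem_nhds hq0] with q hq
    rw [hhdef]
    simp only
    rw [hder q hq]
  -- the point at `s = 0`
  set x₁ : Fin (N + 1) → ℂ := H (z' - z, Y 0) with hx₁
  have hx₁a : x₁ a = 1 := by
    have h1 := (hstar.self_of_nhds z' hz'b).1
    exact (h1.2.self_of_nhds).2.1
  obtain ⟨a', -, ha'⟩ := Finset.exists_max_image (Finset.univ : Finset (Fin (N + 1))) (fun b => ‖x₁ b‖) ⟨a, Finset.mem_univ a⟩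
  have ha1 : 1 ≤ ‖x₁ a'‖ := by
    have := ha' a (Finset.mem_univ a)
    rwa [hx₁a, norm_one] at this
  have ha0 : x₁ a' ≠ 0 := by
    intro h
    rw [h, norm_zero] at ha1
    linarith
  have hsub : AnalyticAt ℂ (fun s : Fin d → ℂ => (z' - z, Y s)) 0 := analyticAt_const.prod hYan
  have hhs : AnalyticAt ℂ (fun s : Fin d → ℂ => hh (z' - z, Y s)) 0 :=
    AnalyticAt.comp_of_eq (f := fun s : Fin d → ℂ => (z' - z, Y s)) hhan hsub rfl
  have hnan : AnalyticAt ℂ (nrm a') (hh (z' - z, Y 0)) := analyticAt_nrm ha0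
  have hYan' : AnalyticAt ℂ (fun s : Fin d → ℂ => nrm a' (hh (z' - z, Y s))) 0 :=
    AnalyticAt.comp_of_eq (f := fun s : Fin d → ℂ => hh (z' - z, Y s)) hnan hhs rfl
  refine ⟨a', fun s => nrm a' (hh (z' - z, Y s)), ⟨hYan', ?_⟩, ?_, ?_⟩
  · have hne : ∀ᶠ s in 𝓝 (0 : Fin d → ℂ), H (z' - z, Y s) a' ≠ 0 := by
      have h1 : ContinuousAt (fun s : Fin d → ℂ => hh (z' - z, Y s) (Sum.inl a')) 0 := (analyticAt_pi_iff.1 hhs (Sum.inl a')).continuousAt
      exact h1.eventually_ne ha0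
    filter_upwards [hstar, hne, hYb] with s hs hs0 hsb
    obtain ⟨h1, h2⟩ := hs z' hz'b
    obtain ⟨h3, h4⟩ := nArc_of_lift (a := a') hP (hΦ s z') h1.1 h2 hs0
    refine ⟨c s, _, h3, h4, ?_⟩
    have hqs : (z' - z, Y s) ∈ ball (0 : ℂ) r ×ˢ ball (Y 0) ε := ⟨hq, hsb⟩
    have hd0 : HasDerivAt (fun w => H (w - z, Y s)) (deriv (fun w => H (w, Y s)) (z' - z)) z' := by
      have h5 : HasDerivAt (fun w => H (w - z, Y s)) (deriv (fun w => H (w - z, Y s)) z') z' := h1.1.differentiableAt.hasDerivAt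
      rwa [deriv_comp_sub_const (f := fun w => H (w, Y s)) z z'] at h5
    have hda := hasDerivAt_pi.1 hd0 a'
    have hdi : HasDerivAt (fun w => (H (w - z, Y s) a')⁻¹) (-(deriv (fun w => H (w, Y s)) (z' - z) a') / (H (z' - z, Y s) a') ^ 2) z' :=
      hda.inv hs0
    have hdd := (hdi.smul hd0).deriv
    funext t
    rcases t with b | b
    · show H (z' - z, Y s) b / H (z' - z, Y s) a' = (H (z' - z, Y s) a')⁻¹ * H (z' - z, Y s) b
      rw [div_eq_inv_mul]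
    · show _ = deriv (fun w => (H (w - z, Y s) a')⁻¹ • H (w - z, Y s)) z' b
      have hdd' : deriv (fun w => (H (w - z, Y s) a')⁻¹ • H (w - z, Y s)) z' = _ := hdd
      rw [hdd']
      show deriv (fun w => H (w, Y s)) (z' - z) b / H (z' - z, Y s) a' -
        H (z' - z, Y s) b * deriv (fun w => H (w, Y s)) (z' - z) a' / H (z' - z, Y s) a' ^ 2 =
        (H (z' - z, Y s) a')⁻¹ * deriv (fun w => H (w, Y s)) (z' - z) b +
          (-(deriv (fun w => H (w, Y s)) (z' - z) a') / (H (z' - z, Y s) a') ^ 2) * H (z' - z, Y s) b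
      ring
  · intro b
    show ‖x₁ b / x₁ a'‖ ≤ 1
    rw [norm_div]
    exact div_le_one_of_le₀ (ha' b (Finset.mem_univ b)) (norm_nonneg _)
  · obtain ⟨hb1, hb2, hb3⟩ := hH.bound _ hq0
    have hpK : ‖hh (z' - z, Y 0)‖ ≤ K := by
      rw [pi_norm_le_iff_of_nonneg ((norm_nonneg _).trans hb1)]
      rintro (b | b)
      · exact (norm_le_pi_norm _ b).trans hb1
      · exact (norm_le_pi_norm _ b).trans hb2
    have hBn := hB a' (hh (z' - z, Y 0)) hpK ha1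
    have hc1 : HasFDerivAt (fun s : Fin d → ℂ => (z' - z, Y s)) ((0 : (Fin d → ℂ) →L[ℂ] ℂ).prod (fderiv ℂ Y 0)) 0 :=
      (hasFDerivAt_const _ _).prodMk hYan.differentiableAt.hasFDerivAt
    have hc2 : HasFDerivAt hh (fderiv ℂ hh (z' - z, Y 0)) (z' - z, Y 0) := hhan.differentiableAt.hasFDerivAt
    have hc3 : HasFDerivAt (nrm a') (fderiv ℂ (nrm a') (hh (z' - z, Y 0))) (hh (z' - z, Y 0)) := hnan.differentiableAt.hasFDerivAt
    have hc4 := (hc3.comp (0 : Fin d → ℂ) (hc2.comp (0 : Fin d → ℂ) hc1)).fderiv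
    have hc5 : fderiv ℂ (fun s : Fin d → ℂ => nrm a' (hh (z' - z, Y s))) 0 = _ := hc4
    rw [hc5]
    have e1 : ‖(0 : (Fin d → ℂ) →L[ℂ] ℂ).prod (fderiv ℂ Y 0)‖ ≤ ‖fderiv ℂ Y 0‖ := by
      refine ContinuousLinearMap.opNorm_le_bound _ (norm_nonneg _) fun v => ?_
      rw [ContinuousLinearMap.prod_apply, Prod.norm_def]
      refine max_le ?_ (ContinuousLinearMap.le_opNorm _ _)
      simp only [ContinuousLinearMap.zero_apply, norm_zero]
      positivity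
    calc ‖(fderiv ℂ (nrm a') (hh (z' - z, Y 0))).comp ((fderiv ℂ hh (z' - z, Y 0)).comp ((0 : (Fin d → ℂ) →L[ℂ] ℂ).prod (fderiv ℂ Y 0)))‖
        ≤ ‖fderiv ℂ (nrm a') (hh (z' - z, Y 0))‖ * (‖fderiv ℂ hh (z' - z, Y 0)‖ * ‖(0 : (Fin d → ℂ) →L[ℂ] ℂ).prod (fderiv ℂ Y 0)‖) := by
          refine (ContinuousLinearMap.opNorm_comp_le _ _).trans ?_
          exact mul_le_mul_of_nonneg_left (ContinuousLinearMap.opNorm_comp_le _ _) (norm_nonneg _)
      _ ≤ B * (|K| * ‖fderiv ℂ Y 0‖) := by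
          refine mul_le_mul hBn ?_ (by positivity) hB0
          refine mul_le_mul ?_ e1 (norm_nonneg _) (abs_nonneg _)
          exact hb3.trans (le_abs_self _)
      _ = (B * |K|) * ‖fderiv ℂ Y 0‖ := by ring
      _ ≤ max 1 (B * |K|) * ‖fderiv ℂ Y 0‖ := mul_le_mul_of_nonneg_right (le_max_right _ _) (norm_nonneg _)

end Pool.Agent.GG
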