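import Pool.Agent.GG.FamD

/-!
# GG Fam2: the lengths of the variation, the start of the family

PROOFS.  `wl_of_famAt`: near `s = 0`, `F (z, s) = g (s) • x (s)`, `x (s)` = the `inl` part of `Y s`, `x (s) a = 1`, `g (s) = F (z, s) a`; so `∂F = ∂g • x + g • ∂x`, and `wl` is invariant: `wl (x, ∂x) ≤ 2 ‖∂x‖` (`‖x‖ = 1`).
`fam_start`: (1) new chart `a'` (largest coordinate of `x` at `s = 0`): as in `Fam1`, `x / x_(a')`.  (2) the lift at `(0, 0)` with the prescribed derivatives: `exists_row` and `exists_Flow` at `Y 0` in the chart `a` (`c 0 ≠ 0`, so `v ≠ 0`), `F (w, s) = H (w, Y s)`: `F (0, s) = x (s)`,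
`∂F/∂w (0, 0) = v`; `Φ (w, s) = [H (w, Y s)]` for `(w, s)` near `(0, 0)`: by `uniq` near `w = 0` for every `s` near `0`, and then on a fixed ball (`const`, `nArc_of_const`, `arcAt_of_nArc`, `arc_unique`).
-/

set_option autoImplicit false

open MvPolynomial Topology Filter Metric
open Pool.Agent.H13.SM (conTan cone)
open Pool.Agent.H17 (PN)
open Pool.Agent.H62.FC (Homog)

namespace Pool.Agent.GG

variable {N : ℕ} {P : Ideal (MvPolynomial (Fin (N + 1)) ℂ)} {J : ℕ} {m : Fin J → ℕ} {θ : ∀ k, SymSec P (m k)}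

private theorem norm_single_le {d : ℕ} (i : Fin d) : ‖(Pi.single i 1 : Fin d → ℂ)‖ ≤ 1 := by
  refine (pi_norm_le_iff_of_nonneg zero_le_one).2 fun j => ?_
  by_cases h : j = i
  · subst h
    simp
  · rw [Pi.single_eq_of_ne h]
    simp

private theorem fderiv_right {E₁ E₂ E₃ : Type*} [NormedAddCommGroup E₁] [NormedSpace ℂ E₁] [NormedAddCommGroup E₂] [NormedSpace ℂ E₂]
    [NormedAddCommGroup E₃] [NormedSpace ℂ E₃] {F : E₁ × E₂ → E₃} {z : E₁} {s : E₂} (h : DifferentiableAt ℂ F (z, s)) (e : E₂) :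
    fderiv ℂ F (z, s) (0, e) = fderiv ℂ (fun s => F (z, s)) s e := by
  have h1 : HasFDerivAt (fun s => F (z, s)) ((fderiv ℂ F (z, s)).comp (ContinuousLinearMap.inr ℂ E₁ E₂)) s :=
    h.hasFDerivAt.comp s (hasFDerivAt_prodMk_right z s)
  rw [h1.fderiv]
  rfl

private theorem fderiv_left {E₂ E₃ : Type*} [NormedAddCommGroup E₂] [NormedSpace ℂ E₂]
    [NormedAddCommGroup E₃] [NormedSpace ℂ E₃] {F : ℂ × E₂ → E₃} {z : ℂ} {s : E₂} (h : DifferentiableAt ℂ F (z, s)) :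
    fderiv ℂ F (z, s) (1, 0) = deriv (fun w => F (w, s)) z := by
  have h1 : HasDerivAt (fun w : ℂ => (w, s)) ((1 : ℂ), (0 : E₂)) z := (hasDerivAt_id z).prodMk (hasDerivAt_const z s)
  have h2 : HasDerivAt (fun w => F (w, s)) (fderiv ℂ F (z, s) (1, 0)) z := h.hasFDerivAt.comp_hasDerivAt z h1
  exact h2.deriv.symm

private theorem rep_eq {x y : Fin (N + 1) → ℂ} (hx : x ≠ 0) (hy : y ≠ 0) (h : Projectivization.mk ℂ x hx = Projectivization.mk ℂ y hy)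
    {a : Fin (N + 1)} (ha : y a = 1) (b : Fin (N + 1)) : x b = x a * y b := by
  rw [Projectivization.mk_eq_mk_iff'] at h
  obtain ⟨t, ht⟩ := h
  rw [← ht]
  simp [ha]

theorem wl_of_famAt {d : ℕ} {Φ : ℂ × (Fin d → ℂ) → PN N} {a : Fin (N + 1)} {Y : (Fin d → ℂ) → Ph N → ℂ} {z : ℂ} (h : FamAt θ Φ a Y z)
    (h1 : ∀ b, ‖Y 0 (Sum.inl b)‖ ≤ 1) {F : ℂ × (Fin d → ℂ) → Fin (N + 1) → ℂ} (hF : RepN P Φ F (z, 0)) (i : Fin d) :
    wl (F (z, 0)) (fderiv ℂ F (z, 0) (0, Pi.single i 1)) ≤ 2 * ‖fderiv ℂ Y 0‖ := by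
  obtain ⟨hY, hfam⟩ := h
  obtain ⟨hFa, hFe⟩ := hF
  rw [fderiv_right hFa.differentiableAt]
  have hc : Tendsto (fun s : Fin d → ℂ => (z, s)) (𝓝 0) (𝓝 (z, 0)) := by
    have : Continuous fun s : Fin d → ℂ => (z, s) := by fun_prop
    exact this.tendsto 0
  have he : ∀ᶠ s in 𝓝 (0 : Fin d → ℂ), Y s (Sum.inl a) = 1 ∧ ∀ b, F (z, s) b = F (z, s) a * Y s (Sum.inl b) := by
    filter_upwards [hfam, hc.eventually hFe] with s hs1 hs2
    obtain ⟨c, x, hN, hR, hYs⟩ := hs1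
    obtain ⟨-, h0, h2⟩ := hs2
    obtain ⟨h3, h4⟩ := hR.self_of_nhds
    have ha : x z a = 1 := hN.2.self_of_nhds.2.1
    have h5 : ∀ b, Y s (Sum.inl b) = x z b := fun b => by rw [hYs]; rfl
    refine ⟨by rw [h5, ha], fun b => ?_⟩
    rw [h5]
    exact rep_eq h0 h3 (h2.symm.trans h4) ha b
  have hFd : HasFDerivAt (fun s => F (z, s)) (fderiv ℂ (fun s => F (z, s)) 0) 0 := by
    have h2 : DifferentiableAt ℂ (fun s => F (z, s)) 0 :=
      (hFa.differentiableAt.hasFDerivAt.comp (0 : Fin d → ℂ) (hasFDerivAt_prodMk_right z (0 : Fin d → ℂ))).differentiableAt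
    exact h2.hasFDerivAt
  have hYd : HasFDerivAt Y (fderiv ℂ Y 0) 0 := hY.differentiableAt.hasFDerivAt
  obtain ⟨φ, hφ⟩ : ∃ φ, φ = fderiv ℂ (fun s => F (z, s)) (0 : Fin d → ℂ) := ⟨_, rfl⟩
  obtain ⟨ψ, hψ⟩ : ∃ ψ, ψ = fderiv ℂ Y (0 : Fin d → ℂ) := ⟨_, rfl⟩
  obtain ⟨e, hedef⟩ : ∃ e : Fin d → ℂ, e = Pi.single i 1 := ⟨_, rfl⟩
  rw [← hφ] at hFd
  rw [← hψ] at hYd
  rw [← hφ, ← hψ, ← hedef]
  have hprod : ∀ b, φ e b = F (z, 0) a * ψ e (Sum.inl b) + Y 0 (Sum.inl b) * φ e a := by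
    intro b
    have h2 := (hasFDerivAt_pi'.1 hFd) b
    have h3 := (hasFDerivAt_pi'.1 hFd) a
    have h4 := (hasFDerivAt_pi'.1 hYd) (Sum.inl b)
    have h5 := h3.mul h4
    have h6 : (fun s => F (z, s) b) =ᶠ[𝓝 0] ((fun s => F (z, s) a) * fun s => Y s (Sum.inl b)) := by
      filter_upwards [he] with s hs
      exact hs.2 b
    have h7 := h2.unique (h5.congr_of_eventuallyEq h6)
    have h8 := congrArg (fun L => L e) h7
    simpa using h8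
  have hx : ∀ b, F (z, 0) b = F (z, 0) a * Y 0 (Sum.inl b) := he.self_of_nhds.2
  have ha1 : Y 0 (Sum.inl a) = 1 := he.self_of_nhds.1
  obtain ⟨g, hg⟩ : ∃ g, g = F (z, 0) a := ⟨_, rfl⟩
  rw [← hg] at hprod hx
  have hx0 : F (z, 0) ≠ 0 := hFe.self_of_nhds.2.1
  have hnx : ‖F (z, 0)‖ = ‖g‖ := by
    refine le_antisymm ((pi_norm_le_iff_of_nonneg (norm_nonneg _)).2 fun b => ?_) ?_
    · rw [hx, norm_mul]
      exact mul_le_of_le_one_right (norm_nonneg _) (h1 b)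
    · rw [hg]
      exact norm_le_pi_norm _ a
  have hg0 : 0 < ‖g‖ := by
    rw [← hnx]
    exact norm_pos_iff.2 hx0
  have hψe : ‖ψ e‖ ≤ ‖ψ‖ := by
    have h2 := ψ.le_opNorm e
    have h3 : ‖e‖ ≤ 1 := by
      rw [hedef]
      exact norm_single_le i
    exact h2.trans (mul_le_of_le_one_right (norm_nonneg _) h3)
  unfold wl
  rw [hnx, div_le_iff₀ (by positivity)]
  refine (pi_norm_le_iff_of_nonneg (by positivity)).2 fun p => ?_
  have h2 : F (z, 0) p.1 * φ e p.2 - F (z, 0) p.2 * φ e p.1 =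
      g ^ 2 * (Y 0 (Sum.inl p.1) * ψ e (Sum.inl p.2) - Y 0 (Sum.inl p.2) * ψ e (Sum.inl p.1)) := by
    rw [hprod p.1, hprod p.2, hx p.1, hx p.2]
    ring
  rw [h2, norm_mul, norm_pow, mul_comm]
  refine mul_le_mul_of_nonneg_right ?_ (by positivity)
  have h3 : ∀ p q : Fin (N + 1), ‖Y 0 (Sum.inl p) * ψ e (Sum.inl q)‖ ≤ ‖ψ‖ := by
    intro p q
    rw [norm_mul]
    calc ‖Y 0 (Sum.inl p)‖ * ‖ψ e (Sum.inl q)‖ ≤ 1 * ‖ψ‖ :=
          mul_le_mul (h1 p) ((norm_le_pi_norm _ _).trans hψe) (norm_nonneg _) zero_le_one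
      _ = ‖ψ‖ := one_mul _
  calc ‖Y 0 (Sum.inl p.1) * ψ e (Sum.inl p.2) - Y 0 (Sum.inl p.2) * ψ e (Sum.inl p.1)‖
      ≤ ‖Y 0 (Sum.inl p.1) * ψ e (Sum.inl p.2)‖ + ‖Y 0 (Sum.inl p.2) * ψ e (Sum.inl p.1)‖ := norm_sub_le _ _
    _ ≤ ‖ψ‖ + ‖ψ‖ := add_le_add (h3 _ _) (h3 _ _)
    _ = 2 * ‖ψ‖ := by ring

/-- the constants of the arcs of a family -/
private theorem famAt_c (hP : Homog P) {d : ℕ} {Φ : ℂ × (Fin d → ℂ) → PN N} {c : (Fin d → ℂ) → Fin J → ℂ}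
    (hΦ : ∀ s z, ArcAt θ (c s) (fun w => Φ (w, s)) z) {a : Fin (N + 1)} {Y : (Fin d → ℂ) → Ph N → ℂ} {z : ℂ} (h : FamAt θ Φ a Y z) :
    ∀ᶠ s in 𝓝 (0 : Fin d → ℂ), ∃ x : ℂ → Fin (N + 1) → ℂ,
      NArc θ a (c s) x z ∧ Rep (fun w => Φ (w, s)) x z ∧ Y s = pt (x z) (deriv x z) := by
  filter_upwards [h.2] with s hs
  obtain ⟨c₁, x, hN, hR, hY⟩ := hs
  have ha : x z a = 1 := hN.2.self_of_nhds.2.1
  obtain ⟨h1, h2⟩ := nArc_of_lift hP (hΦ s z) hN.1 hR (a := a) (by rw [ha]; exact one_ne_zero)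
  have he : (fun w => (x w a)⁻¹ • x w) =ᶠ[𝓝 z] x := by
    filter_upwards [hN.2] with w hw
    rw [hw.2.1, inv_one, one_smul]
  refine ⟨_, h1, h2, ?_⟩
  rw [he.deriv_eq, hY]
  congr 1
  exact he.self_of_nhds.symm

private theorem hasDerivAt_quot {x : ℂ → Fin (N + 1) → ℂ} {z : ℂ} (h : DifferentiableAt ℂ x z) {a : Fin (N + 1)} (ha : x z a ≠ 0) :
    deriv (fun w => (x w a)⁻¹ • x w) z =
      fun b => (x z a)⁻¹ * deriv x z b - (x z a)⁻¹ * (x z a)⁻¹ * deriv x z a * x z b := by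
  have h1 : HasDerivAt x (deriv x z) z := h.hasDerivAt
  have h2 : HasDerivAt (fun w => (x w a)⁻¹ • x w) (fun b => (x z a)⁻¹ * deriv x z b - (x z a)⁻¹ * (x z a)⁻¹ * deriv x z a * x z b) z := by
    rw [hasDerivAt_pi]
    intro b
    have h3 := hasDerivAt_pi.1 h1 a
    have h4 := hasDerivAt_pi.1 h1 b
    have h5 := (h3.inv ha).mul h4
    have h6 : (fun w => ((x w a)⁻¹ • x w) b) = ((fun w => x w a)⁻¹ * fun w => x w b) := by
      funext w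
      simp
    rw [h6]
    refine h5.congr_deriv ?_
    simp only [Pi.inv_apply]
    field_simp
    ring
  exact h2.deriv

/-- the normalisation of a family -/
private theorem fam_norm (hP : Homog P) {d : ℕ} {Φ : ℂ × (Fin d → ℂ) → PN N} {c : (Fin d → ℂ) → Fin J → ℂ}
    (hΦ : ∀ s z, ArcAt θ (c s) (fun w => Φ (w, s)) z) {a : Fin (N + 1)} {Y : (Fin d → ℂ) → Ph N → ℂ} {z : ℂ} (h : FamAt θ Φ a Y z) :
    ∃ (a' : Fin (N + 1)) (Y' : (Fin d → ℂ) → Ph N → ℂ), FamAt θ Φ a' Y' z ∧ ∀ b, ‖Y' 0 (Sum.inl b)‖ ≤ 1 := by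
  have hx0 : Y 0 (Sum.inl a) = 1 := by
    obtain ⟨c₁, x, hN, hR, hY⟩ := h.2.self_of_nhds
    rw [hY]
    exact hN.2.self_of_nhds.2.1
  obtain ⟨a', -, ha'⟩ := Finset.exists_max_image (Finset.univ : Finset (Fin (N + 1))) (fun b => ‖Y 0 (Sum.inl b)‖) ⟨a, Finset.mem_univ a⟩
  have hpos : 0 < ‖Y 0 (Sum.inl a')‖ := by
    refine lt_of_lt_of_le one_pos ?_
    have h1 := ha' a (Finset.mem_univ a)
    rwa [hx0, norm_one] at h1
  have hne : Y 0 (Sum.inl a') ≠ 0 := norm_pos_iff.1 hpos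
  have hYc : ∀ i, AnalyticAt ℂ (fun s => Y s i) 0 := analyticAt_pi_iff.1 h.1
  refine ⟨a', fun s => pt (fun b => (Y s (Sum.inl a'))⁻¹ * Y s (Sum.inl b))
    (fun b => (Y s (Sum.inl a'))⁻¹ * Y s (Sum.inr b) - (Y s (Sum.inl a'))⁻¹ * (Y s (Sum.inl a'))⁻¹ * Y s (Sum.inr a') * Y s (Sum.inl b)),
    ⟨?_, ?_⟩, ?_⟩
  · have hi : AnalyticAt ℂ (fun s => (Y s (Sum.inl a'))⁻¹) 0 := (hYc _).inv hne
    refine analyticAt_pi_iff.2 ?_
    rintro (b | b)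
    · exact hi.mul (hYc _)
    · exact (hi.mul (hYc _)).sub (((hi.mul hi).mul (hYc _)).mul (hYc _))
  · have hev : ∀ᶠ s in 𝓝 (0 : Fin d → ℂ), Y s (Sum.inl a') ≠ 0 := (hYc _).continuousAt.eventually_ne hne
    filter_upwards [h.2, hev] with s hs hs2
    obtain ⟨c₁, x, hN, hR, hY⟩ := hs
    have hxa : x z a' = Y s (Sum.inl a') := by rw [hY]; rfl
    have hxa0 : x z a' ≠ 0 := by
      rw [hxa]
      exact hs2
    obtain ⟨h1, h2⟩ := nArc_of_lift hP (hΦ s z) hN.1 hR hxa0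
    refine ⟨c s, _, h1, h2, ?_⟩
    rw [hasDerivAt_quot hN.1.differentiableAt hxa0, hY]
    rfl
  · intro b
    show ‖(Y 0 (Sum.inl a'))⁻¹ * Y 0 (Sum.inl b)‖ ≤ 1
    rw [norm_mul, norm_inv, inv_mul_le_iff₀ hpos, mul_one]
    exact ha' b (Finset.mem_univ b)

theorem fam_start (hP : Homog P) (hθ : Polar θ) (hm : ∀ k, 1 ≤ m k) (f : Frame θ) {d : ℕ} {Φ : ℂ × (Fin d → ℂ) → PN N} {c : (Fin d → ℂ) → Fin J → ℂ} (hc : c 0 ≠ 0)
    (hΦ : ∀ s z, ArcAt θ (c s) (fun w => Φ (w, s)) z) {a : Fin (N + 1)} {Y : (Fin d → ℂ) → Ph N → ℂ} (h : FamAt θ Φ a Y 0) :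
    (∃ (a' : Fin (N + 1)) (Y' : (Fin d → ℂ) → Ph N → ℂ), FamAt θ Φ a' Y' 0 ∧ ∀ b, ‖Y' 0 (Sum.inl b)‖ ≤ 1) ∧
    ∃ F, RepN P Φ F (0, 0) ∧ F (0, 0) = (fun b => Y 0 (Sum.inl b)) ∧ fderiv ℂ F (0, 0) (1, 0) = (fun b => Y 0 (Sum.inr b)) ∧
      ∀ i, fderiv ℂ F (0, 0) (0, Pi.single i 1) = fun b => fderiv ℂ Y 0 (Pi.single i 1) (Sum.inl b) := by
  refine ⟨fam_norm hP hΦ h, ?_⟩
  have hfam := famAt_c hP hΦ h
  obtain ⟨x₀, hN₀, -, hY₀⟩ := hfam.self_of_nhds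
  obtain ⟨-, hT₀⟩ := arcV_of_nArc f hN₀
  obtain ⟨I, hI⟩ := exists_row hθ f hT₀ (ne_zero_of_isTan hm hT₀ hc)
  rw [← hY₀] at hI
  obtain ⟨r, hr, K, H, hH⟩ := exists_Flow hI
  have hYc : AnalyticAt ℂ Y 0 := h.1
  have hYb : ∀ᶠ s in 𝓝 (0 : Fin d → ℂ), Y s ∈ ball (Y 0) r := hYc.continuousAt.eventually (ball_mem_nhds _ hr)
  have hmem0 : ((0 : ℂ), Y 0) ∈ ball (0 : ℂ) r ×ˢ ball (Y 0) r := ⟨mem_ball_self hr, mem_ball_self hr⟩
  have hFa : AnalyticAt ℂ (fun q : ℂ × (Fin d → ℂ) => H (q.1, Y q.2)) (0, 0) := by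
    have h2 : AnalyticAt ℂ (fun q : ℂ × (Fin d → ℂ) => (q.1, Y q.2)) (0, 0) := by
      refine analyticAt_fst.prod ?_
      exact AnalyticAt.comp_of_eq hYc analyticAt_snd rfl
    exact AnalyticAt.comp_of_eq (hH.an _ hmem0) h2 rfl
  have hF0 : ∀ᶠ s in 𝓝 (0 : Fin d → ℂ), H (0, Y s) = fun b => Y s (Sum.inl b) := by
    filter_upwards [hYb] with s hs
    exact hH.zero _ hs
  refine ⟨fun q => H (q.1, Y q.2), ⟨hFa, ?_⟩, hH.zero _ (mem_ball_self hr), ?_, ?_⟩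
  · have key : ∀ᶠ s in 𝓝 (0 : Fin d → ℂ), ∀ w ∈ ball (0 : ℂ) r, H (w, Y s) ∈ cone P ∧
        ∃ h : H (w, Y s) ≠ 0, Φ (w, s) = Projectivization.mk ℂ (H (w, Y s)) h := by
      filter_upwards [hfam, hYb] with s hs hsb
      obtain ⟨x, hN, hR, hY⟩ := hs
      obtain ⟨hV, hT⟩ := arcV_of_nArc f hN
      have hlift : ∀ z ∈ ball (0 : ℂ) r, NArc θ a (c s) (fun w => H (w, Y s)) z := by
        intro z hz
        refine nArc_of_const f hT ?_ ?_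
        · have h2 : AnalyticAt ℂ (fun w : ℂ => (w, Y s)) z := analyticAt_id.prod analyticAt_const
          exact AnalyticAt.comp_of_eq (f := fun w : ℂ => (w, Y s)) (hH.an _ ⟨hz, hsb⟩) h2 rfl
        · intro l
          have hn : ∀ᶠ w in 𝓝 z, w ∈ ball (0 : ℂ) r := isOpen_ball.mem_nhds hz
          filter_upwards [hn] with w hw
          rw [← hY]
          refine hH.const (Y s) hsb ?_ w hw l
          rw [hY]
          exact isInit_of_nArc f hN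
      have h0 : ∀ w ∈ ball (0 : ℂ) r, H (w, Y s) ∈ cone P := fun w hw => (hlift w hw).2.self_of_nhds.1
      obtain ⟨g', hg'⟩ : ∃ g' : ℂ → PN N, ∀ w ∈ ball (0 : ℂ) r, ∃ h : H (w, Y s) ≠ 0, g' w = Projectivization.mk ℂ (H (w, Y s)) h := by
        classical
        refine ⟨fun w => if h : H (w, Y s) ≠ 0 then Projectivization.mk ℂ (H (w, Y s)) h else Φ (0, 0), fun w hw => ?_⟩
        have h1 : H (w, Y s) ≠ 0 := (h0 w hw).1
        exact ⟨h1, dif_pos h1⟩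
      have hg'' : ∀ z ∈ ball (0 : ℂ) r, ArcAt θ (c s) g' z := by
        intro z hz
        refine arcAt_of_nArc (hlift z hz) ?_
        filter_upwards [isOpen_ball.mem_nhds hz] with w hw
        exact hg' w hw
      have heq : ∀ᶠ w in 𝓝 (0 : ℂ), Φ (w, s) = g' w := by
        have hu := hH.uniq x 0 hV (by rw [← hY]; exact hsb)
        filter_upwards [hu, hR, ball_mem_nhds (0 : ℂ) hr] with w hw1 hw2 hw3
        obtain ⟨h1, h2⟩ := hw2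
        obtain ⟨h3, h4⟩ := hg' w hw3
        rw [h2, h4]
        congr 1
        rw [hw1, sub_zero, hY]
      have hall := arc_unique isOpen_ball (convex_ball (0 : ℂ) r).isPreconnected (fun z _ => hΦ s z) hg'' (mem_ball_self hr) heq
      intro w hw
      refine ⟨h0 w hw, ?_⟩
      obtain ⟨h1, h2⟩ := hg' w hw
      exact ⟨h1, (hall w hw).trans h2⟩
    rw [nhds_prod_eq]
    have hw : ∀ᶠ w in 𝓝 (0 : ℂ), w ∈ ball (0 : ℂ) r := ball_mem_nhds _ hr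
    filter_upwards [hw.prod_mk key] with q hq
    exact hq.2 q.1 hq.1
  · rw [fderiv_left hFa.differentiableAt]
    exact hH.der _ (mem_ball_self hr)
  · intro i
    rw [fderiv_right hFa.differentiableAt]
    have h2 : (fun s => H (0, Y s)) =ᶠ[𝓝 0] fun s b => Y s (Sum.inl b) := hF0
    have h3 : fderiv ℂ (fun s => H (0, Y s)) 0 = fderiv ℂ (fun s b => Y s (Sum.inl b)) (0 : Fin d → ℂ) := h2.fderiv_eq
    rw [h3]
    funext b
    have h4 : HasFDerivAt Y (fderiv ℂ Y 0) 0 := hYc.differentiableAt.hasFDerivAt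
    have h5 : HasFDerivAt (fun (s : Fin d → ℂ) (b : Fin (N + 1)) => Y s (Sum.inl b))
        (ContinuousLinearMap.pi fun b => (ContinuousLinearMap.proj (Sum.inl b)).comp (fderiv ℂ Y 0)) 0 :=
      hasFDerivAt_pi.2 fun b => (hasFDerivAt_pi'.1 h4) (Sum.inl b)
    rw [h5.fderiv]
    rfl

end Pool.Agent.GG
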