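import Pool.Agent.GG.Fam0
import Pool.Agent.GG.Fam1
import Pool.Agent.GG.Fam2

/-!
# GG Fam3: the holomorphic family of entire curves

PROOF.  `exists_Phi`, `fam_start`; `unif` with `C = {c 0}` and `fam_step`: by induction, from `0` to `z` in `k ≤ 2 ‖z‖ / r + 1` steps, `FamAt` at `z` with `‖fderiv Y_z 0‖ ≤ K'^k ‖fderiv Y_0 0‖`; `wl_of_famAt`.
-/

set_option autoImplicit false

open MvPolynomial Topology Filter Metric
open Pool.Agent.H13.SM (conTan cone)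
open Pool.Agent.H17 (PN)
open Pool.Agent.H62.FC (Homog)

namespace Pool.Agent.GG

variable {N : ℕ} {P : Ideal (MvPolynomial (Fin (N + 1)) ℂ)} {J : ℕ} {m : Fin J → ℕ} {θ : ∀ k, SymSec P (m k)}

theorem exists_curves (hP : Homog P) (hθ : Polar θ) (hm : ∀ k, 1 ≤ m k) (f : Frame θ) {d : ℕ} {a : Fin (N + 1)} {Y : (Fin d → ℂ) → Ph N → ℂ}
    (hY : AnalyticAt ℂ Y 0) (hI : ∀ᶠ s in 𝓝 (0 : Fin d → ℂ), ∃ x v c, Y s = pt x v ∧ IsTan θ a c x v ∧ c ≠ 0 ∧ IsInit (gfam f a) (Y s)) :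
    ∃ (Φ : ℂ × (Fin d → ℂ) → PN N) (c₀ : Fin J → ℂ), c₀ ≠ 0 ∧ (∀ z, ArcAt θ c₀ (fun w => Φ (w, 0)) z) ∧ (∀ z, ∃ F, RepN P Φ F (z, 0)) ∧
      (∃ C : ℝ, ∀ z F, RepN P Φ F (z, 0) → ∀ i, wl (F (z, 0)) (fderiv ℂ F (z, 0) (0, Pi.single i 1)) ≤ C * Real.exp (C * ‖z‖)) ∧
      ∃ F, RepN P Φ F (0, 0) ∧ F (0, 0) = (fun b => Y 0 (Sum.inl b)) ∧ fderiv ℂ F (0, 0) (1, 0) = (fun b => Y 0 (Sum.inr b)) ∧
        ∀ i, fderiv ℂ F (0, 0) (0, Pi.single i 1) = fun b => fderiv ℂ Y 0 (Pi.single i 1) (Sum.inl b) := by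
  obtain ⟨Φ, c, hc, hΦ, hFam⟩ := exists_Phi hP hθ hm f hY hI
  obtain ⟨⟨a₁, Y₁, hF₁, hb₁⟩, hlift⟩ := fam_start hP hθ hm f hc hΦ hFam
  obtain ⟨r, hr, K, hU⟩ := unif hθ hm f (isCompact_singleton (x := c 0)) (fun h => hc (Set.mem_singleton_iff.1 h).symm)
  obtain ⟨K', hK', hstep⟩ := fam_step hP f hr hU
  have hK0 : 0 < K' := lt_of_lt_of_le one_pos hK'
  have step := hstep d Φ c (Set.mem_singleton _) hΦ
  have ind : ∀ (k : ℕ) (z : ℂ), ‖z‖ ≤ k * (r / 2) → ∃ (a' : Fin (N + 1)) (Y' : (Fin d → ℂ) → Ph N → ℂ),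
      FamAt θ Φ a' Y' z ∧ (∀ b, ‖Y' 0 (Sum.inl b)‖ ≤ 1) ∧ ‖fderiv ℂ Y' 0‖ ≤ K' ^ k * ‖fderiv ℂ Y₁ 0‖ := by
    intro k
    induction k with
    | zero =>
      intro z hz
      have hz0 : z = 0 := by
        rw [← norm_le_zero_iff]
        simpa using hz
      subst hz0
      exact ⟨a₁, Y₁, hF₁, hb₁, by simp⟩
    | succ k ih =>
      intro z hz
      have hk1 : (0 : ℝ) < k + 1 := by positivity
      have hz' : ‖z‖ ≤ (k + 1) * (r / 2) := by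
        rw [Nat.cast_add_one] at hz
        exact hz
      obtain ⟨a₂, Y₂, hF₂, hb₂, hd₂⟩ := ih (((k / (k + 1) : ℝ) : ℂ) * z) (by
        rw [norm_mul, Complex.norm_real, Real.norm_of_nonneg (by positivity)]
        calc (k / (k + 1) : ℝ) * ‖z‖ ≤ (k / (k + 1) : ℝ) * ((k + 1) * (r / 2)) := by
              apply mul_le_mul_of_nonneg_left hz' (by positivity)
          _ = k * (r / 2) := by field_simp)
      obtain ⟨-, a₃, Y₃, hF₃, hb₃, hd₃⟩ := step _ a₂ Y₂ hF₂ hb₂ z (by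
        have h1 : z - ((k / (k + 1) : ℝ) : ℂ) * z = ((1 / (k + 1) : ℝ) : ℂ) * z := by
          have h2 : ((1 / (k + 1) : ℝ) : ℂ) = 1 - ((k / (k + 1) : ℝ) : ℂ) := by
            rw [← Complex.ofReal_one, ← Complex.ofReal_sub]
            congr 1
            field_simp
            ring
          rw [h2]
          ring
        rw [h1, norm_mul, Complex.norm_real, Real.norm_of_nonneg (by positivity)]
        calc (1 / (k + 1) : ℝ) * ‖z‖ ≤ (1 / (k + 1) : ℝ) * ((k + 1) * (r / 2)) := by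
              apply mul_le_mul_of_nonneg_left hz' (by positivity)
          _ = r / 2 := by field_simp
          _ < r := by linarith)
      refine ⟨a₃, Y₃, hF₃, hb₃, hd₃.trans ?_⟩
      calc K' * ‖fderiv ℂ Y₂ 0‖ ≤ K' * (K' ^ k * ‖fderiv ℂ Y₁ 0‖) := mul_le_mul_of_nonneg_left hd₂ hK0.le
        _ = K' ^ (k + 1) * ‖fderiv ℂ Y₁ 0‖ := by ring
  have hk : ∀ z : ℂ, ‖z‖ ≤ (⌈‖z‖ / (r / 2)⌉₊ : ℝ) * (r / 2) := by
    intro z
    have h1 := Nat.le_ceil (‖z‖ / (r / 2))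
    rwa [div_le_iff₀ (by positivity)] at h1
  refine ⟨Φ, c 0, hc, fun z => hΦ 0 z, fun z => ?_, ⟨2 * K' * ‖fderiv ℂ Y₁ 0‖ + Real.log K' * (2 / r), fun z F hF i => ?_⟩, hlift⟩
  · obtain ⟨a', Y', hF', hb', -⟩ := ind _ z (hk z)
    exact (step z a' Y' hF' hb' z (by simpa using hr)).1
  · obtain ⟨a', Y', hF', hb', hd'⟩ := ind _ z (hk z)
    have h1 := wl_of_famAt hF' hb' hF i
    have hlog : 0 ≤ Real.log K' := Real.log_nonneg hK'
    have hD : 0 ≤ ‖fderiv ℂ Y₁ 0‖ := norm_nonneg _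
    have h2 : K' ^ ⌈‖z‖ / (r / 2)⌉₊ ≤ K' * Real.exp (Real.log K' * (2 / r) * ‖z‖) := by
      have h3 : (⌈‖z‖ / (r / 2)⌉₊ : ℝ) ≤ ‖z‖ / (r / 2) + 1 := (Nat.ceil_lt_add_one (by positivity)).le
      calc K' ^ ⌈‖z‖ / (r / 2)⌉₊ = Real.exp (Real.log K' * (⌈‖z‖ / (r / 2)⌉₊ : ℝ)) := by
            rw [← Real.rpow_def_of_pos hK0, Real.rpow_natCast]
        _ ≤ Real.exp (Real.log K' * (‖z‖ / (r / 2) + 1)) := by
            apply Real.exp_le_exp.2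
            exact mul_le_mul_of_nonneg_left h3 hlog
        _ = K' * Real.exp (Real.log K' * (2 / r) * ‖z‖) := by
            rw [mul_add, mul_one, Real.exp_add, Real.exp_log hK0, mul_comm]
            congr 2
            field_simp
    have h4 : Real.exp (Real.log K' * (2 / r) * ‖z‖) ≤
        Real.exp ((2 * K' * ‖fderiv ℂ Y₁ 0‖ + Real.log K' * (2 / r)) * ‖z‖) := by
      apply Real.exp_le_exp.2
      apply mul_le_mul_of_nonneg_right _ (norm_nonneg z)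
      have : 0 ≤ 2 * K' * ‖fderiv ℂ Y₁ 0‖ := by positivity
      linarith
    have h5 : (0 : ℝ) ≤ Real.log K' * (2 / r) := by positivity
    calc wl (F (z, 0)) (fderiv ℂ F (z, 0) (0, Pi.single i 1)) ≤ 2 * ‖fderiv ℂ Y' 0‖ := h1
      _ ≤ 2 * (K' ^ ⌈‖z‖ / (r / 2)⌉₊ * ‖fderiv ℂ Y₁ 0‖) := by linarith
      _ ≤ 2 * (K' * Real.exp (Real.log K' * (2 / r) * ‖z‖) * ‖fderiv ℂ Y₁ 0‖) := by
          have := mul_le_mul_of_nonneg_right h2 hD
          linarith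
      _ = 2 * K' * ‖fderiv ℂ Y₁ 0‖ * Real.exp (Real.log K' * (2 / r) * ‖z‖) := by ring
      _ ≤ 2 * K' * ‖fderiv ℂ Y₁ 0‖ * Real.exp ((2 * K' * ‖fderiv ℂ Y₁ 0‖ + Real.log K' * (2 / r)) * ‖z‖) :=
          mul_le_mul_of_nonneg_left h4 (by positivity)
      _ ≤ (2 * K' * ‖fderiv ℂ Y₁ 0‖ + Real.log K' * (2 / r)) *
          Real.exp ((2 * K' * ‖fderiv ℂ Y₁ 0‖ + Real.log K' * (2 / r)) * ‖z‖) := by
          apply mul_le_mul_of_nonneg_right _ (Real.exp_pos _).le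
          linarith

end Pool.Agent.GG
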