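import Pool.Agent.GG.Unif
import Pool.Agent.GG.Ext

/-!
# GG FamD: families of arcs, definition
-/

set_option autoImplicit false

open MvPolynomial Topology Filter Metric
open Pool.Agent.H13.SM (conTan cone)
open Pool.Agent.H17 (PN)

namespace Pool.Agent.GG

variable {N : ℕ} {P : Ideal (MvPolynomial (Fin (N + 1)) ℂ)} {J : ℕ} {m : Fin J → ℕ}

/-- For `s` near `0` the curve `Φ (·, s)` is an arc in the chart `x_a = 1` near `z`, with position and velocity `Y s` at `z`, holomorphic in `s`. -/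
def FamAt (θ : ∀ k, SymSec P (m k)) {d : ℕ} (Φ : ℂ × (Fin d → ℂ) → PN N) (a : Fin (N + 1)) (Y : (Fin d → ℂ) → Ph N → ℂ) (z : ℂ) : Prop :=
  AnalyticAt ℂ Y 0 ∧ ∀ᶠ s in 𝓝 (0 : Fin d → ℂ), ∃ (c : Fin J → ℂ) (x : ℂ → Fin (N + 1) → ℂ),
    NArc θ a c x z ∧ Rep (fun w => Φ (w, s)) x z ∧ Y s = pt (x z) (deriv x z)

end Pool.Agent.GG
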