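import Mathlib

/-!
# GG GenA: a transcendence basis of coordinates, and the equations of the other coordinates

PROOF.  `exists_isTranscendenceBasis_between` for the range of the independent coordinates and the range of all coordinates.  Another coordinate `l` is a zero
of a polynomial `p ≠ 0` with coefficients in `ℂ[y_(b')]`; for minimal degree its derivative does not vanish there.
-/

set_option autoImplicit false

open MvPolynomial

namespace Pool.Agent.GG

/-- the chain rule for `p (φ, x)` when the derivation kills the coefficients -/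
private theorem gena_deriv {S A : Type} [CommRing S] [CommRing A] [Algebra ℂ A] (D : Derivation ℂ A A) (φ : S →+* A) (hφ : ∀ s, D (φ s) = 0) (x : A) (p : Polynomial S) :
    D (p.eval₂ φ x) = (Polynomial.derivative p).eval₂ φ x * D x := by
  induction p using Polynomial.induction_on' with
  | add p q hp hq => simp only [Polynomial.eval₂_add, map_add, hp, hq, add_mul]
  | monomial n s =>
    rw [Polynomial.eval₂_monomial, Polynomial.derivative_monomial, Polynomial.eval₂_monomial, Derivation.leibniz, hφ, smul_zero, add_zero,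
      Derivation.leibniz_pow, map_mul, map_natCast]
    simp only [smul_eq_mul, nsmul_eq_mul]
    ring

theorem exists_basis {τ K : Type} [Fintype τ] [Field K] [Algebra ℂ K] {a : τ → K} (ha : IntermediateField.adjoin ℂ (Set.range a) = ⊤) {n : ℕ} (b : Fin n → τ)
    (hb : AlgebraicIndependent ℂ fun i => a (b i)) :
    ∃ (d : ℕ) (b' : Fin d → τ), Function.Injective b' ∧ Set.range b ⊆ Set.range b' ∧ IsTranscendenceBasis ℂ (fun i => a (b' i)) ∧
      ∀ l ∉ Set.range b', ∃ f : MvPolynomial τ ℂ, aeval a f = 0 ∧ aeval a (pderiv l f) ≠ 0 ∧ ∀ l' ∉ Set.range b', l' ≠ l → pderiv l' f = 0 := by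
  classical
  have halg : Algebra.IsAlgebraic (Algebra.adjoin ℂ (Set.range a)) K := by
    constructor
    intro x
    have hx : x ∈ IntermediateField.adjoin ℂ (Set.range a) := by
      rw [ha]; exact IntermediateField.mem_top
    induction hx using IntermediateField.adjoin_induction with
    | mem y hy =>
      have h1 : y = algebraMap (Algebra.adjoin ℂ (Set.range a)) K ⟨y, Algebra.subset_adjoin hy⟩ := rfl
      rw [h1]
      exact isAlgebraic_algebraMap _
    | algebraMap y =>
      have h1 : algebraMap ℂ K y = algebraMap (Algebra.adjoin ℂ (Set.range a)) K (algebraMap ℂ (Algebra.adjoin ℂ (Set.range a)) y) := rfl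
      rw [h1]
      exact isAlgebraic_algebraMap _
    | add y z _ _ hy hz => exact hy.add hz
    | inv y _ hy => exact hy.inv
    | mul y z _ _ hy hz => exact hy.mul hz
  have hs : AlgebraicIndepOn ℂ id (Set.range fun i => a (b i)) := hb.coe_range
  obtain ⟨u, hu1, hu2, hu3⟩ := exists_isTranscendenceBasis_between (R := ℂ) (A := K) (Set.range fun i => a (b i)) (Set.range a)
    (by rintro _ ⟨i, rfl⟩; exact ⟨b i, rfl⟩) hs
  have hfin : u.Finite := (Set.finite_range a).subset hu2
  have : Fintype u := hfin.fintype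
  -- a section
  have hsec : ∀ x : u, ∃ i : τ, a i = x ∧ ((∃ j, a (b j) = x) → ∃ j, b j = i) := by
    intro x
    by_cases h : ∃ j, a (b j) = (x : K)
    · obtain ⟨j, hj⟩ := h
      exact ⟨b j, hj, fun _ => ⟨j, rfl⟩⟩
    · obtain ⟨i, hi⟩ := hu2 x.2
      exact ⟨i, hi, fun h' => absurd h' h⟩
  choose g hg1 hg2 using hsec
  obtain ⟨d, ⟨e⟩⟩ : ∃ d : ℕ, Nonempty (Fin d ≃ u) := ⟨Fintype.card u, ⟨(Fintype.equivFin u).symm⟩⟩
  have hinj : Function.Injective (fun i => g (e i)) := by
    intro i j hij
    have h := congrArg a hij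
    simp only [hg1] at h
    exact e.injective (Subtype.ext h)
  have hbinj : Function.Injective fun i => a (b i) := hb.injective
  have htb : IsTranscendenceBasis ℂ (fun i => a (g (e i))) := by
    have h1 : (fun i => a (g (e i))) = (fun x : u => (x : K)) ∘ e := by
      funext i
      simp [hg1]
    rw [h1]
    exact (isTranscendenceBasis_equiv e).2 hu3
  refine ⟨d, fun i => g (e i), hinj, ?_, htb, ?_⟩
  · rintro _ ⟨j, rfl⟩
    have hju : a (b j) ∈ u := hu1 ⟨j, rfl⟩
    obtain ⟨j', hj'⟩ := hg2 ⟨a (b j), hju⟩ ⟨j, rfl⟩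
    refine ⟨e.symm ⟨a (b j), hju⟩, ?_⟩
    simp only [Equiv.apply_symm_apply]
    rw [← hj']
    have : a (b j') = a (b j) := by
      rw [hj']
      exact hg1 _
    rw [hbinj this]
  · intro l hl
    set b' : Fin d → τ := fun i => g (e i) with hb'
    have hzi : AlgebraicIndependent ℂ (fun i => a (b' i)) := htb.1
    let φ : MvPolynomial (Fin d) ℂ →+* MvPolynomial τ ℂ := (rename b' : MvPolynomial (Fin d) ℂ →ₐ[ℂ] MvPolynomial τ ℂ).toRingHom
    let ψ : MvPolynomial (Fin d) ℂ →+* K := (aeval (fun i => a (b' i)) : MvPolynomial (Fin d) ℂ →ₐ[ℂ] K).toRingHom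
    have hψ : Function.Injective ψ := hzi
    have hcomp : ∀ p : Polynomial (MvPolynomial (Fin d) ℂ), aeval a (p.eval₂ φ (X l)) = p.eval₂ ψ (a l) := by
      intro p
      have h := Polynomial.hom_eval₂ p φ ((aeval a : MvPolynomial τ ℂ →ₐ[ℂ] K) : MvPolynomial τ ℂ →+* K) (X l)
      have h2 : ((aeval a : MvPolynomial τ ℂ →ₐ[ℂ] K) : MvPolynomial τ ℂ →+* K).comp φ = ψ := by
        ext i
        · simp [φ, ψ]
        · simp [φ, ψ]
      rw [h2] at h
      simpa using h
    -- a polynomial relation for `a l`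
    have hex : ∃ p : Polynomial (MvPolynomial (Fin d) ℂ), p ≠ 0 ∧ p.eval₂ ψ (a l) = 0 := by
      have h := htb.isAlgebraic.isAlgebraic (a l)
      obtain ⟨p, hp0, hp⟩ := h
      refine ⟨p.map (hzi.aevalEquiv.symm : _ →+* MvPolynomial (Fin d) ℂ), ?_, ?_⟩
      · intro h0
        apply hp0
        refine Polynomial.map_injective _ ?_ (h0.trans (Polynomial.map_zero _).symm)
        exact hzi.aevalEquiv.symm.injective
      · rw [Polynomial.eval₂_map]
        rw [Polynomial.aeval_def] at hp
        have hring : ψ.comp (hzi.aevalEquiv.symm : _ →+* MvPolynomial (Fin d) ℂ) = algebraMap (Algebra.adjoin ℂ (Set.range fun i => a (b' i))) K := by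
          refine RingHom.ext fun x => ?_
          have := hzi.algebraMap_aevalEquiv (hzi.aevalEquiv.symm x)
          rw [AlgEquiv.apply_symm_apply] at this
          exact this.symm
        rw [hring]
        exact hp
    obtain ⟨p, ⟨hp0, hp⟩, hmin⟩ : ∃ p : Polynomial (MvPolynomial (Fin d) ℂ), (p ≠ 0 ∧ p.eval₂ ψ (a l) = 0) ∧
        ∀ q : Polynomial (MvPolynomial (Fin d) ℂ), q ≠ 0 ∧ q.eval₂ ψ (a l) = 0 → p.natDegree ≤ q.natDegree := by
      obtain ⟨p, hp⟩ := hex
      have hne : ∃ m : ℕ, ∃ q : Polynomial (MvPolynomial (Fin d) ℂ), (q ≠ 0 ∧ q.eval₂ ψ (a l) = 0) ∧ q.natDegree = m := ⟨_, p, hp, rfl⟩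
      obtain ⟨q, hq, hqm⟩ := Nat.find_spec hne
      refine ⟨q, hq, fun r hr => ?_⟩
      rw [hqm]
      exact Nat.find_min' hne ⟨r, hr, rfl⟩
    have hdeg : 1 ≤ p.natDegree := by
      by_contra h
      have h0 : p.natDegree = 0 := by omega
      rw [Polynomial.eq_C_of_natDegree_eq_zero h0, Polynomial.eval₂_C] at hp
      have : p.coeff 0 = 0 := hψ (by rw [hp, map_zero])
      apply hp0
      rw [Polynomial.eq_C_of_natDegree_eq_zero h0, this, map_zero]
    have hder0 : Polynomial.derivative p ≠ 0 := by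
      intro h
      have := Polynomial.derivative_eq_zero.1 h
      omega
    have hder : (Polynomial.derivative p).eval₂ ψ (a l) ≠ 0 := by
      intro h
      have h1 := hmin _ ⟨hder0, h⟩
      have h2 := Polynomial.natDegree_derivative_lt (p := p) (by omega)
      omega
    have hkill : ∀ l' ∉ Set.range b', ∀ s, pderiv l' (φ s) = 0 := by
      intro l' hl' s
      apply pderiv_eq_zero_of_notMem_vars
      intro hmem
      have := vars_rename b' s hmem
      simp only [Finset.mem_image] at this
      obtain ⟨i, -, hi⟩ := this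
      exact hl' ⟨i, hi⟩
    refine ⟨p.eval₂ φ (X l), by rw [hcomp, hp], ?_, ?_⟩
    · rw [gena_deriv (pderiv l) φ (hkill l hl), pderiv_X_self, mul_one, hcomp]
      exact hder
    · intro l' hl' hne
      rw [gena_deriv (pderiv l') φ (hkill l' hl'), pderiv_X_of_ne hne.symm, mul_zero]

end Pool.Agent.GG
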