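import Pool.Agent.H36.BP.SubC
import Pool.Agent.E2.AhlA

/-!
# GG KO: the estimate of Kobayashi and Ochiai on a polydisc

`Φ` is a holomorphic map of a polydisc of radii `r k` into `ℂ^(N+1) - 0`, `h` holomorphic, `‖h‖ ‖Φ‖^a ≤ C ∏ (fs of the k-th partial derivative)^m`, `a > 0`.
At the maximum of `‖h‖ ‖Φ‖^a ∏ (r k² - |z k|²)^m` the logarithm of the restriction to the line in the direction `k` has nonpositive Laplacian:
`a fs_k² / 2 ≤ m (r k / (r k² - |z k|²))²`.  So `‖h 0‖ ‖Φ 0‖^a ∏ (r k)^m ≤ C (2 m / a)^(n m / 2)`.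
-/

set_option autoImplicit false

open Topology Filter Metric

noncomputable section

namespace Pool.Agent.GG

open Pool.Agent.H36.BP (EN Sub fs)

variable {n N : ℕ}

/-- the estimate in one direction -/
theorem ko_direction {Φ : ℂ → EN N} {h : ℂ → ℂ} {b : ℂ} (hΦ : AnalyticAt ℂ Φ b) (hh : AnalyticAt ℂ h b) (hΦ0 : Φ b ≠ 0) (hh0 : h b ≠ 0)
    {a : ℝ} (ha : 0 < a) {m : ℕ} {r : ℝ} (hr : 0 < r) (hb : ‖b‖ < r) {A : ℝ} (hA : 0 < A)
    (hmax : IsLocalMax (fun t => ‖h t‖ * ‖Φ t‖ ^ a * (A * (r ^ 2 - ‖t‖ ^ 2) ^ m)) b) :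
    fs (Φ b) (deriv Φ b) * (r ^ 2 - ‖b‖ ^ 2) ≤ Real.sqrt (2 * m / a) * r := by
  have hD : 0 < r ^ 2 - ‖b‖ ^ 2 := by
    have := norm_nonneg b
    nlinarith
  have h1 : Sub (fun t => r ^ 2 - ‖t‖ ^ 2) b (-(r / (r ^ 2 - ‖b‖ ^ 2)) ^ 2) := by
    have := Pool.Agent.E2.sub_disc hr 0 (b := b) (by rwa [sub_zero])
    simpa only [sub_zero] using this
  have h2 := (h1.rpow (r := (m : ℝ)) (by positivity)).const_mul hA
  have h3 := ((Sub.of_holo hh hh0).mul (Sub.norm_rpow hΦ hΦ0 a)).mul h2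
  have h4 : Sub (fun t => ‖h t‖ * ‖Φ t‖ ^ a * (A * (r ^ 2 - ‖t‖ ^ 2) ^ m)) b
      (0 + a * fs (Φ b) (deriv Φ b) ^ 2 / 2 + (m : ℝ) * -(r / (r ^ 2 - ‖b‖ ^ 2)) ^ 2) := by
    refine h3.congr ?_
    filter_upwards with t
    rw [Real.rpow_natCast]
  have h5 : 0 + a * fs (Φ b) (deriv Φ b) ^ 2 / 2 + (m : ℝ) * -(r / (r ^ 2 - ‖b‖ ^ 2)) ^ 2 ≤ 0 := by
    by_contra hcon
    push Not at hcon
    exact h4.not_isLocalMax hcon hmax
  set D : ℝ := r ^ 2 - ‖b‖ ^ 2 with hDdef
  set f : ℝ := fs (Φ b) (deriv Φ b) with hf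
  have h6 : f ^ 2 ≤ 2 * m / a * (r / D) ^ 2 := by
    rw [div_mul_eq_mul_div, le_div_iff₀ ha]
    linarith
  have h7 : (f * D) ^ 2 ≤ (Real.sqrt (2 * m / a) * r) ^ 2 := by
    rw [mul_pow, mul_pow, Real.sq_sqrt (by positivity)]
    calc f ^ 2 * D ^ 2 ≤ 2 * m / a * (r / D) ^ 2 * D ^ 2 := mul_le_mul_of_nonneg_right h6 (by positivity)
      _ = 2 * m / a * r ^ 2 := by
        rw [div_pow]
        field_simp
  exact (abs_le_of_sq_le_sq' h7 (by positivity)).2

/-- **The estimate of Kobayashi and Ochiai.** -/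
theorem kobayashi_ochiai {a : ℝ} (ha : 0 < a) (m : ℕ) {r : Fin n → ℝ} (hr : ∀ k, 0 < r k) {Φ : (Fin n → ℂ) → EN N} {h : (Fin n → ℂ) → ℂ}
    (hΦ : ∀ z, (∀ k, ‖z k‖ ≤ r k) → AnalyticAt ℂ Φ z) (hh : ∀ z, (∀ k, ‖z k‖ ≤ r k) → AnalyticAt ℂ h z)
    (h0 : ∀ z, (∀ k, ‖z k‖ ≤ r k) → Φ z ≠ 0) {C : ℝ} (hC : 0 ≤ C)
    (hb : ∀ z, (∀ k, ‖z k‖ ≤ r k) → ‖h z‖ * ‖Φ z‖ ^ a ≤ C * ∏ k, fs (Φ z) (fderiv ℂ Φ z (Pi.single k 1)) ^ m) :
    ‖h 0‖ * ‖Φ 0‖ ^ a * ∏ k, r k ^ m ≤ C * Real.sqrt (2 * m / a) ^ (m * n) := by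
  classical
  have hz0 : ∀ k, ‖(0 : Fin n → ℂ) k‖ ≤ r k := fun k => by
    rw [Pi.zero_apply, norm_zero]
    exact (hr k).le
  rcases eq_or_lt_of_le (show 0 ≤ ‖h 0‖ * ‖Φ 0‖ ^ a by positivity) with hzero | hpos
  · rw [← hzero, zero_mul]
    positivity
  set S : Set (Fin n → ℂ) := {z | ∀ k, ‖z k‖ ≤ r k} with hS
  have hScomp : IsCompact S := by
    have h1 : S = Set.pi Set.univ fun k => closedBall (0 : ℂ) (r k) := by
      ext z
      simp [hS]
    rw [h1]
    exact isCompact_univ_pi fun k => isCompact_closedBall _ _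
  set W : (Fin n → ℂ) → ℝ := fun z => ‖h z‖ * ‖Φ z‖ ^ a * ∏ k, (r k ^ 2 - ‖z k‖ ^ 2) ^ m with hW
  have hWc : ContinuousOn W S := by
    intro z hz
    have h1 : ContinuousAt (fun z => ‖h z‖) z := (hh z hz).continuousAt.norm
    have h2 : ContinuousAt (fun z => ‖Φ z‖ ^ a) z := ((hΦ z hz).continuousAt.norm).rpow_const (Or.inl (norm_ne_zero_iff.2 (h0 z hz)))
    have h3 : ContinuousAt (fun z : Fin n → ℂ => ∏ k, (r k ^ 2 - ‖z k‖ ^ 2) ^ m) z :=
      (continuous_finsetProd _ fun k _ => by fun_prop).continuousAt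
    exact ((h1.mul h2).mul h3).continuousWithinAt
  obtain ⟨b, hbS, hbmax⟩ := hScomp.exists_isMaxOn ⟨0, hz0⟩ hWc
  have hWb : ‖h 0‖ * ‖Φ 0‖ ^ a * ∏ k, (r k ^ 2) ^ m ≤ W b := by
    have h1 : W 0 ≤ W b := hbmax hz0
    rw [hW] at h1 ⊢
    simpa using h1
  have hWpos : 0 < W b := by
    refine lt_of_lt_of_le (mul_pos hpos ?_) hWb
    exact Finset.prod_pos fun k _ => pow_pos (pow_pos (hr k) 2) m
  have hDnn : ∀ k, 0 ≤ r k ^ 2 - ‖b k‖ ^ 2 := fun k => by
    have h1 := hbS k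
    have h2 := norm_nonneg (b k)
    nlinarith
  have hne : ‖h b‖ * ‖Φ b‖ ^ a ≠ 0 ∧ ∏ k, (r k ^ 2 - ‖b k‖ ^ 2) ^ m ≠ 0 := by
    constructor
    · intro h1
      rw [hW] at hWpos
      simp only [h1, zero_mul, lt_irrefl] at hWpos
    · intro h1
      rw [hW] at hWpos
      simp only [h1, mul_zero, lt_irrefl] at hWpos
  have hhb : h b ≠ 0 := by
    intro h1
    apply hne.1
    rw [h1, norm_zero, zero_mul]
  have hΦb : Φ b ≠ 0 := h0 b hbS
  rcases Nat.eq_zero_or_pos m with hm | hm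
  · subst hm
    have h1 : W 0 ≤ W b := hbmax hz0
    have h2 := hb b hbS
    rw [hW] at h1
    simp only [pow_zero, Finset.prod_const_one, mul_one, zero_mul] at h1 h2 ⊢
    exact h1.trans h2
  have hDpos : ∀ k, 0 < r k ^ 2 - ‖b k‖ ^ 2 := fun k => by
    refine lt_of_le_of_ne (hDnn k) fun h1 => hne.2 ?_
    refine Finset.prod_eq_zero (Finset.mem_univ k) ?_
    rw [← h1, zero_pow hm.ne']
  have hbr : ∀ k, ‖b k‖ < r k := fun k => by
    have h1 := hDpos k
    have h2 := hr k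
    have h3 := norm_nonneg (b k)
    by_contra hcon
    push Not at hcon
    nlinarith
  -- the bound in the direction `k`
  have hdir : ∀ k, fs (Φ b) (fderiv ℂ Φ b (Pi.single k 1)) * (r k ^ 2 - ‖b k‖ ^ 2) ≤ Real.sqrt (2 * m / a) * r k := by
    intro k
    -- the line
    have hline : ∀ t : ℂ, HasDerivAt (fun t => Function.update b k t) (Pi.single k (1 : ℂ)) t := fun t => by
      have := hasDerivAt_update b k t
      exact this
    have hlb : Function.update b k (b k) = b := Function.update_eq_self k b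
    have hla : AnalyticAt ℂ (fun t => Function.update b k t) (b k) := by
      have h1 : Differentiable ℂ fun t => Function.update b k t := fun t => (hline t).differentiableAt
      exact h1.analyticAt (b k)
    have hΦl : AnalyticAt ℂ (fun t => Φ (Function.update b k t)) (b k) :=
      AnalyticAt.comp_of_eq (hΦ b hbS) hla hlb
    have hhl : AnalyticAt ℂ (fun t => h (Function.update b k t)) (b k) :=
      AnalyticAt.comp_of_eq (hh b hbS) hla hlb
    have hder : deriv (fun t => Φ (Function.update b k t)) (b k) = fderiv ℂ Φ b (Pi.single k 1) := by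
      have h1 : HasFDerivAt Φ (fderiv ℂ Φ b) (Function.update b k (b k)) := by
        rw [hlb]
        exact (hΦ b hbS).differentiableAt.hasFDerivAt
      exact (h1.comp_hasDerivAt (b k) (hline (b k))).deriv
    have hkey := ko_direction (Φ := fun t => Φ (Function.update b k t)) (h := fun t => h (Function.update b k t)) (b := b k) hΦl hhl
      (by simpa only [hlb] using hΦb) (by simpa only [hlb] using hhb) ha (m := m) (hr k) (hbr k)
      (A := ∏ j ∈ Finset.univ.erase k, (r j ^ 2 - ‖b j‖ ^ 2) ^ m) (Finset.prod_pos fun j _ => pow_pos (hDpos j) m) ?_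
    · rw [hder] at hkey
      simpa only [hlb] using hkey
    · have hball : ∀ᶠ t in 𝓝 (b k), ‖t‖ < r k := (continuous_norm.tendsto (b k)).eventually (gt_mem_nhds (hbr k))
      have hval : ∀ t : ℂ, ‖h (Function.update b k t)‖ * ‖Φ (Function.update b k t)‖ ^ a *
          ((∏ j ∈ Finset.univ.erase k, (r j ^ 2 - ‖b j‖ ^ 2) ^ m) * (r k ^ 2 - ‖t‖ ^ 2) ^ m) = W (Function.update b k t) := by
        intro t
        rw [hW]
        simp only
        congr 1
        rw [← Finset.prod_erase_mul Finset.univ _ (Finset.mem_univ k), Function.update_self]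
        congr 1
        refine Finset.prod_congr rfl fun j hj => ?_
        rw [Function.update_of_ne (Finset.ne_of_mem_erase hj)]
      filter_upwards [hball] with t ht
      rw [hval, hval]
      simp only [hlb]
      refine hbmax ?_
      intro j
      by_cases hjk : j = k
      · subst hjk
        rw [Function.update_self]
        exact ht.le
      · rw [Function.update_of_ne hjk]
        exact hbS j
  -- conclusion
  have hfin : W b ≤ C * ∏ k, (Real.sqrt (2 * m / a) * r k) ^ m := by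
    calc W b ≤ (C * ∏ k, fs (Φ b) (fderiv ℂ Φ b (Pi.single k 1)) ^ m) * ∏ k, (r k ^ 2 - ‖b k‖ ^ 2) ^ m :=
          mul_le_mul_of_nonneg_right (hb b hbS) (Finset.prod_nonneg fun k _ => pow_nonneg (hDnn k) m)
      _ = C * ∏ k, (fs (Φ b) (fderiv ℂ Φ b (Pi.single k 1)) * (r k ^ 2 - ‖b k‖ ^ 2)) ^ m := by
          rw [mul_assoc, ← Finset.prod_mul_distrib]
          simp only [mul_pow]
      _ ≤ C * ∏ k, (Real.sqrt (2 * m / a) * r k) ^ m := by
          refine mul_le_mul_of_nonneg_left ?_ hC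
          refine Finset.prod_le_prod (fun k _ => ?_) fun k _ => ?_
          · have : 0 ≤ fs (Φ b) (fderiv ℂ Φ b (Pi.single k 1)) := by
              unfold fs Pool.Agent.H36.BP.wd
              positivity
            exact pow_nonneg (mul_nonneg this (hDnn k)) m
          · have : 0 ≤ fs (Φ b) (fderiv ℂ Φ b (Pi.single k 1)) := by
              unfold fs Pool.Agent.H36.BP.wd
              positivity
            exact pow_le_pow_left₀ (mul_nonneg this (hDnn k)) (hdir k) m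
  have hP : 0 < ∏ k, r k ^ m := Finset.prod_pos fun k _ => pow_pos (hr k) m
  have h8 := hWb.trans hfin
  have h9 : ∏ k, (r k ^ 2) ^ m = (∏ k, r k ^ m) * ∏ k, r k ^ m := by
    rw [← Finset.prod_mul_distrib]
    refine Finset.prod_congr rfl fun k _ => ?_
    rw [← mul_pow, pow_two]
  have h10 : ∏ k, (Real.sqrt (2 * m / a) * r k) ^ m = Real.sqrt (2 * m / a) ^ (m * n) * ∏ k, r k ^ m := by
    simp only [mul_pow, Finset.prod_mul_distrib, Finset.prod_const, Finset.card_univ, Fintype.card_fin, ← pow_mul]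
  rw [h9, h10, ← mul_assoc, ← mul_assoc] at h8
  exact le_of_mul_le_mul_right h8 hP

end Pool.Agent.GG
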