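import Pool.Agent.GG.Kd.Pol

/-!
# GG Kod: a smooth projective variety of general type has a section of `K^M (-1)`
-/

set_option autoImplicit false

open MvPolynomial
open Pool.Agent.H17LG.Variety (FunField ratio PoleAtMost IsLogGeneralType)
open Pool.Agent.H23.Fano (Form PrimeDivisorOver)
open Pool.Agent.H62.FC (Homog)
open Pool.Agent.H68.KR (hmz hmz_isHomogeneous)
open Pool.Agent.H13.SM (conTan cone)

noncomputable section

namespace Pool.Agent.GG

variable {N : ℕ} {P : Ideal (MvPolynomial (Fin (N + 1)) ℂ)} [P.IsPrime] {k M : ℕ}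

namespace Kd

omit [P.IsPrime] in
/-- the Euler vector -/
theorem euler_mem (hP : Homog P) {x : Fin (N + 1) → ℂ} (hx : x ∈ cone P) : x ∈ conTan P x := by
  intro Q hQ
  have h1 : ∀ d, dpl x x (homogeneousComponent d Q) = 0 := by
    intro d
    have h2 := (homogeneousComponent_isHomogeneous d Q).sum_X_mul_pderiv
    have h3 := congrArg (eval x) h2
    rw [map_sum, map_nsmul, hx.2 _ (hP Q hQ d), smul_zero] at h3
    rw [← h3]
    unfold dpl
    exact Finset.sum_congr rfl fun j _ => by rw [map_mul, eval_X, mul_comm]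
  have h3 : dpl x x (∑ d ∈ Finset.range (Q.totalDegree + 1), homogeneousComponent d Q) =
      ∑ d ∈ Finset.range (Q.totalDegree + 1), dpl x x (homogeneousComponent d Q) := by
    induction Finset.range (Q.totalDegree + 1) using Finset.induction_on with
    | empty =>
      rw [Finset.sum_empty, Finset.sum_empty]
      unfold dpl
      simp
    | insert c s hc ih => rw [Finset.sum_insert hc, Finset.sum_insert hc, dpl_add, ih]
  rw [MvPolynomial.sum_homogeneousComponent, Finset.sum_eq_zero fun d _ => h1 d] at h3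
  rw [← h3]
  unfold dpl
  exact Finset.sum_congr rfl fun j _ => mul_comm _ _

/-- the section as a `CanSec` -/
def Plc.canSec (p : Plc P (k + 1) M) (hP : Homog P) (hz : ∃ z : Fin (k + 1) → FunField P, IsTranscendenceBasis ℂ z)
    (hsm : ∀ x ∈ cone P, Module.finrank ℂ (conTan P x) ≤ k + 2) : CanSec P (k + 1) M where
  toFun := p.val
  regular := p.regular hP hz hsm
  add_smul := by
    intro x hx v hv c
    have hv' : ∀ l, v l + c l • x ∈ conTan P x := fun l =>
      add_mem (hv l) (Submodule.smul_mem _ _ (euler_mem hP hx))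
    refine p.val_eq hP hz hx (hsm x hx) hv' ?_
    obtain ⟨a, d, W, e, h1, h2, h3, h4, h5⟩ := p.val_spec hP hz hx (hsm x hx) v
    refine ⟨a, d, W, e, h1, h2, h3, h4, ?_⟩
    rw [h5]
    simp only [va_add_smul]
  det := by
    intro x hx v hv B
    have hv' : ∀ l, ∑ j, B l j • v j ∈ conTan P x := fun l => Submodule.sum_mem _ fun j _ => Submodule.smul_mem _ _ (hv j)
    refine p.val_eq hP hz hx (hsm x hx) hv' ?_
    obtain ⟨a, d, W, e, h1, h2, h3, h4, h5⟩ := p.val_spec hP hz hx (hsm x hx) v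
    refine ⟨a, d, W, e, h1, h2, h3, h4, ?_⟩
    rw [h5]
    have h6 : (Matrix.of fun l j => d.tau (va a x (∑ m, B l m • v m)) j) = B * (Matrix.of fun l j => d.tau (va a x (v l)) j) := by
      ext l j
      rw [Matrix.of_apply, tau_va_sum, Matrix.mul_apply]
      rfl
    rw [h6, Matrix.det_mul, mul_pow]
    ring
  scale := by
    intro x hx v hv c hc
    have hcx := cone_smul' hP hx hc
    have hv' : ∀ l, c • v l ∈ conTan P (c • x) := fun l => conTan_scale hP hx (hv l) c
    obtain ⟨a, d, W, e, h1, h2, h3, h4, h5⟩ := p.val_spec hP hz hx (hsm x hx) v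
    have h6 : p.IsVal (c • x) (fun l => c • v l) (c⁻¹ * p.val x v) := by
      refine ⟨a, d, W, e, mul_ne_zero hc h1, ?_, h3, ?_, ?_⟩
      · rwa [wa_scale hc]
      · rwa [wa_scale hc]
      · rw [h5]
        simp only [va_scale _ hc, Pi.smul_apply, smul_eq_mul]
        rw [mul_inv]
        ring
    rw [p.val_eq hP hz hcx (hsm _ hcx) hv' h6, ← mul_assoc, mul_inv_cancel₀ hc, one_mul]

/-- the differentials of the coordinates are independent at a point with `J ≠ 0` -/
theorem Dat.det_ne {K : Type} [Field K] [Algebra ℂ K] {r : ℕ} {y : Fin r → K} (d : Dat y k) {w : Fin r → ℂ} (hw : IsPt y w)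
    (hJ : eval w d.J ≠ 0) {v : Fin k → Fin r → ℂ} (hv : ∀ l, v l ∈ tan y w) (hind : LinearIndependent ℂ v) :
    (Matrix.of fun l j => d.tau (v l) j).det ≠ 0 := by
  intro h
  obtain ⟨u, hu, hu0⟩ := Matrix.exists_vecMul_eq_zero_iff.2 h
  -- the combination of the vectors is killed by the differentials
  have h1 : ∀ j, d.tau (∑ l, u l • v l) j = 0 := by
    intro j
    have h2 := congrFun hu0 j
    rw [Matrix.vecMul, dotProduct] at h2
    simp only [Matrix.of_apply, Pi.zero_apply] at h2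
    rw [← h2]
    unfold Dat.tau
    simp only [Finset.sum_apply, Pi.smul_apply, smul_eq_mul, Finset.mul_sum]
    rw [Finset.sum_comm]
    refine Finset.sum_congr rfl fun l _ => Finset.sum_congr rfl fun i _ => ?_
    ring
  have hmem : ∑ l, u l • v l ∈ tan y w := Submodule.sum_mem _ fun l _ => Submodule.smul_mem _ _ (hv l)
  obtain ⟨b, hb⟩ := Pool.Agent.H23.exists_basis_kaehler d.basis
  have h3 : ∑ l, u l • v l = 0 := by
    funext i
    obtain ⟨e, -, he⟩ := d.chain hw hJ hb (Ev.var y w i)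
    have h4 := he _ hmem _ (Ev.var y (dp w (∑ l, u l • v l)) i)
    rw [dp_snd] at h4
    rw [h4]
    exact Finset.sum_eq_zero fun j _ => by rw [h1 j, mul_zero]
  have h5 := Fintype.linearIndependent_iff.1 hind u h3
  exact hu (funext h5)

theorem va_ind {a : Fin (N + 1)} {x : Fin (N + 1) → ℂ} (ha : x a ≠ 0) {v : Fin k → Fin (N + 1) → ℂ}
    (h : ∀ (c : ℂ) (b : Fin k → ℂ), c • x + ∑ j, b j • v j = 0 → b = 0) : LinearIndependent ℂ fun l => va a x (v l) := by
  rw [Fintype.linearIndependent_iff]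
  intro g hg
  have h1 : (-(∑ l, g l * v l a) / x a) • x + ∑ l, g l • v l = 0 := by
    funext i
    have h2 := congrFun hg i
    simp only [Finset.sum_apply, Pi.smul_apply, smul_eq_mul, va, Pi.zero_apply] at h2
    simp only [Pi.add_apply, Pi.smul_apply, smul_eq_mul, Finset.sum_apply, Pi.zero_apply]
    have h3 : (∑ l, g l * ((v l i * x a - x i * v l a) / x a ^ 2)) * x a ^ 2 = (∑ l, g l * v l i) * x a - x i * ∑ l, g l * v l a := by
      rw [Finset.sum_mul, Finset.sum_mul, Finset.mul_sum, ← Finset.sum_sub_distrib]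
      refine Finset.sum_congr rfl fun l _ => ?_
      field_simp
    rw [h2, zero_mul] at h3
    field_simp
    linear_combination -h3
  exact fun l => congrFun (h _ g h1) l

/-- the section has no zeros off a hypersurface section -/
theorem Plc.nonzeroOff (p : Plc P (k + 1) M) (hP : Homog P) (hz : ∃ z : Fin (k + 1) → FunField P, IsTranscendenceBasis ℂ z)
    (hsm : ∀ x ∈ cone P, Module.finrank ℂ (conTan P x) ≤ k + 2) :
    ∃ (R₀ : MvPolynomial (Fin (N + 1)) ℂ) (e₀ : ℕ), R₀.IsHomogeneous e₀ ∧ R₀ ∉ P ∧ (p.canSec hP hz hsm).NonzeroOff R₀ := by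
  classical
  -- a point of the cone with `x o ≠ 0`
  obtain ⟨x₀, hx₀, hx₀o⟩ : ∃ x₀ ∈ cone P, x₀ p.o ≠ 0 := by
    have h1 : X p.o ∉ P.radical := by
      rw [Ideal.IsPrime.radical inferInstance]
      exact p.ho
    rw [← MvPolynomial.vanishingIdeal_zeroLocus_eq_radical (K := ℂ) P, MvPolynomial.mem_vanishingIdeal_iff] at h1
    push Not at h1
    obtain ⟨x, hx, hne⟩ := h1
    rw [aeval_X] at hne
    refine ⟨x, ⟨fun h => hne (by rw [h]; rfl), fun Q hQ => ?_⟩, hne⟩
    have h2 := hx Q hQ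
    rwa [MvPolynomial.aeval_eq_eval] at h2
  obtain ⟨d, hJ₀⟩ := exists_dat (ya P p.o) hz (adjoin_ya hz p.ho) (finrank_tan hP hz hx₀ hx₀o (hsm x₀ hx₀))
  obtain ⟨W, A₀, hW, hA⟩ := p.exists_rep hz p.ho d
  have hJy : aeval (ya P p.o) d.J ≠ 0 := fun h => hJ₀ (isPt_wa hz hx₀ hx₀o _ h)
  have hWne : W ≠ 0 := by
    rintro rfl
    apply p.ne
    rw [hW]
    exact zero_smul _ _
  have hr : ratio P p.o p.o ≠ 0 := by
    obtain ⟨g, hga, -, -, h3⟩ := exists_gen hz p.ho
    rw [h3, div_self hga]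
    exact one_ne_zero
  have hAy : aeval (ya P p.o) A₀ ≠ 0 := by
    rw [← hA]
    exact mul_ne_zero (pow_ne_zero _ hJy) (mul_ne_zero (mul_ne_zero p.H_ne hr) (pow_ne_zero _ hWne))
  set J' := hmz p.o d.J.totalDegree d.J with hJ'
  set A' := hmz p.o A₀.totalDegree A₀ with hA'
  have hJ'P : J' ∉ P := fun h => hJy ((hmz_mem hz p.ho (le_refl _)).2 h)
  have hA'P : A' ∉ P := fun h => hAy ((hmz_mem hz p.ho (le_refl _)).2 h)
  refine ⟨X p.o * (J' * A'), 1 + (d.J.totalDegree + A₀.totalDegree),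
    (isHomogeneous_X ℂ p.o).mul ((hmz_isHomogeneous _ _ _).mul (hmz_isHomogeneous _ _ _)), ?_, ?_⟩
  · intro h
    rcases Ideal.IsPrime.mem_or_mem ‹P.IsPrime› h with h | h
    · exact p.ho h
    · rcases Ideal.IsPrime.mem_or_mem ‹P.IsPrime› h with h | h
      · exact hJ'P h
      · exact hA'P h
  · intro x hx hR v hv hind
    rw [map_mul, map_mul, eval_X] at hR
    have hxo : x p.o ≠ 0 := fun h => hR (by rw [h, zero_mul])
    have hJx : eval x J' ≠ 0 := fun h => hR (by rw [h, zero_mul, mul_zero])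
    have hAx : eval x A' ≠ 0 := fun h => hR (by rw [h, mul_zero, mul_zero])
    rw [hJ', eval_hmz' _ hxo] at hJx
    rw [hA', eval_hmz' _ hxo] at hAx
    have hJw : eval (wa p.o x) d.J ≠ 0 := fun h => hJx (by rw [h, mul_zero])
    have hAw : eval (wa p.o x) A₀ ≠ 0 := fun h => hAx (by rw [h, mul_zero])
    have h1 : p.val x v = _ := p.val_eq hP hz hx (hsm x hx) hv (p.isVal_of_rep hz d hW hA hx hxo hJw v)
    show p.val x v ≠ 0
    rw [h1]
    exact mul_ne_zero (inv_ne_zero hxo) (mul_ne_zero (mul_ne_zero hAw (inv_ne_zero (pow_ne_zero _ hJw)))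
      (pow_ne_zero _ (d.det_ne (isPt_wa hz hx hxo) hJw (fun l => va_mem hz hx hxo (hv l)) (va_ind hxo hind))))

end Kd

/-- **A smooth projective variety of general type has a section of `K^M (-1)`.** -/
theorem exists_canSec (hP : Homog P) {n : ℕ} (hdim : ∃ z : Fin (n + 1) → FunField P, IsTranscendenceBasis ℂ z)
    (hsm : ∀ x : Fin (N + 1) → ℂ, x ≠ 0 → (∀ Q ∈ P, eval x Q = 0) → Module.finrank ℂ (conTan P x) ≤ n + 2)
    (hgt : IsLogGeneralType (K := FunField P) (k := n + 1) fun _ => False) :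
    ∃ (M : ℕ) (Ω : CanSec P (n + 1) M) (R₀ : MvPolynomial (Fin (N + 1)) ℂ) (e₀ : ℕ), 1 ≤ M ∧ R₀.IsHomogeneous e₀ ∧ R₀ ∉ P ∧ Ω.NonzeroOff R₀ := by
  obtain ⟨z, hz⟩ := id hdim
  obtain ⟨ω, hω, M, H, o, hM, hH, ho, hpole⟩ := Pool.Agent.H68.KR.kodaira (P := P) z hz hgt
  let p : Kd.Plc P (n + 1) M := ⟨ω, hω, H, hH, o, ho, hpole⟩
  have hsm' : ∀ x ∈ cone P, Module.finrank ℂ (conTan P x) ≤ n + 2 := fun x hx => hsm x hx.1 hx.2
  obtain ⟨R₀, e₀, h1, h2, h3⟩ := p.nonzeroOff hP hdim hsm'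
  exact ⟨M, p.canSec hP hdim hsm', R₀, e₀, hM, h1, h2, h3⟩

end Pool.Agent.GG
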