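import Pool.Agent.G3.C.Ode
import Pool.Agent.TN.Osg

/-!
# GG Ode: the local flow of a holomorphic vector field is holomorphic in the time and in the initial value; uniqueness
-/

set_option autoImplicit false

open Topology Filter Metric

namespace Pool.Agent.GG

variable {n : ℕ}

/-- a bound which improves itself -/
private theorem ode_self {T E : Type*} [NormedAddCommGroup E] {S : Set T} {u : T → E} {a B₀ : ℝ} (h0 : ∀ z ∈ S, ‖u z‖ ≤ B₀)
    (h : ∀ B : ℝ, (∀ z ∈ S, ‖u z‖ ≤ B) → ∀ z ∈ S, ‖u z‖ ≤ a + B / 2) : ∀ z ∈ S, ‖u z‖ ≤ 2 * a := by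
  intro z hz
  have h1 : ∀ k : ℕ, ∀ z ∈ S, ‖u z‖ ≤ 2 * a + (B₀ - 2 * a) * (1 / 2) ^ k := by
    intro k
    induction k with
    | zero =>
      intro z hz
      have := h0 z hz
      simp only [pow_zero]
      linarith
    | succ k ih =>
      intro z hz
      refine (h _ ih z hz).trans (le_of_eq ?_)
      rw [pow_succ]
      ring
  have h2 : Tendsto (fun k : ℕ => 2 * a + (B₀ - 2 * a) * (1 / 2 : ℝ) ^ k) atTop (𝓝 (2 * a + (B₀ - 2 * a) * 0)) :=
    tendsto_const_nhds.add ((tendsto_pow_atTop_nhds_zero_of_lt_one (by norm_num) (by norm_num)).const_mul _)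
  rw [mul_zero, add_zero] at h2
  exact ge_of_tendsto' h2 fun k => h1 k z hz

/-- mean value inequality on a disc -/
private theorem ode_mv {a : ℂ} {ρ C : ℝ} {f f' : ℂ → Fin n → ℂ} (hf : ∀ z ∈ ball a ρ, HasDerivAt f (f' z) z) (hC : ∀ z ∈ ball a ρ, ‖f' z‖ ≤ C)
    {z : ℂ} (hz : z ∈ ball a ρ) : ‖f z - f a‖ ≤ C * ρ := by
  have ha : a ∈ ball a ρ := mem_ball_self ((dist_nonneg (x := z) (y := a)).trans_lt hz)
  have hC0 : 0 ≤ C := (norm_nonneg _).trans (hC a ha)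
  have h := (convex_ball a ρ).norm_image_sub_le_of_norm_hasDerivWithin_le (f := f) (f' := f') (fun x hx => (hf x hx).hasDerivWithinAt) hC ha hz
  refine h.trans (mul_le_mul_of_nonneg_left ?_ hC0)
  rw [← dist_eq_norm]
  exact (mem_ball.1 hz).le

/-- a good ball: the field and its derivative are bounded, the derivative is Lipschitz -/
private theorem ode_ball {V : (Fin n → ℂ) → (Fin n → ℂ)} {x₀ : Fin n → ℂ} (hV : AnalyticAt ℂ V x₀) {ρ : ℝ} (hρ : 0 < ρ) :
    ∃ R : ℝ, 0 < R ∧ R ≤ ρ ∧ ∃ K : ℝ, 0 < K ∧ (∀ x ∈ ball x₀ R, AnalyticAt ℂ V x) ∧ (∀ x ∈ ball x₀ R, ‖V x‖ ≤ K) ∧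
      (∀ x ∈ ball x₀ R, ‖fderiv ℂ V x‖ ≤ K) ∧ ∀ x ∈ ball x₀ R, ∀ y ∈ ball x₀ R, ‖fderiv ℂ V x - fderiv ℂ V y‖ ≤ K * ‖x - y‖ := by
  have h1 : ∀ᶠ x in 𝓝 x₀, AnalyticAt ℂ V x := hV.eventually_analyticAt
  have h2 : ∀ᶠ x in 𝓝 x₀, ‖V x‖ < ‖V x₀‖ + 1 := hV.continuousAt.norm.eventually_lt_const (lt_add_one _)
  have h3 : ∀ᶠ x in 𝓝 x₀, ‖fderiv ℂ V x‖ < ‖fderiv ℂ V x₀‖ + 1 := hV.fderiv.continuousAt.norm.eventually_lt_const (lt_add_one _)
  have h4 : ∀ᶠ x in 𝓝 x₀, ‖fderiv ℂ (fderiv ℂ V) x‖ < ‖fderiv ℂ (fderiv ℂ V) x₀‖ + 1 :=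
    hV.fderiv.fderiv.continuousAt.norm.eventually_lt_const (lt_add_one _)
  obtain ⟨R, hR, hB⟩ := Metric.eventually_nhds_iff_ball.1 (h1.and (h2.and (h3.and h4)))
  refine ⟨min R ρ, lt_min hR hρ, min_le_right _ _,
    max (‖V x₀‖ + 1) (max (‖fderiv ℂ V x₀‖ + 1) (‖fderiv ℂ (fderiv ℂ V) x₀‖ + 1)), ?_, ?_, ?_, ?_, ?_⟩
  · exact lt_max_of_lt_left (by positivity)
  · exact fun x hx => (hB x (ball_subset_ball (min_le_left _ _) hx)).1
  · exact fun x hx => (hB x (ball_subset_ball (min_le_left _ _) hx)).2.1.le.trans (le_max_left _ _)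
  · exact fun x hx => (hB x (ball_subset_ball (min_le_left _ _) hx)).2.2.1.le.trans ((le_max_left _ _).trans (le_max_right _ _))
  · intro x hx y hy
    refine (convex_ball x₀ (min R ρ)).norm_image_sub_le_of_norm_fderiv_le (𝕜 := ℂ) (f := fderiv ℂ V) ?_ ?_ hy hx
    · exact fun z hz => (hB z (ball_subset_ball (min_le_left _ _) hz)).1.fderiv.differentiableAt
    · exact fun z hz => (hB z (ball_subset_ball (min_le_left _ _) hz)).2.2.2.le.trans ((le_max_right _ _).trans (le_max_right _ _))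

/-- the quadratic remainder -/
private theorem ode_quad {V : (Fin n → ℂ) → (Fin n → ℂ)} {x₀ : Fin n → ℂ} {R K : ℝ} (hK : 0 < K) (h1 : ∀ x ∈ ball x₀ R, AnalyticAt ℂ V x)
    (h4 : ∀ x ∈ ball x₀ R, ∀ y ∈ ball x₀ R, ‖fderiv ℂ V x - fderiv ℂ V y‖ ≤ K * ‖x - y‖) {x y : Fin n → ℂ} (hx : x ∈ ball x₀ R)
    (hy : y ∈ ball x₀ R) : ‖V y - V x - fderiv ℂ V x (y - x)‖ ≤ K * ‖y - x‖ ^ 2 := by
  have hs : Convex ℝ (ball x₀ R ∩ closedBall x ‖y - x‖) := (convex_ball _ _).inter (convex_closedBall _ _)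
  have h := hs.norm_image_sub_le_of_norm_fderiv_le' (𝕜 := ℂ) (f := V) (φ := fderiv ℂ V x) (C := K * ‖y - x‖) (x := x) (y := y)
    (fun z hz => (h1 z hz.1).differentiableAt) ?_ ⟨hx, mem_closedBall_self (norm_nonneg _)⟩ ⟨hy, by rw [mem_closedBall, dist_eq_norm]⟩
  · refine h.trans (le_of_eq ?_)
    ring
  · intro z hz
    refine (h4 z hz.1 x hx).trans (mul_le_mul_of_nonneg_left ?_ hK.le)
    rw [← dist_eq_norm]
    exact mem_closedBall.1 hz.2

/-- **The local flow.** -/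
theorem exists_flow {V : (Fin n → ℂ) → (Fin n → ℂ)} {x₀ : Fin n → ℂ} (hV : AnalyticAt ℂ V x₀) {ρ : ℝ} (hρ : 0 < ρ) :
    ∃ r : ℝ, 0 < r ∧ ∃ H : ℂ × (Fin n → ℂ) → (Fin n → ℂ), (∀ z ∈ ball (0 : ℂ) r, ∀ x ∈ ball x₀ r, AnalyticAt ℂ H (z, x)) ∧
      (∀ x ∈ ball x₀ r, H (0, x) = x) ∧
      ∀ z ∈ ball (0 : ℂ) r, ∀ x ∈ ball x₀ r, H (z, x) ∈ ball x₀ ρ ∧ HasDerivAt (fun t => H (t, x)) (V (H (z, x))) z := by
  classical
  obtain ⟨R, hR, hRρ, K, hK, hVa, hVb, hVd, hVl⟩ := ode_ball hV hρ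
  -- the solutions
  obtain ⟨ε₁, hε₁, hε₁R, hsol⟩ := Pool.Agent.G3.C.ode_hol (n := n) (half_pos hR) hK
  have hY : ∀ x ∈ ball x₀ (R / 2), ∃ Y : ℂ → Fin n → ℂ, Y 0 = x ∧ ∀ s ∈ ball (0 : ℂ) ε₁, Y s ∈ ball x₀ R ∧ HasDerivAt Y (V (Y s)) s := by
    intro x hx
    have hsub : ∀ q ∈ ball ((0 : ℂ), x) (R / 2), q.2 ∈ ball x₀ R := by
      intro q hq
      rw [← ball_prod_same] at hq
      have h1 : dist q.2 x < R / 2 := hq.2
      have h2 : dist x x₀ < R / 2 := hx
      exact (dist_triangle q.2 x x₀).trans_lt (by linarith)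
    obtain ⟨Y, hY0, hY⟩ := hsol (fun q => V q.2) 0 x
      (fun q hq => ((hVa q.2 (hsub q hq)).differentiableAt.comp q differentiableAt_snd).differentiableWithinAt) (fun q hq => hVb q.2 (hsub q hq))
    refine ⟨Y, hY0, fun s hs => ⟨?_, (hY s hs).2⟩⟩
    have h1 : dist (Y s) x < R / 2 / 2 := (hY s hs).1
    have h2 : dist x x₀ < R / 2 := hx
    exact (dist_triangle (Y s) x x₀).trans_lt (by linarith)
  choose! Y hY0 hY using hY
  -- the linear equation
  obtain ⟨ε₂, hε₂, hε₂R, hlin⟩ := Pool.Agent.G3.C.ode_hol (n := n) (R := min ε₁ 1) (M := 2 * K) (lt_min hε₁ one_pos) (by positivity)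
  obtain ⟨r, hr⟩ : ∃ r : ℝ, r = min (min ε₂ (R / 2)) (1 / (2 * K)) := ⟨_, rfl⟩
  have hr0 : 0 < r := by rw [hr]; exact lt_min (lt_min hε₂ (half_pos hR)) (by positivity)
  have hr1 : r ≤ ε₂ := by rw [hr]; exact (min_le_left _ _).trans (min_le_left _ _)
  have hr2 : r ≤ R / 2 := by rw [hr]; exact (min_le_left _ _).trans (min_le_right _ _)
  have hr3 : K * r ≤ 1 / 2 := by
    have : r ≤ 1 / (2 * K) := by rw [hr]; exact min_le_right _ _
    calc K * r ≤ K * (1 / (2 * K)) := mul_le_mul_of_nonneg_left this hK.le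
      _ = 1 / 2 := by field_simp
  have hr4 : r ≤ ε₁ := hr1.trans (hε₂R.trans (min_le_left _ _))
  have hxR : ∀ x ∈ ball x₀ r, x ∈ ball x₀ (R / 2) := fun x hx => ball_subset_ball hr2 hx
  have hzε : ∀ z ∈ ball (0 : ℂ) r, z ∈ ball (0 : ℂ) ε₁ := fun z hz => ball_subset_ball hr4 hz
  refine ⟨r, hr0, fun q => Y q.2 q.1, ?_, fun x hx => hY0 x (hxR x hx), fun z hz x hx =>
    ⟨ball_subset_ball hRρ (hY x (hxR x hx) z (hzε z hz)).1, (hY x (hxR x hx) z (hzε z hz)).2⟩⟩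
  -- Lipschitz dependence
  have hlip : ∀ x ∈ ball x₀ r, ∀ y ∈ ball x₀ r, ∀ z ∈ ball (0 : ℂ) r, ‖Y y z - Y x z‖ ≤ 2 * ‖y - x‖ := by
    intro x hx y hy
    refine ode_self (S := ball (0 : ℂ) r) (u := fun z => Y y z - Y x z) (B₀ := 2 * R) ?_ ?_
    · intro z hz
      have h1 := (hY x (hxR x hx) z (hzε z hz)).1
      have h2 := (hY y (hxR y hy) z (hzε z hz)).1
      rw [← dist_eq_norm]
      calc dist (Y y z) (Y x z) ≤ dist (Y y z) x₀ + dist (Y x z) x₀ := dist_triangle_right _ _ _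
        _ ≤ 2 * R := by linarith [mem_ball.1 h1, mem_ball.1 h2]
    · intro B hB z hz
      have hd : ∀ w ∈ ball (0 : ℂ) r, HasDerivAt (fun w => Y y w - Y x w) (V (Y y w) - V (Y x w)) w := fun w hw =>
        (hY y (hxR y hy) w (hzε w hw)).2.sub (hY x (hxR x hx) w (hzε w hw)).2
      have hb : ∀ w ∈ ball (0 : ℂ) r, ‖V (Y y w) - V (Y x w)‖ ≤ K * B := by
        intro w hw
        have h1 := (hY x (hxR x hx) w (hzε w hw)).1
        have h2 := (hY y (hxR y hy) w (hzε w hw)).1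
        refine ((convex_ball x₀ R).norm_image_sub_le_of_norm_fderiv_le (𝕜 := ℂ) (f := V) (fun z hz => (hVa z hz).differentiableAt) hVd h1 h2).trans ?_
        exact mul_le_mul_of_nonneg_left (hB w hw) hK.le
      have h3 := ode_mv hd hb hz
      rw [hY0 x (hxR x hx), hY0 y (hxR y hy)] at h3
      have hB0 : 0 ≤ B := (norm_nonneg _).trans (hB z hz)
      calc ‖Y y z - Y x z‖ ≤ ‖(Y y z - Y x z) - (y - x)‖ + ‖y - x‖ := by
            have := norm_add_le ((Y y z - Y x z) - (y - x)) (y - x)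
            rwa [sub_add_cancel] at this
        _ ≤ K * B * r + ‖y - x‖ := add_le_add h3 le_rfl
        _ = (K * r) * B + ‖y - x‖ := by ring
        _ ≤ 1 / 2 * B + ‖y - x‖ := add_le_add (mul_le_mul_of_nonneg_right hr3 hB0) le_rfl
        _ = ‖y - x‖ + B / 2 := by ring
  -- the derivative with respect to the initial value
  have hder : ∀ x ∈ ball x₀ r, ∀ e : Fin n → ℂ, ‖e‖ ≤ 1 → ∀ z ∈ ball (0 : ℂ) r, DifferentiableAt ℂ (fun t : ℂ => Y (x + t • e) z) 0 := by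
    intro x hx e he z hz
    have hdA : DifferentiableOn ℂ (fun q : ℂ × (Fin n → ℂ) => fderiv ℂ V (Y x q.1) q.2) (ball (((0 : ℂ), e) : ℂ × (Fin n → ℂ)) (min ε₁ 1)) := by
      intro q hq
      have hq1 : q.1 ∈ ball (0 : ℂ) ε₁ := by
        rw [← ball_prod_same] at hq
        exact ball_subset_ball (min_le_left _ _) hq.1
      have h1 := hY x (hxR x hx) q.1 hq1
      have h2 : DifferentiableAt ℂ (fun q : ℂ × (Fin n → ℂ) => fderiv ℂ V (Y x q.1)) q :=
        ((hVa _ h1.1).fderiv.differentiableAt).comp q (h1.2.differentiableAt.comp q differentiableAt_fst)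
      exact (h2.clm_apply differentiableAt_snd).differentiableWithinAt
    have hdB : ∀ q ∈ ball (((0 : ℂ), e) : ℂ × (Fin n → ℂ)) (min ε₁ 1), ‖fderiv ℂ V (Y x q.1) q.2‖ ≤ 2 * K := by
      intro q hq
      have hq1 : q.1 ∈ ball (0 : ℂ) ε₁ := by
        rw [← ball_prod_same] at hq
        exact ball_subset_ball (min_le_left _ _) hq.1
      have hq2 : dist q.2 e < 1 := by
        rw [← ball_prod_same] at hq
        exact (mem_ball.1 hq.2).trans_le (min_le_right _ _)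
      have h1 := hY x (hxR x hx) q.1 hq1
      refine ((fderiv ℂ V (Y x q.1)).le_opNorm _).trans ?_
      have h2 : ‖q.2‖ ≤ 2 := by
        calc ‖q.2‖ ≤ ‖q.2 - e‖ + ‖e‖ := by
              have := norm_add_le (q.2 - e) e
              rwa [sub_add_cancel] at this
          _ ≤ 2 := by
              rw [← dist_eq_norm]
              linarith
      calc ‖fderiv ℂ V (Y x q.1)‖ * ‖q.2‖ ≤ K * 2 := mul_le_mul (hVd _ h1.1) h2 (norm_nonneg _) hK.le
        _ = 2 * K := mul_comm _ _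
    obtain ⟨W, hW0, hW⟩ := hlin (fun q => fderiv ℂ V (Y x q.1) q.2) 0 e hdA hdB
    -- the remainder
    have hev : ∀ᶠ t : ℂ in 𝓝 0, x + t • e ∈ ball x₀ r := by
      have hc : ContinuousAt (fun t : ℂ => x + t • e) 0 := by fun_prop
      refine hc.eventually_mem ?_
      rw [zero_smul, add_zero]
      exact isOpen_ball.mem_nhds hx
    have hWb : ∀ w ∈ ball (0 : ℂ) r, ‖W w‖ ≤ 2 := by
      intro w hw
      have h1 : dist (W w) e < min ε₁ 1 / 2 := (hW w (ball_subset_ball hr1 hw)).1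
      have h2 : min ε₁ 1 ≤ 1 := min_le_right _ _
      calc ‖W w‖ ≤ ‖W w - e‖ + ‖e‖ := by
            have := norm_add_le (W w - e) e
            rwa [sub_add_cancel] at this
        _ ≤ 2 := by
            rw [← dist_eq_norm]
            linarith
    have hrem : ∀ t : ℂ, x + t • e ∈ ball x₀ r → ∀ w ∈ ball (0 : ℂ) r, ‖Y (x + t • e) w - Y x w - t • W w‖ ≤ 2 * (K * (2 * ‖t‖) ^ 2 * r) := by
      intro t ht
      have hl : ∀ w ∈ ball (0 : ℂ) r, ‖Y (x + t • e) w - Y x w‖ ≤ 2 * ‖t‖ := by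
        intro w hw
        refine (hlip x hx _ ht w hw).trans ?_
        rw [add_sub_cancel_left, norm_smul]
        nlinarith [norm_nonneg t, norm_nonneg e]
      refine ode_self (S := ball (0 : ℂ) r) (u := fun w => Y (x + t • e) w - Y x w - t • W w) (B₀ := 2 * ‖t‖ + ‖t‖ * 2) ?_ ?_
      · intro w hw
        refine (norm_sub_le _ _).trans (add_le_add (hl w hw) ?_)
        rw [norm_smul]
        exact mul_le_mul_of_nonneg_left (hWb w hw) (norm_nonneg _)
      · intro B hB w hw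
        have hd : ∀ w ∈ ball (0 : ℂ) r, HasDerivAt (fun w => Y (x + t • e) w - Y x w - t • W w)
            (V (Y (x + t • e) w) - V (Y x w) - t • fderiv ℂ V (Y x w) (W w)) w := fun w hw =>
          ((hY _ (hxR _ ht) w (hzε w hw)).2.sub (hY x (hxR x hx) w (hzε w hw)).2).sub ((hW w (ball_subset_ball hr1 hw)).2.const_smul t)
        have hb : ∀ w ∈ ball (0 : ℂ) r, ‖V (Y (x + t • e) w) - V (Y x w) - t • fderiv ℂ V (Y x w) (W w)‖ ≤ K * (2 * ‖t‖) ^ 2 + K * B := by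
          intro w hw
          have h1 := (hY x (hxR x hx) w (hzε w hw)).1
          have h2 := (hY _ (hxR _ ht) w (hzε w hw)).1
          have h3 : V (Y (x + t • e) w) - V (Y x w) - t • fderiv ℂ V (Y x w) (W w) =
              (V (Y (x + t • e) w) - V (Y x w) - fderiv ℂ V (Y x w) (Y (x + t • e) w - Y x w)) +
                fderiv ℂ V (Y x w) (Y (x + t • e) w - Y x w - t • W w) := by
            rw [map_sub (fderiv ℂ V (Y x w)) (Y (x + t • e) w - Y x w) (t • W w), map_smul]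
            abel
          rw [h3]
          refine (norm_add_le _ _).trans (add_le_add ?_ ?_)
          · refine (ode_quad hK hVa hVl h1 h2).trans (mul_le_mul_of_nonneg_left ?_ hK.le)
            exact pow_le_pow_left₀ (norm_nonneg _) (hl w hw) 2
          · refine ((fderiv ℂ V (Y x w)).le_opNorm _).trans ?_
            exact mul_le_mul (hVd _ h1) (hB w hw) (norm_nonneg _) hK.le
        have h3 := ode_mv hd hb hw
        have h4 : Y (x + t • e) 0 - Y x 0 - t • W 0 = 0 := by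
          rw [hY0 x (hxR x hx), hY0 _ (hxR _ ht), hW0]
          abel
        rw [h4, sub_zero] at h3
        have hB0 : 0 ≤ B := (norm_nonneg _).trans (hB w hw)
        refine h3.trans ?_
        calc (K * (2 * ‖t‖) ^ 2 + K * B) * r = K * (2 * ‖t‖) ^ 2 * r + (K * r) * B := by ring
          _ ≤ K * (2 * ‖t‖) ^ 2 * r + 1 / 2 * B := add_le_add le_rfl (mul_le_mul_of_nonneg_right hr3 hB0)
          _ = K * (2 * ‖t‖) ^ 2 * r + B / 2 := by ring
    have hD : HasDerivAt (fun t : ℂ => Y (x + t • e) z) (W z) 0 := by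
      rw [hasDerivAt_iff_isLittleO]
      have hO : (fun t : ℂ => Y (x + t • e) z - Y (x + (0 : ℂ) • e) z - (t - 0) • W z) =O[𝓝 0] fun t : ℂ => (t - 0) ^ 2 := by
        refine Asymptotics.IsBigO.of_bound (2 * (K * 4 * r)) ?_
        filter_upwards [hev] with t ht
        rw [zero_smul, add_zero, sub_zero]
        refine (hrem t ht z hz).trans (le_of_eq ?_)
        rw [norm_pow]
        ring
      refine hO.trans_isLittleO ?_
      have h5 : (fun t : ℂ => (t - 0) ^ 2) = fun t : ℂ => (t - 0) * (t - 0) := by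
        funext t
        ring
      rw [h5]
      have h6 : (fun t : ℂ => t - 0) =o[𝓝 0] fun _ : ℂ => (1 : ℂ) := by
        rw [Asymptotics.isLittleO_one_iff]
        have : Tendsto (fun t : ℂ => t - 0) (𝓝 0) (𝓝 (0 - 0)) := (continuous_id.sub continuous_const).tendsto 0
        rwa [sub_zero] at this
      have h7 := h6.mul_isBigO (Asymptotics.isBigO_refl (fun t : ℂ => t - 0) (𝓝 0))
      simpa using h7
    exact hD.differentiableAt
  -- analyticity
  intro z hz x hx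
  obtain ⟨δ, hδ, hδz, hδx⟩ : ∃ δ : ℝ, 0 < δ ∧ ball z δ ⊆ ball (0 : ℂ) r ∧ ball x δ ⊆ ball x₀ r := by
    obtain ⟨δ₁, h1, h2⟩ := Metric.isOpen_iff.1 (isOpen_ball (x := (0 : ℂ)) (ε := r)) z hz
    obtain ⟨δ₂, h3, h4⟩ := Metric.isOpen_iff.1 (isOpen_ball (x := x₀) (ε := r)) x hx
    exact ⟨min δ₁ δ₂, lt_min h1 h3, (ball_subset_ball (min_le_left _ _)).trans h2, (ball_subset_ball (min_le_right _ _)).trans h4⟩
  refine Pool.Agent.TN.osgood_prod (f := fun q : ℂ × (Fin n → ℂ) => Y q.2 q.1) (w := (z, x)) (r := δ) (M := ‖x₀‖ + R) hδ ?_ ?_ ?_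
  · intro y hy
    rw [← ball_prod_same] at hy
    have h1 := (hY y.2 (hxR _ (hδx hy.2)) y.1 (hzε _ (hδz hy.1))).1
    calc ‖Y y.2 y.1‖ ≤ ‖Y y.2 y.1 - x₀‖ + ‖x₀‖ := by
          have := norm_add_le (Y y.2 y.1 - x₀) x₀
          rwa [sub_add_cancel] at this
      _ ≤ ‖x₀‖ + R := by
          rw [← dist_eq_norm]
          linarith [mem_ball.1 h1]
  · intro y hy
    rw [← ball_prod_same] at hy
    have h1 := (hY y.2 (hxR _ (hδx hy.2)) y.1 (hzε _ (hδz hy.1))).2.differentiableAt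
    have h2 : DifferentiableAt ℂ (fun t : ℂ => y.1 + t) 0 := by fun_prop
    have h3 : DifferentiableAt ℂ (Y y.2) (y.1 + 0) := by rwa [add_zero]
    exact h3.comp (0 : ℂ) h2
  · intro y hy l
    rw [← ball_prod_same] at hy
    exact hder y.2 (hδx hy.2) (Pi.single l 1) (by rw [Pi.norm_single, norm_one]) y.1 (hδz hy.1)

/-- local uniqueness -/
theorem flow_unique_nhds {V : (Fin n → ℂ) → (Fin n → ℂ)} {f g : ℂ → Fin n → ℂ} {a : ℂ} (hV : AnalyticAt ℂ V (f a)) (h0 : f a = g a)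
    (hf : ∀ᶠ z in 𝓝 a, HasDerivAt f (V (f z)) z) (hg : ∀ᶠ z in 𝓝 a, HasDerivAt g (V (g z)) z) : f =ᶠ[𝓝 a] g := by
  obtain ⟨R, hR, -, K, hK, hVa, -, hVd, -⟩ := ode_ball hV one_pos
  have hfc : ContinuousAt f a := hf.self_of_nhds.continuousAt
  have hgc : ContinuousAt g a := hg.self_of_nhds.continuousAt
  have h1 : ∀ᶠ z in 𝓝 a, f z ∈ ball (f a) R := hfc.eventually_mem (ball_mem_nhds _ hR)
  have h2 : ∀ᶠ z in 𝓝 a, g z ∈ ball (f a) R := hgc.eventually_mem (by rw [← h0]; exact ball_mem_nhds _ hR)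
  obtain ⟨δ, hδ, hB⟩ := Metric.eventually_nhds_iff_ball.1 (hf.and (hg.and (h1.and h2)))
  obtain ⟨r, hr⟩ : ∃ r : ℝ, r = min δ (1 / (2 * K)) := ⟨_, rfl⟩
  have hr0 : 0 < r := by rw [hr]; exact lt_min hδ (by positivity)
  have hrδ : r ≤ δ := by rw [hr]; exact min_le_left _ _
  have hr3 : K * r ≤ 1 / 2 := by
    have : r ≤ 1 / (2 * K) := by rw [hr]; exact min_le_right _ _
    calc K * r ≤ K * (1 / (2 * K)) := mul_le_mul_of_nonneg_left this hK.le
      _ = 1 / 2 := by field_simp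
  have hB' : ∀ z ∈ ball a r, _ := fun z hz => hB z (ball_subset_ball hrδ hz)
  have hu : ∀ z ∈ ball a r, ‖f z - g z‖ ≤ 2 * 0 := by
    refine ode_self (S := ball a r) (u := fun z => f z - g z) (B₀ := 2 * R) ?_ ?_
    · intro z hz
      have h3 := (hB' z hz).2.2
      rw [← dist_eq_norm]
      calc dist (f z) (g z) ≤ dist (f z) (f a) + dist (g z) (f a) := dist_triangle_right _ _ _
        _ ≤ 2 * R := by linarith [mem_ball.1 h3.1, mem_ball.1 h3.2]
    · intro B hBB z hz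
      have hd : ∀ w ∈ ball a r, HasDerivAt (fun w => f w - g w) (V (f w) - V (g w)) w := fun w hw => (hB' w hw).1.sub (hB' w hw).2.1
      have hb : ∀ w ∈ ball a r, ‖V (f w) - V (g w)‖ ≤ K * B := by
        intro w hw
        have h3 := (hB' w hw).2.2
        refine ((convex_ball (f a) R).norm_image_sub_le_of_norm_fderiv_le (𝕜 := ℂ) (f := V) (fun z hz => (hVa z hz).differentiableAt) hVd h3.2 h3.1).trans ?_
        exact mul_le_mul_of_nonneg_left (hBB w hw) hK.le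
      have h3 := ode_mv hd hb hz
      have h4 : f a - g a = 0 := by rw [h0, sub_self]
      rw [h4, sub_zero] at h3
      have hB0 : 0 ≤ B := (norm_nonneg _).trans (hBB z hz)
      calc ‖f z - g z‖ ≤ K * B * r := h3
        _ = (K * r) * B := by ring
        _ ≤ 1 / 2 * B := mul_le_mul_of_nonneg_right hr3 hB0
        _ = 0 + B / 2 := by ring
  filter_upwards [ball_mem_nhds a hr0] with z hz
  have h5 := hu z hz
  rw [mul_zero] at h5
  exact sub_eq_zero.1 (norm_le_zero_iff.1 h5)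

/-- **Uniqueness** on a connected open set. -/
theorem flow_unique {V : (Fin n → ℂ) → (Fin n → ℂ)} {f g : ℂ → Fin n → ℂ} {U : Set ℂ} (hU : IsOpen U) (hc : IsPreconnected U) {a : ℂ} (ha : a ∈ U)
    (hV : AnalyticAt ℂ V (f a)) (h0 : f a = g a) (hf : ∀ z ∈ U, HasDerivAt f (V (f z)) z) (hg : ∀ z ∈ U, HasDerivAt g (V (g z)) z) :
    ∀ z ∈ U, f z = g z := by
  have h1 : f =ᶠ[𝓝 a] g := flow_unique_nhds hV h0 ((hU.eventually_mem ha).mono hf) ((hU.eventually_mem ha).mono hg)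
  have hf' : AnalyticOnNhd ℂ f U := DifferentiableOn.analyticOnNhd (fun z hz => (hf z hz).differentiableAt.differentiableWithinAt) hU
  have hg' : AnalyticOnNhd ℂ g U := DifferentiableOn.analyticOnNhd (fun z hz => (hg z hz).differentiableAt.differentiableWithinAt) hU
  exact fun z hz => hf'.eqOn_of_preconnected_of_eventuallyEq hg' hc ha h1 hz

end Pool.Agent.GG
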